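import Pool.Agent.QS.Hg

/-!
# QS module AFF: the dichotomy for the polynomial `f` on `ℝ^n`

`SQ f` is the set of the rational points at which `f` is a nonzero rational square.

PROOFS. `mem_closure_SQ`, `⇒`: `x ↦ hx 1 x` is continuous and maps `SQ f` into `S` (`isRat_hx`; `aeval (rv q) f = eval q f`,
`aeval_rv` in MZ/RatAlg). `⇐`: `hx 1 x ∈ closure S`; the map `w ↦ (fun i => w i.succ / w 0)` is continuous at `hx 1 x`, its
value there is `x`, and it maps the points `w ∈ S` with `w 0 ≠ 0` into `SQ f`: `F (hx 1 (w' / w 0)) = F ((w 0)⁻¹ • w) = F w / w 0 ^ 4`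
is a nonzero rational square (`S_smul`).
`opn_affine`: `hx 1 x ∈ Z`, so `Z ∈ 𝓝 (hx 1 x)`; its preimage under the continuous map `hx 1` is `closure (SQ f)`.
`pieces_affine`: `A i` is the affine subspace with carrier `{q | hx 1 (rv q) ∈ span ℝ (Y i)}`; `q` satisfies
`∃ r ≠ 0, r² = f(q)` iff `hx 1 (rv q) ∈ S`.
-/

set_option autoImplicit false

open Set Topology Filter MvPolynomial
open Pool.Agent.MZ

namespace Pool.Agent.QS

variable {n : ℕ}

/-- the rational points at which `f` is a nonzero rational square -/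
def SQ (f : MvPolynomial (Fin n) ℚ) : Set (V n) :=
  {x | ∃ (r : ℚ) (q : Fin n → ℚ), r ≠ 0 ∧ r ^ 2 = eval q f ∧ x = rv q}

namespace Qrt

variable {C : Qrt (n + 1)} {f : MvPolynomial (Fin n) ℚ}

private theorem rv_inj {q q' : Fin n → ℚ} (h : rv q = rv q') : q = q' := by
  funext i
  have h1 := congrFun h i
  exact Rat.cast_injective h1

private theorem mem_SQ (hC : ∀ x : Fin n → ℝ, (aeval x f : ℝ) = C.F (hx 1 x)) {x : Fin n → ℝ} :
    x ∈ SQ f ↔ hx 1 x ∈ C.S := by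
  constructor
  · rintro ⟨r, q, hr, h1, rfl⟩
    refine ⟨isRat_hx.2 ⟨⟨1, by rw [Rat.cast_one]⟩, ⟨q, rfl⟩⟩, (r : ℝ), ⟨r, rfl⟩,
      Rat.cast_ne_zero.2 hr, ?_⟩
    rw [← hC, aeval_rv, ← h1, Rat.cast_pow]
  · rintro ⟨h1, r, ⟨r', rfl⟩, hr, h2⟩
    obtain ⟨q, rfl⟩ := (isRat_hx.1 h1).2
    refine ⟨r', q, Rat.cast_ne_zero.1 hr, ?_, rfl⟩
    rw [← hC, aeval_rv, ← Rat.cast_pow] at h2
    exact (Rat.cast_injective h2).symm

theorem mem_closure_SQ (hC : ∀ x : Fin n → ℝ, (aeval x f : ℝ) = C.F (hx 1 x)) {x : Fin n → ℝ} :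
    x ∈ closure (SQ f) ↔ hx 1 x ∈ C.Z := by
  constructor
  · intro h
    exact map_mem_closure (continuous_hx 1) h fun z hz => (mem_SQ hC).1 hz
  · intro h
    have h0 : (hx 1 x : V (n + 1)) 0 = 1 := rfl
    have ho : IsOpen {w : V (n + 1) | w 0 ≠ 0} :=
      isOpen_ne_fun (continuous_apply 0) continuous_const
    have h1 : hx 1 x ∈ closure ({w : V (n + 1) | w 0 ≠ 0} ∩ C.S) :=
      ho.inter_closure ⟨by show (hx 1 x : V (n + 1)) 0 ≠ 0; rw [h0]; exact one_ne_zero, h⟩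
    have hc : ContinuousAt (fun w : V (n + 1) => fun i : Fin n => w i.succ / w 0) (hx 1 x) := by
      refine continuousAt_pi.2 fun i => ?_
      refine ContinuousAt.div (continuous_apply i.succ).continuousAt
        (continuous_apply (0 : Fin (n + 1))).continuousAt ?_
      rw [h0]
      exact one_ne_zero
    have h2 := mem_closure_image hc h1
    have h3 : (fun i : Fin n => (hx 1 x : V (n + 1)) i.succ / (hx 1 x : V (n + 1)) 0) = x := by
      funext i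
      rw [h0, div_one]
      rfl
    rw [h3] at h2
    refine closure_mono ?_ h2
    rintro _ ⟨w, ⟨hw0, hw⟩, rfl⟩
    have hw0 : w 0 ≠ 0 := hw0
    rw [mem_SQ hC]
    have h4 : hx 1 (fun i : Fin n => w i.succ / w 0) = (w 0)⁻¹ • w := by
      funext i
      refine Fin.cases ?_ (fun i => ?_) i
      · show (1 : ℝ) = (w 0)⁻¹ * w 0
        rw [inv_mul_cancel₀ hw0]
      · show w i.succ / w 0 = (w 0)⁻¹ * w i.succ
        rw [div_eq_inv_mul]
    show hx 1 (fun i : Fin n => w i.succ / w 0) ∈ C.S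
    rw [h4]
    refine S_smul hw ?_ (inv_ne_zero hw0)
    obtain ⟨q, hq⟩ := hw.1
    exact ⟨(q 0)⁻¹, by rw [hq, Rat.cast_inv]; rfl⟩

theorem opn_affine (hC : ∀ x : Fin n → ℝ, (aeval x f : ℝ) = C.F (hx 1 x)) (h : C.Opn) :
    ∀ x ∈ closure (SQ f), 0 < (aeval x f : ℝ) → closure (SQ f) ∈ 𝓝 x := by
  intro x hx1 hpos
  rw [mem_closure_SQ hC] at hx1
  rw [hC] at hpos
  have h1 := (continuous_hx (n := n) 1).continuousAt.preimage_mem_nhds (h _ hx1 hpos)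
  have h2 : (fun x : Fin n → ℝ => hx 1 x) ⁻¹' C.Z = closure (SQ f) := by
    ext z
    exact (mem_closure_SQ hC).symm
  rwa [h2] at h1

theorem pieces_affine (hC : ∀ x : Fin n → ℝ, (aeval x f : ℝ) = C.F (hx 1 x)) (h : C.Pieces) :
    ∃ (k : ℕ) (A : Fin k → AffineSubspace ℚ (Fin n → ℚ)), ∀ q : Fin n → ℚ,
      (∃ r : ℚ, r ≠ 0 ∧ r ^ 2 = eval q f) ↔ eval q f ≠ 0 ∧ ∃ i, q ∈ A i := by
  obtain ⟨k, Y, hY, hS⟩ := h
  refine ⟨k, fun i =>
    { carrier := {q | hx 1 (rv q) ∈ Submodule.span ℝ (Y i)}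
      smul_vsub_vadd_mem' := ?_ }, fun q => ?_⟩
  · intro c p1 p2 p3 h1 h2 h3
    have e : hx 1 (rv (c • (p1 -ᵥ p2) +ᵥ p3)) =
        (c : ℝ) • (hx 1 (rv p1) - hx 1 (rv p2)) + hx 1 (rv p3) := by
      funext i
      refine Fin.cases ?_ (fun i => ?_) i
      · show (1 : ℝ) = (c : ℝ) * (1 - 1) + 1
        ring
      · show ((c * (p1 i - p2 i) + p3 i : ℚ) : ℝ) = (c : ℝ) * ((p1 i : ℝ) - (p2 i : ℝ)) + (p3 i : ℝ)
        push_cast
        rfl
    show hx 1 (rv (c • (p1 -ᵥ p2) +ᵥ p3)) ∈ Submodule.span ℝ (Y i)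
    rw [e]
    exact Submodule.add_mem _ (Submodule.smul_mem _ _ (Submodule.sub_mem _ h1 h2)) h3
  · have h1 : (∃ r : ℚ, r ≠ 0 ∧ r ^ 2 = eval q f) ↔ rv q ∈ SQ f := by
      constructor
      · rintro ⟨r, hr, h⟩
        exact ⟨r, q, hr, h, rfl⟩
      · rintro ⟨r, q', hr, h, e⟩
        rw [rv_inj e]
        exact ⟨r, hr, h⟩
    rw [h1, mem_SQ hC, hS]
    have h2 : C.F (hx 1 (rv q)) = ((eval q f : ℚ) : ℝ) := by rw [← hC, aeval_rv]
    show IsRat (hx 1 (rv q)) ∧ C.F (hx 1 (rv q)) ≠ 0 ∧ (∃ i, hx 1 (rv q) ∈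
      Submodule.span ℝ (Y i)) ↔ eval q f ≠ 0 ∧ ∃ i, hx 1 (rv q) ∈ Submodule.span ℝ (Y i)
    rw [h2, Rat.cast_ne_zero]
    constructor
    · rintro ⟨-, h3, h4⟩
      exact ⟨h3, h4⟩
    · rintro ⟨h3, h4⟩
      exact ⟨isRat_hx.2 ⟨⟨1, by rw [Rat.cast_one]⟩, ⟨q, rfl⟩⟩, h3, h4⟩

end Qrt

end Pool.Agent.QS
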