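import Pool.Agent.QS.Bas

/-!
# QS module PC: from the dichotomy to finitely many connected components

`Pc E`: for every polynomial function `g` the set `E ∩ {g ≠ 0}` has finitely many components, and `g` is zero on `E` or
`E ∩ {g ≠ 0}` is dense in `E`.

PROOFS. `Pc.fc_sqrt`: put `N = a² - b² F`, `S = {x ∈ E | a x + b x √(F x) ≠ 0}`. If `N` is not zero on `E`:
`A = {x ∈ E | N x ≠ 0} ⊆ S` (`N = (a + b √F) (a - b √F)` as `F > 0`) and `S ⊆ E ⊆ closure A`, so `FC.sandwich`. If `N = 0` on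
`E`: for `x ∈ E`: `x ∈ S ↔ (b x ≠ 0 ∧ a x - b x √(F x) = 0)`. `FC.clopen` for `S` in `{x ∈ E | b x ≠ 0}` (FC by `Pc`):
`a + b √F ≠ 0` is an open condition, `a - b √F = 0` is a closed condition (all functions are continuous:
`PolyR.continuous`).
`pc_opn`: `E = {x ∈ Z | 0 < F x}` is open (`Opn`). FC: `FC.clopen` for `{x ∈ E | g x ≠ 0}` in `{x | F x * g x ≠ 0}`
(`PolyR.fc_ne`): open by `Opn`; closed: if `F x g x ≠ 0` and `x` is in the closure of `E` then `x ∈ Z`, `0 ≤ F x`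
(`F_nonneg`), so `0 < F x`. Density: if `g` is not zero on `E` then `{g ≠ 0}` is dense (`PolyR.dense_ne`), and `E` is open.
`pc_span`: let `φ : (Fin k → ℝ) →ₗ[ℝ] V m` be injective with range `Y` (a basis of `Y`). `g ∘ φ`, `f ∘ φ` are polynomial
functions (substitute the linear forms for the variables). `{x ∈ Y | f x ≠ 0, g x ≠ 0} = φ '' {t | f (φ t) * g (φ t) ≠ 0}`: `FC.image`,
`PolyR.fc_ne`. Density: if `f (φ t) g (φ t)` is not identically zero then `{t | f (φ t) g (φ t) ≠ 0}` is dense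
(`PolyR.dense_ne`) and its image is dense in `Y`; if it is identically zero then `g = 0` on `E = {x ∈ Y | f x ≠ 0}`.
`rat_span`: `x = ∑ c i • y i` with `y i ∈ Y` (`Submodule.mem_span_set'` / `Finsupp`); the map
`c ↦ ∑ c i • y i` is continuous and rational `c` are dense (`dense_isRat`); for rational `c` the value is rational.
`Z_of_pieces`: `⊇`: let `x ∈ span (Y i)`, `F x ≠ 0`. By `rat_span` `x` is in the closure of the rational points of
`span (Y i)`, and `F ≠ 0` near `x`, so `x` is in the closure of `S`. `⊆`: `S ⊆ ⋃ i, span (Y i)`, which is closed (finite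
union of finite dimensional subspaces, `Submodule.closed_of_finiteDimensional`).
`exists_pc`: `Opn`: `k = 1`. `Pieces`: `E i = {x ∈ span (Y i) | F x ≠ 0}`: `x ∈ Z`, `0 < F x` iff `F x ≠ 0` and `x` in some
`span (Y i)` (`Z_of_pieces`, `F_nonneg`).
`fc_sqrt`: `{x ∈ Z | 0 < F x, a + b √F ≠ 0} = ⋃ i, {x ∈ E i | ..}`, `FC.iUnion`.
-/

set_option autoImplicit false

open Set Topology Filter MvPolynomial
open Pool.Agent.MZ

namespace Pool.Agent.QS

variable {m : ℕ}

/-- see the header -/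
def Pc (E : Set (V m)) : Prop :=
  (∀ g : V m → ℝ, PolyR m g → FC {x | x ∈ E ∧ g x ≠ 0}) ∧
    ∀ g : V m → ℝ, PolyR m g → (∀ x ∈ E, g x = 0) ∨ E ⊆ closure {x | x ∈ E ∧ g x ≠ 0}

theorem Pc.fc_sqrt {E : Set (V m)} (hE : Pc E) {F a b : V m → ℝ} (hF : PolyR m F)
    (ha : PolyR m a) (hb : PolyR m b) (hpos : ∀ x ∈ E, 0 < F x) :
    FC {x | x ∈ E ∧ a x + b x * Real.sqrt (F x) ≠ 0} := by
  have hs : Continuous fun x => Real.sqrt (F x) := Real.continuous_sqrt.comp hF.continuous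
  have hN : PolyR m fun x => a x * a x - b x * b x * F x := (ha.mul ha).sub ((hb.mul hb).mul hF)
  have hfac : ∀ x ∈ E, a x * a x - b x * b x * F x =
      (a x + b x * Real.sqrt (F x)) * (a x - b x * Real.sqrt (F x)) := by
    intro x hx
    have h1 : Real.sqrt (F x) * Real.sqrt (F x) = F x := Real.mul_self_sqrt (hpos x hx).le
    linear_combination (b x * b x) * h1
  rcases hE.2 _ hN with h0 | h0
  · have hA : {x | x ∈ E ∧ a x + b x * Real.sqrt (F x) ≠ 0} ⊆ {x | x ∈ E ∧ b x ≠ 0} := by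
      rintro x ⟨hx, hne⟩
      refine ⟨hx, fun hb0 => hne ?_⟩
      have h1 := hfac x hx
      rw [h0 x hx] at h1
      rcases mul_eq_zero.1 h1.symm with h2 | h2
      · exact h2
      · rw [hb0] at h2 ⊢
        linarith
    refine (hE.1 b hb).clopen hA ?_ ?_
    · rintro x ⟨hx, hne⟩
      have hc : Continuous fun x => a x + b x * Real.sqrt (F x) :=
        ha.continuous.add (hb.continuous.mul hs)
      filter_upwards [hc.continuousAt.eventually_ne hne] with y hy hyS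
      exact ⟨hyS.1, hy⟩
    · rintro x ⟨hx, hbx⟩ hcl
      refine ⟨hx, ?_⟩
      have hc : Continuous fun x => a x - b x * Real.sqrt (F x) :=
        ha.continuous.sub (hb.continuous.mul hs)
      have hcl2 : x ∈ {x | a x - b x * Real.sqrt (F x) = 0} := by
        refine closure_minimal ?_ (isClosed_eq hc continuous_const) hcl
        rintro z ⟨hz, hzne⟩
        have h1 := hfac z hz
        rw [h0 z hz] at h1
        rcases mul_eq_zero.1 h1.symm with h2 | h2
        · exact absurd h2 hzne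
        · exact h2
      have h3 : a x - b x * Real.sqrt (F x) = 0 := hcl2
      have h4 : 0 < Real.sqrt (F x) := Real.sqrt_pos.2 (hpos x hx)
      intro h5
      have h6 : b x * Real.sqrt (F x) = 0 := by linarith
      rcases mul_eq_zero.1 h6 with h7 | h7
      · exact hbx h7
      · exact h4.ne' h7
  · refine (hE.1 _ hN).sandwich ?_ ?_
    · rintro x ⟨hx, hne⟩
      refine ⟨hx, fun h1 => hne ?_⟩
      show a x * a x - b x * b x * F x = 0
      rw [hfac x hx, h1, zero_mul]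
    · rintro x ⟨hx, _⟩
      exact h0 hx

private theorem pc_comp {k : ℕ} (φ : (Fin k → ℝ) →ₗ[ℝ] V m) {g : V m → ℝ} (hg : PolyR m g) :
    PolyR k fun t => g (φ t) := by
  obtain ⟨G, hG⟩ := hg
  have h1 : (fun t => g (φ t)) = fun t => eval (φ t) G := funext fun t => (hG _).symm
  rw [h1]
  clear h1 hG
  induction G using MvPolynomial.induction_on with
  | C c =>
    simp only [eval_C]
    exact PolyR.const c
  | add p q hp hq =>
    simp only [eval_add]
    exact hp.add hq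
  | mul_X p i hp =>
    simp only [eval_mul, eval_X]
    exact hp.mul (PolyR.lin ((LinearMap.proj i).comp φ))

theorem pc_span (Y : Submodule ℝ (V m)) {f : V m → ℝ} (hf : PolyR m f) :
    Pc {x | x ∈ Y ∧ f x ≠ 0} := by
  let b := Module.finBasis ℝ Y
  let φ : (Fin (Module.finrank ℝ Y) → ℝ) →ₗ[ℝ] V m :=
    Y.subtype.comp b.equivFun.symm.toLinearMap
  have hφY : ∀ t, φ t ∈ Y := fun t => (b.equivFun.symm t).2
  have hφs : ∀ x ∈ Y, ∃ t, φ t = x := by
    intro x hx
    refine ⟨b.equivFun ⟨x, hx⟩, ?_⟩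
    show ((b.equivFun.symm (b.equivFun ⟨x, hx⟩) : Y) : V m) = x
    rw [LinearEquiv.symm_apply_apply]
  have hφc : Continuous φ := LinearMap.continuous_of_finiteDimensional φ
  have himg : ∀ g : V m → ℝ, {x | x ∈ {x | x ∈ Y ∧ f x ≠ 0} ∧ g x ≠ 0} =
      φ '' {t | f (φ t) * g (φ t) ≠ 0} := by
    intro g
    ext x
    constructor
    · rintro ⟨⟨hx, hfx⟩, hgx⟩
      obtain ⟨t, rfl⟩ := hφs x hx
      exact ⟨t, mul_ne_zero hfx hgx, rfl⟩
    · rintro ⟨t, ht, rfl⟩
      exact ⟨⟨hφY t, left_ne_zero_of_mul ht⟩, right_ne_zero_of_mul ht⟩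
  refine ⟨fun g hg => ?_, fun g hg => ?_⟩
  · rw [himg g]
    exact (PolyR.fc_ne ((pc_comp φ hf).mul (pc_comp φ hg))).image hφc.continuousOn
  · by_cases h : ∃ t, f (φ t) * g (φ t) ≠ 0
    · right
      have hd := PolyR.dense_ne ((pc_comp φ hf).mul (pc_comp φ hg)) h
      rintro x ⟨hx, _⟩
      obtain ⟨t, rfl⟩ := hφs x hx
      rw [himg g]
      exact map_mem_closure hφc (hd t) (fun s hs => ⟨s, hs, rfl⟩)
    · left
      rintro x ⟨hx, hfx⟩
      obtain ⟨t, rfl⟩ := hφs x hx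
      by_contra hgx
      exact h ⟨t, mul_ne_zero hfx hgx⟩

theorem rat_span {Y : Set (V m)} (hY : ∀ x ∈ Y, IsRat x) {x : V m}
    (hx : x ∈ Submodule.span ℝ Y) : x ∈ closure {z | IsRat z ∧ z ∈ Submodule.span ℝ Y} := by
  obtain ⟨n, c, y, rfl⟩ := Submodule.mem_span_set'.1 hx
  have hcont : Continuous fun c : Fin n → ℝ => ∑ i, c i • (y i : V m) :=
    continuous_finsetSum _ fun i _ => (continuous_apply i).smul continuous_const
  refine map_mem_closure (f := fun c : Fin n → ℝ => ∑ i, c i • (y i : V m)) hcont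
    (dense_isRat c) ?_
  intro c hc
  have hc' : IsRat c := hc
  constructor
  · show IsRat (∑ i, c i • (y i : V m))
    have h1 : ∀ s : Finset (Fin n), IsRat (∑ i ∈ s, c i • (y i : V m)) := by
      intro s
      classical
      induction s using Finset.induction_on with
      | empty =>
        rw [Finset.sum_empty]
        exact IsRat.zero
      | insert a s ha ih =>
        rw [Finset.sum_insert ha]
        exact (IsRat.smul (isRat_iff.1 hc' a) (hY _ (y a).2)).add ih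
    exact h1 Finset.univ
  · exact Submodule.sum_mem _ fun i _ => Submodule.smul_mem _ _ (Submodule.subset_span (y i).2)

namespace Qrt

variable {C : Qrt m}

theorem pc_opn (h : C.Opn) : Pc {x | x ∈ C.Z ∧ 0 < C.F x} := by
  have hopen : IsOpen {x : V m | 0 < C.F x} := isOpen_lt continuous_const C.continuous_F
  refine ⟨fun g hg => ?_, fun g hg => ?_⟩
  · refine (PolyR.fc_ne (C.polyR_F.mul hg)).clopen ?_ ?_ ?_
    · rintro x ⟨⟨_, hx⟩, hgx⟩
      exact mul_ne_zero hx.ne' hgx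
    · rintro x ⟨⟨hxZ, hx⟩, hgx⟩
      filter_upwards [h x hxZ hx, hopen.mem_nhds hx] with y hyZ hyF hy
      exact ⟨⟨hyZ, hyF⟩, right_ne_zero_of_mul hy⟩
    · intro x hx hcl
      have hxZ : x ∈ C.Z := by
        have h1 : IsClosed C.Z := isClosed_closure
        exact closure_minimal (fun z hz => hz.1.1) h1 hcl
      have h2 := F_nonneg hxZ
      have h3 : C.F x ≠ 0 := left_ne_zero_of_mul hx
      exact ⟨⟨hxZ, lt_of_le_of_ne h2 (Ne.symm h3)⟩, right_ne_zero_of_mul hx⟩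
  · by_cases h0 : ∀ x ∈ {x | x ∈ C.Z ∧ 0 < C.F x}, g x = 0
    · exact Or.inl h0
    · right
      push Not at h0
      obtain ⟨x, _, hgx⟩ := h0
      have hd := PolyR.dense_ne hg ⟨x, hgx⟩
      have hE : IsOpen {x | x ∈ C.Z ∧ 0 < C.F x} := by
        rw [isOpen_iff_mem_nhds]
        rintro z ⟨hzZ, hz⟩
        exact Filter.inter_mem (h z hzZ hz) (hopen.mem_nhds hz)
      exact hd.open_subset_closure_inter hE

theorem Z_of_pieces {k : ℕ} {Y : Fin k → Set (V m)} (hY : ∀ i, ∀ x ∈ Y i, IsRat x)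
    (hS : C.S = {x | IsRat x ∧ C.F x ≠ 0 ∧ ∃ i, x ∈ Submodule.span ℝ (Y i)}) {x : V m}
    (hF : C.F x ≠ 0) : x ∈ C.Z ↔ ∃ i, x ∈ Submodule.span ℝ (Y i) := by
  constructor
  · intro hx
    have hcl : IsClosed (⋃ i, (Submodule.span ℝ (Y i) : Set (V m))) :=
      isClosed_iUnion_of_finite fun i => Submodule.closed_of_finiteDimensional _
    have h1 : x ∈ ⋃ i, (Submodule.span ℝ (Y i) : Set (V m)) := by
      refine closure_minimal ?_ hcl hx
      intro z hz
      rw [hS] at hz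
      obtain ⟨i, hi⟩ := hz.2.2
      exact Set.mem_iUnion.2 ⟨i, hi⟩
    obtain ⟨i, hi⟩ := Set.mem_iUnion.1 h1
    exact ⟨i, hi⟩
  · rintro ⟨i, hi⟩
    have h1 := rat_span (hY i) hi
    show x ∈ closure C.S
    rw [mem_closure_iff_nhds] at h1 ⊢
    intro W hW
    have h2 : {z : V m | C.F z ≠ 0} ∈ 𝓝 x :=
      (isOpen_ne_fun C.continuous_F continuous_const).mem_nhds hF
    obtain ⟨z, ⟨hzW, hzF⟩, hz1, hz2⟩ := h1 _ (Filter.inter_mem hW h2)
    refine ⟨z, hzW, ?_⟩
    rw [hS]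
    exact ⟨hz1, hzF, i, hz2⟩

theorem exists_pc (h : C.Pieces ∨ C.Opn) :
    ∃ (k : ℕ) (E : Fin k → Set (V m)), (∀ i, Pc (E i)) ∧
      {x | x ∈ C.Z ∧ 0 < C.F x} = ⋃ i, E i := by
  rcases h with h | h
  · obtain ⟨k, Y, hY, hS⟩ := h
    refine ⟨k, fun i => {x | x ∈ Submodule.span ℝ (Y i) ∧ C.F x ≠ 0},
      fun i => pc_span _ C.polyR_F, ?_⟩
    ext x
    rw [Set.mem_iUnion]
    constructor
    · rintro ⟨hxZ, hx⟩
      obtain ⟨i, hi⟩ := (Z_of_pieces hY hS hx.ne').1 hxZ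
      exact ⟨i, hi, hx.ne'⟩
    · rintro ⟨i, hi, hx⟩
      have hxZ := (Z_of_pieces hY hS hx).2 ⟨i, hi⟩
      exact ⟨hxZ, lt_of_le_of_ne (F_nonneg hxZ) (Ne.symm hx)⟩
  · exact ⟨1, fun _ => {x | x ∈ C.Z ∧ 0 < C.F x}, fun _ => pc_opn h, (Set.iUnion_const _).symm⟩

theorem fc_sqrt (h : C.Pieces ∨ C.Opn) {a b : V m → ℝ} (ha : PolyR m a) (hb : PolyR m b) :
    FC {x | x ∈ C.Z ∧ 0 < C.F x ∧ a x + b x * Real.sqrt (C.F x) ≠ 0} := by
  obtain ⟨k, E, hE, hZ⟩ := exists_pc h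
  have hpos : ∀ i, ∀ x ∈ E i, 0 < C.F x := by
    intro i x hx
    have h1 : x ∈ {x | x ∈ C.Z ∧ 0 < C.F x} := by
      rw [hZ]
      exact Set.mem_iUnion.2 ⟨i, hx⟩
    exact h1.2
  have h1 : {x | x ∈ C.Z ∧ 0 < C.F x ∧ a x + b x * Real.sqrt (C.F x) ≠ 0} =
      ⋃ i, {x | x ∈ E i ∧ a x + b x * Real.sqrt (C.F x) ≠ 0} := by
    ext x
    rw [Set.mem_iUnion]
    constructor
    · rintro ⟨h2, h3, h4⟩
      have h5 : x ∈ {x | x ∈ C.Z ∧ 0 < C.F x} := ⟨h2, h3⟩
      rw [hZ] at h5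
      obtain ⟨i, hi⟩ := Set.mem_iUnion.1 h5
      exact ⟨i, hi, h4⟩
    · rintro ⟨i, hi, h4⟩
      have h5 : x ∈ {x | x ∈ C.Z ∧ 0 < C.F x} := by
        rw [hZ]
        exact Set.mem_iUnion.2 ⟨i, hi⟩
      exact ⟨h5.1, h5.2, h4⟩
  rw [h1]
  exact FC.iUnion fun i => (hE i).fc_sqrt C.polyR_F ha hb (hpos i)

end Qrt

end Pool.Agent.QS
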