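import Pool.Agent.QS.Defs

/-!
# QS module ALG: identities for `q`, `c3`, `c4`, `xp`, `cc`

All identities are checked by computer. PROOFS: put `t1 = T p p p x`, `t2 = T p p x x`, `t3 = T p x x x` etc.; expand
`T` at sums and multiples with `map_add`, `map_smul`, `map_sub`, `LinearMap.add_apply`, `LinearMap.smul_apply`,
`LinearMap.sub_apply`, `smul_eq_mul`, bring the arguments of `T` into a fixed order with `s₁`, `s₂`, `s₃` (prove the
needed cases such as `T x p p p = T p p p x` first), use `T p p p p = y ^ 2` (`Sh`) and `field_simp`, `ring`.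
* `F_expand`: coefficients of `a⁴, a³b, a²b², ab³, b⁴` of both sides.
* `F_xp`: `F_expand` with `a = - c4`, `b = 4 c3`. `c4_xp`: the same. `c3_xp`, `cc_xp`: `xp = 4 c3 • x + (- c4) • p` and
  `c3_add`, `c3_smul`, `cc_add`, `cc_smul`.
* `cc_of_c3`: if `c3 p y = 0` identically then `cc p y v x = 0`: expand `c3 (x + s v) = 0` for all `s`
  (a polynomial in `s`, its linear coefficient is `3 cc p y v x`; e.g. `s = 1, -1, 2, -2`).
* `q_unique`: a symmetric bilinear form `r` with `r p p = y` and `F (a p + b x) - r(a p + b x)² = b³ (..)` ...: if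
  `F = r²` everywhere and `r p p = y` then `r x x = q p y x x`: compare coefficients of `b`, `b²` in
  `F (p + b x) = (r (p + b x) (p + b x)) ^ 2`: `2 T p p p x = y r p x`.. ; then `c4 = 0` and `c3 = 0`.
-/

set_option autoImplicit false

open Set Topology Filter MvPolynomial
open Pool.Agent.MZ

namespace Pool.Agent.QS

namespace Qrt

variable {m : ℕ} (C : Qrt m)

private theorem k1 (p x : V m) : C.T p p x p = C.T p p p x := C.s₃ p p x p

private theorem k2 (p x : V m) : C.T p x p p = C.T p p p x := by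
  rw [C.s₂ p x p p, C.s₃ p p x p]

private theorem k3 (p x : V m) : C.T x p p p = C.T p p p x := by
  rw [C.s₁ x p p p, C.s₂ p x p p, C.s₃ p p x p]

private theorem k4 (p v x : V m) : C.T p v p x = C.T p p v x := C.s₂ p v p x

private theorem k5 (p v x : V m) : C.T p v x p = C.T p p v x := by
  rw [C.s₃ p v x p, C.s₂ p v p x]

private theorem k6 (p x : V m) : C.T x p p x = C.T p p x x := by
  rw [C.s₁ x p p x, C.s₂ p x p x]

private theorem k7 (p x : V m) : C.T x p x p = C.T p p x x := by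
  rw [C.s₃ x p x p, C.s₁ x p p x, C.s₂ p x p x]

private theorem k8 (p x : V m) : C.T x x p p = C.T p p x x := by
  rw [C.s₂ x x p p, C.s₃ x p x p, C.s₁ x p p x, C.s₂ p x p x]

private theorem k9 (p x : V m) : C.T x p x x = C.T p x x x := C.s₁ x p x x

private theorem k10 (p x : V m) : C.T x x p x = C.T p x x x := by
  rw [C.s₂ x x p x, C.s₁ x p x x]

private theorem k11 (p x : V m) : C.T x x x p = C.T p x x x := by
  rw [C.s₃ x x x p, C.s₂ x x p x, C.s₁ x p x x]

private theorem F_bin (a b : ℝ) (p x : V m) :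
    C.F (a • p + b • x) = a ^ 4 * C.T p p p p + 4 * a ^ 3 * b * C.T p p p x +
      6 * a ^ 2 * b ^ 2 * C.T p p x x + 4 * a * b ^ 3 * C.T p x x x + b ^ 4 * C.T x x x x := by
  unfold F
  simp only [map_add, map_smul, LinearMap.add_apply, LinearMap.smul_apply, smul_eq_mul,
    C.k1 p x, C.k2 p x, C.k3 p x, C.k4 p x x, C.k5 p x x, C.k6 p x, C.k7 p x, C.k8 p x,
    C.k9 p x, C.k10 p x, C.k11 p x]
  ring

theorem q_symm (p : V m) (y : ℝ) (u v : V m) : C.q p y u v = C.q p y v u := by
  unfold q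
  rw [C.s₃ p p u v]
  ring

theorem q_add (p : V m) (y : ℝ) (u u' v : V m) :
    C.q p y (u + u') v = C.q p y u v + C.q p y u' v := by
  unfold q
  simp only [map_add, LinearMap.add_apply]
  ring

theorem q_smul (p : V m) (y t : ℝ) (u v : V m) : C.q p y (t • u) v = t * C.q p y u v := by
  unfold q
  simp only [map_smul, LinearMap.smul_apply, smul_eq_mul]
  ring

/-- `q` as a bilinear map -/
noncomputable def qb (p : V m) (y : ℝ) : V m →ₗ[ℝ] V m →ₗ[ℝ] ℝ :=
  LinearMap.mk₂ ℝ (C.q p y) (C.q_add p y) (C.q_smul p y)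
    (fun u v v' => by rw [C.q_symm p y u, C.q_add, C.q_symm p y v, C.q_symm p y v'])
    (fun t u v => by rw [C.q_symm p y u, C.q_smul, C.q_symm p y v]; rfl)

theorem qb_apply (p : V m) (y : ℝ) (u v : V m) : C.qb p y u v = C.q p y u v := rfl

variable {C} {p : V m} {y : ℝ}

theorem q_left (h : C.Sh p y) (x : V m) : C.q p y p x = C.T p p p x / y := by
  have hy : y ≠ 0 := h.1
  have hp : C.T p p p p = y ^ 2 := h.2
  unfold q
  rw [hp]
  field_simp
  ring

theorem q_pp (h : C.Sh p y) : C.q p y p p = y := by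
  have hy : y ≠ 0 := h.1
  have hp : C.T p p p p = y ^ 2 := h.2
  rw [q_left h, hp]
  field_simp

private theorem q_exp' (h : C.Sh p y) (a b : ℝ) (x : V m) :
    C.q p y (a • p + b • x) (a • p + b • x) =
      a ^ 2 * y + 2 * a * b * C.q p y p x + b ^ 2 * C.q p y x x := by
  rw [C.q_add, C.q_smul, C.q_smul, C.q_symm p y p, C.q_symm p y x, C.q_add, C.q_add, C.q_smul,
    C.q_smul, C.q_smul, C.q_smul, C.q_symm p y x p, q_pp h]
  ring

theorem F_expand (h : C.Sh p y) (a b : ℝ) (x : V m) :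
    C.F (a • p + b • x) = (C.q p y (a • p + b • x) (a • p + b • x)) ^ 2 +
      b ^ 3 * (4 * a * C.c3 p y x + b * C.c4 p y x) := by
  have hy : y ≠ 0 := h.1
  have hp : C.T p p p p = y ^ 2 := h.2
  rw [q_exp' h, C.F_bin a b p x, q_left h, hp]
  unfold c3 c4 F q
  field_simp
  ring

theorem q_expand (h : C.Sh p y) (a b : ℝ) (x : V m) :
    C.q p y (a • p + b • x) (a • p + b • x) =
      a ^ 2 * y + 2 * a * b * C.q p y p x + b ^ 2 * C.q p y x x := by
  exact q_exp' h a b x

theorem c3_add (h : C.Sh p y) (s : ℝ) (x : V m) : C.c3 p y (x + s • p) = C.c3 p y x := by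
  have hy : y ≠ 0 := h.1
  have hp : C.T p p p p = y ^ 2 := h.2
  unfold c3 q
  simp only [map_add, map_smul, LinearMap.add_apply, LinearMap.smul_apply, smul_eq_mul,
    C.k1 p x, C.k2 p x, C.k3 p x, C.k4 p x x, C.k5 p x x, hp]
  field_simp
  ring

theorem c4_add (h : C.Sh p y) (s : ℝ) (x : V m) :
    C.c4 p y (x + s • p) = C.c4 p y x + 4 * s * C.c3 p y x := by
  have e : x + s • p = s • p + (1 : ℝ) • x := by
    rw [one_smul, add_comm]
  unfold c4
  rw [e, F_expand h]
  unfold c4
  ring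

theorem c3_smul (t : ℝ) (x : V m) : C.c3 p y (t • x) = t ^ 3 * C.c3 p y x := by
  unfold c3 q
  simp only [map_smul, LinearMap.smul_apply, smul_eq_mul]
  ring

theorem c4_smul (t : ℝ) (x : V m) : C.c4 p y (t • x) = t ^ 4 * C.c4 p y x := by
  unfold c4 F q
  simp only [map_smul, LinearMap.smul_apply, smul_eq_mul]
  ring

private theorem xp_eq (x : V m) :
    C.xp p y x = (-C.c4 p y x) • p + (4 * C.c3 p y x) • x := by
  unfold xp
  rw [neg_smul]
  abel

private theorem xp_eq' (x : V m) :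
    C.xp p y x = (4 * C.c3 p y x) • x + (-C.c4 p y x) • p := by
  unfold xp
  rw [neg_smul]
  abel

theorem F_xp (h : C.Sh p y) (x : V m) :
    C.F (C.xp p y x) = (C.q p y (C.xp p y x) (C.xp p y x)) ^ 2 := by
  rw [xp_eq x, F_expand h]
  ring

theorem c4_xp (h : C.Sh p y) (x : V m) : C.c4 p y (C.xp p y x) = 0 := by
  unfold c4
  rw [F_xp h, sub_self]

theorem c3_xp (h : C.Sh p y) (x : V m) :
    C.c3 p y (C.xp p y x) = (4 * C.c3 p y x) ^ 3 * C.c3 p y x := by
  rw [xp_eq' x, c3_add h, C.c3_smul]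

theorem xp_add (h : C.Sh p y) (s : ℝ) (x : V m) : C.xp p y (x + s • p) = C.xp p y x := by
  unfold xp
  rw [c3_add h, c4_add h, smul_add, smul_smul, add_smul, mul_assoc 4 (C.c3 p y x) s,
    mul_assoc 4 s (C.c3 p y x), mul_comm s (C.c3 p y x)]
  abel

/-- if `c4 = 0` at `x` then `xp` is a multiple of `x` -/
theorem xp_of_c4 {x : V m} (h : C.c4 p y x = 0) : C.xp p y x = (4 * C.c3 p y x) • x := by
  rw [xp, h, zero_smul, sub_zero]

theorem cc_add (h : C.Sh p y) (v x : V m) (s : ℝ) : C.cc p y v (x + s • p) = C.cc p y v x := by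
  have hy : y ≠ 0 := h.1
  have hp : C.T p p p p = y ^ 2 := h.2
  unfold cc
  rw [q_left h, q_left h]
  unfold q
  simp only [map_add, map_smul, LinearMap.add_apply, LinearMap.smul_apply, smul_eq_mul,
    C.k1 p x, C.k2 p x, C.k3 p x, C.k1 p v, C.k2 p v, C.k3 p v, C.k4 p v x, C.k5 p v x, hp]
  field_simp
  ring

theorem cc_smul (v x : V m) (t : ℝ) : C.cc p y v (t • x) = t ^ 2 * C.cc p y v x := by
  unfold cc
  rw [C.q_symm p y p (t • x), C.q_smul, C.q_symm p y v (t • x), C.q_smul, C.q_smul,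
    C.q_symm p y x (t • x), C.q_smul, C.q_symm p y x p, C.q_symm p y x v]
  simp only [map_smul, LinearMap.smul_apply, smul_eq_mul]
  ring

theorem cc_xp (h : C.Sh p y) (v x : V m) :
    C.cc p y v (C.xp p y x) = (4 * C.c3 p y x) ^ 2 * C.cc p y v x := by
  rw [xp_eq' x, cc_add h, C.cc_smul]

theorem cc_of_c3 (h : C.Sh p y) (h0 : ∀ x, C.c3 p y x = 0) (v x : V m) : C.cc p y v x = 0 := by
  have hy : y ≠ 0 := h.1
  have h1 := h0 x
  have h2 := h0 v
  have h3 := h0 (x + v)
  have h4 := h0 (x - v)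
  have e1 : C.T p v x v = C.T p v v x := C.s₃ p v x v
  have e2 : C.T p x v v = C.T p v v x := by
    rw [C.s₂ p x v v, C.s₃ p v x v]
  have e3 : C.T p x v x = C.T p v x x := C.s₂ p x v x
  have e4 : C.T p x x v = C.T p v x x := by
    rw [C.s₃ p x x v, C.s₂ p x v x]
  have e5 : C.T p p x v = C.T p p v x := C.s₃ p p x v
  unfold cc
  rw [q_left h, q_left h]
  unfold c3 q at *
  simp only [map_add, map_sub, LinearMap.add_apply, LinearMap.sub_apply, e1, e2, e3, e4, e5] at *
  field_simp at *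
  linarith

/-- if `F` is a square then `c4 = 0` and `c3 = 0` -/
theorem of_sq (hS : C.Sq) (h : C.Sh p y) (x : V m) : C.c4 p y x = 0 ∧ C.c3 p y x = 0 := by
  have hy : y ≠ 0 := h.1
  have hp : C.T p p p p = y ^ 2 := h.2
  obtain ⟨r, hr, hF⟩ := hS
  have hpp : (r p p) ^ 2 = y ^ 2 := by
    rw [← hF p]
    exact h.2
  obtain ⟨r', hr', hF', hpp'⟩ : ∃ r' : V m →ₗ[ℝ] V m →ₗ[ℝ] ℝ, (∀ x y, r' x y = r' y x) ∧
      (∀ x, C.F x = (r' x x) ^ 2) ∧ r' p p = y := by
    rcases sq_eq_sq_iff_eq_or_eq_neg.mp hpp with h1 | h1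
    · exact ⟨r, hr, hF, h1⟩
    · refine ⟨-r, fun x y => ?_, fun x => ?_, ?_⟩
      · simp only [LinearMap.neg_apply]
        rw [hr]
      · simp only [LinearMap.neg_apply]
        rw [hF x]
        ring
      · simp only [LinearMap.neg_apply]
        rw [h1]
        ring
  have key : ∀ a : ℝ, a ^ 4 * y ^ 2 + 4 * a ^ 3 * C.T p p p x + 6 * a ^ 2 * C.T p p x x +
      4 * a * C.T p x x x + C.T x x x x =
      (a ^ 2 * y + 2 * a * r' p x + r' x x) ^ 2 := by
    intro a
    have h1 := hF' (a • p + (1 : ℝ) • x)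
    rw [C.F_bin a 1 p x, hp] at h1
    simp only [map_add, map_smul, LinearMap.add_apply, LinearMap.smul_apply, smul_eq_mul,
      hr' x p, hpp'] at h1
    linear_combination h1
  have a0 := key 0
  have a1 := key 1
  have a2 := key (-1)
  have a3 := key 2
  have b1 : C.T p p p x = y * r' p x := by linarith
  have b2 : 6 * C.T p p x x = 4 * (r' p x) ^ 2 + 2 * y * r' x x := by linarith
  have b3 : C.T p x x x = r' p x * r' x x := by linarith
  have b4 : C.T x x x x = (r' x x) ^ 2 := by linarith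
  have b5 : C.q p y x x = r' x x := by
    unfold q
    rw [b1]
    field_simp
    linear_combination (1 / 2) * b2
  refine ⟨?_, ?_⟩
  · unfold c4 F
    rw [b4, b5, sub_self]
  · unfold c3
    rw [b5, b3, b1]
    field_simp
    ring

/-- if `c4 = 0` identically then `F` is a square -/
theorem sq_of_c4 (h : ∀ x, C.c4 p y x = 0) : C.Sq :=
  ⟨C.qb p y, C.q_symm p y, fun x => by
    have h1 := h x
    unfold c4 at h1
    rw [qb_apply]
    linarith⟩

end Qrt

end Pool.Agent.QS
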