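import Pool.Agent.QS.Defs

/-!
# QS module UF: a quotient of polynomial functions which satisfies a quadratic equation is a linear form

PROOF. The equation is `(lam c4 - 4 c3 L)² = 16 c3² (L² - lam B)`. Take polynomials `P3, P4` for `c3`, `c4` and
polynomials for `L` and `θ ↦ B θ θ` (`PolyR.lin`, `PolyR` of a bilinear form: expand on the basis); polynomial
functions over the infinite field `ℝ` agree iff the polynomials agree (`MvPolynomial.funext`), so `P3² ∣ (lam P4 - 4 P3 PL)²`
in the unique factorization domain `MvPolynomial (Fin m) ℝ`, hence `P3 ∣ lam P4 - 4 P3 PL` (`P3 ≠ 0`; e.g.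
`UniqueFactorizationMonoid` / `IsIntegrallyClosed.pow_dvd_pow_iff` or `pow_dvd_pow_iff`) and `P3 ∣ P4`: `c4 = c3 R`, `R` a
polynomial function. For `t ≠ 0` and `c3 θ ≠ 0`: `t³ c3 θ R (t θ) = t⁴ c3 θ R θ`, so `R (t θ) = t R θ`; by density
(`PolyR.dense_ne`) and continuity for all `θ` and `t` (`t = 0` by continuity). A differentiable function with
`R (t θ) = t R θ` is its own derivative at `0`: `R θ = (fderiv ℝ R 0) θ` (`HasDerivAt` of `t ↦ R (t θ) = t R θ` at `0`),
so `R` is linear. Put `b = R / 4`.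
-/

set_option autoImplicit false

open Set Topology Filter MvPolynomial
open Pool.Agent.MZ

namespace Pool.Agent.QS

private theorem uf_bil {m : ℕ} (B : V m →ₗ[ℝ] V m →ₗ[ℝ] ℝ) : PolyR m fun x => B x x := by
  have h : (fun x : V m => B x x) = fun x => ∑ i, x i * B (Pi.single i 1) x := by
    funext x
    have hx : x = ∑ i, x i • (Pi.single i (1 : ℝ) : V m) := pi_eq_sum_univ' x
    calc B x x = B (∑ i, x i • (Pi.single i (1 : ℝ) : V m)) x := by rw [← hx]
      _ = ∑ i, x i * B (Pi.single i 1) x := by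
          rw [map_sum, LinearMap.sum_apply]
          refine Finset.sum_congr rfl fun i _ => ?_
          rw [map_smul, LinearMap.smul_apply, smul_eq_mul]
  rw [h]
  exact PolyR.sum _ fun i _ => (PolyR.coord i).mul (PolyR.lin (B (Pi.single i 1)))

private theorem uf_comp {m k : ℕ} {f : V m → ℝ} (hf : PolyR m f) {c : V k → V m}
    (hc : ∀ i, PolyR k fun x => c x i) : PolyR k fun x => f (c x) := by
  obtain ⟨F, hF⟩ := hf
  have h : (fun x => f (c x)) = fun x => eval (c x) F := funext fun x => (hF (c x)).symm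
  rw [h]
  clear h hF
  induction F using MvPolynomial.induction_on with
  | C a => simpa only [eval_C] using PolyR.const a
  | add p q hp hq => simpa only [map_add] using hp.add hq
  | mul_X p i hp => simpa only [map_mul, eval_X] using hp.mul (hc i)

private theorem uf_diff {m : ℕ} (R : MvPolynomial (Fin m) ℝ) :
    Differentiable ℝ fun x : V m => eval x R := by
  induction R using MvPolynomial.induction_on with
  | C a =>
    simp only [eval_C]
    exact differentiable_const a
  | add p q hp hq =>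
    simp only [map_add]
    exact hp.add hq
  | mul_X p i hp =>
    simp only [map_mul, eval_X]
    exact hp.mul (differentiable_apply i)

private theorem uf_lin {m : ℕ} {r : V m → ℝ} (hd : Differentiable ℝ r)
    (h : ∀ (t : ℝ) x, r (t • x) = t * r x) (x : V m) : r x = fderiv ℝ r 0 x := by
  have h1 : HasFDerivAt r (fderiv ℝ r 0) ((0 : ℝ) • x) := by
    rw [zero_smul]
    exact (hd 0).hasFDerivAt
  have h2 : HasDerivAt (fun t : ℝ => t • x) ((1 : ℝ) • x) 0 := (hasDerivAt_id (0 : ℝ)).smul_const x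
  have h3 := h1.comp_hasDerivAt (0 : ℝ) h2
  have h4 : HasDerivAt (fun t : ℝ => t * r x) (1 * r x) 0 :=
    (hasDerivAt_id (0 : ℝ)).mul_const (r x)
  have h5 : (r ∘ fun t : ℝ => t • x) = fun t : ℝ => t * r x := funext fun t => h t x
  rw [h5] at h3
  have h6 := h4.unique h3
  rw [one_mul, one_smul] at h6
  exact h6

theorem lin_of_quad {m : ℕ} {c3 c4 : V m → ℝ} (h3 : PolyR m c3) (h4 : PolyR m c4)
    (hc3 : ∃ x, c3 x ≠ 0) {L : V m →ₗ[ℝ] ℝ} {B : V m →ₗ[ℝ] V m →ₗ[ℝ] ℝ} {lam : ℝ}
    (hl : lam ≠ 0)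
    (heq : ∀ x, lam * c4 x ^ 2 - 8 * c3 x * c4 x * L x + 16 * c3 x ^ 2 * B x x = 0)
    (hom3 : ∀ (t : ℝ) x, c3 (t • x) = t ^ 3 * c3 x)
    (hom4 : ∀ (t : ℝ) x, c4 (t • x) = t ^ 4 * c4 x) :
    ∃ b : V m →ₗ[ℝ] ℝ, ∀ x, c4 x = 4 * c3 x * b x := by
  obtain ⟨P3, hP3⟩ := h3
  obtain ⟨P4, hP4⟩ := h4
  obtain ⟨PL, hPL⟩ := PolyR.lin L
  obtain ⟨PB, hPB⟩ := uf_bil B
  have h1 : (C lam * P4 - 4 * P3 * PL) ^ 2 = P3 ^ 2 * (16 * (PL ^ 2 - C lam * PB)) := by
    apply MvPolynomial.funext
    intro x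
    simp only [map_pow, map_sub, map_mul, eval_C, map_ofNat, hP3, hP4, hPL, hPB]
    linear_combination lam * heq x
  have h2 : P3 ∣ C lam * P4 - 4 * P3 * PL := by
    rw [← IsIntegrallyClosed.pow_dvd_pow_iff (n := 2) (by norm_num)]
    exact ⟨_, h1⟩
  have h5 : P3 ∣ C lam * P4 := by
    have : C lam * P4 = (C lam * P4 - 4 * P3 * PL) + P3 * (4 * PL) := by ring
    rw [this]
    exact dvd_add h2 (dvd_mul_right _ _)
  have h6 : P3 ∣ P4 := by
    have : P4 = C lam⁻¹ * (C lam * P4) := by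
      rw [← mul_assoc, ← C_mul, inv_mul_cancel₀ hl, C_1, one_mul]
    rw [this]
    exact h5.mul_left _
  obtain ⟨R, hR⟩ := h6
  have hr : ∀ x, c4 x = c3 x * eval x R := fun x => by
    rw [← hP4, ← hP3, hR, map_mul]
  have hcont : Continuous fun x : V m => eval x R := MvPolynomial.continuous_eval R
  have hden := PolyR.dense_ne ⟨P3, hP3⟩ hc3
  have hhom0 : ∀ t : ℝ, t ≠ 0 → ∀ x, eval (t • x) R = t * eval x R := by
    intro t ht
    have hcl : IsClosed {x : V m | eval (t • x) R = t * eval x R} :=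
      isClosed_eq (hcont.comp (continuous_const_smul t)) (continuous_const.mul hcont)
    have hsub : {x : V m | c3 x ≠ 0} ⊆ {x : V m | eval (t • x) R = t * eval x R} := by
      intro x hx
      have e1 := hr (t • x)
      rw [hom4, hom3, hr x] at e1
      have hx' : c3 x ≠ 0 := hx
      have h7 : t ^ 3 * c3 x ≠ 0 := mul_ne_zero (pow_ne_zero 3 ht) hx'
      show eval (t • x) R = t * eval x R
      apply mul_left_cancel₀ h7
      linear_combination -e1
    intro x
    exact hcl.closure_subset_iff.2 hsub (hden x)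
  have hR0 : eval (0 : V m) R = 0 := by
    have := hhom0 2 two_ne_zero 0
    rw [smul_zero] at this
    linarith
  have hhom : ∀ (t : ℝ) (x : V m), eval (t • x) R = t * eval x R := by
    intro t x
    rcases eq_or_ne t 0 with rfl | ht
    · rw [zero_smul, zero_mul, hR0]
    · exact hhom0 t ht x
  refine ⟨(1 / 4 : ℝ) • (fderiv ℝ (fun x : V m => eval x R) 0 : V m →ₗ[ℝ] ℝ), fun x => ?_⟩
  rw [hr x, uf_lin (r := fun x : V m => eval x R) (uf_diff R) hhom x]
  show _ = 4 * c3 x * (1 / 4 * _)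
  ring_nf
  rfl

/-- a product of two polynomial functions is zero only if a factor is -/
theorem polyR_mul_eq_zero {m : ℕ} {f g : V m → ℝ} (hf : PolyR m f) (hg : PolyR m g)
    (h : ∀ x, f x * g x = 0) : (∀ x, f x = 0) ∨ ∀ x, g x = 0 := by
  obtain ⟨F, hF⟩ := hf
  obtain ⟨G, hG⟩ := hg
  have h1 : F * G = 0 := by
    apply MvPolynomial.funext
    intro x
    rw [map_mul, hF, hG, h, map_zero]
  rcases mul_eq_zero.1 h1 with h2 | h2
  · exact Or.inl fun x => by rw [← hF, h2, map_zero]
  · exact Or.inr fun x => by rw [← hG, h2, map_zero]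

/-- the same on the kernel of a linear form -/
theorem polyR_mul_eq_zero_ker {m : ℕ} {f g : V m → ℝ} (hf : PolyR m f) (hg : PolyR m g)
    (a : V m →ₗ[ℝ] ℝ) (h : ∀ x, a x = 0 → f x * g x = 0) :
    (∀ x, a x = 0 → f x = 0) ∨ ∀ x, a x = 0 → g x = 0 := by
  by_cases ha : a = 0
  · subst ha
    rcases polyR_mul_eq_zero hf hg (fun x => h x rfl) with h1 | h1
    · exact Or.inl fun x _ => h1 x
    · exact Or.inr fun x _ => h1 x
  · obtain ⟨u, hu⟩ : ∃ u, a u ≠ 0 := by
      by_contra hcon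
      push Not at hcon
      exact ha (LinearMap.ext hcon)
    obtain ⟨e, he⟩ : ∃ e, a e = 1 := ⟨(a u)⁻¹ • u, by
      rw [map_smul, smul_eq_mul, inv_mul_cancel₀ hu]⟩
    have hc : ∀ i, PolyR m fun x : V m => (x - a x • e) i := fun i =>
      (PolyR.coord i).sub ((PolyR.lin a).mul (PolyR.const (e i)))
    have h0 : ∀ x : V m, a (x - a x • e) = 0 := fun x => by
      rw [map_sub, map_smul, he, smul_eq_mul, mul_one, sub_self]
    rcases polyR_mul_eq_zero (uf_comp hf hc) (uf_comp hg hc) (fun x => h _ (h0 x)) with h1 | h1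
    · refine Or.inl fun x hx => ?_
      have h2 := h1 x
      rw [hx, zero_smul, sub_zero] at h2
      exact h2
    · refine Or.inr fun x hx => ?_
      have h2 := h1 x
      rw [hx, zero_smul, sub_zero] at h2
      exact h2

/-- a polynomial function that vanishes on a nonempty open set is zero -/
theorem polyR_eq_zero_of_open {m : ℕ} {f : V m → ℝ} (hf : PolyR m f) {W : Set (V m)}
    (hW : IsOpen W) (hne : W.Nonempty) (h : ∀ x ∈ W, f x = 0) (x : V m) : f x = 0 := by
  by_contra hx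
  obtain ⟨y, hy1, hy2⟩ := (hf.dense_ne ⟨x, hx⟩).inter_open_nonempty W hW hne
  exact hy2 (h y hy1)

/-- a quadratic form vanishing on the kernel of a linear form is divisible by it -/
theorem dvd_of_ker {m : ℕ} {D : V m →ₗ[ℝ] V m →ₗ[ℝ] ℝ} (hs : ∀ x y, D x y = D y x)
    {a : V m →ₗ[ℝ] ℝ} {e : V m} (he : a e = 1) (h : ∀ x, a x = 0 → D x x = 0) :
    ∃ b : V m →ₗ[ℝ] ℝ, ∀ x, D x x = a x * b x := by
  refine ⟨(2 : ℝ) • D.flip e - D e e • a, fun x => ?_⟩
  have h0 : a (x - a x • e) = 0 := by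
    rw [map_sub, map_smul, he, smul_eq_mul, mul_one, sub_self]
  have h1 := h _ h0
  simp only [map_sub, map_smul, LinearMap.sub_apply, LinearMap.smul_apply, smul_eq_mul] at h1
  rw [hs e x] at h1
  show D x x = a x * (2 * D x e - D e e * a x)
  linear_combination h1

end Pool.Agent.QS
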