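import Pool.Agent.QS.Bas
import Pool.Agent.QS.Alg
import Pool.Agent.QS.Uf

/-!
# QS module TYII: sheets whose new points lie on `F = 0`

PROOFS. `type2`: `q_expand` with `a = - c4 x`, `b = 4 c3 x`: `0 = q (xp x) (xp x) = c4² y - 8 c3 c4 (q p x) + 16 c3² (q x x)`.
This is the equation of `lin_of_quad` with `lam = y`, `L x = q p y p x`, `B = qb p y` (`polyR_c3`, `polyR_c4`,
`c3_smul`, `c4_smul`), so `c4 = 4 c3 b`. `b p = 1`: `c4 (x + s p) = c4 x + 4 s c3 x`, `c3 (x + s p) = c3 x`, with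
`c3 x ≠ 0`. Let `b x = 0`. Then `c4 x = 0`, so `F x = (q x x)²`, `xp x = (4 c3 x) • x` and
`0 = q (xp x) (xp x) = (4 c3 x)² q x x`: `q x x = 0` if `c3 x ≠ 0`. So `c3 x * q x x = 0` for all `x` with `b x = 0`;
by `polyR_mul_eq_zero_ker` one of the factors vanishes on the kernel of `b`; it is not `c3`: if
`c3 z ≠ 0` then `z₀ = z - b z • p` has `b z₀ = 0` and `c3 z₀ = c3 z ≠ 0` (`c3_add`). So `q x x = 0`, `F x = 0`.
`finite_lin`: `b` is determined by its values `b (Pi.single i 1)`; `x - b x • e` is in the kernel of `b`, so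
`F (x - b x • e) = 0`; for each `x` the set of the `s` with `F (x - s • e) = 0` is finite: it is the zero set of a
polynomial in `s` of degree `4` with leading coefficient `F e ≠ 0`. So the set of the `b` embeds in a finite product of
finite sets (`Set.Finite.pi`, `Set.Finite.of_injOn` or `Set.Finite.of_finite_image`).
`not_good`: `Good` fails: for all `x` the product `c3 x * q (xp x) (xp x)` is zero (`polyR_mul_eq_zero`, `polyR_q_xp`).
-/

set_option autoImplicit false

open Set Topology Filter MvPolynomial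
open Pool.Agent.MZ

namespace Pool.Agent.QS

namespace Qrt

variable {m : ℕ} {C : Qrt m} {p : V m} {y : ℝ}

theorem type2 (h : C.Sh p y) (h3 : ∃ x, C.c3 p y x ≠ 0)
    (hq : ∀ x, C.q p y (C.xp p y x) (C.xp p y x) = 0) :
    ∃ b : V m →ₗ[ℝ] ℝ, b p = 1 ∧ (∀ x, C.c4 p y x = 4 * C.c3 p y x * b x) ∧
      ∀ x, b x = 0 → C.q p y x x = 0 ∧ C.F x = 0 := by
  have heq : ∀ x, y * C.c4 p y x ^ 2 - 8 * C.c3 p y x * C.c4 p y x * C.qb p y p x +
      16 * C.c3 p y x ^ 2 * C.qb p y x x = 0 := by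
    intro x
    have h1 := hq x
    have h2 : C.xp p y x = (-C.c4 p y x) • p + (4 * C.c3 p y x) • x := by
      unfold xp
      module
    rw [h2, q_expand h] at h1
    rw [C.qb_apply, C.qb_apply]
    linarith
  obtain ⟨z, hz⟩ := h3
  obtain ⟨b, hb⟩ := lin_of_quad (C.polyR_c3 p y) (C.polyR_c4 p y) ⟨z, hz⟩ h.1 heq
    (fun t x => c3_smul t x) (fun t x => c4_smul t x)
  have hbp : b p = 1 := by
    have h1 := hb (z + (1 : ℝ) • p)
    rw [c4_add h, c3_add h, hb z, map_add, map_smul, smul_eq_mul] at h1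
    have h2 : C.c3 p y z * (b p - 1) = 0 := by linarith
    rcases mul_eq_zero.1 h2 with h3 | h3
    · exact absurd h3 hz
    · linarith
  refine ⟨b, hbp, hb, ?_⟩
  have hprod : ∀ x, b x = 0 → C.c3 p y x * C.q p y x x = 0 := by
    intro x hx
    have h1 := heq x
    have h2 : C.c4 p y x = 0 := by rw [hb x, hx, mul_zero]
    rw [h2, C.qb_apply, C.qb_apply] at h1
    by_cases h4 : C.c3 p y x = 0
    · rw [h4, zero_mul]
    · have h5 : C.c3 p y x ^ 2 * C.q p y x x = 0 := by linarith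
      rcases mul_eq_zero.1 h5 with h6 | h6
      · exact absurd (pow_eq_zero_iff (two_ne_zero)|>.1 h6) h4
      · rw [h6, mul_zero]
  have hq0 : ∀ x, b x = 0 → C.q p y x x = 0 := by
    rcases polyR_mul_eq_zero_ker (C.polyR_c3 p y) (C.polyR_q p y) b hprod with h1 | h1
    · exfalso
      apply hz
      have h2 := h1 (z + (-b z) • p) (by rw [map_add, map_smul, hbp, smul_eq_mul]; ring)
      rwa [c3_add h] at h2
    · exact h1
  intro x hx
  refine ⟨hq0 x hx, ?_⟩
  have h1 := hb x
  rw [hx, mul_zero] at h1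
  unfold c4 at h1
  rw [hq0 x hx] at h1
  linarith

private theorem ty_expand (C : Qrt m) (x e : V m) (s : ℝ) :
    C.F (x - s • e) = C.F x - 4 * C.T x x x e * s + 6 * C.T x x e e * s ^ 2 -
      4 * C.T x e e e * s ^ 3 + C.F e * s ^ 4 := by
  have a1 : C.T x x e x = C.T x x x e := C.s₃ x x e x
  have a2 : C.T x e x x = C.T x x x e := by rw [C.s₂ x e x x, a1]
  have a3 : C.T e x x x = C.T x x x e := by rw [C.s₁ e x x x, a2]
  have b1 : C.T x e x e = C.T x x e e := C.s₂ x e x e
  have b2 : C.T x e e x = C.T x x e e := by rw [C.s₃ x e e x, b1]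
  have b3 : C.T e x x e = C.T x x e e := by rw [C.s₁ e x x e, b1]
  have b4 : C.T e x e x = C.T x x e e := by rw [C.s₁ e x e x, b2]
  have b5 : C.T e e x x = C.T x x e e := by rw [C.s₂ e e x x, b4]
  have c1 : C.T e x e e = C.T x e e e := C.s₁ e x e e
  have c2 : C.T e e x e = C.T x e e e := by rw [C.s₂ e e x e, c1]
  have c3 : C.T e e e x = C.T x e e e := by rw [C.s₃ e e e x, c2]
  have hx : x - s • e = x + (-s) • e := by rw [neg_smul, sub_eq_add_neg]
  rw [hx]
  unfold F
  simp only [map_add, map_smul, LinearMap.add_apply, LinearMap.smul_apply, smul_eq_mul]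
  rw [a1, a2, a3, b1, b2, b3, b4, b5, c1, c2, c3]
  ring

private theorem ty_coeff (c0 c1 c2 c3 c4 : ℝ) :
    (Polynomial.C c0 - Polynomial.C c1 * Polynomial.X + Polynomial.C c2 * Polynomial.X ^ 2 -
      Polynomial.C c3 * Polynomial.X ^ 3 + Polynomial.C c4 * Polynomial.X ^ 4).coeff 4 = c4 := by
  simp only [Polynomial.coeff_add, Polynomial.coeff_sub, Polynomial.coeff_C_mul,
    Polynomial.coeff_X_pow, Polynomial.coeff_C, Polynomial.coeff_X]
  norm_num

private theorem ty_fin (C : Qrt m) {e : V m} (he : C.F e ≠ 0) (x : V m) :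
    {s : ℝ | C.F (x - s • e) = 0}.Finite := by
  set P : Polynomial ℝ := Polynomial.C (C.F x) - Polynomial.C (4 * C.T x x x e) * Polynomial.X +
    Polynomial.C (6 * C.T x x e e) * Polynomial.X ^ 2 -
    Polynomial.C (4 * C.T x e e e) * Polynomial.X ^ 3 +
    Polynomial.C (C.F e) * Polynomial.X ^ 4 with hP
  have hP0 : P ≠ 0 := by
    intro h0
    apply he
    have h1 : P.coeff 4 = C.F e := by
      rw [hP]
      exact ty_coeff _ _ _ _ _
    rw [← h1, h0, Polynomial.coeff_zero]
  refine (Polynomial.finite_setOfPred_isRoot hP0).subset ?_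
  intro s hs
  show P.eval s = 0
  have h1 : C.F (x - s • e) = 0 := hs
  rw [ty_expand] at h1
  rw [hP]
  simp only [Polynomial.eval_add, Polynomial.eval_sub, Polynomial.eval_mul, Polynomial.eval_C,
    Polynomial.eval_X, Polynomial.eval_pow]
  exact h1

theorem finite_lin {e : V m} (he : C.F e ≠ 0) :
    {b : V m →ₗ[ℝ] ℝ | b e = 1 ∧ ∀ x, b x = 0 → C.F x = 0}.Finite := by
  have hfin : (Set.pi Set.univ fun i : Fin m =>
      {s : ℝ | C.F ((Pi.single i 1 : V m) - s • e) = 0}).Finite :=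
    Set.Finite.pi' (fun i => ty_fin C he (Pi.single i 1)) |>.subset (by
      intro f hf i
      exact hf i (Set.mem_univ i))
  refine Set.Finite.of_injOn (f := fun b : V m →ₗ[ℝ] ℝ => fun i : Fin m => b (Pi.single i 1)) ?_ ?_ hfin
  · rintro b ⟨hb1, hb2⟩ i _
    show C.F ((Pi.single i 1 : V m) - (b (Pi.single i 1)) • e) = 0
    apply hb2
    rw [map_sub, map_smul, hb1, smul_eq_mul, mul_one, sub_self]
  · intro b _ b' _ hbb
    apply LinearMap.pi_ext'
    intro i
    apply LinearMap.ext_ring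
    have h1 := congrFun hbb i
    simpa using h1

theorem not_good (h : ¬ C.Good p y) :
    (∀ x, C.c3 p y x = 0) ∨ ∀ x, C.q p y (C.xp p y x) (C.xp p y x) = 0 := by
  apply polyR_mul_eq_zero (C.polyR_c3 p y) (C.polyR_q_xp p y)
  intro x
  by_contra hne
  exact h ⟨x, left_ne_zero_of_mul hne, right_ne_zero_of_mul hne⟩

end Qrt

end Pool.Agent.QS
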