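import Pool.Agent.QS.ZDefs

/-!
# QS module ZAR: irreducible sets (owner helper41)

PROOF of `exists_irr_cover`. Noetherian induction on the ideal `I A` of the polynomials that vanish on `A`
(`MvPolynomial (Fin m) ℝ` is Noetherian: `WellFoundedGT` on ideals): if the statement fails for `A` and holds for all
`A'` with `I A < I A'`: `A = ∅` is a union of `0` sets. `A` is not irreducible, so there are `f, g` with `f g = 0` on `A`,
neither zero on `A`; `A = (A ∩ {f = 0}) ∪ (A ∩ {g = 0})` and both parts have a strictly larger ideal.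
PROOF of `Irr.pair`. Suppose `g a₀ b₀ ≠ 0`, `a₀, b₀ ∈ A`. For each `b ∈ A`: `a ↦ f a b`, `a ↦ g a b` are polynomial functions, so
one of them vanishes on `A`. Let `b ∈ A`. For `b` with `g a₀ b ≠ 0` the second one does not vanish on `A`, so
`f a b = 0` for all `a ∈ A`. So for each `a ∈ A`: `f a b * g a₀ b = 0` for all `b ∈ A`; both factors are polynomial
functions of `b`, and the second does not vanish at `b₀ ∈ A`; so `f a b = 0` for all `b ∈ A`.
-/

set_option autoImplicit false

open Set Topology Filter MvPolynomial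
open Pool.Agent.MZ

namespace Pool.Agent.QS

variable {m : ℕ}

private theorem zar_lt {A : Set (V m)} {f : V m → ℝ} (hf : PolyR m f) (hfa : ∃ a ∈ A, f a ≠ 0) :
    vanishingIdeal ℝ (A ∩ {x | f x = 0}) > vanishingIdeal ℝ A := by
  obtain ⟨P, hP⟩ := hf
  obtain ⟨a, ha, hfa⟩ := hfa
  refine lt_of_le_of_ne (vanishingIdeal_anti_mono inter_subset_left) fun heq => ?_
  have h1 : P ∈ vanishingIdeal ℝ (A ∩ {x | f x = 0}) := by
    rw [mem_vanishingIdeal_iff]
    intro x hx
    exact (hP x).trans hx.2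
  rw [← heq, mem_vanishingIdeal_iff] at h1
  have h2 : eval a P = 0 := h1 a ha
  rw [hP] at h2
  exact hfa h2

private theorem zar_append {k l : ℕ} {B : Fin k → Set (V m)} {D : Fin l → Set (V m)}
    (hB : ∀ i, Irr (B i)) (hD : ∀ i, Irr (D i)) :
    ∃ (n : ℕ) (E : Fin n → Set (V m)), (∀ i, Irr (E i)) ∧ (⋃ i, B i) ∪ (⋃ i, D i) = ⋃ i, E i := by
  refine ⟨k + l, Fin.append B D, fun i => ?_, ?_⟩
  · refine Fin.addCases (fun i => ?_) (fun i => ?_) i
    · rw [Fin.append_left]
      exact hB i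
    · rw [Fin.append_right]
      exact hD i
  · ext x
    simp only [mem_union, mem_iUnion]
    constructor
    · rintro (⟨i, hi⟩ | ⟨i, hi⟩)
      · exact ⟨Fin.castAdd l i, by rw [Fin.append_left]; exact hi⟩
      · exact ⟨Fin.natAdd k i, by rw [Fin.append_right]; exact hi⟩
    · rintro ⟨i, hi⟩
      revert hi
      refine Fin.addCases (fun i => ?_) (fun i => ?_) i
      · intro hi
        rw [Fin.append_left] at hi
        exact Or.inl ⟨i, hi⟩
      · intro hi
        rw [Fin.append_right] at hi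
        exact Or.inr ⟨i, hi⟩

theorem exists_irr_cover (A : Set (V m)) :
    ∃ (k : ℕ) (B : Fin k → Set (V m)), (∀ i, Irr (B i)) ∧ A = ⋃ i, B i := by
  have hwf : WellFounded
      ((· > ·) : Ideal (MvPolynomial (Fin m) ℝ) → Ideal (MvPolynomial (Fin m) ℝ) → Prop) :=
    wellFounded_gt
  suffices h : ∀ (I : Ideal (MvPolynomial (Fin m) ℝ)) (A : Set (V m)), vanishingIdeal ℝ A = I →
      ∃ (k : ℕ) (B : Fin k → Set (V m)), (∀ i, Irr (B i)) ∧ A = ⋃ i, B i from h _ A rfl
  intro I
  induction I using hwf.induction with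
  | _ I ih =>
    intro A hA
    by_cases hne : A.Nonempty
    · by_cases hirr : Irr A
      · exact ⟨1, fun _ => A, fun _ => hirr, (iUnion_const A).symm⟩
      · obtain ⟨f, g, hf, hg, hfg, hfa, hga⟩ : ∃ f g : V m → ℝ, PolyR m f ∧ PolyR m g ∧
            (∀ a ∈ A, f a * g a = 0) ∧ (∃ a ∈ A, f a ≠ 0) ∧ ∃ a ∈ A, g a ≠ 0 := by
          by_contra hcon
          apply hirr
          refine ⟨hne, fun f g hf hg hfg => ?_⟩
          by_contra hcon2
          push Not at hcon2
          exact hcon ⟨f, g, hf, hg, hfg, hcon2.1, hcon2.2⟩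
        obtain ⟨k, B, hB, eB⟩ := ih _ (hA ▸ zar_lt hf hfa) _ rfl
        obtain ⟨l, D, hD, eD⟩ := ih _ (hA ▸ zar_lt hg hga) _ rfl
        obtain ⟨n, E, hE, eE⟩ := zar_append hB hD
        refine ⟨n, E, hE, ?_⟩
        rw [← eE, ← eB, ← eD]
        ext x
        constructor
        · intro hx
          rcases mul_eq_zero.1 (hfg x hx) with h | h
          · exact Or.inl ⟨hx, h⟩
          · exact Or.inr ⟨hx, h⟩
        · rintro (h | h)
          · exact h.1
          · exact h.1
    · refine ⟨0, fun i => i.elim0, fun i => i.elim0, ?_⟩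
      rw [not_nonempty_iff_eq_empty.1 hne, iUnion_of_empty]

theorem Irr.pair {A : Set (V m)} (hA : Irr A) {f g : V m → V m → ℝ}
    (hf1 : ∀ b, PolyR m fun a => f a b) (hf2 : ∀ a, PolyR m fun b => f a b)
    (hg1 : ∀ b, PolyR m fun a => g a b) (hg2 : ∀ a, PolyR m fun b => g a b)
    (h : ∀ a ∈ A, ∀ b ∈ A, f a b * g a b = 0) :
    (∀ a ∈ A, ∀ b ∈ A, f a b = 0) ∨ ∀ a ∈ A, ∀ b ∈ A, g a b = 0 := by
  by_cases hg : ∀ a ∈ A, ∀ b ∈ A, g a b = 0
  · exact Or.inr hg
  · refine Or.inl ?_
    push Not at hg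
    obtain ⟨a₀, ha₀, b₀, hb₀, hne⟩ := hg
    have key : ∀ b ∈ A, g a₀ b ≠ 0 → ∀ a ∈ A, f a b = 0 := by
      intro b hb hgb
      rcases hA.2 _ _ (hf1 b) (hg1 b) (fun a ha => h a ha b hb) with h1 | h1
      · exact h1
      · exact absurd (h1 a₀ ha₀) hgb
    intro a ha
    rcases hA.2 _ _ (hf2 a) (hg2 a₀) (fun b hb => by
      by_cases hgb : g a₀ b = 0
      · rw [hgb, mul_zero]
      · rw [key b hb hgb a ha, zero_mul]) with h1 | h1
    · exact h1
    · exact absurd (h1 b₀ hb₀) hne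

end Pool.Agent.QS
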