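import Pool.Agent.QS.Tt
import Pool.Agent.QS.TyII
import Pool.Agent.QS.Zar

/-!
# QS module TSEC: if no rational sheet is good then `S` is a finite union of irreducible sets with square secants

`Sec B`: `B ⊆ S` and for all `a, b ∈ B` and every sheet `(a, y)`: `c3 a y b = 0`, `c4 a y b = 0`.

PROOFS. `sec_one`: let `a, b ∈ B`, `(a, y)` a sheet; `F b > 0`, let `(b, y')` be a sheet (`exists_Sh`). `pair1` says that
`c4 a y b = 0` or `T a a a b = 0` or `2 T a a a b * T a b b b = F a * F b`. By the definition of `q` and `y² = F a`: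
`(F a)³ * c4 a y b = (F a)³ F b - (3 F a * T a a b b - 2 (T a a a b)²)² =: f a b`, a polynomial function in `a` and in `b`
(`polyR_T`). Let `g a b = T a a a b * (2 T a a a b * T a b b b - F a * F b)`. `f a b * g a b = 0` on `B × B`, so by `Irr.pair`
`f = 0` on `B × B` or `g = 0` on `B × B`; the latter is impossible at `a = b`: `g a a = (F a)³ ≠ 0`. So
`c4 a y b = 0`.
`sec_two`: `pair2` gives `c3 a y b = 0`, and `a₀ a * c4 a y b = 4 c3 a y b * a₀ b = 0`, `a₀ a ≠ 0`. (Here `y` is any of the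
two values: `hB` is for one value of `y`; for `-y`: `q a (-y) = - q a y`, `c3 a (-y) = c3 a y`, `c4 a (-y) = c4 a y`,
directly from the definitions; two sheets over `a` have `y' = y` or `y' = -y`.)
`exists_sec_cover`: if `S = ∅` take `k = 0`. Otherwise let `e ∈ S`, so `F e ≠ 0`, and let `E` be the finite set of
`finite_lin`. `S` is the union of `A0 = {p ∈ S | ∀ y, Sh p y → ∀ x, c3 p y x = 0}` and, for `b ∈ E`,
`A b = {p ∈ S | b p ≠ 0 ∧ ∃ y, Sh p y ∧ (∀ x, b p * c4 p y x = 4 c3 p y x * b x) ∧ ∀ x, b x = 0 → q p y x x = 0}`: let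
`p ∈ S`, `(p, y)` a rational sheet (`exists_Sr`), not good. `not_good`: either `c3 p y = 0` identically (then also
for `-y`): `p ∈ A0`, or `q (xp x) (xp x) = 0` for all `x`; then, if `c3 p y ≠ 0` somewhere, `type2` gives `b` with
`b p = 1`, `c4 = 4 c3 b`, `q x x = 0` and `F x = 0` on `b x = 0`. `F e ≠ 0` so `b e ≠ 0`, and `b / b e ∈ E`, `p ∈ A (b / b e)`.
Take an irreducible cover (`exists_irr_cover`) of `A0` and of each `A b`; subsets of `A0` satisfy `sec_one`, subsets of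
`A b` satisfy `sec_two`. The union of finitely many finite families is a finite family (index type
`Σ`-type over a `Finite` type, `Finite.exists_equiv_fin` / `Fintype.equivFin` to get `Fin k`).
-/

set_option autoImplicit false

open Set Topology Filter MvPolynomial
open Pool.Agent.MZ

namespace Pool.Agent.QS

namespace Qrt

variable {m : ℕ} {C : Qrt m}

/-- all secants of `B` are squares -/
def Sec (C : Qrt m) (B : Set (V m)) : Prop :=
  B ⊆ C.S ∧ ∀ a ∈ B, ∀ b ∈ B, ∀ y, C.Sh a y → C.c3 a y b = 0 ∧ C.c4 a y b = 0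

private theorem ts_q_neg (p : V m) (y : ℝ) (u v : V m) : C.q p (-y) u v = -C.q p y u v := by
  unfold q
  rw [show (-y) ^ 3 = -(y ^ 3) by ring, show (-y) ^ 2 = y ^ 2 by ring, div_neg]

private theorem ts_c3_neg (p : V m) (y : ℝ) (x : V m) : C.c3 p (-y) x = C.c3 p y x := by
  unfold c3
  rw [ts_q_neg, div_neg, neg_mul_neg]

private theorem ts_c4_neg (p : V m) (y : ℝ) (x : V m) : C.c4 p (-y) x = C.c4 p y x := by
  unfold c4
  rw [ts_q_neg, neg_sq]

private theorem ts_sh_eq {p : V m} {y y' : ℝ} (h : C.Sh p y) (h' : C.Sh p y') :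
    y' = y ∨ y' = -y := sq_eq_sq_iff_eq_or_eq_neg.1 (by rw [← h'.2, ← h.2])

private theorem ts_F_pos {p : V m} (h : p ∈ C.S) : 0 < C.F p := by
  obtain ⟨-, r, -, h3, h4⟩ := h
  rw [h4]
  positivity

private theorem ts_c4_eq {a b : V m} {y : ℝ} (h : C.Sh a y) :
    (C.F a) ^ 3 * C.c4 a y b =
      (C.F a) ^ 3 * C.F b - (3 * C.F a * C.T a a b b - 2 * (C.T a a a b) ^ 2) ^ 2 := by
  have hy : y ≠ 0 := h.1
  unfold c4 q
  rw [h.2]
  field_simp

theorem sec_one {B : Set (V m)} (hI : Irr B) (hS : B ⊆ C.S)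
    (h : ∀ a ∈ B, ∀ y, C.Sh a y → ∀ x, C.c3 a y x = 0) : C.Sec B := by
  refine ⟨hS, ?_⟩
  have hcst : ∀ a : V m, ∀ i, PolyR m fun _ => a i := fun a i => PolyR.const _
  have hcrd : ∀ i, PolyR m fun x : V m => x i := fun i => PolyR.coord i
  have hf1 : ∀ b, PolyR m fun a => (C.F a) ^ 3 * C.F b -
      (3 * C.F a * C.T a a b b - 2 * (C.T a a a b) ^ 2) ^ 2 := by
    intro b
    have h1 : PolyR m fun a => 3 * C.F a * C.T a a b b - 2 * (C.T a a a b * C.T a a a b) :=
      (((PolyR.const 3).mul C.polyR_F).mul (C.polyR_T hcrd hcrd (hcst b) (hcst b))).sub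
        ((PolyR.const 2).mul ((C.polyR_T hcrd hcrd hcrd (hcst b)).mul
          (C.polyR_T hcrd hcrd hcrd (hcst b))))
    have h2 := (((C.polyR_F.mul C.polyR_F).mul C.polyR_F).mul (PolyR.const (C.F b))).sub
      (h1.mul h1)
    have e : (fun a => (C.F a) ^ 3 * C.F b -
        (3 * C.F a * C.T a a b b - 2 * (C.T a a a b) ^ 2) ^ 2) =
        fun a => C.F a * C.F a * C.F a * C.F b -
          (3 * C.F a * C.T a a b b - 2 * (C.T a a a b * C.T a a a b)) *
          (3 * C.F a * C.T a a b b - 2 * (C.T a a a b * C.T a a a b)) := by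
      funext a
      ring
    rw [e]
    exact h2
  have hf2 : ∀ a, PolyR m fun b => (C.F a) ^ 3 * C.F b -
      (3 * C.F a * C.T a a b b - 2 * (C.T a a a b) ^ 2) ^ 2 := by
    intro a
    have h1 : PolyR m fun b => 3 * C.F a * C.T a a b b - 2 * (C.T a a a b * C.T a a a b) :=
      ((PolyR.const (3 * C.F a)).mul (C.polyR_T (hcst a) (hcst a) hcrd hcrd)).sub
        ((PolyR.const 2).mul ((C.polyR_T (hcst a) (hcst a) (hcst a) hcrd).mul
          (C.polyR_T (hcst a) (hcst a) (hcst a) hcrd)))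
    have h2 := ((PolyR.const ((C.F a) ^ 3)).mul C.polyR_F).sub (h1.mul h1)
    have e : (fun b => (C.F a) ^ 3 * C.F b -
        (3 * C.F a * C.T a a b b - 2 * (C.T a a a b) ^ 2) ^ 2) =
        fun b => (C.F a) ^ 3 * C.F b -
          (3 * C.F a * C.T a a b b - 2 * (C.T a a a b * C.T a a a b)) *
          (3 * C.F a * C.T a a b b - 2 * (C.T a a a b * C.T a a a b)) := by
      funext b
      ring
    rw [e]
    exact h2
  have hg1 : ∀ b, PolyR m fun a => C.T a a a b * (2 * C.T a a a b * C.T a b b b -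
      C.F a * C.F b) := by
    intro b
    exact (C.polyR_T hcrd hcrd hcrd (hcst b)).mul
      ((((PolyR.const 2).mul (C.polyR_T hcrd hcrd hcrd (hcst b))).mul
        (C.polyR_T hcrd (hcst b) (hcst b) (hcst b))).sub (C.polyR_F.mul (PolyR.const (C.F b))))
  have hg2 : ∀ a, PolyR m fun b => C.T a a a b * (2 * C.T a a a b * C.T a b b b -
      C.F a * C.F b) := by
    intro a
    exact (C.polyR_T (hcst a) (hcst a) (hcst a) hcrd).mul
      ((((PolyR.const 2).mul (C.polyR_T (hcst a) (hcst a) (hcst a) hcrd)).mul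
        (C.polyR_T (hcst a) hcrd hcrd hcrd)).sub ((PolyR.const (C.F a)).mul C.polyR_F))
  have hprod : ∀ a ∈ B, ∀ b ∈ B, ((C.F a) ^ 3 * C.F b -
      (3 * C.F a * C.T a a b b - 2 * (C.T a a a b) ^ 2) ^ 2) *
      (C.T a a a b * (2 * C.T a a a b * C.T a b b b - C.F a * C.F b)) = 0 := by
    intro a ha b hb
    have hya := exists_Sh (ts_F_pos (hS ha))
    have hyb := exists_Sh (ts_F_pos (hS hb))
    rw [← ts_c4_eq (b := b) hya]
    rcases pair1 hya hyb (h a ha _ hya) (h b hb _ hyb) with h1 | h1 | h1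
    · rw [h1]
      ring
    · rw [h1]
      ring
    · rw [h1]
      ring
  rcases hI.pair hf1 hf2 hg1 hg2 hprod with h1 | h1
  · intro a ha b hb y hy
    refine ⟨h a ha y hy b, ?_⟩
    have h2 := ts_c4_eq (b := b) hy
    rw [h1 a ha b hb] at h2
    have h3 : (C.F a) ^ 3 ≠ 0 := pow_ne_zero 3 (ts_F_pos (hS ha)).ne'
    exact (mul_eq_zero.1 h2).resolve_left h3
  · exfalso
    obtain ⟨a, ha⟩ := hI.1
    have h2 := h1 a ha a ha
    have h3 := ts_F_pos (hS ha)
    have h4 : C.T a a a a = C.F a := rfl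
    rw [h4] at h2
    have h5 : C.F a * (2 * C.F a * C.F a - C.F a * C.F a) = (C.F a) ^ 3 := by ring
    rw [h5] at h2
    exact pow_ne_zero 3 h3.ne' h2

theorem sec_two {B : Set (V m)} (hS : B ⊆ C.S) {a₀ : V m →ₗ[ℝ] ℝ}
    (hB : ∀ a ∈ B, a₀ a ≠ 0 ∧ ∃ y, C.Sh a y ∧
      (∀ x, a₀ a * C.c4 a y x = 4 * C.c3 a y x * a₀ x) ∧ ∀ x, a₀ x = 0 → C.q a y x x = 0) :
    C.Sec B := by
  refine ⟨hS, ?_⟩
  intro a ha b hb y hy
  obtain ⟨ha0, ya, hya, hya4, hyaq⟩ := hB a ha
  obtain ⟨hb0, yb, hyb, hyb4, hybq⟩ := hB b hb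
  have h1 : C.c3 a ya b = 0 := pair2 hya hyb ha0 hb0 hya4 hyb4 hyaq hybq
  have h2 : C.c4 a ya b = 0 := by
    have h3 := hya4 b
    rw [h1, mul_zero, zero_mul] at h3
    exact (mul_eq_zero.1 h3).resolve_left ha0
  rcases ts_sh_eq hya hy with h3 | h3
  · rw [h3]
    exact ⟨h1, h2⟩
  · rw [h3, ts_c3_neg, ts_c4_neg]
    exact ⟨h1, h2⟩

private theorem ts_glue {ι : Type*} [Finite ι] (A : ι → Set (V m))
    (hA : ∀ i, ∀ B : Set (V m), Irr B → B ⊆ A i → C.Sec B) (hS : C.S = ⋃ i, A i) :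
    ∃ (k : ℕ) (B : Fin k → Set (V m)), (∀ i, Irr (B i)) ∧ (∀ i, C.Sec (B i)) ∧
      C.S = ⋃ i, B i := by
  choose k B hB hAB using fun i => exists_irr_cover (A i)
  obtain ⟨n, ⟨e⟩⟩ := Finite.exists_equiv_fin (Σ i : ι, Fin (k i))
  refine ⟨n, fun j => B (e.symm j).1 (e.symm j).2, fun j => hB _ _, fun j => ?_, ?_⟩
  · refine hA (e.symm j).1 _ (hB _ _) ?_
    rw [hAB (e.symm j).1]
    exact subset_iUnion (B (e.symm j).1) (e.symm j).2
  · ext x
    rw [hS, mem_iUnion, mem_iUnion]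
    constructor
    · rintro ⟨i, hi⟩
      rw [hAB i, mem_iUnion] at hi
      obtain ⟨j, hj⟩ := hi
      refine ⟨e ⟨i, j⟩, ?_⟩
      rw [e.symm_apply_apply]
      exact hj
    · rintro ⟨j, hj⟩
      refine ⟨(e.symm j).1, ?_⟩
      rw [hAB (e.symm j).1, mem_iUnion]
      exact ⟨_, hj⟩

theorem exists_sec_cover (hbad : ∀ z ∈ C.Sr, ¬ C.Good z.1 z.2) :
    ∃ (k : ℕ) (B : Fin k → Set (V m)), (∀ i, Irr (B i)) ∧ (∀ i, C.Sec (B i)) ∧
      C.S = ⋃ i, B i := by
  rcases C.S.eq_empty_or_nonempty with hem | ⟨e, he⟩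
  · refine ⟨0, fun _ => ∅, fun i => i.elim0, fun i => i.elim0, ?_⟩
    rw [hem, iUnion_of_empty]
  have heF : C.F e ≠ 0 := (ts_F_pos he).ne'
  have hfin := finite_lin (C := C) heF
  have : Finite {b : V m →ₗ[ℝ] ℝ | b e = 1 ∧ ∀ x, b x = 0 → C.F x = 0} := hfin
  refine ts_glue (ι := Option {b : V m →ₗ[ℝ] ℝ | b e = 1 ∧ ∀ x, b x = 0 → C.F x = 0})
    (fun i => Option.elim i {p | p ∈ C.S ∧ ∀ y, C.Sh p y → ∀ x, C.c3 p y x = 0}
      fun b => {p | p ∈ C.S ∧ b.1 p ≠ 0 ∧ ∃ y, C.Sh p y ∧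
        (∀ x, b.1 p * C.c4 p y x = 4 * C.c3 p y x * b.1 x) ∧
        ∀ x, b.1 x = 0 → C.q p y x x = 0}) ?_ ?_
  · intro i B hI hB
    cases i with
    | none => exact sec_one hI (fun a ha => (hB ha).1) fun a ha => (hB ha).2
    | some b => exact sec_two (fun a ha => (hB ha).1) (a₀ := b.1) fun a ha => (hB ha).2
  · ext p
    rw [mem_iUnion]
    constructor
    · intro hp
      obtain ⟨y, hy⟩ := exists_Sr hp
      have hSh : C.Sh p y := hy.2.2
      by_cases h3 : ∀ x, C.c3 p y x = 0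
      · refine ⟨none, hp, ?_⟩
        intro y' hy' x
        rcases ts_sh_eq hSh hy' with h4 | h4
        · rw [h4]
          exact h3 x
        · rw [h4, ts_c3_neg]
          exact h3 x
      · have hq := (not_good (hbad _ hy)).resolve_left h3
        push Not at h3
        obtain ⟨b, hb1, hb2, hb3⟩ := type2 hSh h3 hq
        have hbe : b e ≠ 0 := fun h5 => heF (hb3 e h5).2
        have hz : ∀ x, ((b e)⁻¹ • b) x = 0 → b x = 0 := by
          intro x hx
          rw [LinearMap.smul_apply, smul_eq_mul] at hx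
          exact (mul_eq_zero.1 hx).resolve_left (inv_ne_zero hbe)
        refine ⟨some ⟨(b e)⁻¹ • b, ?_, fun x hx => (hb3 x (hz x hx)).2⟩, hp, ?_, y, hSh, ?_, ?_⟩
        · rw [LinearMap.smul_apply, smul_eq_mul, inv_mul_cancel₀ hbe]
        · show ((b e)⁻¹ • b) p ≠ 0
          rw [LinearMap.smul_apply, smul_eq_mul, hb1, mul_one]
          exact inv_ne_zero hbe
        · intro x
          show ((b e)⁻¹ • b) p * C.c4 p y x = 4 * C.c3 p y x * ((b e)⁻¹ • b) x
          rw [LinearMap.smul_apply, LinearMap.smul_apply, smul_eq_mul, smul_eq_mul, hb1, hb2 x]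
          ring
        · intro x hx
          exact (hb3 x (hz x hx)).1
    · rintro ⟨i, hi⟩
      cases i with
      | none => exact hi.1
      | some b => exact hi.1

end Qrt

end Pool.Agent.QS
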