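import Pool.Agent.QS.Zar
import Pool.Agent.QS.Uf
import Pool.Agent.MZ.RatD

/-!
# QS module ZLIN: irreducible pieces whose rational combinations stay in the union (owner helper41)

PROOF. Choose `j` with `zc (B i) ⊆ zc (B j)` and `zc (B j)` maximal among the finitely many `zc (B l)` with this
property. Let `A' = {u a + v b | a, b ∈ B j, u, v ∈ ℚ}`. `A'` is irreducible: for polynomial functions `f, g` with `f g = 0`
on `A'`: for fixed `u, v` apply `Irr.pair` to `f (u a + v b)`, `g (u a + v b)`: so for each `(u, v) ∈ ℚ²` one of them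
vanishes for all `a, b ∈ B j`; if `g (u₀ a₀ + v₀ b₀) ≠ 0` then `f (u a + v b) = 0` for all `a, b` and all `(u, v) ∈ ℚ²` with
`g (u a₀ + v b₀) ≠ 0`, and for fixed `a, b` the function `(u, v) ↦ f (u a + v b) * g (u a₀ + v b₀)` is polynomial and zero on
`ℚ²`, so zero on `ℝ²` (density of `ℚ²`, continuity), so one factor is zero on `ℝ²` (`MvPolynomial` domain), not the
second. `G` is not zero on `A'` (`B j ⊆ A'`: `u = 1, v = 0`). `A'' = A' ∩ {G ≠ 0}` is contained in `⋃ l, B l`. There is `l`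
with `A'' ⊆ zc (B l)`: otherwise for each `l` there is a polynomial function `f l` that vanishes on `B l` and not on
`A''`; the product of all `f l` and `G` vanishes on `A'`, so (irreducible; `Finset` induction) one of the factors vanishes on
`A'`, contradiction. `B j ⊆ A''` so `zc (B j) ⊆ zc (B l)`, so `zc (B l) = zc (B j)` (maximality). If a polynomial function `f`
vanishes on `B j` then `f G` vanishes on `A'`, so `f` vanishes on `A'`. So `u a + v b ∈ zc (B j)` for `a, b ∈ B j`, `u, v ∈ ℚ`,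
by continuity of the `f` for `u, v ∈ ℝ`. For fixed `b ∈ B j` and `u, v`: `a ↦ f (u a + v b)` vanishes on `B j`, hence on
`zc (B j)`; then the same in `b`. So `zc (B j)` is a linear subspace (it contains `0 = 0 a + 0 b`) and contains the span of
`B j`. Conversely the span is the intersection of the kernels of the linear forms vanishing on `B j`
(`Submodule.exists_le_ker_of_notMem` or `Submodule.forall_le_ker..`, dual separation), and linear forms are polynomial
functions (`PolyR.lin`), so `zc (B j) ⊆ span`.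
-/

set_option autoImplicit false

open Set Topology Filter MvPolynomial
open Pool.Agent.MZ

namespace Pool.Agent.QS

variable {m : ℕ}

private theorem zlin_comp {k : ℕ} {f : V m → ℝ} (hf : PolyR m f) {c : V k → V m}
    (hc : ∀ i, PolyR k fun x => c x i) : PolyR k fun x => f (c x) := by
  obtain ⟨F, hF⟩ := hf
  have h : (fun x => f (c x)) = fun x => eval (c x) F := funext fun x => (hF (c x)).symm
  rw [h]
  clear h hF
  induction F using MvPolynomial.induction_on with
  | C a => simpa only [eval_C] using PolyR.const a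
  | add p q hp hq => simpa only [map_add] using hp.add hq
  | mul_X p i hp => simpa only [map_mul, eval_X] using hp.mul (hc i)

/-- `f (u a + v b)` as a function of `(u, v)` -/
private theorem zlin_uv {f : V m → ℝ} (hf : PolyR m f) (a b : V m) :
    PolyR 2 fun w : V 2 => f (w 0 • a + w 1 • b) :=
  zlin_comp hf (c := fun w : V 2 => w 0 • a + w 1 • b) fun i =>
    ((PolyR.coord 0).mul (PolyR.const (a i))).add ((PolyR.coord 1).mul (PolyR.const (b i)))

private theorem zlin_a {f : V m → ℝ} (hf : PolyR m f) (u v : ℝ) (b : V m) :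
    PolyR m fun a : V m => f (u • a + v • b) :=
  zlin_comp hf (c := fun a : V m => u • a + v • b) fun i =>
    ((PolyR.const u).mul (PolyR.coord i)).add (PolyR.const (v * b i))

private theorem zlin_b {f : V m → ℝ} (hf : PolyR m f) (u v : ℝ) (a : V m) :
    PolyR m fun b : V m => f (u • a + v • b) :=
  zlin_comp hf (c := fun b : V m => u • a + v • b) fun i =>
    (PolyR.const (u * a i)).add ((PolyR.const v).mul (PolyR.coord i))

/-- a polynomial function of two variables that vanishes at the rational points is zero -/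
private theorem zlin_zero {f : V 2 → ℝ} (hf : PolyR 2 f)
    (h : ∀ u v : ℚ, f ![(u : ℝ), (v : ℝ)] = 0) (w : V 2) : f w = 0 := by
  have hcl : IsClosed {w : V 2 | f w = 0} := isClosed_eq hf.continuous continuous_const
  have hsub : {x : V 2 | IsRat x} ⊆ {w : V 2 | f w = 0} := by
    rintro x ⟨q, rfl⟩
    have h1 := h (q 0) (q 1)
    have h2 : (![((q 0 : ℚ) : ℝ), ((q 1 : ℚ) : ℝ)] : V 2) = rv q := by
      funext i
      fin_cases i <;> rfl
    rw [h2] at h1
    exact h1
  exact hcl.closure_subset_iff.2 hsub (dense_isRat w)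

/-- the rational combinations of two elements of an irreducible set -/
private theorem zlin_irr {A : Set (V m)} (hA : Irr A) :
    Irr {x : V m | ∃ a ∈ A, ∃ b ∈ A, ∃ u v : ℚ, x = (u : ℝ) • a + (v : ℝ) • b} := by
  obtain ⟨a₁, ha₁⟩ := hA.1
  refine ⟨⟨_, a₁, ha₁, a₁, ha₁, 0, 0, rfl⟩, fun f g hf hg hfg => ?_⟩
  by_cases hgA : ∀ x ∈ {x : V m | ∃ a ∈ A, ∃ b ∈ A, ∃ u v : ℚ, x = (u : ℝ) • a + (v : ℝ) • b},
      g x = 0
  · exact Or.inr hgA
  · refine Or.inl ?_
    push Not at hgA
    obtain ⟨x₀, ⟨a₀, ha₀, b₀, hb₀, u₀, v₀, rfl⟩, hne⟩ := hgA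
    have h1 : ∀ u v : ℚ, g ((u : ℝ) • a₀ + (v : ℝ) • b₀) ≠ 0 →
        ∀ a ∈ A, ∀ b ∈ A, f ((u : ℝ) • a + (v : ℝ) • b) = 0 := by
      intro u v hguv
      rcases hA.pair (f := fun a b => f ((u : ℝ) • a + (v : ℝ) • b))
        (g := fun a b => g ((u : ℝ) • a + (v : ℝ) • b))
        (fun b => zlin_a hf _ _ b) (fun a => zlin_b hf _ _ a)
        (fun b => zlin_a hg _ _ b) (fun a => zlin_b hg _ _ a)
        (fun a ha b hb => hfg _ ⟨a, ha, b, hb, u, v, rfl⟩) with h2 | h2
      · exact h2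
      · exact absurd (h2 a₀ ha₀ b₀ hb₀) hguv
    rintro x ⟨a, ha, b, hb, u, v, rfl⟩
    have h2 : ∀ w : V 2, f (w 0 • a + w 1 • b) * g (w 0 • a₀ + w 1 • b₀) = 0 := by
      refine zlin_zero ((zlin_uv hf a b).mul (zlin_uv hg a₀ b₀)) fun u v => ?_
      show f ((u : ℝ) • a + (v : ℝ) • b) * g ((u : ℝ) • a₀ + (v : ℝ) • b₀) = 0
      by_cases h3 : g ((u : ℝ) • a₀ + (v : ℝ) • b₀) = 0
      · rw [h3, mul_zero]
      · rw [h1 u v h3 a ha b hb, zero_mul]
    rcases polyR_mul_eq_zero (zlin_uv hf a b) (zlin_uv hg a₀ b₀) h2 with h3 | h3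
    · exact h3 ![(u : ℝ), (v : ℝ)]
    · exact absurd (h3 ![(u₀ : ℝ), (v₀ : ℝ)]) hne

private theorem zlin_prod {ι : Type*} {s : Finset ι} {f : ι → V m → ℝ}
    (hf : ∀ i, PolyR m (f i)) : PolyR m fun x => ∏ i ∈ s, f i x := by
  classical
  induction s using Finset.induction_on with
  | empty => simpa using PolyR.const (m := m) 1
  | insert a s ha ih =>
    simp only [Finset.prod_insert ha]
    exact (hf a).mul ih

private theorem zlin_irr_prod {A : Set (V m)} (hA : Irr A) {ι : Type*} {s : Finset ι}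
    {f : ι → V m → ℝ} (hf : ∀ i, PolyR m (f i)) (h : ∀ a ∈ A, ∏ i ∈ s, f i a = 0) :
    ∃ i ∈ s, ∀ a ∈ A, f i a = 0 := by
  classical
  induction s using Finset.induction_on with
  | empty =>
    obtain ⟨a, ha⟩ := hA.1
    have := h a ha
    simp at this
  | insert i s hi ih =>
    simp only [Finset.prod_insert hi] at h
    rcases hA.2 _ _ (hf i) (zlin_prod hf) h with h1 | h1
    · exact ⟨i, Finset.mem_insert_self _ _, h1⟩
    · obtain ⟨j, hj, h2⟩ := ih h1
      exact ⟨j, Finset.mem_insert_of_mem hj, h2⟩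

theorem subset_zc (A : Set (V m)) : A ⊆ zc A := fun _ hx _ _ h => h _ hx

theorem zc_subset {A B : Set (V m)} (h : A ⊆ zc B) : zc A ⊆ zc B :=
  fun _ hx f hf hB => hx f hf fun _ ha => h ha f hf hB

/-- if the rational combinations of two elements of `A` lie in `zc A` then `zc A` is the span -/
private theorem zlin_span {A : Set (V m)} (hne : A.Nonempty)
    (h : ∀ a ∈ A, ∀ b ∈ A, ∀ u v : ℚ, (u : ℝ) • a + (v : ℝ) • b ∈ zc A) :
    zc A = (Submodule.span ℝ A : Set (V m)) := by
  have h1 : ∀ a ∈ A, ∀ b ∈ A, ∀ u v : ℝ, u • a + v • b ∈ zc A := by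
    intro a ha b hb u v f hf hfA
    exact zlin_zero (zlin_uv hf a b) (fun u v => h a ha b hb u v f hf hfA) ![u, v]
  have h2 : ∀ a ∈ zc A, ∀ b ∈ A, ∀ u v : ℝ, u • a + v • b ∈ zc A := by
    intro a ha b hb u v f hf hfA
    exact ha _ (zlin_a hf u v b) fun a ha => h1 a ha b hb u v f hf hfA
  have h3 : ∀ a ∈ zc A, ∀ b ∈ zc A, ∀ u v : ℝ, u • a + v • b ∈ zc A := by
    intro a ha b hb u v f hf hfA
    exact hb _ (zlin_b hf u v a) fun b hb => h2 a ha b hb u v f hf hfA
  obtain ⟨a₀, ha₀⟩ := hne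
  have h0 : (0 : V m) ∈ zc A := by
    have := h1 a₀ ha₀ a₀ ha₀ 0 0
    rwa [zero_smul, add_zero] at this
  refine Subset.antisymm (fun x hx => ?_) ?_
  · by_contra hxn
    obtain ⟨f, hfx, hf⟩ := Submodule.exists_le_ker_of_notMem (p := Submodule.span ℝ A) hxn
    exact hfx (hx _ (PolyR.lin f) fun a ha => hf (Submodule.subset_span ha))
  · let W : Submodule ℝ (V m) :=
      { carrier := zc A
        add_mem' := fun {a b} ha hb => by
          have := h3 a ha b hb 1 1
          rwa [one_smul, one_smul] at this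
        zero_mem' := h0
        smul_mem' := fun c a ha => by
          have := h3 a ha 0 h0 c 1
          rwa [one_smul, add_zero] at this }
    exact (Submodule.span_le (p := W)).2 (subset_zc A)

theorem span_of_pieces {k : ℕ} {B : Fin k → Set (V m)} (hB : ∀ i, Irr (B i)) {G : V m → ℝ}
    (hG : PolyR m G) (hne : ∀ i, ∀ x ∈ B i, G x ≠ 0)
    (hsec : ∀ i, ∀ a ∈ B i, ∀ b ∈ B i, ∀ u v : ℚ,
      ((u : ℝ) • a + (v : ℝ) • b) ∈ ⋃ j, B j ∨ G ((u : ℝ) • a + (v : ℝ) • b) = 0) (i : Fin k) :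
    ∃ j, zc (B i) ⊆ zc (B j) ∧ zc (B j) = (Submodule.span ℝ (B j) : Set (V m)) := by
  obtain ⟨j, hj, hmax⟩ := Set.Finite.exists_maximalFor (fun l => zc (B l))
    {l : Fin k | zc (B i) ⊆ zc (B l)} (toFinite _) ⟨i, Subset.rfl⟩
  refine ⟨j, hj, ?_⟩
  set A' : Set (V m) :=
    {x : V m | ∃ a ∈ B j, ∃ b ∈ B j, ∃ u v : ℚ, x = (u : ℝ) • a + (v : ℝ) • b} with hA'
  have hirr : Irr A' := zlin_irr (hB j)
  have hsub : B j ⊆ A' := fun a ha => ⟨a, ha, a, ha, 1, 0, by simp⟩
  obtain ⟨a₀, ha₀⟩ := (hB j).1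
  have hGA : ¬ ∀ x ∈ A', G x = 0 := fun h => hne j a₀ ha₀ (h a₀ (hsub ha₀))
  -- a piece which contains the part of `A'` where `G` is not zero
  obtain ⟨l, hl⟩ : ∃ l, ∀ x ∈ A', G x ≠ 0 → x ∈ zc (B l) := by
    by_contra hcon
    push Not at hcon
    have h1 : ∀ l, ∃ f : V m → ℝ, PolyR m f ∧ (∀ a ∈ B l, f a = 0) ∧ ∃ x ∈ A', f x ≠ 0 := by
      intro l
      obtain ⟨x, hx, -, hxl⟩ := hcon l
      by_contra hcon2
      apply hxl
      intro f hf hfB
      by_contra hfx
      exact hcon2 ⟨f, hf, hfB, x, hx, hfx⟩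
    choose f hf hfB hfA using h1
    have h2 : ∀ x ∈ A', (∏ l ∈ Finset.univ, f l x) * G x = 0 := by
      rintro x ⟨a, ha, b, hb, u, v, rfl⟩
      rcases hsec j a ha b hb u v with h3 | h3
      · obtain ⟨l, hl⟩ := mem_iUnion.1 h3
        rw [Finset.prod_eq_zero (Finset.mem_univ l) (hfB l _ hl), zero_mul]
      · rw [h3, mul_zero]
    rcases hirr.2 _ _ (zlin_prod hf) hG h2 with h3 | h3
    · obtain ⟨l, -, h4⟩ := zlin_irr_prod hirr hf h3
      obtain ⟨x, hx, hfx⟩ := hfA l
      exact hfx (h4 x hx)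
    · exact hGA h3
  have hjl : zc (B j) ⊆ zc (B l) := zc_subset fun a ha => hl a (hsub ha) (hne j a ha)
  have hlj : zc (B l) ⊆ zc (B j) := hmax (Subset.trans hj hjl) hjl
  refine zlin_span ⟨a₀, ha₀⟩ fun a ha b hb u v f hf hfB => ?_
  have h5 : ∀ x ∈ A', f x * G x = 0 := by
    intro x hx
    by_cases hGx : G x = 0
    · rw [hGx, mul_zero]
    · rw [hlj (hl x hx hGx) f hf hfB, zero_mul]
  rcases hirr.2 _ _ hf hG h5 with h6 | h6
  · exact h6 _ ⟨a, ha, b, hb, u, v, rfl⟩
  · exact absurd h6 hGA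

end Pool.Agent.QS
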