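import Pool.Agent.QS.Defs

/-!
# QS module BAS: continuity, derivatives, polynomial functions, rationality, scaling

PROOFS. `continuous_comp`, `hasDerivAt_comp`: copy the proofs of `Pool.Agent.MZ.Cub.continuous_comp`, `hasDerivAt_comp`
(MZ/Basic.lean): expand the vectors on the basis `Pi.single i 1` one after the other. `polyR_T`: the same expansion,
`PolyR.sum`, `PolyR.mul`, `PolyR.const` (MZ/RatAlg.lean). `isQ_*`, `isRat_*`: `IsQ.add`, `IsQ.mul`, .. , `C.rat`.
`S_smul`: `F (t • x) = t ^ 4 * F x = (t ^ 2 * r) ^ 2`. `Z_smul` (real `t ≠ 0`): for rational `t ≠ 0` by `S_smul` and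
continuity; the rationals `≠ 0` are dense: `map_mem_closure₂` for `(t, x) ↦ t • x` with `{t | IsQ t ∧ t ≠ 0}`, dense in
`ℝ`. `F_nonneg`: closure of `{F ≥ 0}`. `sheet_closure`: let `x ∈ Z`, `F x = y ^ 2`, `y ≠ 0`. For a neighbourhood
`W × W'` of `(x, y)`: the function `z ↦ sgn(y) √(F z)` is continuous with value `y` at `x`, so there is `z ∈ S` in `W`
with `sgn(y) √(F z) ∈ W'`; `F z = r ^ 2`, so `√(F z) = |r|` is rational. `F_pos_of_Sh`: clear.
-/

set_option autoImplicit false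

open Set Topology Filter MvPolynomial
open Pool.Agent.MZ

namespace Pool.Agent.QS

namespace Qrt

variable {m : ℕ} (C : Qrt m)

private theorem bs_expand {m : ℕ} {W : Type*} [AddCommMonoid W] [Module ℝ W]
    (f : V m →ₗ[ℝ] W) (x : V m) : f x = ∑ i, x i • f (Pi.single i 1) := by
  have h : x = ∑ i, x i • (Pi.single i 1 : V m) := by
    ext j
    simp [Finset.sum_apply, Pi.single_apply]
  conv_lhs => rw [h]
  rw [map_sum]
  exact Finset.sum_congr rfl fun i _ => by rw [map_smul]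

private theorem bs_T1 (x y z w : V m) :
    C.T x y z w = ∑ i, x i * C.T (Pi.single i 1) y z w := by
  rw [bs_expand C.T x, LinearMap.sum_apply, LinearMap.sum_apply, LinearMap.sum_apply]
  exact Finset.sum_congr rfl fun i _ => by
    rw [LinearMap.smul_apply, LinearMap.smul_apply, LinearMap.smul_apply, smul_eq_mul]

private theorem bs_T2 (u y z w : V m) :
    C.T u y z w = ∑ i, y i * C.T u (Pi.single i 1) z w := by
  rw [bs_expand (C.T u) y, LinearMap.sum_apply, LinearMap.sum_apply]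
  exact Finset.sum_congr rfl fun i _ => by
    rw [LinearMap.smul_apply, LinearMap.smul_apply, smul_eq_mul]

private theorem bs_T3 (u v z w : V m) :
    C.T u v z w = ∑ i, z i * C.T u v (Pi.single i 1) w := by
  rw [bs_expand (C.T u v) z, LinearMap.sum_apply]
  exact Finset.sum_congr rfl fun i _ => by
    rw [LinearMap.smul_apply, smul_eq_mul]

private theorem bs_T4 (u v w z : V m) :
    C.T u v w z = ∑ i, z i * C.T u v w (Pi.single i 1) := by
  rw [bs_expand (C.T u v w) z]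
  exact Finset.sum_congr rfl fun i _ => by
    rw [smul_eq_mul]

theorem continuous_comp {X : Type*} [TopologicalSpace X] {a b c d : X → V m}
    (ha : Continuous a) (hb : Continuous b) (hc : Continuous c) (hd : Continuous d) :
    Continuous fun x => C.T (a x) (b x) (c x) (d x) := by
  have h1 : ∀ u v w : V m, Continuous fun x => C.T u v w (d x) := fun u v w =>
    (LinearMap.continuous_of_finiteDimensional (C.T u v w)).comp hd
  have h2 : ∀ u v : V m, Continuous fun x => C.T u v (c x) (d x) := by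
    intro u v
    have e : (fun x => C.T u v (c x) (d x)) =
        fun x => ∑ i, c x i * C.T u v (Pi.single i 1) (d x) := funext fun x => C.bs_T3 _ _ _ _
    rw [e]
    exact continuous_finsetSum _ fun i _ => ((continuous_apply i).comp hc).mul (h1 _ _ _)
  have h3 : ∀ u : V m, Continuous fun x => C.T u (b x) (c x) (d x) := by
    intro u
    have e : (fun x => C.T u (b x) (c x) (d x)) =
        fun x => ∑ i, b x i * C.T u (Pi.single i 1) (c x) (d x) :=
      funext fun x => C.bs_T2 _ _ _ _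
    rw [e]
    exact continuous_finsetSum _ fun i _ => ((continuous_apply i).comp hb).mul (h2 _ _)
  have e : (fun x => C.T (a x) (b x) (c x) (d x)) =
      fun x => ∑ i, a x i * C.T (Pi.single i 1) (b x) (c x) (d x) :=
    funext fun x => C.bs_T1 _ _ _ _
  rw [e]
  exact continuous_finsetSum _ fun i _ => ((continuous_apply i).comp ha).mul (h3 _)

theorem continuousAt_comp {X : Type*} [TopologicalSpace X] {a b c d : X → V m} {x₀ : X}
    (ha : ContinuousAt a x₀) (hb : ContinuousAt b x₀) (hc : ContinuousAt c x₀)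
    (hd : ContinuousAt d x₀) :
    ContinuousAt (fun x => C.T (a x) (b x) (c x) (d x)) x₀ := by
  have h : Continuous fun z : V m × V m × V m × V m => C.T z.1 z.2.1 z.2.2.1 z.2.2.2 :=
    C.continuous_comp continuous_fst (continuous_fst.comp continuous_snd)
      (continuous_fst.comp (continuous_snd.comp continuous_snd))
      (continuous_snd.comp (continuous_snd.comp continuous_snd))
  have h1 : ContinuousAt (fun x => (a x, b x, c x, d x)) x₀ :=
    ha.prodMk (hb.prodMk (hc.prodMk hd))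
  exact ContinuousAt.comp (f := fun x => (a x, b x, c x, d x))
    (g := fun z : V m × V m × V m × V m => C.T z.1 z.2.1 z.2.2.1 z.2.2.2) h.continuousAt h1

theorem hasDerivAt_comp {a b c d : ℝ → V m} {a' b' c' d' : V m} {t : ℝ}
    (ha : HasDerivAt a a' t) (hb : HasDerivAt b b' t) (hc : HasDerivAt c c' t)
    (hd : HasDerivAt d d' t) :
    HasDerivAt (fun s => C.T (a s) (b s) (c s) (d s))
      (C.T a' (b t) (c t) (d t) + C.T (a t) b' (c t) (d t) + C.T (a t) (b t) c' (d t) +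
        C.T (a t) (b t) (c t) d') t := by
  have h1 : ∀ u v w : V m, HasDerivAt (fun s => C.T u v w (d s)) (C.T u v w d') t := fun u v w =>
    (LinearMap.toContinuousLinearMap (C.T u v w)).hasFDerivAt.comp_hasDerivAt t hd
  have h2 : ∀ u v : V m, HasDerivAt (fun s => C.T u v (c s) (d s))
      (C.T u v c' (d t) + C.T u v (c t) d') t := by
    intro u v
    have e : (fun s => C.T u v (c s) (d s)) =
        fun s => ∑ i, c s i * C.T u v (Pi.single i 1) (d s) := funext fun x => C.bs_T3 _ _ _ _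
    rw [e, C.bs_T3 u v c' (d t), C.bs_T3 u v (c t) d', ← Finset.sum_add_distrib]
    exact HasDerivAt.fun_sum fun i _ => ((hasDerivAt_pi.1 hc) i).mul (h1 _ _ _)
  have h3 : ∀ u : V m, HasDerivAt (fun s => C.T u (b s) (c s) (d s))
      (C.T u b' (c t) (d t) + C.T u (b t) c' (d t) + C.T u (b t) (c t) d') t := by
    intro u
    have e : (fun s => C.T u (b s) (c s) (d s)) =
        fun s => ∑ i, b s i * C.T u (Pi.single i 1) (c s) (d s) :=
      funext fun x => C.bs_T2 _ _ _ _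
    rw [e, C.bs_T2 u b' (c t) (d t), C.bs_T2 u (b t) c' (d t), C.bs_T2 u (b t) (c t) d',
      ← Finset.sum_add_distrib, ← Finset.sum_add_distrib]
    refine HasDerivAt.fun_sum fun i _ => ?_
    have h4 := ((hasDerivAt_pi.1 hb) i).mul (h2 u (Pi.single i 1))
    rw [add_assoc, ← mul_add]
    exact h4
  have e : (fun s => C.T (a s) (b s) (c s) (d s)) =
      fun s => ∑ i, a s i * C.T (Pi.single i 1) (b s) (c s) (d s) :=
    funext fun x => C.bs_T1 _ _ _ _
  rw [e, C.bs_T1 a' (b t) (c t) (d t), C.bs_T1 (a t) b' (c t) (d t),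
    C.bs_T1 (a t) (b t) c' (d t), C.bs_T1 (a t) (b t) (c t) d',
    ← Finset.sum_add_distrib, ← Finset.sum_add_distrib, ← Finset.sum_add_distrib]
  refine HasDerivAt.fun_sum fun i _ => ?_
  have h5 := ((hasDerivAt_pi.1 ha) i).mul (h3 (Pi.single i 1))
  rw [add_assoc, add_assoc, ← mul_add, ← mul_add, ← add_assoc]
  exact h5

theorem polyR_T {k : ℕ} {a b c d : V k → V m} (ha : ∀ i, PolyR k fun x => a x i)
    (hb : ∀ i, PolyR k fun x => b x i) (hc : ∀ i, PolyR k fun x => c x i)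
    (hd : ∀ i, PolyR k fun x => d x i) :
    PolyR k fun x => C.T (a x) (b x) (c x) (d x) := by
  have e : (fun x => C.T (a x) (b x) (c x) (d x)) =
      fun x => ∑ i, a x i * ∑ j, b x j * ∑ l, c x l * ∑ n, d x n *
        C.T (Pi.single i 1) (Pi.single j 1) (Pi.single l 1) (Pi.single n 1) := by
    funext x
    rw [C.bs_T1]
    refine Finset.sum_congr rfl fun i _ => ?_
    rw [C.bs_T2]
    congr 1
    refine Finset.sum_congr rfl fun j _ => ?_
    rw [C.bs_T3]
    congr 1
    refine Finset.sum_congr rfl fun l _ => ?_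
    rw [C.bs_T4]
  rw [e]
  exact PolyR.sum _ fun i _ => (ha i).mul (PolyR.sum _ fun j _ => (hb j).mul
    (PolyR.sum _ fun l _ => (hc l).mul (PolyR.sum _ fun n _ => (hd n).mul (PolyR.const _))))

private theorem bs_q {k : ℕ} (p : V m) (y : ℝ) {a b : V k → V m}
    (ha : ∀ i, PolyR k fun x => a x i) (hb : ∀ i, PolyR k fun x => b x i) :
    PolyR k fun x => C.q p y (a x) (b x) := by
  have hp : ∀ i, PolyR k fun _ => p i := fun i => PolyR.const _
  have h1 := ((PolyR.const (m := k) (3 * y ^ 2)).mul (C.polyR_T hp hp ha hb)).sub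
    (((PolyR.const (m := k) 2).mul (C.polyR_T hp hp hp ha)).mul (C.polyR_T hp hp hp hb))
  have h2 := h1.mul (PolyR.const (m := k) (y ^ 3)⁻¹)
  have e : (fun x => C.q p y (a x) (b x)) = fun x => (3 * y ^ 2 * C.T p p (a x) (b x) -
      2 * C.T p p p (a x) * C.T p p p (b x)) * (y ^ 3)⁻¹ := by
    funext x
    rw [q, div_eq_mul_inv]
  rw [e]
  exact h2

theorem polyR_F : PolyR m C.F :=
  C.polyR_T (fun i => PolyR.coord i) (fun i => PolyR.coord i) (fun i => PolyR.coord i)
    (fun i => PolyR.coord i)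

theorem continuous_F : Continuous C.F := C.polyR_F.continuous

/-- `q p y u u` is a polynomial function of `u` -/
theorem polyR_q (p : V m) (y : ℝ) : PolyR m fun x => C.q p y x x :=
  C.bs_q p y (fun i => PolyR.coord i) (fun i => PolyR.coord i)

theorem polyR_c3 (p : V m) (y : ℝ) : PolyR m fun x => C.c3 p y x := by
  have hp : ∀ i, PolyR m fun _ => p i := fun i => PolyR.const _
  have hx : ∀ i, PolyR m fun x => x i := fun i => PolyR.coord i
  have h1 := (C.polyR_T hp hx hx hx).sub (((C.polyR_T hp hp hp hx).mul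
    (PolyR.const (m := m) y⁻¹)).mul (C.polyR_q p y))
  have e : (fun x => C.c3 p y x) = fun x => C.T p x x x - C.T p p p x * y⁻¹ * C.q p y x x := by
    funext x
    rw [c3, div_eq_mul_inv]
  rw [e]
  exact h1

theorem polyR_c4 (p : V m) (y : ℝ) : PolyR m fun x => C.c4 p y x := by
  have h1 := C.polyR_F.sub ((C.polyR_q p y).mul (C.polyR_q p y))
  have e : (fun x => C.c4 p y x) = fun x => C.F x - C.q p y x x * C.q p y x x := by
    funext x
    rw [c4, sq]
  rw [e]
  exact h1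

/-- the coordinates of `xp p y x` are polynomial functions of `x` -/
theorem polyR_xp (p : V m) (y : ℝ) (i : Fin m) : PolyR m fun x => C.xp p y x i := by
  have h1 := (((PolyR.const (m := m) 4).mul (C.polyR_c3 p y)).mul (PolyR.coord i)).sub
    ((C.polyR_c4 p y).mul (PolyR.const (p i)))
  exact h1

theorem polyR_q_xp (p : V m) (y : ℝ) : PolyR m fun x => C.q p y (C.xp p y x) (C.xp p y x) :=
  C.bs_q p y (C.polyR_xp p y) (C.polyR_xp p y)

variable {C}

theorem isQ_F {x : V m} (hx : IsRat x) : IsQ (C.F x) := C.rat _ _ _ _ hx hx hx hx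

theorem isQ_q {p u v : V m} {y : ℝ} (hp : IsRat p) (hy : IsQ y) (hu : IsRat u) (hv : IsRat v) :
    IsQ (C.q p y u v) := by
  unfold q
  exact ((((IsQ.natCast 3).mul (hy.pow 2)).mul (C.rat _ _ _ _ hp hp hu hv)).sub
    (((IsQ.natCast 2).mul (C.rat _ _ _ _ hp hp hp hu)).mul (C.rat _ _ _ _ hp hp hp hv))).div
    (hy.pow 3)

theorem isQ_c3 {p x : V m} {y : ℝ} (hp : IsRat p) (hy : IsQ y) (hx : IsRat x) :
    IsQ (C.c3 p y x) := by
  unfold c3
  exact (C.rat _ _ _ _ hp hx hx hx).sub (((C.rat _ _ _ _ hp hp hp hx).div hy).mul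
    (isQ_q hp hy hx hx))

theorem isQ_c4 {p x : V m} {y : ℝ} (hp : IsRat p) (hy : IsQ y) (hx : IsRat x) :
    IsQ (C.c4 p y x) := by
  unfold c4
  exact (isQ_F hx).sub ((isQ_q hp hy hx hx).pow 2)

theorem isRat_xp {p x : V m} {y : ℝ} (hp : IsRat p) (hy : IsQ y) (hx : IsRat x) :
    IsRat (C.xp p y x) := by
  unfold xp
  exact (IsRat.smul ((IsQ.natCast 4).mul (isQ_c3 hp hy hx)) hx).sub
    (IsRat.smul (isQ_c4 hp hy hx) hp)

private theorem bs_nA {a b : V m} {ya yb : ℝ} (ha : IsRat a) (hya : IsQ ya) (hb : IsRat b)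
    (hyb : IsQ yb) : IsQ (C.nA a ya b yb) := by
  unfold nA
  exact ((IsQ.natCast 4).mul (C.rat _ _ _ _ ha ha ha hb)).add
    ((((IsQ.natCast 4).mul hya).mul (C.rat _ _ _ _ ha hb hb hb)).div hyb)

private theorem bs_nB {a b : V m} {ya yb : ℝ} (ha : IsRat a) (hya : IsQ ya) (hb : IsRat b)
    (hyb : IsQ yb) : IsQ (C.nB a ya b yb) := by
  unfold nB
  exact (((IsQ.natCast 6).mul (C.rat _ _ _ _ ha ha hb hb)).sub
    (((IsQ.natCast 4).mul ((C.rat _ _ _ _ ha hb hb hb).pow 2)).div (hyb.pow 2))).add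
    (((IsQ.natCast 2).mul hya).mul hyb)

theorem isRat_nn {a b : V m} {ya yb : ℝ} (ha : IsRat a) (hya : IsQ ya) (hb : IsRat b)
    (hyb : IsQ yb) : IsRat (C.nn a ya b yb) := by
  unfold nn
  exact (IsRat.smul (bs_nB ha hya hb hyb) ha).sub (IsRat.smul (bs_nA ha hya hb hyb) hb)

theorem isQ_ny {a b : V m} {ya yb : ℝ} (ha : IsRat a) (hya : IsQ ya) (hb : IsRat b)
    (hyb : IsQ yb) : IsQ (C.ny a ya b yb) := by
  unfold ny
  exact ((hya.mul ((bs_nB ha hya hb hyb).pow 2)).add (((((IsQ.natCast 2).mul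
    (C.rat _ _ _ _ ha hb hb hb)).div hyb).mul (bs_nA ha hya hb hyb)).mul
    (bs_nB ha hya hb hyb))).sub (hyb.mul ((bs_nA ha hya hb hyb).pow 2))

theorem F_smul (t : ℝ) (x : V m) : C.F (t • x) = t ^ 4 * C.F x := by
  unfold F
  simp only [map_smul, LinearMap.smul_apply, smul_eq_mul]
  ring

theorem S_smul {x : V m} (hx : x ∈ C.S) {t : ℝ} (ht : IsQ t) (h0 : t ≠ 0) : t • x ∈ C.S := by
  obtain ⟨h1, r, h2, h3, h4⟩ := hx
  refine ⟨IsRat.smul ht h1, t ^ 2 * r, (ht.pow 2).mul h2, mul_ne_zero (pow_ne_zero 2 h0) h3, ?_⟩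
  rw [F_smul, h4]
  ring

theorem Z_smul {x : V m} (hx : x ∈ C.Z) {t : ℝ} (h0 : t ≠ 0) : t • x ∈ C.Z := by
  have hd : Dense ({(0 : ℝ)}ᶜ ∩ range ((↑) : ℚ → ℝ)) :=
    (dense_compl_singleton (0 : ℝ)).inter_of_isOpen_left (Rat.denseRange_cast)
      isOpen_compl_singleton
  refine map_mem_closure₂ (f := fun (t : ℝ) (x : V m) => t • x)
    (s := {(0 : ℝ)}ᶜ ∩ range ((↑) : ℚ → ℝ)) (t := C.S) (u := C.S) continuous_smul
    (hd t) hx ?_
  rintro _ ⟨h1, r, rfl⟩ b hb
  exact S_smul hb ⟨r, rfl⟩ h1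

theorem mem_Z_of_smul {x : V m} {t : ℝ} (h0 : t ≠ 0) (hx : t • x ∈ C.Z) : x ∈ C.Z := by
  have h1 := Z_smul hx (inv_ne_zero h0)
  rwa [smul_smul, inv_mul_cancel₀ h0, one_smul] at h1

theorem F_nonneg {x : V m} (hx : x ∈ C.Z) : 0 ≤ C.F x := by
  have h1 : IsClosed {x : V m | 0 ≤ C.F x} := isClosed_le continuous_const C.continuous_F
  refine closure_minimal (s := C.S) (t := {x : V m | 0 ≤ C.F x}) ?_ h1 hx
  rintro z ⟨-, r, -, -, h⟩
  show 0 ≤ C.F z
  rw [h]
  exact sq_nonneg r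

theorem Sh.pos {p : V m} {y : ℝ} (h : C.Sh p y) : 0 < C.F p := by
  rw [h.2]
  have := h.1
  positivity

theorem Sh.neg {p : V m} {y : ℝ} (h : C.Sh p y) : C.Sh p (-y) :=
  ⟨neg_ne_zero.2 h.1, by rw [h.2, neg_sq]⟩

theorem exists_Sh {p : V m} (h : 0 < C.F p) : C.Sh p (Real.sqrt (C.F p)) :=
  ⟨(Real.sqrt_pos.2 h).ne', (Real.sq_sqrt h.le).symm⟩

/-- the rational sheets -/
def Sr (C : Qrt m) : Set (V m × ℝ) := {z | IsRat z.1 ∧ IsQ z.2 ∧ C.Sh z.1 z.2}

theorem sheet_closure {x : V m} {y : ℝ} (hx : x ∈ C.Z) (h : C.Sh x y) :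
    ((x, y) : V m × ℝ) ∈ closure C.Sr := by
  have hy : y ≠ 0 := h.1
  obtain ⟨s, hs1, hs2, hs3⟩ : ∃ s : ℝ, IsQ s ∧ s ^ 2 = 1 ∧ s * |y| = y := by
    rcases lt_or_gt_of_ne hy with h1 | h1
    · exact ⟨-1, IsQ.neg IsQ.one, by norm_num, by rw [abs_of_neg h1]; ring⟩
    · exact ⟨1, IsQ.one, by norm_num, by rw [abs_of_pos h1]; ring⟩
  have hf : Continuous fun z : V m => ((z, s * Real.sqrt (C.F z)) : V m × ℝ) :=
    continuous_id.prodMk (continuous_const.mul (Real.continuous_sqrt.comp C.continuous_F))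
  have hm : MapsTo (fun z : V m => ((z, s * Real.sqrt (C.F z)) : V m × ℝ)) C.S C.Sr := by
    rintro z ⟨h1, r, h2, h3, h4⟩
    have h5 : Real.sqrt (C.F z) = |r| := by rw [h4, Real.sqrt_sq_eq_abs]
    have h6 : IsQ |r| := by
      rcases abs_choice r with h7 | h7
      · rw [h7]
        exact h2
      · rw [h7]
        exact h2.neg
    have hs0 : s ≠ 0 := by
      rintro rfl
      norm_num at hs2
    refine ⟨h1, ?_, ?_, ?_⟩
    · show IsQ (s * Real.sqrt (C.F z))
      rw [h5]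
      exact hs1.mul h6
    · show s * Real.sqrt (C.F z) ≠ 0
      rw [h5]
      exact mul_ne_zero hs0 (abs_ne_zero.2 h3)
    · show C.F z = (s * Real.sqrt (C.F z)) ^ 2
      rw [h5, mul_pow, hs2, one_mul, sq_abs, h4]
  have h7 := map_mem_closure hf hx hm
  have h8 : s * Real.sqrt (C.F x) = y := by
    rw [h.2, Real.sqrt_sq_eq_abs, hs3]
  have h9 : ((x, s * Real.sqrt (C.F x)) : V m × ℝ) ∈ closure C.Sr := h7
  rwa [h8] at h9

/-- a rational sheet is a point of `S` -/
theorem mem_S_of_Sr {z : V m × ℝ} (h : z ∈ C.Sr) : z.1 ∈ C.S := ⟨h.1, z.2, h.2.1, h.2.2.1, h.2.2.2⟩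

/-- a point of `S` has a rational sheet -/
theorem exists_Sr {x : V m} (h : x ∈ C.S) : ∃ y, ((x, y) : V m × ℝ) ∈ C.Sr := by
  obtain ⟨h1, r, h2, h3, h4⟩ := h
  exact ⟨r, h1, h2, h3, h4⟩

end Qrt

end Pool.Agent.QS
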