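import Pool.Agent.QS.Defs

/-!
# QS module NALG: identities for the operation `2 b - a`

All identities are checked by computer (exact arithmetic). PROOFS: put `t1 = T a b b b`, `t2 = T a a b b`,
`t3 = T a a a b`, `T a a a a = ya ^ 2`, `T b b b b = yb ^ 2` (after sorting the arguments with `s₁ s₂ s₃`); `F` and the
other values of `T` at `w = B a - A b` are polynomials in `A, B, t1, t2, t3, ya, yb`:
`T w w w w = B⁴ ya² - 4 B³ A t3 + 6 B² A² t2 - 4 B A³ t1 + A⁴ yb²`,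
`T w b b b = B t1 - A yb²`, `T w w b b = B² t2 - 2 A B t1 + A² yb²`, `T w w w b = B³ t3 - 3 A B² t2 + 3 A² B t1 - A³ yb²`.
The relation used is the definition of `A, B`: `4 t3 = A - 4 ya t1 / yb`, `6 t2 = B + 4 t1² / yb² - 2 ya yb`
(substitute for `t3`, `t2`, keep `A`, `B`, `t1`, `ya`, `yb` as free variables; then `field_simp`, `ring`).
-/

set_option autoImplicit false

open Set Topology Filter MvPolynomial
open Pool.Agent.MZ

namespace Pool.Agent.QS

namespace Qrt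

variable {m : ℕ} {C : Qrt m} {a b : V m} {ya yb : ℝ}

private theorem l2 (α β : ℝ) (x y z : V m) : C.T x (α • a - β • b) y z =
    α * C.T x a y z - β * C.T x b y z := by
  rw [map_sub, map_smul, map_smul]
  rfl

private theorem l1 (α β : ℝ) (x y z : V m) : C.T (α • a - β • b) x y z =
    α * C.T a x y z - β * C.T b x y z := by
  rw [C.s₁ (α • a - β • b), l2, C.s₁ x a, C.s₁ x b]

private theorem l3 (α β : ℝ) (x y z : V m) : C.T x y (α • a - β • b) z =
    α * C.T x y a z - β * C.T x y b z := by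
  rw [map_sub, map_smul, map_smul]
  rfl

private theorem l4 (α β : ℝ) (x y z : V m) : C.T x y z (α • a - β • b) =
    α * C.T x y z a - β * C.T x y z b := by
  rw [map_sub, map_smul, map_smul]
  rfl

private theorem ex4 (α β : ℝ) : C.T (α • a - β • b) (α • a - β • b) (α • a - β • b) (α • a - β • b) =
    α ^ 4 * C.T a a a a - 4 * α ^ 3 * β * C.T a a a b + 6 * α ^ 2 * β ^ 2 * C.T a a b b -
      4 * α * β ^ 3 * C.T a b b b + β ^ 4 * C.T b b b b := by
  have h1 : C.T a a b a = C.T a a a b := C.s₃ a a b a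
  have h2 : C.T a b a a = C.T a a a b := (C.s₂ a b a a).trans h1
  have h3 : C.T b a a a = C.T a a a b := (C.s₁ b a a a).trans h2
  have h4 : C.T a b a b = C.T a a b b := C.s₂ a b a b
  have h5 : C.T a b b a = C.T a a b b := (C.s₃ a b b a).trans h4
  have h6 : C.T b a a b = C.T a a b b := (C.s₁ b a a b).trans h4
  have h7 : C.T b a b a = C.T a a b b := (C.s₁ b a b a).trans h5
  have h8 : C.T b b a a = C.T a a b b := (C.s₂ b b a a).trans h7
  have h9 : C.T b a b b = C.T a b b b := C.s₁ b a b b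
  have h10 : C.T b b a b = C.T a b b b := (C.s₂ b b a b).trans h9
  have h11 : C.T b b b a = C.T a b b b := (C.s₃ b b b a).trans h10
  simp only [l1, l2, l3, l4]
  rw [h1, h2, h3, h4, h5, h6, h7, h8, h9, h10, h11]
  ring

private theorem ex3 (α β : ℝ) : C.T (α • a - β • b) (α • a - β • b) (α • a - β • b) b =
    α ^ 3 * C.T a a a b - 3 * α ^ 2 * β * C.T a a b b + 3 * α * β ^ 2 * C.T a b b b -
      β ^ 3 * C.T b b b b := by
  have h4 : C.T a b a b = C.T a a b b := C.s₂ a b a b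
  have h6 : C.T b a a b = C.T a a b b := (C.s₁ b a a b).trans h4
  have h9 : C.T b a b b = C.T a b b b := C.s₁ b a b b
  have h10 : C.T b b a b = C.T a b b b := (C.s₂ b b a b).trans h9
  simp only [l1, l2, l3]
  rw [h4, h6, h9, h10]
  ring

private theorem ex2 (α β : ℝ) : C.T (α • a - β • b) (α • a - β • b) b b =
    α ^ 2 * C.T a a b b - 2 * α * β * C.T a b b b + β ^ 2 * C.T b b b b := by
  have h9 : C.T b a b b = C.T a b b b := C.s₁ b a b b
  simp only [l1, l2]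
  rw [h9]
  ring

private theorem ex1 (α β : ℝ) : C.T (α • a - β • b) b b b =
    α * C.T a b b b - β * C.T b b b b := l1 α β b b b

/-- all data as real numbers -/
private theorem dat (ha : C.Sh a ya) (hb : C.Sh b yb) : ∃ A B t1 t2 t3 : ℝ,
    C.nA a ya b yb = A ∧ C.nB a ya b yb = B ∧ C.T a b b b = t1 ∧
    t2 = (B + 4 * t1 ^ 2 / yb ^ 2 - 2 * ya * yb) / 6 ∧ t3 = (A - 4 * ya * t1 / yb) / 4 ∧
    C.T (C.nn a ya b yb) (C.nn a ya b yb) (C.nn a ya b yb) (C.nn a ya b yb) =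
      B ^ 4 * ya ^ 2 - 4 * B ^ 3 * A * t3 + 6 * B ^ 2 * A ^ 2 * t2 - 4 * B * A ^ 3 * t1 +
        A ^ 4 * yb ^ 2 ∧
    C.T (C.nn a ya b yb) (C.nn a ya b yb) (C.nn a ya b yb) b =
      B ^ 3 * t3 - 3 * B ^ 2 * A * t2 + 3 * B * A ^ 2 * t1 - A ^ 3 * yb ^ 2 ∧
    C.T (C.nn a ya b yb) (C.nn a ya b yb) b b = B ^ 2 * t2 - 2 * B * A * t1 + A ^ 2 * yb ^ 2 ∧
    C.T (C.nn a ya b yb) b b b = B * t1 - A * yb ^ 2 ∧
    C.ny a ya b yb = ya * B ^ 2 + 2 * t1 / yb * A * B - yb * A ^ 2 := by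
  have hFa : C.T a a a a = ya ^ 2 := ha.2
  have hFb : C.T b b b b = yb ^ 2 := hb.2
  refine ⟨C.nA a ya b yb, C.nB a ya b yb, C.T a b b b, C.T a a b b, C.T a a a b, rfl, rfl, rfl,
    ?_, ?_, ?_, ?_, ?_, ?_, rfl⟩
  · unfold nB
    ring
  · unfold nA
    ring
  · unfold nn
    rw [ex4, hFa, hFb]
  · unfold nn
    rw [ex3, hFb]
  · unfold nn
    rw [ex2, hFb]
  · unfold nn
    rw [ex1, hFb]

theorem F_nn (ha : C.Sh a ya) (hb : C.Sh b yb) :
    C.F (C.nn a ya b yb) = (C.ny a ya b yb) ^ 2 := by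
  obtain ⟨A, B, t1, t2, t3, hA, hB, h1, h2, h3, e4, e3, e2, e1, ey⟩ := dat ha hb
  have hy := hb.1
  have hF : C.F (C.nn a ya b yb) =
    C.T (C.nn a ya b yb) (C.nn a ya b yb) (C.nn a ya b yb) (C.nn a ya b yb) := rfl
  rw [hF, e4, ey, h2, h3]
  field_simp
  ring

theorem nA_nn (ha : C.Sh a ya) (hb : C.Sh b yb) :
    C.nA (C.nn a ya b yb) (C.ny a ya b yb) b yb = -(C.nA a ya b yb) * (C.nB a ya b yb) ^ 3 := by
  obtain ⟨A, B, t1, t2, t3, hA, hB, h1, h2, h3, e4, e3, e2, e1, ey⟩ := dat ha hb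
  have hy := hb.1
  have hF : C.nA (C.nn a ya b yb) (C.ny a ya b yb) b yb =
    4 * C.T (C.nn a ya b yb) (C.nn a ya b yb) (C.nn a ya b yb) b +
      4 * C.ny a ya b yb * C.T (C.nn a ya b yb) b b b / yb := rfl
  rw [hF, e3, e1, ey, hA, hB, h2, h3]
  field_simp
  ring

theorem nB_nn (ha : C.Sh a ya) (hb : C.Sh b yb) :
    C.nB (C.nn a ya b yb) (C.ny a ya b yb) b yb = (C.nB a ya b yb) ^ 3 := by
  obtain ⟨A, B, t1, t2, t3, hA, hB, h1, h2, h3, e4, e3, e2, e1, ey⟩ := dat ha hb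
  have hy := hb.1
  have hF : C.nB (C.nn a ya b yb) (C.ny a ya b yb) b yb =
    6 * C.T (C.nn a ya b yb) (C.nn a ya b yb) b b -
      4 * (C.T (C.nn a ya b yb) b b b) ^ 2 / yb ^ 2 + 2 * C.ny a ya b yb * yb := rfl
  rw [hF, e2, e1, ey, hB, h2]
  field_simp
  ring

theorem ny_nn (ha : C.Sh a ya) (hb : C.Sh b yb) :
    C.ny (C.nn a ya b yb) (C.ny a ya b yb) b yb = (C.nB a ya b yb) ^ 8 * ya := by
  have hnA := nA_nn ha hb
  have hnB := nB_nn ha hb
  obtain ⟨A, B, t1, t2, t3, hA, hB, h1, h2, h3, e4, e3, e2, e1, ey⟩ := dat ha hb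
  have hy := hb.1
  have hF : C.ny (C.nn a ya b yb) (C.ny a ya b yb) b yb =
    C.ny a ya b yb * (C.nB (C.nn a ya b yb) (C.ny a ya b yb) b yb) ^ 2 +
      2 * C.T (C.nn a ya b yb) b b b / yb * C.nA (C.nn a ya b yb) (C.ny a ya b yb) b yb *
        C.nB (C.nn a ya b yb) (C.ny a ya b yb) b yb -
      yb * (C.nA (C.nn a ya b yb) (C.ny a ya b yb) b yb) ^ 2 := rfl
  rw [hF, hnA, hnB, e1, ey, hA, hB]
  field_simp
  ring

end Qrt

end Pool.Agent.QS
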