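import Pool.Agent.QS.Bas
import Pool.Agent.QS.Alg
import Pool.Agent.QS.NAlg

/-!
# QS module CLO: `Z` is closed under the operations

PROOFS. `nn_mem`: let `w = nn a ya b yb`, `F w = (ny ..)² ≠ 0`. The map `(a', y', b', y'') ↦ nn a' y' b' y''` is
continuous at `(a, ya, b, yb)` (`yb ≠ 0`; `continuousAt_comp`), so is `ny`. `(a, ya)` and `(b, yb)` are in the closure
of `Sr` (`sheet_closure`), so `((a, ya), (b, yb))` is in the closure of `Sr ×ˢ Sr` (`closure_prod_eq`). For rational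
sheets near it `ny ≠ 0`, `nn` is rational (`isRat_nn`), `ny` is rational (`isQ_ny`) and `F nn = ny²` (`F_nn`), so
`nn ∈ S`. Hence every neighbourhood of `w` meets `S` (`mem_closure_iff_nhds`). `xp_mem`: the same for
`(p', y', x') ↦ xp p' y' x'` and `q p' y' (xp ..) (xp ..)`, with `x'` in the dense set of the rational vectors
(`dense_isRat`), `F_xp`, `isRat_xp`, `isQ_q`. `mem_of_c4`: `xp p y z = (4 c3 z) • z` (`xp_of_c4`),
`q (xp) = (4 c3 z)² q z z`, `F z = (q z z)²` (`c4 = 0`), so `xp_mem` applies, and `mem_Z_of_smul`.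
-/

set_option autoImplicit false

open Set Topology Filter MvPolynomial
open Pool.Agent.MZ

namespace Pool.Agent.QS

namespace Qrt

variable {m : ℕ} {C : Qrt m}

private theorem clo_q {X : Type*} [TopologicalSpace X] {p u v : X → V m} {y : X → ℝ} {x₀ : X}
    (hp : ContinuousAt p x₀) (hy : ContinuousAt y x₀) (hu : ContinuousAt u x₀)
    (hv : ContinuousAt v x₀) (h0 : y x₀ ≠ 0) :
    ContinuousAt (fun z => C.q (p z) (y z) (u z) (v z)) x₀ := by
  unfold q
  exact ((((continuousAt_const.mul (hy.pow 2)).mul (C.continuousAt_comp hp hp hu hv)).sub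
    ((continuousAt_const.mul (C.continuousAt_comp hp hp hp hu)).mul
      (C.continuousAt_comp hp hp hp hv))).div (hy.pow 3) (pow_ne_zero 3 h0))

private theorem clo_c3 {X : Type*} [TopologicalSpace X] {p u : X → V m} {y : X → ℝ} {x₀ : X}
    (hp : ContinuousAt p x₀) (hy : ContinuousAt y x₀) (hu : ContinuousAt u x₀) (h0 : y x₀ ≠ 0) :
    ContinuousAt (fun z => C.c3 (p z) (y z) (u z)) x₀ := by
  unfold c3
  exact (C.continuousAt_comp hp hu hu hu).sub (((C.continuousAt_comp hp hp hp hu).div hy h0).mul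
    (clo_q hp hy hu hu h0))

private theorem clo_c4 {X : Type*} [TopologicalSpace X] {p u : X → V m} {y : X → ℝ} {x₀ : X}
    (hp : ContinuousAt p x₀) (hy : ContinuousAt y x₀) (hu : ContinuousAt u x₀) (h0 : y x₀ ≠ 0) :
    ContinuousAt (fun z => C.c4 (p z) (y z) (u z)) x₀ := by
  unfold c4
  exact (C.continuousAt_comp hu hu hu hu).sub ((clo_q hp hy hu hu h0).pow 2)

private theorem clo_xp {X : Type*} [TopologicalSpace X] {p u : X → V m} {y : X → ℝ} {x₀ : X}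
    (hp : ContinuousAt p x₀) (hy : ContinuousAt y x₀) (hu : ContinuousAt u x₀) (h0 : y x₀ ≠ 0) :
    ContinuousAt (fun z => C.xp (p z) (y z) (u z)) x₀ := by
  unfold xp
  exact ((continuousAt_const.mul (clo_c3 hp hy hu h0)).smul hu).sub
    ((clo_c4 hp hy hu h0).smul hp)

private theorem clo_nA {X : Type*} [TopologicalSpace X] {a b : X → V m} {ya yb : X → ℝ} {x₀ : X}
    (ha : ContinuousAt a x₀) (hya : ContinuousAt ya x₀) (hb : ContinuousAt b x₀)
    (hyb : ContinuousAt yb x₀) (h0 : yb x₀ ≠ 0) :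
    ContinuousAt (fun z => C.nA (a z) (ya z) (b z) (yb z)) x₀ := by
  unfold nA
  exact (continuousAt_const.mul (C.continuousAt_comp ha ha ha hb)).add
    (((continuousAt_const.mul hya).mul (C.continuousAt_comp ha hb hb hb)).div hyb h0)

private theorem clo_nB {X : Type*} [TopologicalSpace X] {a b : X → V m} {ya yb : X → ℝ} {x₀ : X}
    (ha : ContinuousAt a x₀) (hya : ContinuousAt ya x₀) (hb : ContinuousAt b x₀)
    (hyb : ContinuousAt yb x₀) (h0 : yb x₀ ≠ 0) :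
    ContinuousAt (fun z => C.nB (a z) (ya z) (b z) (yb z)) x₀ := by
  unfold nB
  exact ((continuousAt_const.mul (C.continuousAt_comp ha ha hb hb)).sub
    ((continuousAt_const.mul ((C.continuousAt_comp ha hb hb hb).pow 2)).div (hyb.pow 2)
      (pow_ne_zero 2 h0))).add ((continuousAt_const.mul hya).mul hyb)

private theorem clo_nn {X : Type*} [TopologicalSpace X] {a b : X → V m} {ya yb : X → ℝ} {x₀ : X}
    (ha : ContinuousAt a x₀) (hya : ContinuousAt ya x₀) (hb : ContinuousAt b x₀)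
    (hyb : ContinuousAt yb x₀) (h0 : yb x₀ ≠ 0) :
    ContinuousAt (fun z => C.nn (a z) (ya z) (b z) (yb z)) x₀ := by
  unfold nn
  exact ((clo_nB ha hya hb hyb h0).smul ha).sub ((clo_nA ha hya hb hyb h0).smul hb)

private theorem clo_ny {X : Type*} [TopologicalSpace X] {a b : X → V m} {ya yb : X → ℝ} {x₀ : X}
    (ha : ContinuousAt a x₀) (hya : ContinuousAt ya x₀) (hb : ContinuousAt b x₀)
    (hyb : ContinuousAt yb x₀) (h0 : yb x₀ ≠ 0) :
    ContinuousAt (fun z => C.ny (a z) (ya z) (b z) (yb z)) x₀ := by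
  unfold ny
  exact ((hya.mul ((clo_nB ha hya hb hyb h0).pow 2)).add
    ((((continuousAt_const.mul (C.continuousAt_comp ha hb hb hb)).div hyb h0).mul
      (clo_nA ha hya hb hyb h0)).mul (clo_nB ha hya hb hyb h0))).sub
    (hyb.mul ((clo_nA ha hya hb hyb h0).pow 2))

theorem nn_mem {a b : V m} {ya yb : ℝ} (ha : C.Sh a ya) (hb : C.Sh b yb) (haZ : a ∈ C.Z)
    (hbZ : b ∈ C.Z) (h : C.ny a ya b yb ≠ 0) : C.nn a ya b yb ∈ C.Z := by
  have hz : (((a, ya), (b, yb)) : (V m × ℝ) × (V m × ℝ)) ∈ closure (C.Sr ×ˢ C.Sr) := by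
    rw [closure_prod_eq]
    exact ⟨sheet_closure haZ ha, sheet_closure hbZ hb⟩
  have c1 : ContinuousAt (fun z : (V m × ℝ) × (V m × ℝ) => z.1.1) ((a, ya), (b, yb)) := by fun_prop
  have c2 : ContinuousAt (fun z : (V m × ℝ) × (V m × ℝ) => z.1.2) ((a, ya), (b, yb)) := by fun_prop
  have c3 : ContinuousAt (fun z : (V m × ℝ) × (V m × ℝ) => z.2.1) ((a, ya), (b, yb)) := by fun_prop
  have c4 : ContinuousAt (fun z : (V m × ℝ) × (V m × ℝ) => z.2.2) ((a, ya), (b, yb)) := by fun_prop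
  have hf := clo_nn (C := C) c1 c2 c3 c4 hb.1
  have hg := clo_ny (C := C) c1 c2 c3 c4 hb.1
  have hev : ∀ᶠ z : (V m × ℝ) × (V m × ℝ) in 𝓝 ((a, ya), (b, yb)),
      C.ny z.1.1 z.1.2 z.2.1 z.2.2 ≠ 0 := hg.eventually_ne h
  have hfr := (mem_closure_iff_frequently.1 hz).and_eventually hev
  show C.nn a ya b yb ∈ closure C.S
  rw [mem_closure_iff_frequently]
  refine Filter.Tendsto.frequently (f := fun z : (V m × ℝ) × (V m × ℝ) =>
    C.nn z.1.1 z.1.2 z.2.1 z.2.2) (p := fun w => w ∈ C.S) hf ?_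
  refine hfr.mono ?_
  rintro ⟨⟨a', ya'⟩, ⟨b', yb'⟩⟩ ⟨⟨h1, h2⟩, h3⟩
  exact ⟨isRat_nn h1.1 h1.2.1 h2.1 h2.2.1, C.ny a' ya' b' yb',
    isQ_ny h1.1 h1.2.1 h2.1 h2.2.1, h3, F_nn h1.2.2 h2.2.2⟩

theorem xp_mem {p : V m} {y : ℝ} (hp : C.Sh p y) (hpZ : p ∈ C.Z) {x : V m}
    (h : C.q p y (C.xp p y x) (C.xp p y x) ≠ 0) : C.xp p y x ∈ C.Z := by
  have hz : (((p, y), x) : (V m × ℝ) × V m) ∈ closure (C.Sr ×ˢ {x : V m | IsRat x}) := by
    rw [closure_prod_eq]
    exact ⟨sheet_closure hpZ hp, dense_isRat x⟩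
  have c1 : ContinuousAt (fun z : (V m × ℝ) × V m => z.1.1) ((p, y), x) := by fun_prop
  have c2 : ContinuousAt (fun z : (V m × ℝ) × V m => z.1.2) ((p, y), x) := by fun_prop
  have c3 : ContinuousAt (fun z : (V m × ℝ) × V m => z.2) ((p, y), x) := by fun_prop
  have hf := clo_xp (C := C) c1 c2 c3 hp.1
  have hg := clo_q (C := C) c1 c2 hf hf hp.1
  have hev : ∀ᶠ z : (V m × ℝ) × V m in 𝓝 ((p, y), x),
      C.q z.1.1 z.1.2 (C.xp z.1.1 z.1.2 z.2) (C.xp z.1.1 z.1.2 z.2) ≠ 0 := hg.eventually_ne h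
  have hfr := (mem_closure_iff_frequently.1 hz).and_eventually hev
  show C.xp p y x ∈ closure C.S
  rw [mem_closure_iff_frequently]
  refine Filter.Tendsto.frequently (f := fun z : (V m × ℝ) × V m =>
    C.xp z.1.1 z.1.2 z.2) (p := fun w => w ∈ C.S) hf ?_
  refine hfr.mono ?_
  rintro ⟨⟨p', y'⟩, x'⟩ ⟨⟨h1, h2⟩, h3⟩
  exact ⟨isRat_xp h1.1 h1.2.1 h2, C.q p' y' (C.xp p' y' x') (C.xp p' y' x'),
    isQ_q h1.1 h1.2.1 (isRat_xp h1.1 h1.2.1 h2) (isRat_xp h1.1 h1.2.1 h2), h3, F_xp h1.2.2 x'⟩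

theorem mem_of_c4 {p : V m} {y : ℝ} (hp : C.Sh p y) (hpZ : p ∈ C.Z) {z : V m}
    (h4 : C.c4 p y z = 0) (h3 : C.c3 p y z ≠ 0) (hF : C.F z ≠ 0) : z ∈ C.Z := by
  have h5 : C.xp p y z = (4 * C.c3 p y z) • z := xp_of_c4 h4
  have h6 : (4 * C.c3 p y z) ≠ 0 := mul_ne_zero (by norm_num) h3
  have h7 : C.F z = (C.q p y z z) ^ 2 := by
    unfold c4 at h4
    linarith
  have h8 : C.q p y z z ≠ 0 := by
    intro h9
    rw [h9] at h7
    apply hF
    rw [h7]
    norm_num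
  have h9 : C.q p y (C.xp p y z) (C.xp p y z) ≠ 0 := by
    rw [h5, q_smul, q_symm, q_smul]
    exact mul_ne_zero h6 (mul_ne_zero h6 h8)
  have h10 := xp_mem hp hpZ h9
  rw [h5] at h10
  exact mem_Z_of_smul h6 h10

end Qrt

end Pool.Agent.QS
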