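import Mathlib

/-!
# QS module D1: a lemma on the square root of a quartic polynomial (one variable calculus)

Let `g = α² s⁴ + a3 s³ + a2 s² + a1 s + a0 > 0` on the interval `(l, r)`, `α ≠ 0`, `y = √g`,
`g1 = g'`, `g2 = g''/2`, `g3 = g'''/6`, and `A = g3 - α g1 / y`, `B = g2 - g1² / (4 y²) - 2 α y`,
`Q = α B² - g1 / (2 y) A B + y A²`. If `g` is not the square of a polynomial `α s² + c1 s + c0` then there is a point
of the interval with `A ≠ 0`, `B ≠ 0`, `Q ≠ 0`.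

PROOF. `y' = g1 / (2 y)` and `y'' = g2 / y - g1² / (4 y³)`, so `A = g3 - 2 α y'`, `B = g2 - y'² - 2 α y = y (y'' - 2 α)`,
`A' = 4 α² - 2 α y''`, `B' = 3 g3 - 2 y' y'' - 2 α y'`, and the identity `y (A² - B' A + B A') + 2 Q = 0` (checked;
`field_simp`, `ring` after substituting `y'' = (g2 - y'²) / y`).
(a) `A` does not vanish on a whole open subinterval: otherwise `2 α y' = g3 = 4 α² s + a3`, so
`y = α s² + a3 / (2 α) s + c0` there (`is_const_of_deriv_eq_zero` type argument on the interval for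
`y - α s² - a3 / (2 α) s`), `g = y²` on an interval, hence (polynomials, infinitely many points) everywhere: contradiction.
(b) `B` does not vanish on a whole open subinterval: otherwise `y'' = 2 α`, `y' = 2 α s + c1`, `y = α s² + c1 s + c0`: the
same contradiction.
(c) `Q` does not vanish on a whole open subinterval on which `A ≠ 0`: otherwise `(B / A)' = (B' A - B A') / A² = 1`, so
`B = (s - ρ) A` with a constant `ρ`; `Q = 0` gives `α (s - ρ)² - y' (s - ρ) + y = 0`; on a subinterval without `ρ`: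
`(y / (s - ρ))' = (y' (s - ρ) - y) / (s - ρ)² = α`, so `y = (s - ρ) (α s + c)`: the same contradiction.
Choose a point with `A ≠ 0`, by continuity a subinterval with `A ≠ 0`, in it a point and a subinterval with `B ≠ 0`, in
it a point with `Q ≠ 0`.
-/

set_option autoImplicit false

open Set Topology Filter

namespace Pool.Agent.QS

private theorem const_of {f : ℝ → ℝ} {l r : ℝ} (h : ∀ s ∈ Ioo l r, HasDerivAt f 0 s) {x y : ℝ}
    (hx : x ∈ Ioo l r) (hy : y ∈ Ioo l r) : f x = f y := by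
  refine isOpen_Ioo.is_const_of_deriv_eq_zero isPreconnected_Ioo ?_ ?_ hx hy
  · intro s hs
    exact (h s hs).differentiableAt.differentiableWithinAt
  · intro s hs
    exact (h s hs).deriv

private theorem const_ex {f : ℝ → ℝ} {l r : ℝ} (hlr : l < r) (h : ∀ s ∈ Ioo l r, HasDerivAt f 0 s) :
    ∃ c : ℝ, ∀ s ∈ Ioo l r, f s = c :=
  ⟨f ((l + r) / 2), fun s hs => const_of h hs ⟨by linarith, by linarith⟩⟩

private theorem core {α a3 l r : ℝ} (hα : α ≠ 0) (hlr : l < r) {Y Z W G2 G3 : ℝ → ℝ}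
    (hY0 : ∀ s ∈ Ioo l r, 0 < Y s) (hY : ∀ s ∈ Ioo l r, HasDerivAt Y (Z s) s)
    (hZ : ∀ s ∈ Ioo l r, HasDerivAt Z (W s) s) (hG2 : ∀ s ∈ Ioo l r, G2 s = Z s ^ 2 + Y s * W s)
    (hG2' : ∀ s ∈ Ioo l r, HasDerivAt G2 (3 * G3 s) s) (hG3 : ∀ s, G3 s = 4 * α ^ 2 * s + a3)
    (hno : ∀ l' r', l ≤ l' → l' < r' → r' ≤ r → ∀ c1 c0 : ℝ,
      ¬ ∀ s ∈ Ioo l' r', Y s = α * s ^ 2 + c1 * s + c0) :
    ∃ s ∈ Ioo l r, G3 s - 2 * α * Z s ≠ 0 ∧ G2 s - Z s ^ 2 - 2 * α * Y s ≠ 0 ∧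
      α * (G2 s - Z s ^ 2 - 2 * α * Y s) ^ 2 -
        Z s * (G3 s - 2 * α * Z s) * (G2 s - Z s ^ 2 - 2 * α * Y s) +
        Y s * (G3 s - 2 * α * Z s) ^ 2 ≠ 0 := by
  have hid : ∀ s : ℝ, HasDerivAt (fun s : ℝ => s) 1 s := fun s => hasDerivAt_id s
  have hsq : ∀ s : ℝ, HasDerivAt (fun s : ℝ => s ^ 2) (2 * s) s := fun s => by
    simpa using hasDerivAt_pow 2 s
  have hA : ∀ s ∈ Ioo l r, HasDerivAt (fun s => G3 s - 2 * α * Z s) (4 * α ^ 2 - 2 * α * W s) s := by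
    intro s hs
    have h1 : HasDerivAt G3 (4 * α ^ 2) s := by
      have h2 : G3 = fun s => 4 * α ^ 2 * s + a3 := funext hG3
      rw [h2]
      have h3 := ((hid s).const_mul (4 * α ^ 2)).add_const a3
      rwa [mul_one] at h3
    exact h1.sub ((hZ s hs).const_mul (2 * α))
  have hB : ∀ s ∈ Ioo l r, HasDerivAt (fun s => G2 s - Z s ^ 2 - 2 * α * Y s)
      (3 * G3 s - 2 * Z s * W s - 2 * α * Z s) s := by
    intro s hs
    have h1 := (((hG2' s hs).sub ((hZ s hs).pow 2)).sub ((hY s hs).const_mul (2 * α)))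
    refine h1.congr_deriv ?_
    norm_num
  -- part a
  have ha : ∀ l' r', l ≤ l' → l' < r' → r' ≤ r → ∃ s ∈ Ioo l' r', G3 s - 2 * α * Z s ≠ 0 := by
    intro l' r' h1 h2 h3
    by_contra hcon
    push Not at hcon
    have hd : ∀ s ∈ Ioo l' r', HasDerivAt (fun s => Y s - α * s ^ 2 - a3 / (2 * α) * s) 0 s := by
      intro s hs
      have hs' : s ∈ Ioo l r := ⟨lt_of_le_of_lt h1 hs.1, lt_of_lt_of_le hs.2 h3⟩
      have h4 := (((hY s hs').sub ((hsq s).const_mul α)).sub ((hid s).const_mul (a3 / (2 * α))))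
      refine h4.congr_deriv ?_
      have h5 := hcon s hs
      rw [hG3] at h5
      field_simp
      linear_combination -h5
    obtain ⟨c, hc⟩ := const_ex h2 hd
    refine hno l' r' h1 h2 h3 (a3 / (2 * α)) c fun s hs => ?_
    linear_combination hc s hs
  -- part b
  have hb : ∀ l' r', l ≤ l' → l' < r' → r' ≤ r → ∃ s ∈ Ioo l' r',
      G2 s - Z s ^ 2 - 2 * α * Y s ≠ 0 := by
    intro l' r' h1 h2 h3
    by_contra hcon
    push Not at hcon
    have hd : ∀ s ∈ Ioo l' r', HasDerivAt (fun s => Z s - 2 * α * s) 0 s := by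
      intro s hs
      have hs' : s ∈ Ioo l r := ⟨lt_of_le_of_lt h1 hs.1, lt_of_lt_of_le hs.2 h3⟩
      have h4 := ((hZ s hs').sub ((hid s).const_mul (2 * α)))
      refine h4.congr_deriv ?_
      have h5 := hcon s hs
      have h6 := hG2 s hs'
      have h7 := (hY0 s hs').ne'
      have h8 : Y s * (W s - 2 * α) = 0 := by linear_combination h5 - h6
      have h9 := (mul_eq_zero.1 h8).resolve_left h7
      linear_combination h9
    obtain ⟨c1, hc1⟩ := const_ex h2 hd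
    have hd2 : ∀ s ∈ Ioo l' r', HasDerivAt (fun s => Y s - α * s ^ 2 - c1 * s) 0 s := by
      intro s hs
      have hs' : s ∈ Ioo l r := ⟨lt_of_le_of_lt h1 hs.1, lt_of_lt_of_le hs.2 h3⟩
      have h4 := (((hY s hs').sub ((hsq s).const_mul α)).sub ((hid s).const_mul c1))
      refine h4.congr_deriv ?_
      linear_combination (hc1 s hs)
    obtain ⟨c, hc⟩ := const_ex h2 hd2
    refine hno l' r' h1 h2 h3 c1 c fun s hs => ?_
    linear_combination hc s hs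
  -- part c
  have hc : ∀ l' r', l ≤ l' → l' < r' → r' ≤ r → (∀ s ∈ Ioo l' r', G3 s - 2 * α * Z s ≠ 0) →
      ∃ s ∈ Ioo l' r', α * (G2 s - Z s ^ 2 - 2 * α * Y s) ^ 2 -
        Z s * (G3 s - 2 * α * Z s) * (G2 s - Z s ^ 2 - 2 * α * Y s) +
        Y s * (G3 s - 2 * α * Z s) ^ 2 ≠ 0 := by
    intro l' r' h1 h2 h3 hA0
    by_contra hcon
    push Not at hcon
    have hd : ∀ s ∈ Ioo l' r', HasDerivAt
        (fun s => (G2 s - Z s ^ 2 - 2 * α * Y s) / (G3 s - 2 * α * Z s) - s) 0 s := by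
      intro s hs
      have hs' : s ∈ Ioo l r := ⟨lt_of_le_of_lt h1 hs.1, lt_of_lt_of_le hs.2 h3⟩
      have h4 := ((hB s hs').div (hA s hs') (hA0 s hs)).sub (hid s)
      refine h4.congr_deriv ?_
      have h5 := hcon s hs
      have h6 := hG2 s hs'
      have h7 := (hY0 s hs').ne'
      have h8 := hA0 s hs
      have h9 : (3 * G3 s - 2 * Z s * W s - 2 * α * Z s) * (G3 s - 2 * α * Z s) -
          (G2 s - Z s ^ 2 - 2 * α * Y s) * (4 * α ^ 2 - 2 * α * W s) =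
          (G3 s - 2 * α * Z s) ^ 2 := by
        apply mul_left_cancel₀ h7
        rw [h6] at h5 ⊢
        linear_combination 2 * h5
      rw [h9, div_self (pow_ne_zero 2 h8), sub_self]
    obtain ⟨ρ', hρ⟩ := const_ex h2 hd
    have hB' : ∀ s ∈ Ioo l' r', G2 s - Z s ^ 2 - 2 * α * Y s = (s + ρ') * (G3 s - 2 * α * Z s) := by
      intro s hs
      have h4 := hρ s hs
      have h5 := hA0 s hs
      rw [sub_eq_iff_eq_add, div_eq_iff h5] at h4
      linear_combination h4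
    have hq : ∀ s ∈ Ioo l' r', α * (s + ρ') ^ 2 - Z s * (s + ρ') + Y s = 0 := by
      intro s hs
      have h4 := hcon s hs
      rw [hB' s hs] at h4
      have h5 := pow_ne_zero 2 (hA0 s hs)
      have h6 : (G3 s - 2 * α * Z s) ^ 2 * (α * (s + ρ') ^ 2 - Z s * (s + ρ') + Y s) = 0 := by
        linear_combination h4
      exact (mul_eq_zero.1 h6).resolve_left h5
    obtain ⟨u, v, hu, huv, hv, hρ0⟩ : ∃ u v : ℝ, l' ≤ u ∧ u < v ∧ v ≤ r' ∧ ∀ s ∈ Ioo u v, s + ρ' ≠ 0 := by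
      by_cases hm : (l' + r') / 2 + ρ' ≤ 0
      · refine ⟨l', (l' + r') / 2, le_refl _, by linarith, by linarith, fun s hs => ?_⟩
        have := hs.2
        intro h0
        linarith
      · refine ⟨(l' + r') / 2, r', by linarith, by linarith, le_refl _, fun s hs => ?_⟩
        have := hs.1
        intro h0
        linarith
    have hd2 : ∀ s ∈ Ioo u v, HasDerivAt (fun s => Y s / (s + ρ') - α * s) 0 s := by
      intro s hs
      have hs1 : s ∈ Ioo l' r' := ⟨lt_of_le_of_lt hu hs.1, lt_of_lt_of_le hs.2 hv⟩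
      have hs' : s ∈ Ioo l r := ⟨lt_of_le_of_lt h1 hs1.1, lt_of_lt_of_le hs1.2 h3⟩
      have h5 := hρ0 s hs
      have h4 := ((hY s hs').div ((hid s).add_const ρ') h5).sub ((hid s).const_mul α)
      refine h4.congr_deriv ?_
      have h6 := hq s hs1
      field_simp
      linear_combination -h6
    obtain ⟨c, hc⟩ := const_ex huv hd2
    refine hno u v (h1.trans hu) huv (hv.trans h3) (c + α * ρ') (c * ρ') fun s hs => ?_
    have h4 := hc s hs
    have h5 := hρ0 s hs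
    field_simp at h4
    linear_combination h4
  obtain ⟨s0, hs0, h0⟩ := ha l r le_rfl hlr le_rfl
  have hcA : ContinuousAt (fun s => G3 s - 2 * α * Z s) s0 := (hA s0 hs0).continuousAt
  have hn0 : {s | G3 s - 2 * α * Z s ≠ 0} ∩ Ioo l r ∈ 𝓝 s0 :=
    inter_mem (hcA.eventually_ne h0) (isOpen_Ioo.mem_nhds hs0)
  obtain ⟨l1, r1, hs1, hsub1⟩ := mem_nhds_iff_exists_Ioo_subset.1 hn0
  have hl1 : l ≤ l1 ∧ r1 ≤ r := by
    have hlt : l1 < r1 := hs1.1.trans hs1.2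
    have h5 : Ioo l1 r1 ⊆ Ioo l r := fun x hx => (hsub1 hx).2
    exact (Ioo_subset_Ioo_iff hlt).1 h5
  obtain ⟨s1, hs1', h1⟩ := hb l1 r1 hl1.1 (hs1.1.trans hs1.2) hl1.2
  have hs1l : s1 ∈ Ioo l r := (hsub1 hs1').2
  have hcB : ContinuousAt (fun s => G2 s - Z s ^ 2 - 2 * α * Y s) s1 := (hB s1 hs1l).continuousAt
  have hn1 : {s | G2 s - Z s ^ 2 - 2 * α * Y s ≠ 0} ∩ Ioo l1 r1 ∈ 𝓝 s1 :=
    inter_mem (hcB.eventually_ne h1) (isOpen_Ioo.mem_nhds hs1')
  obtain ⟨l2, r2, hs2, hsub2⟩ := mem_nhds_iff_exists_Ioo_subset.1 hn1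
  have hl2 : l1 ≤ l2 ∧ r2 ≤ r1 := by
    have hlt : l2 < r2 := hs2.1.trans hs2.2
    have h5 : Ioo l2 r2 ⊆ Ioo l1 r1 := fun x hx => (hsub2 hx).2
    exact (Ioo_subset_Ioo_iff hlt).1 h5
  obtain ⟨s2, hs2', h2⟩ := hc l2 r2 (hl1.1.trans hl2.1) (hs2.1.trans hs2.2) (hl2.2.trans hl1.2)
    (fun s hs => (hsub1 (hsub2 hs).2).1)
  exact ⟨s2, (hsub1 (hsub2 hs2').2).2, (hsub1 (hsub2 hs2').2).1, (hsub2 hs2').1, h2⟩

theorem exists_good {α a3 a2 a1 a0 l r : ℝ} (hα : α ≠ 0) (hlr : l < r)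
    (hg : ∀ s ∈ Ioo l r, 0 < α ^ 2 * s ^ 4 + a3 * s ^ 3 + a2 * s ^ 2 + a1 * s + a0)
    (hns : ¬ ∃ c1 c0 : ℝ, ∀ s : ℝ, α ^ 2 * s ^ 4 + a3 * s ^ 3 + a2 * s ^ 2 + a1 * s + a0 =
      (α * s ^ 2 + c1 * s + c0) ^ 2) :
    ∃ s ∈ Ioo l r, ∃ y g1 g2 g3 A B : ℝ,
      y = Real.sqrt (α ^ 2 * s ^ 4 + a3 * s ^ 3 + a2 * s ^ 2 + a1 * s + a0) ∧
      g1 = 4 * α ^ 2 * s ^ 3 + 3 * a3 * s ^ 2 + 2 * a2 * s + a1 ∧
      g2 = 6 * α ^ 2 * s ^ 2 + 3 * a3 * s + a2 ∧ g3 = 4 * α ^ 2 * s + a3 ∧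
      A = g3 - α * g1 / y ∧ B = g2 - g1 ^ 2 / (4 * y ^ 2) - 2 * α * y ∧
      A ≠ 0 ∧ B ≠ 0 ∧ α * B ^ 2 - g1 / (2 * y) * A * B + y * A ^ 2 ≠ 0 := by
  obtain ⟨G, hG⟩ : ∃ G : ℝ → ℝ, ∀ s, G s = α ^ 2 * s ^ 4 + a3 * s ^ 3 + a2 * s ^ 2 + a1 * s + a0 :=
    ⟨_, fun s => rfl⟩
  obtain ⟨G1, hG1⟩ : ∃ G1 : ℝ → ℝ, ∀ s, G1 s = 4 * α ^ 2 * s ^ 3 + 3 * a3 * s ^ 2 + 2 * a2 * s + a1 :=
    ⟨_, fun s => rfl⟩
  obtain ⟨G2, hG2⟩ : ∃ G2 : ℝ → ℝ, ∀ s, G2 s = 6 * α ^ 2 * s ^ 2 + 3 * a3 * s + a2 :=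
    ⟨_, fun s => rfl⟩
  obtain ⟨G3, hG3⟩ : ∃ G3 : ℝ → ℝ, ∀ s, G3 s = 4 * α ^ 2 * s + a3 := ⟨_, fun s => rfl⟩
  have hpw : ∀ (n : ℕ) (s : ℝ), HasDerivAt (fun s : ℝ => s ^ n) ((n : ℝ) * s ^ (n - 1)) s :=
    fun n s => hasDerivAt_pow n s
  have dG : ∀ s, HasDerivAt G (G1 s) s := by
    intro s
    have e : G = fun s => α ^ 2 * s ^ 4 + a3 * s ^ 3 + a2 * s ^ 2 + a1 * s + a0 := funext hG
    rw [e]
    have h1 := (((((hpw 4 s).const_mul (α ^ 2)).add ((hpw 3 s).const_mul a3)).add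
      ((hpw 2 s).const_mul a2)).add ((hasDerivAt_id s).const_mul a1)).add_const a0
    refine h1.congr_deriv ?_
    rw [hG1]
    norm_num
    ring
  have dG1 : ∀ s, HasDerivAt G1 (2 * G2 s) s := by
    intro s
    have e : G1 = fun s => 4 * α ^ 2 * s ^ 3 + 3 * a3 * s ^ 2 + 2 * a2 * s + a1 := funext hG1
    rw [e]
    have h1 := ((((hpw 3 s).const_mul (4 * α ^ 2)).add ((hpw 2 s).const_mul (3 * a3))).add
      ((hasDerivAt_id s).const_mul (2 * a2))).add_const a1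
    refine h1.congr_deriv ?_
    rw [hG2]
    norm_num
    ring
  have dG2 : ∀ s, HasDerivAt G2 (3 * G3 s) s := by
    intro s
    have e : G2 = fun s => 6 * α ^ 2 * s ^ 2 + 3 * a3 * s + a2 := funext hG2
    rw [e]
    have h1 := (((hpw 2 s).const_mul (6 * α ^ 2)).add
      ((hasDerivAt_id s).const_mul (3 * a3))).add_const a2
    refine h1.congr_deriv ?_
    rw [hG3]
    norm_num
    ring
  have hGp : ∀ s ∈ Ioo l r, 0 < G s := fun s hs => by
    rw [hG]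
    exact hg s hs
  have hYp : ∀ s ∈ Ioo l r, 0 < Real.sqrt (G s) := fun s hs => Real.sqrt_pos.2 (hGp s hs)
  have hYs : ∀ s ∈ Ioo l r, Real.sqrt (G s) ^ 2 = G s := fun s hs => Real.sq_sqrt (hGp s hs).le
  have dY : ∀ s ∈ Ioo l r, HasDerivAt (fun s => Real.sqrt (G s)) (G1 s / (2 * Real.sqrt (G s))) s :=
    fun s hs => (dG s).sqrt (hGp s hs).ne'
  have dZ : ∀ s ∈ Ioo l r, HasDerivAt (fun s => G1 s / (2 * Real.sqrt (G s)))
      ((G2 s - (G1 s / (2 * Real.sqrt (G s))) ^ 2) / Real.sqrt (G s)) s := by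
    intro s hs
    have h0 := (hYp s hs).ne'
    have h1 := (dG1 s).div ((dY s hs).const_mul 2) (mul_ne_zero two_ne_zero h0)
    refine h1.congr_deriv ?_
    field_simp
  obtain ⟨s, hs, h1, h2, h3⟩ := core (α := α) (a3 := a3) hα hlr (Y := fun s => Real.sqrt (G s))
    (Z := fun s => G1 s / (2 * Real.sqrt (G s)))
    (W := fun s => (G2 s - (G1 s / (2 * Real.sqrt (G s))) ^ 2) / Real.sqrt (G s)) (G2 := G2) (G3 := G3)
    hYp dY dZ (fun s hs => by
      have h0 := (hYp s hs).ne'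
      field_simp
      ring) (fun s hs => dG2 s) hG3 (by
      intro l' r' h1 h2 h3 c1 c0 hY
      apply hns
      refine ⟨c1, c0, fun s => ?_⟩
      have hinf : (Ioo l' r').Infinite := Ioo_infinite h2
      let P : Polynomial ℝ := Polynomial.C (α ^ 2) * Polynomial.X ^ 4 + Polynomial.C a3 * Polynomial.X ^ 3 +
        Polynomial.C a2 * Polynomial.X ^ 2 + Polynomial.C a1 * Polynomial.X + Polynomial.C a0
      let R : Polynomial ℝ := (Polynomial.C α * Polynomial.X ^ 2 + Polynomial.C c1 * Polynomial.X +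
        Polynomial.C c0) ^ 2
      have hP : ∀ s, P.eval s = α ^ 2 * s ^ 4 + a3 * s ^ 3 + a2 * s ^ 2 + a1 * s + a0 := by
        intro s
        simp [P]
      have hR : ∀ s, R.eval s = (α * s ^ 2 + c1 * s + c0) ^ 2 := by
        intro s
        simp [R]
      have hPR : P = R := by
        refine Polynomial.eq_of_infinite_eval_eq P R (hinf.mono fun s hs => ?_)
        show P.eval s = R.eval s
        have hs' : s ∈ Ioo l r := ⟨lt_of_le_of_lt h1 hs.1, lt_of_lt_of_le hs.2 h3⟩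
        rw [hP, hR, ← hG, ← hYs s hs']
        congr 1
        exact hY s hs
      rw [← hP, ← hR, hPR])
  have h0 := (hYp s hs).ne'
  have eA : G3 s - α * G1 s / Real.sqrt (G s) = G3 s - 2 * α * (G1 s / (2 * Real.sqrt (G s))) := by
    field_simp
  have eB : G2 s - G1 s ^ 2 / (4 * Real.sqrt (G s) ^ 2) - 2 * α * Real.sqrt (G s) =
      G2 s - (G1 s / (2 * Real.sqrt (G s))) ^ 2 - 2 * α * Real.sqrt (G s) := by
    field_simp
    ring
  refine ⟨s, hs, Real.sqrt (G s), G1 s, G2 s, G3 s, _, _, by rw [hG], hG1 s, hG2 s, hG3 s, rfl, rfl,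
    ?_, ?_, ?_⟩
  · rw [eA]
    exact h1
  · rw [eB]
    exact h2
  · rw [eA, eB]
    exact h3

end Pool.Agent.QS
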