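import Mathlib
import Pool.Agent.MZ.Basic
import Pool.Agent.MZ.Fc
import Pool.Agent.MZ.Compl

/-!
# Project QS (problem MP_4d3b00_ag): square values of quartic polynomials, definitions

`C : Qrt m` is a symmetric 4-linear form `T` on `ℝ^m` with rational coefficients, `F x = T x x x x` its quartic form.
`S` is the set of the rational `x` such that `F x` is a nonzero rational square, `Z` its closure in `ℝ^m`.
THEOREM (Dich): either `Z` is a neighbourhood of each of its points with `F x > 0` (`Opn`), or `S` is the set of the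
rational points with `F ≠ 0` of a finite union of rational linear subspaces (`Pieces`).

A sheet is a pair `(p, y)` with `y ≠ 0`, `F p = y ^ 2`. `q p y` is the quadratic form such that `F - q ^ 2` vanishes to
order `3` at `p` (second order Taylor polynomial of the branch of `√F` with value `y` at `p`): it is
`q u v = (3 y² T p p u v - 2 (T p p p u) (T p p p v)) / y³`, and
`F (a p + b x) = q (a p + b x)² + b³ (4 a c3 x + b c4 x)`. The point `xp p y x = 4 c3 x • x - c4 x • p` is the fourth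
intersection point of the line `⟨p, x⟩` with `F = q²`. `cc p y v x` is the polar form `(F - q²)(p, v, x, x)`.
`nn a ya b yb = nB • a - nA • b` is the point `2 b - a` on the curve of genus one over the line `⟨a, b⟩`
and `ny` its value of `y`.
All identities are checked by computer (exact arithmetic).
-/

set_option autoImplicit false

open Set Topology Filter MvPolynomial
open Pool.Agent.MZ

namespace Pool.Agent.QS

/-- real vectors -/
abbrev V (m : ℕ) : Type := Fin m → ℝ

/-- a symmetric 4-linear form on `ℝ^m` with rational coefficients -/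
structure Qrt (m : ℕ) where
  /-- the form -/
  T : V m →ₗ[ℝ] V m →ₗ[ℝ] V m →ₗ[ℝ] V m →ₗ[ℝ] ℝ
  s₁ : ∀ x y z w, T x y z w = T y x z w
  s₂ : ∀ x y z w, T x y z w = T x z y w
  s₃ : ∀ x y z w, T x y z w = T x y w z
  rat : ∀ x y z w, IsRat x → IsRat y → IsRat z → IsRat w → IsQ (T x y z w)

namespace Qrt

variable {m : ℕ} (C : Qrt m)

/-- the quartic form -/
def F (x : V m) : ℝ := C.T x x x x

/-- the rational points at which `F` is a nonzero rational square -/
def S : Set (V m) := {x | IsRat x ∧ ∃ r : ℝ, IsQ r ∧ r ≠ 0 ∧ C.F x = r ^ 2}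

/-- the closure of `S` -/
def Z : Set (V m) := closure C.S

/-- `(p, y)` is a sheet -/
def Sh (p : V m) (y : ℝ) : Prop := y ≠ 0 ∧ C.F p = y ^ 2

/-- the osculating quadratic form (as a symmetric bilinear form) -/
noncomputable def q (p : V m) (y : ℝ) (u v : V m) : ℝ :=
  (3 * y ^ 2 * C.T p p u v - 2 * C.T p p p u * C.T p p p v) / y ^ 3

/-- a quarter of the cubic coefficient of `F - q²` at `p` -/
noncomputable def c3 (p : V m) (y : ℝ) (x : V m) : ℝ :=
  C.T p x x x - C.T p p p x / y * C.q p y x x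

/-- the value of `F - q²` -/
noncomputable def c4 (p : V m) (y : ℝ) (x : V m) : ℝ := C.F x - (C.q p y x x) ^ 2

/-- the polar form of `F - q²` at `(p, v, x, x)` -/
noncomputable def cc (p : V m) (y : ℝ) (v x : V m) : ℝ :=
  C.T p v x x - (C.q p y p v * C.q p y x x + 2 * C.q p y p x * C.q p y v x) / 3

/-- the fourth point -/
noncomputable def xp (p : V m) (y : ℝ) (x : V m) : V m := (4 * C.c3 p y x) • x - C.c4 p y x • p

/-- first coefficient of the operation `2 b - a` -/
noncomputable def nA (a : V m) (ya : ℝ) (b : V m) (yb : ℝ) : ℝ :=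
  4 * C.T a a a b + 4 * ya * C.T a b b b / yb

/-- second coefficient of the operation `2 b - a` -/
noncomputable def nB (a : V m) (ya : ℝ) (b : V m) (yb : ℝ) : ℝ :=
  6 * C.T a a b b - 4 * (C.T a b b b) ^ 2 / yb ^ 2 + 2 * ya * yb

/-- the operation `2 b - a` -/
noncomputable def nn (a : V m) (ya : ℝ) (b : V m) (yb : ℝ) : V m :=
  C.nB a ya b yb • a - C.nA a ya b yb • b

/-- the value of `y` at `2 b - a` -/
noncomputable def ny (a : V m) (ya : ℝ) (b : V m) (yb : ℝ) : ℝ :=
  ya * (C.nB a ya b yb) ^ 2 + 2 * C.T a b b b / yb * C.nA a ya b yb * C.nB a ya b yb -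
    yb * (C.nA a ya b yb) ^ 2

/-- `Z` has no interior points with `F > 0` -/
def Thin : Prop := ∀ x, 0 < C.F x → ¬ C.Z ∈ 𝓝 x

/-- `Z` is a neighbourhood of each of its points with `F > 0` -/
def Opn : Prop := ∀ x ∈ C.Z, 0 < C.F x → C.Z ∈ 𝓝 x

/-- `S` consists of the rational points with `F ≠ 0` of finitely many rational linear subspaces -/
def Pieces : Prop := ∃ (k : ℕ) (Y : Fin k → Set (V m)), (∀ i, ∀ x ∈ Y i, IsRat x) ∧
  C.S = {x | IsRat x ∧ C.F x ≠ 0 ∧ ∃ i, x ∈ Submodule.span ℝ (Y i)}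

/-- `F` depends on two linear forms only -/
def Bin : Prop := ∃ a b : V m →ₗ[ℝ] ℝ, ∀ v, a v = 0 → b v = 0 → ∀ x, C.F (x + v) = C.F x

/-- the sheet `(p, y)` gives new points -/
def Good (p : V m) (y : ℝ) : Prop :=
  ∃ x, C.c3 p y x ≠ 0 ∧ C.q p y (C.xp p y x) (C.xp p y x) ≠ 0

/-- `F` is the square of a real quadratic form -/
def Sq : Prop := ∃ r : V m →ₗ[ℝ] V m →ₗ[ℝ] ℝ, (∀ x y, r x y = r y x) ∧ ∀ x, C.F x = (r x x) ^ 2

/-- `F = r² + h³ g`, where `F - (q p y)² = 4 c3 h`, `h p = 1` -/
def Dec (p : V m) (y : ℝ) (r : V m →ₗ[ℝ] V m →ₗ[ℝ] ℝ) (h g : V m →ₗ[ℝ] ℝ) : Prop :=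
  (∀ u v, r u v = r v u) ∧ h p = 1 ∧ (∀ x, C.c4 p y x = 4 * C.c3 p y x * h x) ∧
    ∀ x, C.F x = (r x x) ^ 2 + (h x) ^ 3 * g x

end Qrt

end Pool.Agent.QS
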