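import Pool.Agent.QS.Bas
import Pool.Agent.QS.Alg
import Pool.Agent.QS.Uf

/-!
# QS module M3: if the osculating form is constant then `F = r² + h³ g`

Notation: `P x = xp p y x`, `yy x = q p y (P x) (P x)`, `r = qb (P θ₀) (yy θ₀)`, and
`R z z' x x' = T z z' x x' - (r z z' * r x x' + r z x * r z' x' + r z x' * r z' x) / 3` (symmetric 4-linear), so
`R x x x x = F x - (r x x)²`.

PROOF. 1. For `θ` in the ball and all `x`: `R (P θ) (P θ) x x = 0`. Indeed `(P θ, yy θ)` is a sheet (`F_xp`), its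
osculating form is `r` (by hypothesis, as quadratic forms, hence as symmetric bilinear forms), and `F_expand` at
it says that `F (a P + b x) - (r ..)² = b³ (..)`; the coefficient of `a² b²` is `6 R P P x x`.
2. For fixed `x` this is a polynomial in `θ`, so it vanishes for all `θ` (`polyR_eq_zero_of_open`):
`16 c3² R θ θ x x - 8 c3 c4 R p θ x x + c4² R p p x x = 0`, `c3 = c3 p y θ`, `c4 = c4 p y θ`.
3. There is `x` with `R p p x x ≠ 0`. Otherwise `R p p u w = 0` for all `u, w` (polarize). Also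
`R (P θ) (P θ) u w = 0` for all `u, w` (polarize 1). With `u = p`, `w = θ`: `16 c3² R θ θ p θ = 0`; with `u = w = θ`:
`16 c3² R θ θ θ θ - 8 c3 c4 R p θ θ θ = 0`; so `F θ = (r θ θ)²` for `θ` in the ball (`c3 ≠ 0`), hence everywhere
(`polyR_eq_zero_of_open`): `Sq`, contradiction.
4. `lin_of_quad` with `lam = R p p x x`, `L θ = R p θ x x`, `B θ θ' = R θ θ' x x` (this `x`): `c4 = 4 c3 h`, `h` linear.
`h p = 1` as in `type2` (QS/TyII): `c4 (x + s p) = c4 x + 4 s c3 x`, `c3 (x + s p) = c3 x`, `c3 ≠ 0` somewhere.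
5. `R z z x x = 0` for all `z` with `h z = 0` and all `x`: if `c3 z ≠ 0` then `c4 z = 0`, `P z = (4 c3 z) • z` and 2.
gives it; so `c3 z * R z z x x = 0` for all `z` with `h z = 0`, and `polyR_mul_eq_zero_ker` (`c3` does not vanish
identically on `ker h`: `c3 (z - h z • p) = c3 z`).
6. Let `x` be arbitrary, `t = h x`, `x₀ = x - t p`, `h x₀ = 0`. By 5. (polarized) `R x₀ x₀ u w = 0`, so
`R x x x x = 4 t³ R x₀ p p p + t⁴ R p p p p = t³ g x` with `g x = 4 R x p p p - 3 h x * R p p p p`.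
-/

set_option autoImplicit false

open Set Topology Filter MvPolynomial
open Pool.Agent.MZ

namespace Pool.Agent.QS

namespace Qrt

variable {m : ℕ} {C : Qrt m} {p : V m} {y : ℝ}

/-- the difference of `T` and the symmetrization of `r ⊗ r` -/
private noncomputable def m3R (C : Qrt m) (r : V m →ₗ[ℝ] V m →ₗ[ℝ] ℝ) (a b c d : V m) : ℝ :=
  C.T a b c d - (r a b * r c d + r a c * r b d + r a d * r b c) / 3

private theorem m3_add (C : Qrt m) (r : V m →ₗ[ℝ] V m →ₗ[ℝ] ℝ) (a a' b c d : V m) :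
    m3R C r (a + a') b c d = m3R C r a b c d + m3R C r a' b c d := by
  simp only [m3R, map_add, LinearMap.add_apply]
  ring

private theorem m3_smul (C : Qrt m) (r : V m →ₗ[ℝ] V m →ₗ[ℝ] ℝ) (t : ℝ) (a b c d : V m) :
    m3R C r (t • a) b c d = t * m3R C r a b c d := by
  simp only [m3R, map_smul, LinearMap.smul_apply, smul_eq_mul]
  ring

variable {r : V m →ₗ[ℝ] V m →ₗ[ℝ] ℝ}

private theorem m3_s1 (hr : ∀ u v, r u v = r v u) (a b c d : V m) :
    m3R C r a b c d = m3R C r b a c d := by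
  simp only [m3R]
  rw [C.s₁ a b c d, hr a b]
  ring

private theorem m3_s2 (hr : ∀ u v, r u v = r v u) (a b c d : V m) :
    m3R C r a b c d = m3R C r a c b d := by
  simp only [m3R]
  rw [C.s₂ a b c d, hr b c]
  ring

private theorem m3_s3 (hr : ∀ u v, r u v = r v u) (a b c d : V m) :
    m3R C r a b c d = m3R C r a b d c := by
  simp only [m3R]
  rw [C.s₃ a b c d, hr c d]
  ring

private theorem m3_s13 (hr : ∀ u v, r u v = r v u) (a b c d : V m) :
    m3R C r a b c d = m3R C r c d a b := by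
  rw [m3_s2 hr, m3_s1 hr, m3_s3 hr, m3_s2 hr]

private theorem m3_add2 (hr : ∀ u v, r u v = r v u) (a b b' c d : V m) :
    m3R C r a (b + b') c d = m3R C r a b c d + m3R C r a b' c d := by
  rw [m3_s1 hr, m3_add, m3_s1 hr, m3_s1 hr b']

private theorem m3_add3 (hr : ∀ u v, r u v = r v u) (a b c c' d : V m) :
    m3R C r a b (c + c') d = m3R C r a b c d + m3R C r a b c' d := by
  rw [m3_s2 hr, m3_add2 hr, m3_s2 hr, m3_s2 hr a c']

private theorem m3_add4 (hr : ∀ u v, r u v = r v u) (a b c d d' : V m) :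
    m3R C r a b c (d + d') = m3R C r a b c d + m3R C r a b c d' := by
  rw [m3_s3 hr, m3_add3 hr, m3_s3 hr, m3_s3 hr a b d']

private theorem m3_smul2 (hr : ∀ u v, r u v = r v u) (t : ℝ) (a b c d : V m) :
    m3R C r a (t • b) c d = t * m3R C r a b c d := by
  rw [m3_s1 hr, m3_smul, m3_s1 hr]

private theorem m3_smul3 (hr : ∀ u v, r u v = r v u) (t : ℝ) (a b c d : V m) :
    m3R C r a b (t • c) d = t * m3R C r a b c d := by
  rw [m3_s2 hr, m3_smul2 hr, m3_s2 hr]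

private theorem m3_smul4 (hr : ∀ u v, r u v = r v u) (t : ℝ) (a b c d : V m) :
    m3R C r a b c (t • d) = t * m3R C r a b c d := by
  rw [m3_s3 hr, m3_smul3 hr, m3_s3 hr]

/-- expansion of the quadratic form in the first two arguments -/
private theorem m3_quad (hr : ∀ u v, r u v = r v u) (s t : ℝ) (a b c d : V m) :
    m3R C r (s • a + t • b) (s • a + t • b) c d =
      s ^ 2 * m3R C r a a c d + 2 * s * t * m3R C r b a c d + t ^ 2 * m3R C r b b c d := by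
  rw [m3_add, m3_add2 hr, m3_add2 hr, m3_smul, m3_smul, m3_smul, m3_smul, m3_smul2 hr,
    m3_smul2 hr, m3_smul2 hr, m3_smul2 hr, m3_s1 hr a b]
  ring

/-- expansion of the quartic form -/
private theorem m3_quart (hr : ∀ u v, r u v = r v u) (s t : ℝ) (a b : V m) :
    m3R C r (s • a + t • b) (s • a + t • b) (s • a + t • b) (s • a + t • b) =
      s ^ 4 * m3R C r a a a a + 4 * s ^ 3 * t * m3R C r a a a b +
      6 * s ^ 2 * t ^ 2 * m3R C r a a b b + 4 * s * t ^ 3 * m3R C r a b b b +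
      t ^ 4 * m3R C r b b b b := by
  have e : ∀ c d : V m, m3R C r c d (s • a + t • b) (s • a + t • b) =
      s ^ 2 * m3R C r c d a a + 2 * s * t * m3R C r c d b a + t ^ 2 * m3R C r c d b b := by
    intro c d
    rw [m3_s13 hr, m3_quad hr, m3_s13 hr a a, m3_s13 hr b a, m3_s13 hr b b]
  rw [m3_quad hr, e, e, e]
  have h1 : m3R C r a a b a = m3R C r a a a b := m3_s3 hr _ _ _ _
  have h2 : m3R C r b a a a = m3R C r a a a b := by rw [m3_s1 hr, m3_s2 hr, m3_s3 hr]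
  have h3 : m3R C r b a b a = m3R C r a a b b := by rw [m3_s1 hr, m3_s3 hr, m3_s2 hr]
  have h4 : m3R C r b a b b = m3R C r a b b b := m3_s1 hr _ _ _ _
  have h5 : m3R C r b b a a = m3R C r a a b b := m3_s13 hr _ _ _ _
  have h6 : m3R C r b b b a = m3R C r a b b b := by rw [m3_s3 hr, m3_s2 hr, m3_s1 hr]
  rw [h1, h2, h3, h4, h5, h6]
  ring

/-- polarization -/
private theorem m3_polar (hr : ∀ u v, r u v = r v u) {a b : V m}
    (h : ∀ x, m3R C r a b x x = 0) (u w : V m) : m3R C r a b u w = 0 := by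
  have h1 := h (u + w)
  rw [m3_add3 hr, m3_add4 hr, m3_add4 hr, h u, h w, m3_s3 hr a b w u] at h1
  linarith

private theorem m3_diag (C : Qrt m) (r : V m →ₗ[ℝ] V m →ₗ[ℝ] ℝ) (x : V m) :
    m3R C r x x x x = C.F x - (r x x) ^ 2 := by
  rw [m3R, F]
  ring

/-- `q p y` of polynomial functions -/
private theorem m3_polyq (C : Qrt m) (p : V m) (y : ℝ) {k : ℕ} {a b : V k → V m}
    (ha : ∀ i, PolyR k fun x => a x i) (hb : ∀ i, PolyR k fun x => b x i) :
    PolyR k fun x => C.q p y (a x) (b x) := by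
  have hp : ∀ i, PolyR k fun _ => p i := fun i => PolyR.const _
  have h1 := ((PolyR.const (m := k) (3 * y ^ 2)).mul (C.polyR_T hp hp ha hb)).sub
    (((PolyR.const (m := k) 2).mul (C.polyR_T hp hp hp ha)).mul (C.polyR_T hp hp hp hb))
  have h2 := h1.mul (PolyR.const (m := k) (y ^ 3)⁻¹)
  have e : (fun x => C.q p y (a x) (b x)) = fun x => (3 * y ^ 2 * C.T p p (a x) (b x) -
      2 * C.T p p p (a x) * C.T p p p (b x)) * (y ^ 3)⁻¹ := by
    funext x
    rw [q, div_eq_mul_inv]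
  rw [e]
  exact h2

private theorem m3_polyR (C : Qrt m) (p : V m) (y : ℝ) {a : V m → V m}
    (ha : ∀ i, PolyR m fun x => a x i) (x : V m) :
    PolyR m fun θ => m3R C (C.qb p y) (a θ) (a θ) x x := by
  have hx : ∀ i, PolyR m fun _ => x i := fun i => PolyR.const _
  have h1 := (C.polyR_T ha ha hx hx).sub (((((m3_polyq C p y ha ha).mul
    (m3_polyq C p y hx hx)).add ((m3_polyq C p y ha hx).mul (m3_polyq C p y ha hx))).add
    ((m3_polyq C p y ha hx).mul (m3_polyq C p y ha hx))).mul (PolyR.const (m := m) 3⁻¹))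
  have e : (fun θ => m3R C (C.qb p y) (a θ) (a θ) x x) = fun θ =>
      C.T (a θ) (a θ) x x - (C.q p y (a θ) (a θ) * C.q p y x x +
        C.q p y (a θ) x * C.q p y (a θ) x + C.q p y (a θ) x * C.q p y (a θ) x) * 3⁻¹ := by
    funext θ
    rw [m3R, qb_apply, qb_apply, qb_apply, div_eq_mul_inv]
  rw [e]
  exact h1

/-- step 1 -/
private theorem m3_step1 {P : V m} {Y : ℝ} (hP : C.Sh P Y) (hr : ∀ u v, r u v = r v u)
    (hq : ∀ x, C.q P Y x x = r x x) (x : V m) : m3R C r P P x x = 0 := by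
  have key : ∀ a : ℝ, a ^ 4 * m3R C r P P P P + 4 * a ^ 3 * m3R C r P P P x +
      6 * a ^ 2 * m3R C r P P x x + 4 * a * m3R C r P x x x + m3R C r x x x x =
      4 * a * C.c3 P Y x + C.c4 P Y x := by
    intro a
    have h1 := F_expand hP a 1 x
    rw [hq] at h1
    have h2 := m3_diag C r (a • P + (1 : ℝ) • x)
    rw [m3_quart hr, h1] at h2
    linarith
  have k0 := key 0
  have k1 := key 1
  have k2 := key (-1)
  have k3 := key 2
  have k4 := key (-2)
  linarith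

theorem dec_of_const (hns : ¬ C.Sq) (h : C.Sh p y) {θ₀ : V m} {ε : ℝ} (hε : 0 < ε)
    (hc : ∀ θ ∈ Metric.ball θ₀ ε, C.c3 p y θ ≠ 0 ∧
      C.q p y (C.xp p y θ) (C.xp p y θ) ≠ 0 ∧ ∀ x,
        C.q (C.xp p y θ) (C.q p y (C.xp p y θ) (C.xp p y θ)) x x =
          C.q (C.xp p y θ₀) (C.q p y (C.xp p y θ₀) (C.xp p y θ₀)) x x) :
    ∃ r h' g, C.Dec p y r h' g := by
  obtain ⟨P₀, hP₀⟩ : ∃ P₀, P₀ = C.xp p y θ₀ := ⟨_, rfl⟩
  obtain ⟨Y₀, hY₀⟩ : ∃ Y₀, Y₀ = C.q p y P₀ P₀ := ⟨_, rfl⟩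
  have hr : ∀ u v, C.qb P₀ Y₀ u v = C.qb P₀ Y₀ v u := fun u v => by
    rw [qb_apply, qb_apply, C.q_symm]
  have hθ₀ : θ₀ ∈ Metric.ball θ₀ ε := Metric.mem_ball_self hε
  have hc30 : C.c3 p y θ₀ ≠ 0 := (hc θ₀ hθ₀).1
  -- step 1
  have s1 : ∀ θ ∈ Metric.ball θ₀ ε, ∀ x, m3R C (C.qb P₀ Y₀) (C.xp p y θ) (C.xp p y θ) x x = 0 := by
    intro θ hθ x
    obtain ⟨-, h2, h3⟩ := hc θ hθ
    refine m3_step1 (P := C.xp p y θ) (Y := C.q p y (C.xp p y θ) (C.xp p y θ)) ⟨h2, F_xp h θ⟩ hr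
      (fun x => ?_) x
    rw [h3 x, qb_apply, hY₀, hP₀]
  -- step 2
  have s2 : ∀ θ x, m3R C (C.qb P₀ Y₀) (C.xp p y θ) (C.xp p y θ) x x = 0 := by
    intro θ x
    exact polyR_eq_zero_of_open (m3_polyR C P₀ Y₀ (C.polyR_xp p y) x) Metric.isOpen_ball
      ⟨θ₀, hθ₀⟩ (fun θ hθ => s1 θ hθ x) θ
  have s2' : ∀ θ u w, 16 * C.c3 p y θ ^ 2 * m3R C (C.qb P₀ Y₀) θ θ u w -
      8 * C.c3 p y θ * C.c4 p y θ * m3R C (C.qb P₀ Y₀) p θ u w +
      C.c4 p y θ ^ 2 * m3R C (C.qb P₀ Y₀) p p u w = 0 := by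
    intro θ u w
    have h1 := m3_polar hr (s2 θ) u w
    have h2 : C.xp p y θ = (4 * C.c3 p y θ) • θ + (-C.c4 p y θ) • p := by
      rw [xp, neg_smul, sub_eq_add_neg]
    rw [h2, m3_quad hr] at h1
    linarith
  -- step 3
  have s3 : ∃ x, m3R C (C.qb P₀ Y₀) p p x x ≠ 0 := by
    by_contra hcon
    push Not at hcon
    have h0 : ∀ u w, m3R C (C.qb P₀ Y₀) p p u w = 0 := m3_polar hr hcon
    apply hns
    refine sq_of_c4 (p := P₀) (y := Y₀) (fun x => ?_)
    refine polyR_eq_zero_of_open (C.polyR_c4 P₀ Y₀) (W := Metric.ball θ₀ ε) Metric.isOpen_ball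
      ⟨θ₀, hθ₀⟩ (fun θ hθ => ?_) x
    have hc3 := (hc θ hθ).1
    have h16 : (16 : ℝ) * C.c3 p y θ ^ 2 ≠ 0 := mul_ne_zero (by norm_num) (pow_ne_zero 2 hc3)
    have h1 := s2' θ p θ
    have h2 : m3R C (C.qb P₀ Y₀) p θ p θ = 0 := by rw [m3_s2 hr, h0]
    rw [h2, h0, mul_zero, mul_zero, sub_zero, add_zero] at h1
    have h3 : m3R C (C.qb P₀ Y₀) θ θ p θ = 0 := (mul_eq_zero.1 h1).resolve_left h16
    have h4 : m3R C (C.qb P₀ Y₀) p θ θ θ = 0 := by rw [m3_s1 hr, m3_s2 hr, h3]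
    have h5 := s2' θ θ θ
    rw [h4, h0, mul_zero, mul_zero, sub_zero, add_zero] at h5
    have h6 : m3R C (C.qb P₀ Y₀) θ θ θ θ = 0 := (mul_eq_zero.1 h5).resolve_left h16
    rw [m3_diag] at h6
    exact h6
  obtain ⟨x₁, hx₁⟩ := s3
  -- step 4
  obtain ⟨B, hB⟩ : ∃ B : V m →ₗ[ℝ] V m →ₗ[ℝ] ℝ, ∀ a b, B a b = m3R C (C.qb P₀ Y₀) a b x₁ x₁ :=
    ⟨LinearMap.mk₂ ℝ (fun a b => m3R C (C.qb P₀ Y₀) a b x₁ x₁)
      (fun a a' b => m3_add C _ a a' b x₁ x₁) (fun t a b => m3_smul C _ t a b x₁ x₁)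
      (fun a b b' => m3_add2 hr a b b' x₁ x₁) (fun t a b => m3_smul2 hr t a b x₁ x₁),
      fun a b => rfl⟩
  obtain ⟨h', hh'⟩ := lin_of_quad (C.polyR_c3 p y) (C.polyR_c4 p y) ⟨θ₀, hc30⟩ (L := B p) (B := B)
    hx₁ (fun x => by
      have h1 := s2' x x₁ x₁
      rw [hB, hB]
      linarith) (fun t x => C.c3_smul t x) (fun t x => C.c4_smul t x)
  have hp1 : h' p = 1 := by
    have h1 := hh' (θ₀ + (1 : ℝ) • p)
    rw [c4_add h, c3_add h, hh' θ₀, map_add, map_smul, smul_eq_mul] at h1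
    have h2 : 4 * C.c3 p y θ₀ * (h' p - 1) = 0 := by linarith
    have h3 := (mul_eq_zero.1 h2).resolve_left (mul_ne_zero (by norm_num) hc30)
    linarith
  -- step 5
  have s5 : ∀ z, h' z = 0 → ∀ u w, m3R C (C.qb P₀ Y₀) z z u w = 0 := by
    intro z hz u w
    refine m3_polar hr (fun x => ?_) u w
    have h1 : ∀ z, h' z = 0 → C.c3 p y z * m3R C (C.qb P₀ Y₀) z z x x = 0 := by
      intro z hz
      have h2 := s2' z x x
      rw [hh' z, hz] at h2
      have h3 : C.c3 p y z * (C.c3 p y z * m3R C (C.qb P₀ Y₀) z z x x) = 0 := by linarith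
      rcases mul_eq_zero.1 h3 with h4 | h4
      · rw [h4, zero_mul]
      · exact h4
    rcases polyR_mul_eq_zero_ker (C.polyR_c3 p y)
      (m3_polyR C P₀ Y₀ (a := fun θ => θ) (fun i => PolyR.coord i) x) h' h1 with h2 | h2
    · exfalso
      apply hc30
      have h3 := h2 (θ₀ + (-h' θ₀) • p) (by
        rw [map_add, map_smul, hp1, smul_eq_mul, mul_one, add_neg_cancel])
      rwa [c3_add h] at h3
    · exact h2 z hz
  -- step 6
  obtain ⟨g, hg⟩ : ∃ g : V m →ₗ[ℝ] ℝ, ∀ x, g x = 4 * m3R C (C.qb P₀ Y₀) x p p p -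
      3 * h' x * m3R C (C.qb P₀ Y₀) p p p p :=
    ⟨{ toFun := fun x => 4 * m3R C (C.qb P₀ Y₀) x p p p -
        3 * h' x * m3R C (C.qb P₀ Y₀) p p p p
       map_add' := by
        intro x x'
        rw [m3_add, map_add]
        ring
       map_smul' := by
        intro t x
        rw [m3_smul, map_smul, smul_eq_mul, RingHom.id_apply, smul_eq_mul]
        ring }, fun x => rfl⟩
  refine ⟨C.qb P₀ Y₀, h', g, hr, hp1, hh', fun x => ?_⟩
  have hz : h' (x + (-h' x) • p) = 0 := by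
    rw [map_add, map_smul, hp1, smul_eq_mul, mul_one, add_neg_cancel]
  have h1 : x = (1 : ℝ) • (x + (-h' x) • p) + h' x • p := by
    rw [one_smul, neg_smul, neg_add_cancel_right]
  have h2 := m3_diag C (C.qb P₀ Y₀) x
  have h3 := m3_quart hr (C := C) 1 (h' x) (x + (-h' x) • p) p
  rw [← h1, s5 _ hz, s5 _ hz, s5 _ hz, m3_add, m3_smul] at h3
  rw [hg]
  linear_combination h3 - h2

end Qrt

end Pool.Agent.QS
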