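import Pool.Agent.QS.M1
import Pool.Agent.QS.M3

/-!
# QS module MTH: a good sheet of a thin form gives a decomposition `F = r² + h³ g`

PROOF: `const_q` and `dec_of_const`.
-/

set_option autoImplicit false

open Set Topology Filter MvPolynomial
open Pool.Agent.MZ

namespace Pool.Agent.QS

namespace Qrt

variable {m : ℕ} {C : Qrt m} {p : V m} {y : ℝ}

theorem exists_dec (hT : C.Thin) (hns : ¬ C.Sq) (h : C.Sh p y) (hp : p ∈ C.Z)
    (hg : C.Good p y) : ∃ r h' g, C.Dec p y r h' g := by
  obtain ⟨θ₀, ε, hε, hc⟩ := const_q hT h hp hg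
  exact dec_of_const hns h hε hc

end Qrt

end Pool.Agent.QS
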