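import Pool.Agent.QS.Bas
import Pool.Agent.QS.Uf

/-!
# QS module N2: two decompositions `F = r² + h³ g = r'² + g³ g'`

PROOF. `(r' - r) (r' + r) = h³ g - g³ g' = g (h³ - g² g')` (as functions of `x`, `r = r x x` etc.), so on the kernel of `g`
one of `r' - r`, `r' + r` vanishes (`polyR_mul_eq_zero_ker`; `r x x` is a polynomial function: expand on the basis).
Replacing `r'` by `-r'` we may assume it is `r' - r`. `g ≠ 0`: `hgh` gives `x` with `g x ≠ 0`; scale it to `g e = 1`.
`dvd_of_ker`: `r' x x - r x x = g x * a x`, `a` linear. Then `g x * (a x * (r' x x + r x x) - (h x ^ 3 - g x ^ 2 * g' x)) = 0`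
for all `x`, so (`polyR_mul_eq_zero`, `g ≠ 0`)
(1) `a x * (r' x x + r x x) = h x ^ 3 - g x ^ 2 * g' x` for all `x`.
`g x = 0`, `a x = 0` implies `h x = 0`. Therefore there are `c, l` with `h = c g + l a`
(`LinearMap` version: `Module.Dual` / `mem_span_of_iInf_ker_le_ker`, `Matrix`-free; Mathlib:
`mem_span_of_iInf_ker_le_ker` for a finite family of linear forms). If `a` vanishes on the kernel of `g`
(in particular if `a = 0`), then so does `h`: contradiction to `hhg`. If `g` vanishes on the kernel of `a`: then, as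
`g ≠ 0`, `a` is a nonzero multiple of `g` or `a = 0`; in both cases `a` vanishes on the kernel of `g`, excluded.
On the kernel of `a`: `0 = h³ - g² g' = g² (c³ g - g')`, so by `polyR_mul_eq_zero_ker` (`g²` does not vanish identically
there) `g' = c³ g` on the kernel of `a`, hence `g' = c³ g + μ a` with a real `μ` (`mem_span_of_iInf_ker_le_ker`, or: choose
`e'` with `a e' = 1`). Insert into (1): `a (r' + r) = a (3 c² l g² + 3 c l² g a + l³ a² - μ g²)`, so
(`polyR_mul_eq_zero`, `a ≠ 0`) `r' + r = (3 c² l - μ) g² + 3 c l² g a + l³ a²`, and `r' - r = g a`. So `r x x` depends only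
on `g x` and `a x`, and `h`, `g` too: `F (x + v) = F x` if `g v = 0`, `a v = 0`. `Bin` with `g, a`.
-/

set_option autoImplicit false

open Set Topology Filter MvPolynomial
open Pool.Agent.MZ

namespace Pool.Agent.QS

namespace Qrt

variable {m : ℕ} {C : Qrt m}

private theorem n2_bil {m : ℕ} (B : V m →ₗ[ℝ] V m →ₗ[ℝ] ℝ) : PolyR m fun x => B x x := by
  have h : (fun x : V m => B x x) = fun x => ∑ i, x i * B (Pi.single i 1) x := by
    funext x
    have hx : x = ∑ i, x i • (Pi.single i (1 : ℝ) : V m) := pi_eq_sum_univ' x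
    calc B x x = B (∑ i, x i • (Pi.single i (1 : ℝ) : V m)) x := by rw [← hx]
      _ = ∑ i, x i * B (Pi.single i 1) x := by
          rw [map_sum, LinearMap.sum_apply]
          refine Finset.sum_congr rfl fun i _ => ?_
          rw [map_smul, LinearMap.smul_apply, smul_eq_mul]
  rw [h]
  exact PolyR.sum _ fun i _ => (PolyR.coord i).mul (PolyR.lin (B (Pi.single i 1)))

private theorem n2_pow {m : ℕ} {f : V m → ℝ} (hf : PolyR m f) (k : ℕ) :
    PolyR m fun x => f x ^ k := by
  induction k with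
  | zero =>
    simp only [pow_zero]
    exact PolyR.const 1
  | succ k ih =>
    simp only [pow_succ]
    exact ih.mul hf

private theorem n2_core {r r' : V m →ₗ[ℝ] V m →ₗ[ℝ] ℝ} {h g g' : V m →ₗ[ℝ] ℝ}
    (hr : ∀ u v, r u v = r v u) (hr' : ∀ u v, r' u v = r' v u)
    (h1 : ∀ x, C.F x = (r x x) ^ 2 + (h x) ^ 3 * g x)
    (h2 : ∀ x, C.F x = (r' x x) ^ 2 + (g x) ^ 3 * g' x)
    (hhg : ∃ x, g x = 0 ∧ h x ≠ 0) (hgh : ∃ x, h x = 0 ∧ g x ≠ 0)
    (hk : ∀ x, g x = 0 → r' x x = r x x) : C.Bin := by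
  obtain ⟨u, -, hu⟩ := hgh
  obtain ⟨w, hw, hw'⟩ := hhg
  obtain ⟨e, he⟩ : ∃ e, g e = 1 := ⟨(g u)⁻¹ • u, by
    rw [map_smul, smul_eq_mul, inv_mul_cancel₀ hu]⟩
  have hgne : ∃ x, g x ≠ 0 := ⟨u, hu⟩
  obtain ⟨a, ha⟩ : ∃ a : V m →ₗ[ℝ] ℝ, ∀ x, (r' - r) x x = g x * a x := by
    refine dvd_of_ker ?_ he ?_
    · intro x y
      simp only [LinearMap.sub_apply]
      rw [hr x y, hr' x y]
    · intro x hx
      simp only [LinearMap.sub_apply]
      rw [hk x hx, sub_self]
  have ha' : ∀ x, r' x x - r x x = g x * a x := by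
    intro x
    rw [← ha x]
    rfl
  have h3 : ∀ x, a x * (r' x x + r x x) = h x ^ 3 - g x ^ 2 * g' x := by
    have h4 : ∀ x, g x * (a x * (r' x x + r x x) - (h x ^ 3 - g x ^ 2 * g' x)) = 0 := by
      intro x
      have e1 := h1 x
      have e2 := h2 x
      have e3 := ha' x
      linear_combination e1 - e2 - (r' x x + r x x) * e3
    have hp : PolyR m fun x => a x * (r' x x + r x x) - (h x ^ 3 - g x ^ 2 * g' x) :=
      ((PolyR.lin a).mul ((n2_bil r').add (n2_bil r))).sub
        ((n2_pow (PolyR.lin h) 3).sub ((n2_pow (PolyR.lin g) 2).mul (PolyR.lin g')))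
    rcases polyR_mul_eq_zero (PolyR.lin g) hp h4 with h5 | h5
    · exact absurd (h5 u) hu
    · exact fun x => sub_eq_zero.1 (h5 x)
  -- on the common kernel
  have hh0 : ∀ x, g x = 0 → a x = 0 → h x = 0 := by
    intro x hx hx'
    have e3 := h3 x
    rw [hx, hx'] at e3
    have : h x ^ 3 = 0 := by linear_combination -e3
    exact pow_eq_zero_iff (by norm_num) |>.1 this
  have haw : a w ≠ 0 := fun h0 => hw' (hh0 w hw h0)
  obtain ⟨e2, he2, he2'⟩ : ∃ e2, g e2 = 0 ∧ a e2 = 1 := ⟨(a w)⁻¹ • w, by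
    rw [map_smul, hw, smul_zero], by rw [map_smul, smul_eq_mul, inv_mul_cancel₀ haw]⟩
  obtain ⟨e1, he1, he1'⟩ : ∃ e1, g e1 = 1 ∧ a e1 = 0 := ⟨e - a e • e2, by
    rw [map_sub, map_smul, he, he2, smul_zero, sub_zero], by
    rw [map_sub, map_smul, he2', smul_eq_mul, mul_one, sub_self]⟩
  have hker : ∀ x, g (x - g x • e1 - a x • e2) = 0 ∧ a (x - g x • e1 - a x • e2) = 0 := by
    intro x
    constructor
    · rw [map_sub, map_sub, map_smul, map_smul, he1, he2, smul_eq_mul, smul_eq_mul]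
      ring
    · rw [map_sub, map_sub, map_smul, map_smul, he1', he2', smul_eq_mul, smul_eq_mul]
      ring
  have hh : ∀ x, h x = h e1 * g x + h e2 * a x := by
    intro x
    have e3 := hh0 _ (hker x).1 (hker x).2
    rw [map_sub, map_sub, map_smul, map_smul, smul_eq_mul, smul_eq_mul] at e3
    linear_combination e3
  have hg1 : g' e1 = h e1 ^ 3 := by
    have e3 := h3 e1
    rw [he1, he1'] at e3
    linear_combination e3
  have hg0 : ∀ x, g x = 0 → a x = 0 → g' x = 0 := by
    intro x hx hx'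
    have e3 := h3 (e1 + x)
    have e4 : a (e1 + x) = 0 := by rw [map_add, he1', hx', add_zero]
    have e5 : g (e1 + x) = 1 := by rw [map_add, he1, hx, add_zero]
    have e6 : h (e1 + x) = h e1 := by rw [map_add, hh0 x hx hx', add_zero]
    rw [e4, e5, e6, map_add g', hg1] at e3
    linear_combination e3
  have hg : ∀ x, g' x = h e1 ^ 3 * g x + g' e2 * a x := by
    intro x
    have e3 := hg0 _ (hker x).1 (hker x).2
    rw [map_sub, map_sub, map_smul, map_smul, smul_eq_mul, smul_eq_mul, hg1] at e3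
    linear_combination e3
  have hsum : ∀ x, r' x x + r x x = (3 * h e1 ^ 2 * h e2 - g' e2) * g x ^ 2 +
      3 * h e1 * h e2 ^ 2 * (g x * a x) + h e2 ^ 3 * a x ^ 2 := by
    have hp : PolyR m fun x => (r' x x + r x x) - ((3 * h e1 ^ 2 * h e2 - g' e2) * g x ^ 2 +
      3 * h e1 * h e2 ^ 2 * (g x * a x) + h e2 ^ 3 * a x ^ 2) :=
      ((n2_bil r').add (n2_bil r)).sub ((((PolyR.const _).mul (n2_pow (PolyR.lin g) 2)).add
        ((PolyR.const _).mul ((PolyR.lin g).mul (PolyR.lin a)))).add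
        ((PolyR.const _).mul (n2_pow (PolyR.lin a) 2)))
    have h4 : ∀ x, a x * ((r' x x + r x x) - ((3 * h e1 ^ 2 * h e2 - g' e2) * g x ^ 2 +
      3 * h e1 * h e2 ^ 2 * (g x * a x) + h e2 ^ 3 * a x ^ 2)) = 0 := by
      intro x
      have e3 := h3 x
      rw [hh x, hg x] at e3
      linear_combination e3
    rcases polyR_mul_eq_zero (PolyR.lin a) hp h4 with h5 | h5
    · exact absurd (h5 w) haw
    · exact fun x => sub_eq_zero.1 (h5 x)
  have hrx : ∀ x, r x x = ((3 * h e1 ^ 2 * h e2 - g' e2) * g x ^ 2 +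
      3 * h e1 * h e2 ^ 2 * (g x * a x) + h e2 ^ 3 * a x ^ 2 - g x * a x) / 2 := by
    intro x
    have e3 := hsum x
    have e4 := ha' x
    linear_combination (e3 - e4) / 2
  refine ⟨g, a, fun v hv hv' x => ?_⟩
  have e3 : g (x + v) = g x := by rw [map_add, hv, add_zero]
  have e4 : a (x + v) = a x := by rw [map_add, hv', add_zero]
  have e5 : h (x + v) = h x := by rw [map_add, hh0 v hv hv', add_zero]
  rw [h1 (x + v), h1 x, hrx (x + v), hrx x, e3, e4, e5]

theorem bin_of_two {r r' : V m →ₗ[ℝ] V m →ₗ[ℝ] ℝ} {h g g' : V m →ₗ[ℝ] ℝ}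
    (hr : ∀ u v, r u v = r v u) (hr' : ∀ u v, r' u v = r' v u)
    (h1 : ∀ x, C.F x = (r x x) ^ 2 + (h x) ^ 3 * g x)
    (h2 : ∀ x, C.F x = (r' x x) ^ 2 + (g x) ^ 3 * g' x)
    (hhg : ∃ x, g x = 0 ∧ h x ≠ 0) (hgh : ∃ x, h x = 0 ∧ g x ≠ 0) : C.Bin := by
  have hk : ∀ x, g x = 0 → (r' x x - r x x) * (r' x x + r x x) = 0 := by
    intro x hx
    have e1 := h1 x
    have e2 := h2 x
    rw [hx] at e1 e2
    linear_combination e1 - e2
  rcases polyR_mul_eq_zero_ker ((n2_bil r').sub (n2_bil r)) ((n2_bil r').add (n2_bil r)) g hk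
    with h3 | h3
  · exact n2_core hr hr' h1 h2 hhg hgh (fun x hx => by linarith [h3 x hx])
  · refine n2_core (r' := -r') (g' := g') hr ?_ h1 ?_ hhg hgh ?_
    · intro u v
      rw [LinearMap.neg_apply, LinearMap.neg_apply, LinearMap.neg_apply, LinearMap.neg_apply,
        hr' u v]
    · intro x
      rw [LinearMap.neg_apply, LinearMap.neg_apply, h2 x, neg_sq]
    · intro x hx
      rw [LinearMap.neg_apply, LinearMap.neg_apply]
      linarith [h3 x hx]

end Qrt

end Pool.Agent.QS
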