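import Pool.Agent.QS.Bas
import Pool.Agent.QS.Alg
import Pool.Agent.QS.Uf

/-!
# QS module NN: `F = r² + h³ g` with `g` a multiple of `h`, or with `r = 0` on `g = 0`

Write `c3 = c3 p y`, `c4 = c4 p y`, `q = q p y`, `h = h'` (`Dec`: `h p = 1`, `c4 = 4 c3 h`, `F = r² + h³ g`).

PROOF of `dec_coeff`. `F = q² + c4 = q² + 4 c3 h`. On the kernel of `h` both `F = r²` and `F = q²`, so
`(q x x - r x x) (q x x + r x x) = 0` there and by `polyR_mul_eq_zero_ker` (`polyR_q`; `r x x` is a polynomial function: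
expand on the basis) there is `σ = 1` or `σ = -1` with `q x x = σ r x x` for all `x` with `h x = 0`. `dvd_of_ker` for the
symmetric form `D = qb p y - σ • r` (`h p = 1`) gives `e` with `σ r x x = q x x - h x * e x` for all `x`. Hence
`4 c3 x h x = F x - (q x x)² = h x * (- 2 q x x * e x + h x * (e x)² + (h x)² * g x)`. Let `h θ = 0`, and put
`x = t • p + θ`: `h x = t`, `c3 x = c3 θ` (`c3_add`), `q x x = y t² + 2 t q p θ + q θ θ` (`q_expand`), `e x = t e p + e θ`,
`g x = t g p + g θ`. For `t ≠ 0` divide by `t`: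
`4 c3 θ = -2 (y t² + 2 t q p θ + q θ θ) (t e p + e θ) + t (t e p + e θ)² + t² (t g p + g θ)` for all `t ≠ 0`; both sides
are polynomials in `t` (degree 3), so the coefficients agree (use e.g. `t = 1, -1, 2, -2, 3`, `linarith`).

PROOF of `bin_of_dec1`. Put `e0 = e p`. If `e0 = 0` then `g p = 0`, so `g x = g (x - h x • p) + h x * g p = 0` and
`F = r²`: `Sq`, contradiction. If `e0 ≠ 0`: for `h θ = 0` the second equation with `g θ = 0` gives
`2 q p θ = e θ (e0 - y) / e0`, the third `q θ θ = ((e θ)² - 2 (2 q p θ) e θ) / (2 e0)`: both are functions of `e θ`, and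
`F (t • p + θ) = (y t² + 2 t q p θ + q θ θ)² + t (- 2 q θ θ e θ)`. So if `h v = 0` and `e v = 0`:
`x = t • p + θ` with `t = h x`, `x + v = t • p + (θ + v)`, `e (θ + v) = e θ`, `F (x + v) = F x`. `Bin` with `h, e`.

PROOF of `bin_of_dec2`. Put `e0 = e p`, `g0 = g p = 2 y e0 - e0²`. If `g0 = 0` then `r p p = 0` by hypothesis, but
`σ r p p = q p p - e0 = y - e0` (`q_pp`), and `e0 (2 y - e0) = 0`, so `y - e0 = y` or `- y`, contradiction. So
`e0 ≠ 0`, `2 y - e0 ≠ 0`. CLAIM: for `θ, θ'` in the kernel of `h`: `(q p θ) (e θ') = (q p θ') (e θ)`. Otherwise there is `θ` in the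
kernel of `h` with `e θ = e0` and `2 q p θ = e0 - y` (two linear equations with nonzero determinant). Then
`g θ = 2 (y e0 + (e0 - y) e0) - 2 e0² = 0`, so `r θ θ = 0`, but `σ r θ θ = q θ θ` and
`2 q θ θ e0 = e0² - 2 (e0 - y) e0`, so `q θ θ = (2 y - e0) / 2 ≠ 0`, contradiction. `q θ θ` is a function of `q p θ` and
`e θ` (third equation, `e0 ≠ 0`). If `e θ = 0` for all `θ` in the kernel of `h`: `Bin` with `h` and `x ↦ q p y p x`. Otherwise
`e θ₀ ≠ 0`, `q p θ = (q p θ₀ / e θ₀) e θ` for all `θ` in the kernel of `h`: `Bin` with `h, e`. In both cases as above.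
-/

set_option autoImplicit false

open Set Topology Filter MvPolynomial
open Pool.Agent.MZ

namespace Pool.Agent.QS

namespace Qrt

variable {m : ℕ} {C : Qrt m} {p : V m} {y : ℝ} {r : V m →ₗ[ℝ] V m →ₗ[ℝ] ℝ} {h g : V m →ₗ[ℝ] ℝ}

private theorem nn_bil (B : V m →ₗ[ℝ] V m →ₗ[ℝ] ℝ) : PolyR m fun x => B x x := by
  have h : (fun x : V m => B x x) = fun x => ∑ i, x i * B (Pi.single i 1) x := by
    funext x
    have hx : x = ∑ i, x i • (Pi.single i (1 : ℝ) : V m) := pi_eq_sum_univ' x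
    calc B x x = B (∑ i, x i • (Pi.single i (1 : ℝ) : V m)) x := by rw [← hx]
      _ = ∑ i, x i * B (Pi.single i 1) x := by
          rw [map_sum, LinearMap.sum_apply]
          refine Finset.sum_congr rfl fun i _ => ?_
          rw [map_smul, LinearMap.smul_apply, smul_eq_mul]
  rw [h]
  exact PolyR.sum _ fun i _ => (PolyR.coord i).mul (PolyR.lin (B (Pi.single i 1)))

private theorem nn_cubic {a b c d : ℝ}
    (h : ∀ t : ℝ, t ≠ 0 → a * t ^ 3 + b * t ^ 2 + c * t + d = 0) :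
    a = 0 ∧ b = 0 ∧ c = 0 ∧ d = 0 := by
  have h1 := h 1 (by norm_num)
  have h2 := h (-1) (by norm_num)
  have h3 := h 2 (by norm_num)
  have h4 := h (-2) (by norm_num)
  refine ⟨?_, ?_, ?_, ?_⟩ <;> norm_num at h1 h2 h3 h4 <;> linarith

private theorem nn_sgn (hd : C.Dec p y r h g) :
    ∃ (e : V m →ₗ[ℝ] ℝ) (σ : ℝ), σ ^ 2 = 1 ∧ ∀ x, σ * r x x = C.q p y x x - h x * e x := by
  obtain ⟨hr, hp, h4, hF⟩ := hd
  have key : ∀ x, h x = 0 → (C.q p y x x - r x x) * (C.q p y x x + r x x) = 0 := by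
    intro x hx
    have e1 := hF x
    have e2 := h4 x
    unfold c4 at e2
    rw [hx] at e1 e2
    linear_combination e1 - e2
  have hq := C.polyR_q p y
  have hrr := nn_bil r
  obtain ⟨σ, hσ, hk⟩ : ∃ σ : ℝ, σ ^ 2 = 1 ∧ ∀ x, h x = 0 → C.q p y x x - σ * r x x = 0 := by
    rcases polyR_mul_eq_zero_ker (hq.sub hrr) (hq.add hrr) h key with h1 | h1
    · exact ⟨1, by norm_num, fun x hx => by have := h1 x hx; linarith⟩
    · exact ⟨-1, by norm_num, fun x hx => by have := h1 x hx; linarith⟩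
  obtain ⟨e, he⟩ := dvd_of_ker (D := C.qb p y - σ • r) (a := h) (e := p)
    (fun u v => by
      rw [LinearMap.sub_apply, LinearMap.sub_apply, LinearMap.sub_apply, LinearMap.sub_apply,
        qb_apply, qb_apply, C.q_symm p y u v, LinearMap.smul_apply, LinearMap.smul_apply,
        LinearMap.smul_apply, LinearMap.smul_apply, hr u v]) hp
    (fun x hx => by
      rw [LinearMap.sub_apply, LinearMap.sub_apply, qb_apply, LinearMap.smul_apply,
        LinearMap.smul_apply, smul_eq_mul]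
      exact hk x hx)
  refine ⟨e, σ, hσ, fun x => ?_⟩
  have h1 := he x
  rw [LinearMap.sub_apply, LinearMap.sub_apply, qb_apply, LinearMap.smul_apply,
    LinearMap.smul_apply, smul_eq_mul] at h1
  linarith

theorem dec_coeff (hS : C.Sh p y) (hd : C.Dec p y r h g) :
    ∃ (e : V m →ₗ[ℝ] ℝ) (σ : ℝ), σ ^ 2 = 1 ∧ (∀ x, σ * r x x = C.q p y x x - h x * e x) ∧
      g p + (e p) ^ 2 = 2 * y * e p ∧ ∀ θ, h θ = 0 →
        (g θ + 2 * e p * e θ = 2 * (y * e θ + 2 * C.q p y p θ * e p)) ∧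
        ((e θ) ^ 2 = 2 * (2 * C.q p y p θ * e θ + C.q p y θ θ * e p)) ∧
        4 * C.c3 p y θ = - 2 * C.q p y θ θ * e θ := by
  obtain ⟨e, σ, hσ, he⟩ := nn_sgn hd
  obtain ⟨hr, hp, h4, hF⟩ := hd
  have key : ∀ x, h x ≠ 0 →
      4 * C.c3 p y x = - 2 * C.q p y x x * e x + h x * (e x) ^ 2 + (h x) ^ 2 * g x := by
    intro x hx
    have e1 := hF x
    have e2 := h4 x
    unfold c4 at e2
    have e3 : (r x x) ^ 2 = (C.q p y x x - h x * e x) ^ 2 := by
      rw [← he x]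
      linear_combination -(r x x) ^ 2 * hσ
    apply mul_left_cancel₀ hx
    linear_combination -e2 + e1 + e3
  have key2 : ∀ θ, h θ = 0 → ∀ t : ℝ, t ≠ 0 →
      (g p + (e p) ^ 2 - 2 * y * e p) * t ^ 3 +
      (g θ + 2 * e p * e θ - 2 * (y * e θ + 2 * C.q p y p θ * e p)) * t ^ 2 +
      ((e θ) ^ 2 - 2 * (2 * C.q p y p θ * e θ + C.q p y θ θ * e p)) * t +
      (- 2 * C.q p y θ θ * e θ - 4 * C.c3 p y θ) = 0 := by
    intro θ hθ t ht
    have hx : h (t • p + (1 : ℝ) • θ) = t := by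
      rw [map_add, map_smul, map_smul, hp, hθ, smul_eq_mul, smul_eq_mul]
      ring
    have h1 := key (t • p + (1 : ℝ) • θ) (by rw [hx]; exact ht)
    rw [hx, q_expand hS, map_add, map_add, map_smul, map_smul, map_smul, map_smul, smul_eq_mul,
      smul_eq_mul, smul_eq_mul, smul_eq_mul] at h1
    have h2 : C.c3 p y (t • p + (1 : ℝ) • θ) = C.c3 p y θ := by
      rw [one_smul, add_comm, c3_add hS]
    rw [h2] at h1
    linear_combination -h1
  refine ⟨e, σ, hσ, he, ?_, fun θ hθ => ?_⟩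
  · have h1 := nn_cubic (key2 0 (map_zero h))
    linarith [h1.1]
  · obtain ⟨-, h2, h3, h5⟩ := nn_cubic (key2 θ hθ)
    exact ⟨by linarith, by linarith, by linarith⟩

private theorem nn_bin (hS : C.Sh p y) (hd : C.Dec p y r h g) {e : V m →ₗ[ℝ] ℝ}
    (h0 : e p ≠ 0)
    (hq : ∀ θ, h θ = 0 → (e θ) ^ 2 = 2 * (2 * C.q p y p θ * e θ + C.q p y θ θ * e p))
    (hc : ∀ θ, h θ = 0 → 4 * C.c3 p y θ = - 2 * C.q p y θ θ * e θ) {v : V m} (hv : h v = 0)
    (hev : e v = 0) (hqv : C.q p y p v = 0) (x : V m) : C.F (x + v) = C.F x := by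
  obtain ⟨hr, hp, h4, hF⟩ := hd
  have key : ∀ (t : ℝ) (θ : V m), h θ = 0 → C.F (t • p + (1 : ℝ) • θ) =
      (t ^ 2 * y + 2 * t * C.q p y p θ +
        ((e θ) ^ 2 - 4 * C.q p y p θ * e θ) / (2 * e p)) ^ 2 +
        t * (- 2 * (((e θ) ^ 2 - 4 * C.q p y p θ * e θ) / (2 * e p)) * e θ) := by
    intro t θ hθ
    have e1 : ((e θ) ^ 2 - 4 * C.q p y p θ * e θ) / (2 * e p) = C.q p y θ θ := by
      rw [div_eq_iff (mul_ne_zero two_ne_zero h0), hq θ hθ]
      ring
    have e2 := h4 θ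
    rw [hθ, mul_zero] at e2
    rw [F_expand hS, q_expand hS, e1, e2]
    linear_combination t * hc θ hθ
  have h1 : x = (h x) • p + (1 : ℝ) • (x - h x • p) := by
    rw [one_smul]
    abel
  have h2 : x + v = (h x) • p + (1 : ℝ) • (x + v - h x • p) := by
    rw [one_smul]
    abel
  have h3 : h (x - h x • p) = 0 := by
    rw [map_sub, map_smul, hp, smul_eq_mul, mul_one, sub_self]
  have h5 : x + v - h x • p = (x - h x • p) + v := by abel
  have h6 : h ((x - h x • p) + v) = 0 := by rw [map_add, h3, hv, add_zero]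
  have h7 : C.q p y p ((x - h x • p) + v) = C.q p y p (x - h x • p) := by
    rw [C.q_symm p y p (x - h x • p + v), C.q_add, C.q_symm p y v, hqv, add_zero, C.q_symm]
  conv_lhs => rw [h2, h5, key _ _ h6, h7, map_add, hev, add_zero]
  conv_rhs => rw [h1, key _ _ h3]

theorem bin_of_dec1 (hns : ¬ C.Sq) (hS : C.Sh p y) (hd : C.Dec p y r h g)
    (hg : ∀ x, h x = 0 → g x = 0) : C.Bin := by
  obtain ⟨e, σ, hσ, he, h1, h2⟩ := dec_coeff hS hd
  by_cases h0 : e p = 0
  · exfalso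
    apply hns
    obtain ⟨hr, hp, h4, hF⟩ := hd
    have hgp : g p = 0 := by
      rw [h0] at h1
      linarith
    have hg0 : ∀ x, g x = 0 := by
      intro x
      have h3 : h (x - h x • p) = 0 := by
        rw [map_sub, map_smul, hp, smul_eq_mul, mul_one, sub_self]
      have h5 := hg _ h3
      rw [map_sub, map_smul, hgp, smul_zero, sub_zero] at h5
      exact h5
    exact ⟨r, hr, fun x => by rw [hF x, hg0 x]; ring⟩
  · refine ⟨h, e, fun v hv hev x => ?_⟩
    refine nn_bin hS hd h0 (fun θ hθ => (h2 θ hθ).2.1) (fun θ hθ => (h2 θ hθ).2.2) hv hev ?_ x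
    have h3 := (h2 v hv).1
    rw [hg v hv, hev] at h3
    have h4 : C.q p y p v * (4 * e p) = 0 := by linarith
    exact (mul_eq_zero.1 h4).resolve_right (mul_ne_zero (by norm_num) h0)

theorem bin_of_dec2 (hS : C.Sh p y) (hd : C.Dec p y r h g)
    (hr : ∀ x, g x = 0 → r x x = 0) : C.Bin := by
  obtain ⟨e, σ, hσ, he, h1, h2⟩ := dec_coeff hS hd
  have hp : h p = 1 := hd.2.1
  have hy : y ≠ 0 := hS.1
  have hσ0 : σ ≠ 0 := by
    rintro rfl
    norm_num at hσ
  have hg0 : g p ≠ 0 := by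
    intro hgp
    have h3 := he p
    rw [hr p hgp, hp, q_pp hS] at h3
    have h4 : e p = y := by linarith
    rw [hgp, h4] at h1
    have h5 : y ^ 2 = 0 := by linarith
    exact hy (pow_eq_zero_iff two_ne_zero |>.mp h5)
  have h0 : e p ≠ 0 := by
    intro h0
    rw [h0] at h1
    exact hg0 (by linarith)
  have h0' : 2 * y - e p ≠ 0 := by
    intro h3
    apply hg0
    have h4 : e p = 2 * y := by linarith
    rw [h4] at h1
    linarith
  have claim : ∀ θ θ', h θ = 0 → h θ' = 0 → C.q p y p θ * e θ' = C.q p y p θ' * e θ := by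
    intro θ₁ θ₂ ht1 ht2
    by_contra hne
    have hdet : e θ₁ * C.q p y p θ₂ - e θ₂ * C.q p y p θ₁ ≠ 0 := by
      intro h3
      apply hne
      linarith
    obtain ⟨a, ha⟩ : ∃ a : ℝ, a = (e p * C.q p y p θ₂ - e θ₂ * ((e p - y) / 2)) /
        (e θ₁ * C.q p y p θ₂ - e θ₂ * C.q p y p θ₁) := ⟨_, rfl⟩
    obtain ⟨b, hb⟩ : ∃ b : ℝ, b = (e θ₁ * ((e p - y) / 2) - C.q p y p θ₁ * e p) /
        (e θ₁ * C.q p y p θ₂ - e θ₂ * C.q p y p θ₁) := ⟨_, rfl⟩
    have hh : h (a • θ₁ + b • θ₂) = 0 := by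
      rw [map_add, map_smul, map_smul, ht1, ht2, smul_zero, smul_zero, add_zero]
    have hee : e (a • θ₁ + b • θ₂) = e p := by
      rw [map_add, map_smul, map_smul, smul_eq_mul, smul_eq_mul, ha, hb, div_mul_eq_mul_div,
        div_mul_eq_mul_div, ← add_div, div_eq_iff hdet]
      ring
    have hqq : C.q p y p (a • θ₁ + b • θ₂) = (e p - y) / 2 := by
      rw [C.q_symm p y p (a • θ₁ + b • θ₂), C.q_add, C.q_smul, C.q_smul, C.q_symm p y θ₁,
        C.q_symm p y θ₂, ha, hb, div_mul_eq_mul_div, div_mul_eq_mul_div, ← add_div,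
        div_eq_iff hdet]
      ring
    obtain ⟨k1, k2, -⟩ := h2 _ hh
    rw [hee, hqq] at k1 k2
    have hgθ : g (a • θ₁ + b • θ₂) = 0 := by linarith
    have k3 := he (a • θ₁ + b • θ₂)
    rw [hr _ hgθ, hh] at k3
    have k4 : C.q p y (a • θ₁ + b • θ₂) (a • θ₁ + b • θ₂) = 0 := by linarith
    rw [k4] at k2
    have k5 : e p * (2 * y - e p) = 0 := by linarith
    exact (mul_ne_zero h0 h0') k5
  by_cases hA : ∀ θ, h θ = 0 → e θ = 0
  · refine ⟨h, C.qb p y p, fun v hv hqv x => ?_⟩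
    exact nn_bin hS hd h0 (fun θ hθ => (h2 θ hθ).2.1) (fun θ hθ => (h2 θ hθ).2.2) hv (hA v hv)
      hqv x
  · push Not at hA
    obtain ⟨θ₀, ht0, he0⟩ := hA
    refine ⟨h, e, fun v hv hev x => ?_⟩
    refine nn_bin hS hd h0 (fun θ hθ => (h2 θ hθ).2.1) (fun θ hθ => (h2 θ hθ).2.2) hv hev ?_ x
    have h3 := claim θ₀ v ht0 hv
    rw [hev, mul_zero] at h3
    exact (mul_eq_zero.1 h3.symm).resolve_right he0

end Qrt

end Pool.Agent.QS
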