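import Pool.Agent.QS.Bas
import Pool.Agent.QS.Alg
import Pool.Agent.QS.Uf

/-!
# QS module QU: the osculating form of `F = r² + h³ g` at a point of `h = 0`

PROOF of `q_of_dec`. `F p = (r p p)² = y²`. Compare the coefficients of `b, b², b³, b⁴` in
`F (p + b • x) = (r (p + b • x) (p + b • x)) ^ 2 + b ^ 3 * (h x) ^ 3 * (g p + b * g x)` (both sides are polynomials in
`b`, degree 4; e.g. use `b = 1, -1, 2, -2` and `linarith`, or the identities directly):
`T p p p x = y * r p x`, `6 T p p x x = 4 (r p x)² + 2 y r x x`, `4 T p x x x = 4 r p x * r x x + (h x)³ g p`. Insert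
into the definitions: `q p y x x = (3 y² T p p x x - 2 (T p p p x)²) / y³ = r x x`,
`c3 = T p x x x - r p x * r x x = (h x)³ g p / 4`, `c4 = F x - (r x x)² = (h x)³ g x`.

PROOF of `exists_ker`. `Good`: there is `x` with `c3 x ≠ 0`, `q (xp x) (xp x) ≠ 0`. Put `z = xp x`: `c4 z = 0` (`c4_xp`),
`c3 z = (4 c3 x)³ c3 x ≠ 0` (`c3_xp`), `c4 z = 4 c3 z * h' z` so `h' z = 0`, `F z = (q z z)² ≠ 0` (`F_xp`). Apply
`polyR_mul_eq_zero_ker` (`polyR_c3`, `polyR_F`, `PolyR.lin`) twice to the product `c3 * F * g` on the kernel of `h'`.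
-/

set_option autoImplicit false

open Set Topology Filter MvPolynomial
open Pool.Agent.MZ

namespace Pool.Agent.QS

namespace Qrt

variable {m : ℕ} {C : Qrt m} {p : V m} {y : ℝ} {r : V m →ₗ[ℝ] V m →ₗ[ℝ] ℝ} {h g : V m →ₗ[ℝ] ℝ}

private theorem qu_t0 (C : Qrt m) (x o : V m) (s : ℝ) :
    C.F (o + s • x) = C.F x * s ^ 4 + 4 * C.T o x x x * s ^ 3 + 6 * C.T o o x x * s ^ 2 +
      4 * C.T o o o x * s + C.F o := by
  have h1 : C.T x x x o = C.T o x x x := by rw [C.s₃, C.s₂, C.s₁]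
  have h2 : C.T x x o x = C.T o x x x := by rw [C.s₂, C.s₁]
  have h3 : C.T x o x x = C.T o x x x := C.s₁ x o x x
  have h4 : C.T o x x o = C.T o o x x := by rw [C.s₃, C.s₂]
  have h5 : C.T o x o x = C.T o o x x := C.s₂ o x o x
  have h6 : C.T x x o o = C.T o o x x := by rw [C.s₂, C.s₁, h4]
  have h7 : C.T x o x o = C.T o o x x := by rw [C.s₁, h4]
  have h8 : C.T x o o x = C.T o o x x := by rw [C.s₁, h5]
  have h9 : C.T o o x o = C.T o o o x := C.s₃ o o x o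
  have h10 : C.T o x o o = C.T o o o x := by rw [C.s₂, h9]
  have h11 : C.T x o o o = C.T o o o x := by rw [C.s₁, h10]
  have e1 : C.F x = C.T x x x x := rfl
  have e2 : C.F o = C.T o o o o := rfl
  have e3 : C.F (o + s • x) = C.T (o + s • x) (o + s • x) (o + s • x) (o + s • x) := rfl
  rw [e1, e2, e3]
  simp only [map_add, map_smul, LinearMap.add_apply, LinearMap.smul_apply, smul_eq_mul]
  simp only [h1, h2, h3, h4, h5, h6, h7, h8, h9, h10, h11]
  ring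

theorem q_of_dec (hr : ∀ u v, r u v = r v u) (hF : ∀ x, C.F x = (r x x) ^ 2 + (h x) ^ 3 * g x)
    (hp : h p = 0) (hy : r p p = y) (h0 : y ≠ 0) :
    C.Sh p y ∧ ∀ x, C.q p y x x = r x x ∧ C.c4 p y x = (h x) ^ 3 * g x ∧
      4 * C.c3 p y x = (h x) ^ 3 * g p := by
  refine ⟨⟨h0, ?_⟩, fun x => ?_⟩
  · rw [hF p, hp, hy]
    ring
  have hE : ∀ b : ℝ, C.F x * b ^ 4 + 4 * C.T p x x x * b ^ 3 + 6 * C.T p p x x * b ^ 2 +
      4 * C.T p p p x * b + C.F p = (y + 2 * b * r p x + b ^ 2 * r x x) ^ 2 +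
        (b * h x) ^ 3 * (g p + b * g x) := by
    intro b
    rw [← qu_t0 C x p b, hF (p + b • x)]
    simp only [map_add, map_smul, LinearMap.add_apply, LinearMap.smul_apply, smul_eq_mul]
    rw [hp, hy, hr x p]
    ring
  have hFp : C.F p = y ^ 2 := by
    rw [hF p, hp, hy]
    ring
  have hFx := hF x
  have E1 := hE 1
  have E2 := hE (-1)
  have E3 := hE 2
  have e2 : 6 * C.T p p x x = 4 * r p x ^ 2 + 2 * y * r x x := by
    linear_combination (1 / 2 : ℝ) * E1 + (1 / 2 : ℝ) * E2 - hFx - hFp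
  have e3 : 4 * C.T p x x x = 4 * r p x * r x x + (h x) ^ 3 * g p := by
    linear_combination (1 / 6 : ℝ) * E3 - (2 / 3 : ℝ) * e2 - (8 / 3 : ℝ) * hFx -
      (1 / 6 : ℝ) * E1 + (1 / 6 : ℝ) * E2 - (1 / 6 : ℝ) * hFp
  have e1 : C.T p p p x = y * r p x := by
    linear_combination (1 / 8 : ℝ) * E1 - (1 / 8 : ℝ) * E2 - (1 / 4 : ℝ) * e3
  have hq : C.q p y x x = r x x := by
    unfold q
    rw [e1, div_eq_iff (pow_ne_zero 3 h0)]
    linear_combination (y ^ 2 / 2) * e2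
  refine ⟨hq, ?_, ?_⟩
  · unfold c4
    rw [hq, hFx]
    ring
  · unfold c3
    rw [hq, e1, mul_div_cancel_left₀ _ h0]
    linear_combination e3

theorem exists_ker (hS : C.Sh p y) (hd : C.Dec p y r h g) (hg : C.Good p y)
    (hgh : ∃ x, h x = 0 ∧ g x ≠ 0) :
    ∃ p', h p' = 0 ∧ C.c3 p y p' ≠ 0 ∧ C.F p' ≠ 0 ∧ g p' ≠ 0 := by
  obtain ⟨-, -, hc4, -⟩ := hd
  obtain ⟨x, hx3, hxq⟩ := hg
  have hz3 : C.c3 p y (C.xp p y x) ≠ 0 := by
    rw [c3_xp hS]
    exact mul_ne_zero (pow_ne_zero 3 (mul_ne_zero four_ne_zero hx3)) hx3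
  have hzh : h (C.xp p y x) = 0 := by
    have h1 := hc4 (C.xp p y x)
    rw [c4_xp hS] at h1
    exact (mul_eq_zero.1 h1.symm).resolve_left (mul_ne_zero four_ne_zero hz3)
  have hzF : C.F (C.xp p y x) ≠ 0 := by
    rw [F_xp hS]
    exact pow_ne_zero 2 hxq
  by_contra hcon
  have hall : ∀ z, h z = 0 → (C.c3 p y z * C.F z) * g z = 0 := by
    intro z hz
    by_contra hne
    refine hcon ⟨z, hz, fun h3 => hne ?_, fun hF => hne ?_, fun hgz => hne ?_⟩
    · rw [h3, zero_mul, zero_mul]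
    · rw [hF, mul_zero, zero_mul]
    · rw [hgz, mul_zero]
  rcases polyR_mul_eq_zero_ker ((C.polyR_c3 p y).mul C.polyR_F) (PolyR.lin g) h hall with h1 | h1
  · exact mul_ne_zero hz3 hzF (h1 _ hzh)
  · obtain ⟨z, hz, hgz⟩ := hgh
    exact hgz (h1 z hz)

end Qrt

end Pool.Agent.QS
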