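import Pool.Agent.QS.Clo
import Pool.Agent.QS.Mth
import Pool.Agent.QS.Qu
import Pool.Agent.QS.Nn
import Pool.Agent.QS.N2

/-!
# QS module NTH: a thin form with a good sheet depends on two linear forms only

PROOF. Let `r, h', g` be from `exists_dec`. If `g = 0` on the kernel of `h'`: `bin_of_dec1`. If `r = 0` on the kernel of
`g`: `bin_of_dec2`. Otherwise let `p'` be from `exists_ker`. `c4 p y p' = 4 c3 * h' p' = 0`, so `p' ∈ Z` (`mem_of_c4`).
`F p' = (r p' p')²`, so `y' = r p' p' ≠ 0`. By `q_of_dec`: `Sh p' y'`, `q p' y' x x = r x x`, `c4 p' y' x = (h' x)³ g x`,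
`4 c3 p' y' x = (h' x)³ g p'`. There is `z` with `g z = 0`, `h' z ≠ 0`, `r z z ≠ 0` (`polyR_mul_eq_zero_ker` for `h' x` and `r x x`
on the kernel of `g`; `h'` does not vanish on the kernel of `g`: otherwise `h' = c g`, and `h' p' = 0`, `g p' ≠ 0` gives
`c = 0`, but `h' p = 1`; explicitly `p - (g p / g p') • p'` is in the kernel of `g` and `h'` of it is `1`).
`Good p' y'` with this `z`: `c3 p' y' z ≠ 0`, and `xp p' y' z = (4 c3 p' y' z) • z` as `c4 p' y' z = 0`, so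
`q (xp) (xp) = (4 c3)² r z z ≠ 0`. `exists_dec` for `(p', y')`: `r₂, h₂, g₂` with `h₂ p' = 1`,
`c4 p' y' x = 4 c3 p' y' x * h₂ x`, i.e. `(h' x)³ (g x - g p' * h₂ x) = 0` for all `x`, so `g x = g p' * h₂ x` for all `x`
(`polyR_mul_eq_zero`, `h' p = 1`). So `F x = (r₂ x x)² + (g x)³ * (g₂ x / (g p')³)` and `bin_of_two` applies (`g'` is the
linear form `(g p')⁻³ • g₂`; `hhg`: `z`; `hgh`: `p'`).
-/

set_option autoImplicit false

open Set Topology Filter MvPolynomial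
open Pool.Agent.MZ

namespace Pool.Agent.QS

/-- a bilinear form on the diagonal is a polynomial function -/
private theorem nth_poly {m : ℕ} (r : V m →ₗ[ℝ] V m →ₗ[ℝ] ℝ) : PolyR m fun x => r x x := by
  have e : (fun x => r x x) = fun x => ∑ i, x i * r (Pi.single i 1) x := by
    funext x
    have h : x = ∑ i, x i • (Pi.single i 1 : V m) := by
      ext j
      simp [Finset.sum_apply, Pi.single_apply]
    have h1 : r x = ∑ i, x i • r (Pi.single i 1) := by
      conv_lhs => rw [h]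
      rw [map_sum]
      exact Finset.sum_congr rfl fun i _ => by rw [map_smul]
    conv_lhs => rw [h1]
    rw [LinearMap.sum_apply]
    exact Finset.sum_congr rfl fun i _ => by rw [LinearMap.smul_apply, smul_eq_mul]
  rw [e]
  exact PolyR.sum _ fun i _ => (PolyR.coord i).mul (PolyR.lin _)

namespace Qrt

variable {m : ℕ} {C : Qrt m} {p : V m} {y : ℝ}

theorem bin_of_good (hT : C.Thin) (hns : ¬ C.Sq) (h : C.Sh p y) (hp : p ∈ C.Z)
    (hg : C.Good p y) : C.Bin := by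
  obtain ⟨r, h', g, hd⟩ := exists_dec hT hns h hp hg
  by_cases hg0 : ∀ x, h' x = 0 → g x = 0
  · exact bin_of_dec1 hns h hd hg0
  by_cases hr0 : ∀ x, g x = 0 → r x x = 0
  · exact bin_of_dec2 h hd hr0
  push Not at hg0 hr0
  obtain ⟨p', hp'h, hp'c, hp'F, hp'g⟩ := exists_ker h hd hg hg0
  obtain ⟨hr, hp1, hc4, hF⟩ := hd
  have hc4' : C.c4 p y p' = 0 := by rw [hc4, hp'h, mul_zero]
  have hp'Z : p' ∈ C.Z := mem_of_c4 h hp hc4' hp'c hp'F
  have hy' : r p' p' ≠ 0 := by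
    intro h0
    apply hp'F
    rw [hF, hp'h, h0]
    ring
  obtain ⟨hS', hq'⟩ := q_of_dec hr hF hp'h rfl hy'
  obtain ⟨z, hz1, hz2, hz3⟩ : ∃ z, g z = 0 ∧ h' z ≠ 0 ∧ r z z ≠ 0 := by
    by_contra hcon
    push Not at hcon
    rcases polyR_mul_eq_zero_ker (PolyR.lin h') (nth_poly r) g (fun x hx => by
      by_cases hx' : h' x = 0
      · rw [hx', zero_mul]
      · rw [hcon x hx hx', mul_zero]) with h1 | h1
    · have h2 := h1 (p + (-(g p / g p')) • p') (by
        rw [map_add, map_smul, smul_eq_mul, neg_mul, div_mul_cancel₀ _ hp'g, add_neg_cancel])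
      rw [map_add, map_smul, hp'h, smul_zero, add_zero, hp1] at h2
      exact one_ne_zero h2
    · obtain ⟨x, hx, hx'⟩ := hr0
      exact hx' (h1 x hx)
  have hc3z : 4 * C.c3 p' (r p' p') z ≠ 0 := by
    rw [(hq' z).2.2]
    exact mul_ne_zero (pow_ne_zero 3 hz2) hp'g
  have hc4z : C.c4 p' (r p' p') z = 0 := by rw [(hq' z).2.1, hz1, mul_zero]
  have hgood : C.Good p' (r p' p') := by
    refine ⟨z, fun h0 => hc3z (by rw [h0, mul_zero]), ?_⟩
    rw [xp_of_c4 hc4z, C.q_smul, C.q_symm, C.q_smul, (hq' z).1]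
    exact mul_ne_zero hc3z (mul_ne_zero hc3z hz3)
  obtain ⟨r₂, h₂, g₂, hr₂, h₂p, hc4₂, hF₂⟩ := exists_dec hT hns hS' hp'Z hgood
  have hgx : ∀ x, g x - g p' * h₂ x = 0 := by
    rcases polyR_mul_eq_zero (((PolyR.lin h').mul (PolyR.lin h')).mul (PolyR.lin h'))
      ((PolyR.lin g).sub ((PolyR.const (g p')).mul (PolyR.lin h₂))) (fun x => by
        have h1 := hc4₂ x
        rw [(hq' x).2.1, (hq' x).2.2] at h1
        linear_combination h1) with h1 | h1
    · have h2 := h1 p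
      rw [hp1, mul_one, mul_one] at h2
      exact absurd h2 one_ne_zero
    · exact h1
  refine bin_of_two (g' := ((g p')⁻¹ ^ 3) • g₂) hr hr₂ hF (fun x => ?_) ⟨z, hz1, hz2⟩
    ⟨p', hp'h, hp'g⟩
  have h1 : g x = g p' * h₂ x := sub_eq_zero.1 (hgx x)
  have h2 : g p' * (g p')⁻¹ = 1 := mul_inv_cancel₀ hp'g
  rw [hF₂ x, h1, LinearMap.smul_apply, smul_eq_mul]
  have h3 : (g p' * h₂ x) ^ 3 * ((g p')⁻¹ ^ 3 * g₂ x) =
      (g p' * (g p')⁻¹) ^ 3 * (h₂ x ^ 3 * g₂ x) := by ring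
  rw [h3, h2, one_pow, one_mul]

end Qrt

end Pool.Agent.QS
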