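import Pool.Agent.QS.Defs
import Pool.Agent.MZ.Main

/-!
# QS module RRB: infinitely many square values of a quartic polynomial in one variable fill an interval
-/

set_option autoImplicit false

open Set Topology Filter MvPolynomial
open Pool.Agent.MZ

namespace Pool.Agent.QS

/-- the quartic polynomial -/
def qf (y a3 a2 a1 a0 : ℝ) (s : ℝ) : ℝ := y ^ 2 * s ^ 4 + a3 * s ^ 3 + a2 * s ^ 2 + a1 * s + a0

/-- the rational numbers at which the value is a nonzero rational square -/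
def QA (y a3 a2 a1 a0 : ℚ) : Set ℝ :=
  {s | ∃ q Y : ℚ, s = q ∧ Y ≠ 0 ∧ (Y : ℝ) ^ 2 = qf y a3 a2 a1 a0 s}

private noncomputable def cP (y a3 a2 a1 a0 : ℚ) : MvPolynomial (Fin 2) ℚ :=
  X 1 ^ 2 + C (2 * y) * X 1 * X 0 ^ 2 - C a3 * X 0 ^ 3 - C a2 * X 0 ^ 2 - C a1 * X 0 - C a0

private theorem cP_deg (y a3 a2 a1 a0 : ℚ) : (cP y a3 a2 a1 a0).totalDegree ≤ 3 := by
  have hX : ∀ (i : Fin 2) (k : ℕ), ((X i : MvPolynomial (Fin 2) ℚ) ^ k).totalDegree ≤ k := by
    intro i k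
    refine (totalDegree_pow _ _).trans ?_
    rw [totalDegree_X, mul_one]
  have hC : ∀ (c : ℚ) (Q : MvPolynomial (Fin 2) ℚ) (k : ℕ), Q.totalDegree ≤ k →
      (C c * Q).totalDegree ≤ k := by
    intro c Q k h
    refine (totalDegree_mul _ _).trans ?_
    rw [totalDegree_C, zero_add]
    exact h
  unfold cP
  refine (totalDegree_sub _ _).trans (max_le ?_ ?_)
  · refine (totalDegree_sub _ _).trans (max_le ?_ ?_)
    · refine (totalDegree_sub _ _).trans (max_le ?_ ?_)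
      · refine (totalDegree_sub _ _).trans (max_le ?_ ?_)
        · refine (totalDegree_add _ _).trans (max_le ?_ ?_)
          · exact (hX 1 2).trans (by norm_num)
          · refine (totalDegree_mul _ _).trans ?_
            have h1 : (C (2 * y) * X 1 : MvPolynomial (Fin 2) ℚ).totalDegree ≤ 1 :=
              hC _ _ _ (by rw [totalDegree_X])
            have h2 := hX 0 2
            omega
        · exact hC _ _ _ (hX 0 3)
      · exact hC _ _ _ ((hX 0 2).trans (by norm_num))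
    · exact hC _ _ _ (by rw [totalDegree_X]; norm_num)
  · rw [totalDegree_C]
    norm_num

private theorem cP_eval (y a3 a2 a1 a0 : ℚ) (x : Fin 2 → ℝ) :
    (aeval x (cP y a3 a2 a1 a0) : ℝ) = (x 1 + y * x 0 ^ 2) ^ 2 - qf y a3 a2 a1 a0 (x 0) := by
  unfold cP qf
  simp only [map_sub, map_add, map_mul, map_pow, aeval_X, aeval_C, eq_ratCast, Rat.cast_ofNat]
  ring

private theorem cP_closed (y a3 a2 a1 a0 : ℚ) {x : Fin 2 → ℝ}
    (hx : x ∈ closure (QZ (cP y a3 a2 a1 a0))) :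
    (x 1 + y * x 0 ^ 2) ^ 2 = qf y a3 a2 a1 a0 (x 0) := by
  have h1 : IsClosed {x : Fin 2 → ℝ | (aeval x (cP y a3 a2 a1 a0) : ℝ) = 0} :=
    isClosed_eq (PolyR.of_aeval _).continuous continuous_const
  have h2 : QZ (cP y a3 a2 a1 a0) ⊆ {x : Fin 2 → ℝ | (aeval x (cP y a3 a2 a1 a0) : ℝ) = 0} := by
    rintro _ ⟨q, hq, rfl⟩
    show (aeval (rv q) (cP y a3 a2 a1 a0) : ℝ) = 0
    rw [aeval_rv, hq, Rat.cast_zero]
  have h3 := h1.closure_subset_iff.2 h2 hx
  have h4 : (aeval x (cP y a3 a2 a1 a0) : ℝ) = 0 := h3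
  rw [cP_eval] at h4
  linarith

private theorem qf_cont (y a3 a2 a1 a0 : ℝ) : Continuous (qf y a3 a2 a1 a0) := by
  unfold qf
  fun_prop

private theorem qf_roots {y a3 a2 a1 a0 : ℝ} (hy : y ≠ 0) :
    {s : ℝ | qf y a3 a2 a1 a0 s = 0}.Finite := by
  let p : Polynomial ℝ := Polynomial.C (y ^ 2) * Polynomial.X ^ 4 + Polynomial.C a3 *
    Polynomial.X ^ 3 + Polynomial.C a2 * Polynomial.X ^ 2 + Polynomial.C a1 * Polynomial.X +
    Polynomial.C a0
  have hp : p ≠ 0 := by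
    intro h
    have h1 : p.coeff 4 = y ^ 2 := by
      have e1 : (Polynomial.C a3 * Polynomial.X ^ 3 : Polynomial ℝ).coeff 4 = 0 := by
        rw [Polynomial.coeff_C_mul, Polynomial.coeff_X_pow, if_neg (by norm_num), mul_zero]
      have e2 : (Polynomial.C a2 * Polynomial.X ^ 2 : Polynomial ℝ).coeff 4 = 0 := by
        rw [Polynomial.coeff_C_mul, Polynomial.coeff_X_pow, if_neg (by norm_num), mul_zero]
      have e3 : (Polynomial.C a1 * Polynomial.X : Polynomial ℝ).coeff 4 = 0 := by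
        rw [Polynomial.coeff_C_mul, Polynomial.coeff_X, if_neg (by norm_num), mul_zero]
      have e4 : (Polynomial.C a0 : Polynomial ℝ).coeff 4 = 0 := Polynomial.coeff_C_ne_zero (by norm_num)
      have e5 : (Polynomial.C (y ^ 2) * Polynomial.X ^ 4 : Polynomial ℝ).coeff 4 = y ^ 2 := by
        rw [Polynomial.coeff_C_mul, Polynomial.coeff_X_pow, if_pos rfl, mul_one]
      show (Polynomial.C (y ^ 2) * Polynomial.X ^ 4 + Polynomial.C a3 *
        Polynomial.X ^ 3 + Polynomial.C a2 * Polynomial.X ^ 2 + Polynomial.C a1 * Polynomial.X +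
        Polynomial.C a0 : Polynomial ℝ).coeff 4 = y ^ 2
      rw [Polynomial.coeff_add, Polynomial.coeff_add, Polynomial.coeff_add, Polynomial.coeff_add,
        e1, e2, e3, e4, e5]
      ring
    rw [h, Polynomial.coeff_zero] at h1
    exact pow_ne_zero 2 hy h1.symm
  refine (p.rootSet_finite ℝ).subset fun s hs => ?_
  rw [Polynomial.mem_rootSet]
  refine ⟨hp, ?_⟩
  have h1 : qf y a3 a2 a1 a0 s = 0 := hs
  unfold qf at h1
  simp only [p, map_add, map_mul, map_pow, Polynomial.aeval_C, Polynomial.aeval_X,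
    Algebra.algebraMap_self, RingHom.id_apply]
  linarith

theorem exists_interval {y a3 a2 a1 a0 : ℚ} (hy : y ≠ 0) (hinf : (QA y a3 a2 a1 a0).Infinite) :
    ∃ u v : ℝ, u < v ∧ ∀ s ∈ Ioo u v, 0 < qf y a3 a2 a1 a0 s ∧ s ∈ closure (QA y a3 a2 a1 a0) := by
  have hy' : (y : ℝ) ≠ 0 := by exact_mod_cast hy
  set P := cP y a3 a2 a1 a0 with hP
  obtain ⟨k, K, hK, hU⟩ := fc_main 2 P (cP_deg _ _ _ _ _)
  -- the set of rational zeros is infinite
  have h1 : (closure (QZ P)).Infinite := by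
    intro hfin
    apply hinf
    refine (hfin.image fun x : Fin 2 → ℝ => x 0).subset ?_
    rintro _ ⟨q, Y, rfl, hY, hq⟩
    refine ⟨rv ![q, Y - y * q ^ 2], subset_closure ⟨_, ?_, rfl⟩, ?_⟩
    · have h2 : (aeval (rv ![q, Y - y * q ^ 2]) P : ℝ) = 0 := by
        rw [hP, cP_eval]
        have e0 : rv ![q, Y - y * q ^ 2] 0 = (q : ℝ) := by simp [rv]
        have e1 : rv ![q, Y - y * q ^ 2] 1 = (Y : ℝ) - y * q ^ 2 := by simp [rv]
        rw [e0, e1, ← hq]
        ring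
      rw [aeval_rv] at h2
      exact_mod_cast h2
    · simp [rv]
  obtain ⟨i, hi⟩ : ∃ i, (K i).Infinite := by
    by_contra hcon
    push Not at hcon
    apply h1
    rw [hU]
    exact Set.finite_iUnion fun i => hcon i
  have hKs : K i ⊆ closure (QZ P) := by
    rw [hU]
    exact Set.subset_iUnion K i
  have hpre : IsPreconnected ((fun x : Fin 2 → ℝ => x 0) '' K i) :=
    (hK i).image _ (continuous_apply 0).continuousOn
  obtain ⟨s1, hs1, s2, hs2, hlt⟩ : ∃ s1 ∈ (fun x : Fin 2 → ℝ => x 0) '' K i,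
      ∃ s2 ∈ (fun x : Fin 2 → ℝ => x 0) '' K i, s1 < s2 := by
    by_contra hcon
    push Not at hcon
    obtain ⟨x0, hx0⟩ := hi.nonempty
    have h2 : ∀ x ∈ K i, x 0 = x0 0 := by
      intro x hx
      exact le_antisymm (hcon _ ⟨x0, hx0, rfl⟩ _ ⟨x, hx, rfl⟩) (hcon _ ⟨x, hx, rfl⟩ _ ⟨x0, hx0, rfl⟩)
    apply hi
    have h3 : K i ⊆ (fun w : ℝ => (![x0 0, w] : Fin 2 → ℝ)) ''
        {Real.sqrt (qf y a3 a2 a1 a0 (x0 0)) - y * x0 0 ^ 2,
          -Real.sqrt (qf y a3 a2 a1 a0 (x0 0)) - y * x0 0 ^ 2} := by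
      intro x hx
      have h4 := cP_closed y a3 a2 a1 a0 (hKs hx)
      rw [h2 x hx] at h4
      have h5 : x 1 + y * x0 0 ^ 2 = Real.sqrt (qf y a3 a2 a1 a0 (x0 0)) ∨
          x 1 + y * x0 0 ^ 2 = -Real.sqrt (qf y a3 a2 a1 a0 (x0 0)) := by
        rw [← h4, Real.sqrt_sq_eq_abs]
        rcases abs_choice (x 1 + y * x0 0 ^ 2) with h6 | h6
        · left
          rw [h6]
        · right
          rw [h6, neg_neg]
      refine ⟨x 1, ?_, ?_⟩
      · rcases h5 with h5 | h5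
        · left
          linarith
        · right
          show x 1 = _
          linarith
      · funext j
        fin_cases j
        · exact (h2 x hx).symm
        · rfl
    exact (((Set.finite_singleton _).insert _).image _).subset h3
  have hIcc : Icc s1 s2 ⊆ (fun x : Fin 2 → ℝ => x 0) '' K i := hpre.Icc_subset hs1 hs2
  -- a point where the value is not zero
  obtain ⟨s0, hs0, hf0⟩ : ∃ s0 ∈ Ioo s1 s2, qf y a3 a2 a1 a0 s0 ≠ 0 := by
    by_contra hcon
    push Not at hcon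
    exact (Ioo_infinite hlt) ((qf_roots hy').subset hcon)
  have hopen : IsOpen (Ioo s1 s2 ∩ {s | qf (y : ℝ) a3 a2 a1 a0 s ≠ 0}) :=
    isOpen_Ioo.inter (isOpen_ne_fun (qf_cont _ _ _ _ _) continuous_const)
  obtain ⟨ε, hε, hball⟩ := Metric.isOpen_iff.1 hopen s0 ⟨hs0, hf0⟩
  refine ⟨s0 - ε, s0 + ε, by linarith, fun s hs => ?_⟩
  have hsb : s ∈ Metric.ball s0 ε := by
    rw [Real.ball_eq_Ioo]
    exact hs
  obtain ⟨hs', hfs⟩ := hball hsb
  have hfs' : qf y a3 a2 a1 a0 s ≠ 0 := hfs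
  obtain ⟨x, hxK, hxs⟩ := hIcc (Ioo_subset_Icc_self hs')
  have hxs' : x 0 = s := hxs
  have hxc := hKs hxK
  have h5 := cP_closed y a3 a2 a1 a0 hxc
  rw [hxs'] at h5
  refine ⟨?_, ?_⟩
  · rw [← h5]
    exact lt_of_le_of_ne (sq_nonneg _) (by rw [h5]; exact hfs'.symm)
  · rw [mem_closure_iff_nhds]
    intro W hW
    have h6 : {z : Fin 2 → ℝ | z 0 ∈ W ∧ qf y a3 a2 a1 a0 (z 0) ≠ 0} ∈ 𝓝 x := by
      have c1 : Tendsto (fun z : Fin 2 → ℝ => z 0) (𝓝 x) (𝓝 s) := by
        rw [← hxs']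
        exact (continuous_apply 0).tendsto x
      have h7 := c1.eventually hW
      have h8 := c1.eventually ((qf_cont (y : ℝ) a3 a2 a1 a0).continuousAt.eventually_ne hfs')
      filter_upwards [h7, h8] with z h9 h10
      exact ⟨h9, h10⟩
    obtain ⟨z, ⟨hz1, hz2⟩, q, hq, rfl⟩ := mem_closure_iff_nhds.1 hxc _ h6
    have h9 := cP_closed y a3 a2 a1 a0 (subset_closure ⟨q, hq, rfl⟩)
    refine ⟨rv q 0, hz1, q 0, q 1 + y * q 0 ^ 2, rfl, ?_, ?_⟩
    · intro h10
      apply hz2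
      rw [← h9]
      have h11 : (rv q 1 + y * rv q 0 ^ 2 : ℝ) = ((q 1 + y * q 0 ^ 2 : ℚ) : ℝ) := by
        unfold rv
        push_cast
        ring
      rw [h11, h10]
      norm_num
    · rw [← h9]
      unfold rv
      push_cast
      ring

end Pool.Agent.QS
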