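import Pool.Agent.QS.Rra
import Pool.Agent.QS.Rrb

/-!
# QS module RR: forms which depend on two linear forms
-/

set_option autoImplicit false

open Set Topology Filter MvPolynomial
open Pool.Agent.MZ

namespace Pool.Agent.QS

namespace Qrt

variable {m : ℕ} {C : Qrt m}

private theorem rr_line {l n : V m →ₗ[ℝ] ℝ} {p e : V m}
    (hF : ∀ x, C.F x = C.F (l x • p + n x • e)) {x : V m} (hn : n x ≠ 0) :
    C.F x = n x ^ 4 * C.F (e + (l x / n x) • p) := by
  rw [hF x, ← F_smul]
  congr 1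
  rw [smul_add, smul_smul, mul_div_cancel₀ _ hn, add_comm]

/-- the pieces when there are finitely many good ratios -/
private theorem rr_fin {l n : V m →ₗ[ℝ] ℝ} {p e : V m} (hl : ∀ x, IsRat x → IsQ (l x))
    (hn : ∀ x, IsRat x → IsQ (n x)) (hF : ∀ x, C.F x = C.F (l x • p + n x • e)) {r : ℝ}
    (hr : IsQ r) (hFp : C.F p = r ^ 2) {A : Set ℝ} (hA : A.Finite)
    (hA1 : ∀ s ∈ A, ∃ Y : ℝ, IsQ Y ∧ Y ≠ 0 ∧ C.F (e + s • p) = Y ^ 2)
    (hA2 : ∀ s Y : ℝ, IsQ s → IsQ Y → Y ≠ 0 → C.F (e + s • p) = Y ^ 2 → s ∈ A) : C.Pieces := by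
  have hfin : Finite ↥A := hA.to_subtype
  obtain ⟨k, ⟨E⟩⟩ := Finite.exists_equiv_fin (Option ↥A)
  let Y : Option ↥A → Set (V m) := fun o =>
    match o with
    | none => {x | IsRat x ∧ n x = 0}
    | some s => {x | IsRat x ∧ l x = (s : ℝ) * n x}
  have hY : ∀ o : Option ↥A, ∀ x ∈ Y o, IsRat x := by
    intro o x hx
    cases o with
    | none => exact hx.1
    | some s => exact hx.1
  refine ⟨k, fun i => Y (E.symm i), fun i => hY _, ?_⟩
  ext x
  constructor
  · rintro ⟨hx, ρ, hρ, hρ0, hFx⟩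
    refine ⟨hx, by rw [hFx]; exact pow_ne_zero 2 hρ0, ?_⟩
    by_cases hnx : n x = 0
    · refine ⟨E none, Submodule.subset_span ?_⟩
      show x ∈ Y (E.symm (E none))
      rw [E.symm_apply_apply]
      exact ⟨hx, hnx⟩
    · have h1 := rr_line hF hnx
      have h2 : C.F (e + (l x / n x) • p) = (ρ / n x ^ 2) ^ 2 := by
        rw [div_pow, ← hFx, h1, ← pow_mul, mul_comm (n x ^ 4), mul_div_assoc,
          div_self (pow_ne_zero _ hnx), mul_one]
      have h3 := hA2 _ _ ((hl x hx).div (hn x hx)) (hρ.div ((hn x hx).pow 2))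
        (div_ne_zero hρ0 (pow_ne_zero 2 hnx)) h2
      refine ⟨E (some ⟨_, h3⟩), Submodule.subset_span ?_⟩
      show x ∈ Y (E.symm (E (some ⟨_, h3⟩)))
      rw [E.symm_apply_apply]
      exact ⟨hx, (div_mul_cancel₀ _ hnx).symm⟩
  · rintro ⟨hx, hFx, i, hi⟩
    refine ⟨hx, ?_⟩
    have hi' : x ∈ Submodule.span ℝ (Y (E.symm i)) := hi
    cases hE : E.symm i with
    | none =>
      rw [hE] at hi'
      have h1 : Submodule.span ℝ (Y none) ≤ LinearMap.ker n := by
        rw [Submodule.span_le]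
        intro z hz
        exact hz.2
      have h2 : n x = 0 := h1 hi'
      have h3 : C.F x = (l x ^ 2 * r) ^ 2 := by
        rw [hF x, h2, zero_smul, add_zero, F_smul, hFp]
        ring
      refine ⟨l x ^ 2 * r, ((hl x hx).pow 2).mul hr, ?_, h3⟩
      intro h4
      apply hFx
      rw [h3, h4]
      norm_num
    | some s =>
      rw [hE] at hi'
      have h1 : Submodule.span ℝ (Y (some s)) ≤ LinearMap.ker (l - (s : ℝ) • n) := by
        rw [Submodule.span_le]
        intro z hz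
        have hz2 : l z = (s : ℝ) * n z := hz.2
        show (l - (s : ℝ) • n) z = 0
        rw [LinearMap.sub_apply, LinearMap.smul_apply, smul_eq_mul, hz2, sub_self]
      have h2 : (l - (s : ℝ) • n) x = 0 := h1 hi'
      rw [LinearMap.sub_apply, LinearMap.smul_apply, smul_eq_mul] at h2
      have hnx : n x ≠ 0 := by
        intro h3
        apply hFx
        rw [h3, mul_zero, sub_zero] at h2
        rw [hF x, h2, h3, zero_smul, zero_smul, add_zero]
        have h4 := C.F_smul 0 (0 : V m)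
        rw [zero_smul] at h4
        rw [h4]
        norm_num
      have h3 : l x / n x = s := by
        rw [div_eq_iff hnx]
        linarith
      obtain ⟨Y', hY1, hY2, hY3⟩ := hA1 s s.2
      have h4 : C.F x = (n x ^ 2 * Y') ^ 2 := by
        rw [rr_line hF hnx, h3, hY3]
        ring
      exact ⟨n x ^ 2 * Y', ((hn x hx).pow 2).mul hY1, mul_ne_zero (pow_ne_zero 2 hnx) hY2, h4⟩

theorem of_bin (hb : C.Bin) (hns : ¬ C.Sq) : C.Pieces ∨ ∃ o, 0 < C.F o ∧ C.Z ∈ 𝓝 o := by
  rcases C.S.eq_empty_or_nonempty with hS | ⟨p, hp⟩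
  · left
    refine ⟨0, fun i => i.elim0, fun i => i.elim0, ?_⟩
    rw [hS]
    ext x
    simp only [mem_empty_iff_false, false_iff]
    rintro ⟨-, -, i, -⟩
    exact i.elim0
  obtain ⟨l, n, e, hl, hn, he, hlp, hnp, hle, hne, hF⟩ := bin_coord hb hns hp
  obtain ⟨hpr, r, ⟨y, rfl⟩, hr0, hFp⟩ := hp
  have hy0 : y ≠ 0 := by exact_mod_cast hr0
  obtain ⟨a3, h3⟩ := (IsQ.natCast 4).mul (C.rat e p p p he hpr hpr hpr)
  obtain ⟨a2, h2⟩ := (IsQ.natCast 6).mul (C.rat e e p p he he hpr hpr)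
  obtain ⟨a1, h1⟩ := (IsQ.natCast 4).mul (C.rat e e e p he he he hpr)
  obtain ⟨a0, h0⟩ := isQ_F (C := C) he
  have hq : ∀ s : ℝ, C.F (e + s • p) = qf y a3 a2 a1 a0 s := by
    intro s
    rw [rra_expand, hFp]
    unfold qf
    rw [← h3, ← h2, ← h1, ← h0]
    push_cast
    ring
  by_cases hA : (QA y a3 a2 a1 a0).Finite
  · left
    refine rr_fin hl hn hF ⟨y, rfl⟩ hFp hA ?_ ?_
    · rintro s ⟨q, Y, rfl, hY, hYq⟩
      refine ⟨Y, ⟨Y, rfl⟩, by exact_mod_cast hY, ?_⟩
      rw [hq, hYq]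
    · rintro s Y ⟨q, rfl⟩ ⟨Y', rfl⟩ hY hYq
      refine ⟨q, Y', rfl, by exact_mod_cast hY, ?_⟩
      rw [← hq, hYq]
  · right
    obtain ⟨u, v, huv, hI⟩ := exists_interval hy0 hA
    have hm : (u + v) / 2 ∈ Ioo u v := ⟨by linarith, by linarith⟩
    have hnc : Continuous n := LinearMap.continuous_of_finiteDimensional n
    have hlc : Continuous l := LinearMap.continuous_of_finiteDimensional l
    refine ⟨e + ((u + v) / 2) • p, by rw [hq]; exact (hI _ hm).1, ?_⟩
    have hno : n (e + ((u + v) / 2) • p) = 1 := by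
      rw [map_add, map_smul, hne, hnp, smul_zero, add_zero]
    have hlo : l (e + ((u + v) / 2) • p) = (u + v) / 2 := by
      rw [map_add, map_smul, hle, hlp, smul_eq_mul, mul_one, zero_add]
    have hev : ∀ᶠ x in 𝓝 (e + ((u + v) / 2) • p), n x ≠ 0 ∧ l x / n x ∈ Ioo u v := by
      have c1 : ContinuousAt (fun x => l x / n x) (e + ((u + v) / 2) • p) :=
        hlc.continuousAt.div hnc.continuousAt (by rw [hno]; exact one_ne_zero)
      have c2 := hnc.continuousAt.eventually_ne (x := e + ((u + v) / 2) • p)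
        (by rw [hno]; exact one_ne_zero : n (e + ((u + v) / 2) • p) ≠ 0)
      have c3 : Ioo u v ∈ 𝓝 (l (e + ((u + v) / 2) • p) / n (e + ((u + v) / 2) • p)) := by
        rw [hno, hlo, div_one]
        exact Ioo_mem_nhds hm.1 hm.2
      exact c2.and (c1.eventually c3)
    filter_upwards [hev] with x hx
    obtain ⟨hnx, hsx⟩ := hx
    have hcs := (hI _ hsx).2
    have hcx : x ∈ closure ({z : V m | n z ≠ 0} ∩ {z : V m | IsRat z}) := by
      have ho : IsOpen {z : V m | n z ≠ 0} := isOpen_ne_fun hnc continuous_const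
      exact dense_isRat.open_subset_closure_inter ho hnx
    have hG : Continuous fun z : V m × ℝ => z.1 + (z.2 * n z.1 - l z.1) • p :=
      continuous_fst.add (((continuous_snd.mul (hnc.comp continuous_fst)).sub
        (hlc.comp continuous_fst)).smul continuous_const)
    have h4 := map_mem_closure₂ (f := fun (z : V m) (s : ℝ) => z + (s * n z - l z) • p)
      (u := C.S) hG hcx hcs ?_
    · have h5 : x + (l x / n x * n x - l x) • p = x := by
        rw [div_mul_cancel₀ _ hnx, sub_self, zero_smul, add_zero]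
      simp only [h5] at h4
      exact h4
    · rintro z ⟨hz1, hz2⟩ _ ⟨q, Y, rfl, hY, hYq⟩
      have hz1' : n z ≠ 0 := hz1
      have hnz : n (z + ((q : ℝ) * n z - l z) • p) = n z := by
        rw [map_add, map_smul, hnp, smul_zero, add_zero]
      have hlz : l (z + ((q : ℝ) * n z - l z) • p) = q * n z := by
        rw [map_add, map_smul, hlp, smul_eq_mul, mul_one]
        ring
      refine ⟨hz2.add (IsRat.smul (((IsQ.cast q).mul (hn z hz2)).sub (hl z hz2)) hpr),
        n z ^ 2 * Y, ((hn z hz2).pow 2).mul (IsQ.cast Y),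
        mul_ne_zero (pow_ne_zero 2 hz1') (by exact_mod_cast hY), ?_⟩
      rw [rr_line hF (by rw [hnz]; exact hz1'), hnz, hlz, mul_div_cancel_right₀ _ hz1', hq, ← hYq]
      ring

end Qrt

end Pool.Agent.QS
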