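import Pool.Agent.QS.Bas
import Pool.Agent.QS.Alg

/-!
# QS module SQD: the dichotomy if `F` is a square

PROOF. If `S` is empty: `Pieces` with `k = 0`. Otherwise let `(p, y)` be a rational sheet (`exists_Sr`). By `of_sq`:
`c4 p y x = 0`, so `F x = (q p y x x)²` for all `x`. So every rational `x` with `F x ≠ 0` is in `S` (`isQ_q`). `Pieces` with
`k = 1` and `Y 0 = {x | IsRat x}`, whose span is everything (it contains the `Pi.single i 1`).
-/

set_option autoImplicit false

open Set Topology Filter MvPolynomial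
open Pool.Agent.MZ

namespace Pool.Agent.QS

namespace Qrt

variable {m : ℕ} {C : Qrt m}

theorem pieces_of_sq (hs : C.Sq) : C.Pieces := by
  rcases Set.eq_empty_or_nonempty C.S with h0 | ⟨p, hp⟩
  · refine ⟨0, fun i => i.elim0, fun i => i.elim0, ?_⟩
    rw [h0]
    symm
    rw [Set.eq_empty_iff_forall_notMem]
    rintro x ⟨-, -, i, -⟩
    exact i.elim0
  · obtain ⟨y, hr, hy, hsh⟩ := exists_Sr hp
    have hr' : IsRat p := hr
    have hy' : IsQ y := hy
    have hsh' : C.Sh p y := hsh
    have hq : ∀ x, C.F x = (C.q p y x x) ^ 2 := by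
      intro x
      have h1 := (of_sq hs hsh' x).1
      unfold c4 at h1
      linarith
    refine ⟨1, fun _ => {x | IsRat x}, fun _ x hx => hx, ?_⟩
    ext x
    constructor
    · rintro ⟨h1, r, h2, h3, h4⟩
      refine ⟨h1, ?_, 0, Submodule.subset_span h1⟩
      rw [h4]
      exact pow_ne_zero 2 h3
    · rintro ⟨h1, h2, -⟩
      refine ⟨h1, C.q p y x x, isQ_q hr' hy' h1 h1, ?_, hq x⟩
      intro h
      apply h2
      rw [hq, h]
      ring

end Qrt

end Pool.Agent.QS
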