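import Pool.Agent.QS.Tsec
import Pool.Agent.QS.Zlin

/-!
# QS module TTH: if no rational sheet is good then `S` consists of the rational points of finitely many subspaces

PROOF of `sec_mem`. `a, b ∈ B` are in `S`; let `(a, y)` be a rational sheet (`exists_Sr`). `F_expand` and `Sec`:
`F (u a + v b) = (q a y (u a + v b) (u a + v b))²`, and `q ..` is rational (`isQ_q`), `≠ 0` if `F ≠ 0`.
PROOF of `pieces_of_bad`. Let `B` be from `exists_sec_cover`. `span_of_pieces` with `G = F` (`polyR_F`; `F ≠ 0` on `S`;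
`hsec` by `sec_mem`). Put `Y j = B j` if `zc (B j) = span ℝ (B j)` and `Y j = ∅` otherwise. Elements of `Y j` are in `S`,
so rational. `S ⊆`: `x ∈ S` is in some `B i ⊆ zc (B i) ⊆ zc (B j) = span (Y j)`, and `F x ≠ 0`. `⊇`: let `x` be rational,
`F x ≠ 0`, `x ∈ span (Y j)`. If `Y j = ∅` then `x = 0`, `F x = 0`, contradiction. Otherwise `x ∈ span (B j) = zc (B j)`. Let
`a ∈ B j` (`Irr`: nonempty) with a rational sheet `(a, y)`. The polynomial function `b ↦ c4 a y b` (`polyR_c4`) vanishes on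
`B j`, so `c4 a y x = 0`: `F x = (q a y x x)²` with `q a y x x` rational and nonzero: `x ∈ S`.
-/

set_option autoImplicit false

open Set Topology Filter MvPolynomial
open Pool.Agent.MZ

namespace Pool.Agent.QS

namespace Qrt

variable {m : ℕ} {C : Qrt m}

theorem sec_mem {B : Set (V m)} (hB : C.Sec B) {a b : V m} (ha : a ∈ B) (hb : b ∈ B) (u v : ℚ) :
    ((u : ℝ) • a + (v : ℝ) • b) ∈ C.S ∨ C.F ((u : ℝ) • a + (v : ℝ) • b) = 0 := by
  obtain ⟨y, hy⟩ := exists_Sr (hB.1 ha)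
  have hra : IsRat a := hy.1
  have hqy : IsQ y := hy.2.1
  have hsh : C.Sh a y := ⟨hy.2.2.1, hy.2.2.2⟩
  have hrb : IsRat b := (hB.1 hb).1
  obtain ⟨h3, h4⟩ := hB.2 a ha b hb y hsh
  have hF := F_expand hsh (u : ℝ) (v : ℝ) b
  rw [h3, h4, mul_zero, mul_zero, add_zero, mul_zero, add_zero] at hF
  have hrat : IsRat ((u : ℝ) • a + (v : ℝ) • b) :=
    (IsRat.smul ⟨u, rfl⟩ hra).add (IsRat.smul ⟨v, rfl⟩ hrb)
  by_cases h0 : C.F ((u : ℝ) • a + (v : ℝ) • b) = 0
  · exact Or.inr h0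
  · refine Or.inl ⟨hrat, _, isQ_q hra hqy hrat hrat, ?_, hF⟩
    intro h5
    rw [h5] at hF
    apply h0
    rw [hF]
    norm_num

theorem pieces_of_bad (hbad : ∀ z ∈ C.Sr, ¬ C.Good z.1 z.2) : C.Pieces := by
  obtain ⟨k, B, hI, hS, hU⟩ := exists_sec_cover hbad
  have hBS : ∀ i, B i ⊆ C.S := fun i => (hS i).1
  have hne : ∀ i, ∀ x ∈ B i, C.F x ≠ 0 := by
    intro i x hx
    obtain ⟨_, r, _, hr, hF⟩ := hBS i hx
    rw [hF]
    exact pow_ne_zero 2 hr
  have hsp := span_of_pieces hI C.polyR_F hne (fun i a ha b hb u v => by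
    have h1 := sec_mem (hS i) ha hb u v
    rwa [hU] at h1)
  refine ⟨k, fun j => {x | x ∈ B j ∧ zc (B j) = (Submodule.span ℝ (B j) : Set (V m))},
    fun i x hx => (hBS i hx.1).1, ?_⟩
  ext x
  constructor
  · intro hx
    have hx' : x ∈ ⋃ i, B i := by rwa [← hU]
    obtain ⟨i, hi⟩ := mem_iUnion.1 hx'
    obtain ⟨j, hij, hj⟩ := hsp i
    refine ⟨hx.1, hne i x hi, j, ?_⟩
    have e : {x | x ∈ B j ∧ zc (B j) = (Submodule.span ℝ (B j) : Set (V m))} = B j := by
      ext z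
      exact ⟨fun h => h.1, fun h => ⟨h, hj⟩⟩
    have h1 : x ∈ zc (B i) := fun f _ h => h x hi
    have h2 : x ∈ (Submodule.span ℝ (B j) : Set (V m)) := by
      rw [← hj]
      exact hij h1
    show x ∈ Submodule.span ℝ {x | x ∈ B j ∧ zc (B j) = (Submodule.span ℝ (B j) : Set (V m))}
    rw [e]
    exact h2
  · rintro ⟨hrx, hFx, j, hj⟩
    by_cases hz : zc (B j) = (Submodule.span ℝ (B j) : Set (V m))
    · have e : {x | x ∈ B j ∧ zc (B j) = (Submodule.span ℝ (B j) : Set (V m))} = B j := by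
        ext z
        exact ⟨fun h => h.1, fun h => ⟨h, hz⟩⟩
      have h1 : x ∈ Submodule.span ℝ
          {x | x ∈ B j ∧ zc (B j) = (Submodule.span ℝ (B j) : Set (V m))} := hj
      rw [e] at h1
      have h2 : x ∈ zc (B j) := by
        rw [hz]
        exact h1
      obtain ⟨a, ha⟩ := (hI j).1
      obtain ⟨y, hy⟩ := exists_Sr (hBS j ha)
      have hsh : C.Sh a y := ⟨hy.2.2.1, hy.2.2.2⟩
      have h3 := h2 (fun b => C.c4 a y b) (C.polyR_c4 a y) (fun b hb => ((hS j).2 a ha b hb y hsh).2)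
      have h4 : C.F x = (C.q a y x x) ^ 2 := by
        have h5 : C.c4 a y x = 0 := h3
        unfold c4 at h5
        exact sub_eq_zero.1 h5
      refine ⟨hrx, _, isQ_q hy.1 hy.2.1 hrx hrx, ?_, h4⟩
      intro h5
      rw [h5] at h4
      apply hFx
      rw [h4]
      norm_num
    · exfalso
      have e : {x | x ∈ B j ∧ zc (B j) = (Submodule.span ℝ (B j) : Set (V m))} = ∅ := by
        ext z
        exact ⟨fun h => absurd h.2 hz, fun h => absurd h (Set.notMem_empty z)⟩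
      have h1 : x ∈ Submodule.span ℝ
          {x | x ∈ B j ∧ zc (B j) = (Submodule.span ℝ (B j) : Set (V m))} := hj
      rw [e, Submodule.span_empty, Submodule.mem_bot] at h1
      apply hFx
      rw [h1]
      unfold F
      rw [map_zero]

end Qrt

end Pool.Agent.QS
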