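import Pool.Agent.QS.Prop
import Pool.Agent.QS.Nth
import Pool.Agent.QS.Tth
import Pool.Agent.QS.Rr
import Pool.Agent.QS.Sqd

/-!
# QS module DICH: the dichotomy
-/

set_option autoImplicit false

open Set Topology Filter MvPolynomial
open Pool.Agent.MZ

namespace Pool.Agent.QS

namespace Qrt

variable {m : ℕ} (C : Qrt m)

theorem dich : C.Pieces ∨ C.Opn := by
  by_cases hs : C.Sq
  · exact Or.inl (pieces_of_sq hs)
  by_cases hi : ∃ o, 0 < C.F o ∧ C.Z ∈ 𝓝 o
  · obtain ⟨o, h1, h2⟩ := hi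
    exact Or.inr (opn_of_interior hs h1 h2)
  have hT : C.Thin := fun x hx hZ => hi ⟨x, hx, hZ⟩
  by_cases hbad : ∀ z ∈ C.Sr, ¬ C.Good z.1 z.2
  · exact Or.inl (pieces_of_bad hbad)
  push Not at hbad
  obtain ⟨z, hz, hg⟩ := hbad
  have hb : C.Bin := bin_of_good hT hs hz.2.2 (subset_closure (mem_S_of_Sr hz)) hg
  rcases of_bin hb hs with h | h
  · exact Or.inl h
  · exact absurd h hi

end Qrt

end Pool.Agent.QS
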