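import Pool.Agent.QS.Bas
import Pool.Agent.QS.Alg

/-!
# QS module DQ: the derivative of the osculating quadratic form along a curve of sheets

PROOF. Differentiate `F (p s) = (y s) ^ 2` at `t` (`hasDerivAt_comp`, symmetry of `T`): `4 T p p p v = 2 y y'`, so
`y' = 2 T p p p v / y`. Differentiate `q (p s) (y s) x x = (3 y² T p p x x - 2 (T p p p x)²) / y³`:
the derivatives of `T p p x x` and `T p p p x` are `2 T p v x x` and `3 T p p v x`, so the derivative is
`(6 y y' T p p x x + 6 y² T p v x x - 12 (T p p p x) (T p p v x)) / y³ - 3 y' (3 y² T p p x x - 2 (T p p p x)²) / y⁴`,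
and with the value of `y'` this is `6 / y * cc p y v x` (checked by computer; `q p y p v = T p p p v / y`,
`F p = y²`; `field_simp`, `ring`).
-/

set_option autoImplicit false

open Set Topology Filter MvPolynomial
open Pool.Agent.MZ

namespace Pool.Agent.QS

namespace Qrt

variable {m : ℕ} {C : Qrt m}

theorem hasDerivAt_q {p : ℝ → V m} {y : ℝ → ℝ} {v : V m} {y' t : ℝ} (hp : HasDerivAt p v t)
    (hy : HasDerivAt y y' t) (hS : ∀ᶠ s in 𝓝 t, C.Sh (p s) (y s)) (x : V m) :
    HasDerivAt (fun s => C.q (p s) (y s) x x) (6 / y t * C.cc (p t) (y t) v x) t := by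
  have hSt : C.Sh (p t) (y t) := hS.self_of_nhds
  have hy0 : y t ≠ 0 := hSt.1
  have hx : HasDerivAt (fun _ : ℝ => x) (0 : V m) t := hasDerivAt_const t x
  -- symmetries
  have e1 : C.T v (p t) (p t) (p t) = C.T (p t) (p t) (p t) v := by
    rw [C.s₁ v, C.s₂ (p t) v, C.s₃ (p t) (p t) v]
  have e2 : C.T (p t) v (p t) (p t) = C.T (p t) (p t) (p t) v := by
    rw [C.s₂ (p t) v, C.s₃ (p t) (p t) v]
  have e3 : C.T (p t) (p t) v (p t) = C.T (p t) (p t) (p t) v := C.s₃ _ _ _ _
  have e4 : C.T v (p t) x x = C.T (p t) v x x := C.s₁ _ _ _ _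
  have e5 : C.T v (p t) (p t) x = C.T (p t) (p t) v x := by
    rw [C.s₁ v, C.s₂ (p t) v]
  have e6 : C.T (p t) v (p t) x = C.T (p t) (p t) v x := C.s₂ _ _ _ _
  -- the derivative of `y`
  have hF : HasDerivAt (fun s => C.T (p s) (p s) (p s) (p s)) (4 * C.T (p t) (p t) (p t) v) t := by
    have h1 := C.hasDerivAt_comp hp hp hp hp
    rw [e1, e2, e3] at h1
    have h2 : C.T (p t) (p t) (p t) v + C.T (p t) (p t) (p t) v + C.T (p t) (p t) (p t) v +
        C.T (p t) (p t) (p t) v = 4 * C.T (p t) (p t) (p t) v := by ring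
    rwa [h2] at h1
  have hY : HasDerivAt (fun s => y s ^ 2) (2 * y t * y') t := by
    have h1 := hy.fun_pow 2
    have h2 : ((2 : ℕ) : ℝ) * y t ^ (2 - 1) * y' = 2 * y t * y' := by norm_num
    rwa [h2] at h1
  have hEq : (fun s => C.T (p s) (p s) (p s) (p s)) =ᶠ[𝓝 t] fun s => y s ^ 2 :=
    hS.mono fun s hs => hs.2
  have hyv : 4 * C.T (p t) (p t) (p t) v = 2 * y t * y' :=
    hF.unique (hY.congr_of_eventuallyEq hEq)
  -- the terms of `q`
  have h2 : HasDerivAt (fun s => C.T (p s) (p s) x x) (2 * C.T (p t) v x x) t := by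
    have h1 := C.hasDerivAt_comp hp hp hx hx
    rw [e4] at h1
    have h2 : C.T (p t) v x x + C.T (p t) v x x + C.T (p t) (p t) (0 : V m) x +
        C.T (p t) (p t) x (0 : V m) = 2 * C.T (p t) v x x := by
      simp only [map_zero, LinearMap.zero_apply]
      ring
    rwa [h2] at h1
  have h1 : HasDerivAt (fun s => C.T (p s) (p s) (p s) x) (3 * C.T (p t) (p t) v x) t := by
    have h1 := C.hasDerivAt_comp hp hp hp hx
    rw [e5, e6] at h1
    have h2 : C.T (p t) (p t) v x + C.T (p t) (p t) v x + C.T (p t) (p t) v x +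
        C.T (p t) (p t) (p t) (0 : V m) = 3 * C.T (p t) (p t) v x := by
      simp only [map_zero]
      ring
    rwa [h2] at h1
  have hY3 : HasDerivAt (fun s => y s ^ 3) (3 * y t ^ 2 * y') t := by
    have h1 := hy.fun_pow 3
    have h2 : ((3 : ℕ) : ℝ) * y t ^ (3 - 1) * y' = 3 * y t ^ 2 * y' := by norm_num
    rwa [h2] at h1
  have hN := ((hY.const_mul 3).fun_mul h2).fun_sub ((h1.const_mul 2).fun_mul h1)
  have hQ := hN.fun_div hY3 (pow_ne_zero 3 hy0)
  refine hQ.congr_deriv ?_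
  have hFp : C.T (p t) (p t) (p t) (p t) = y t ^ 2 := hSt.2
  have hy' : y' = 2 * C.T (p t) (p t) (p t) v / y t := by
    field_simp
    linear_combination (-1 / 2 : ℝ) * hyv
  rw [hy']
  unfold cc q
  rw [hFp]
  field_simp
  ring

end Qrt

end Pool.Agent.QS
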