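import Pool.Agent.QS.Defs

/-!
# QS module EXI: the form of a polynomial of degree at most 4

PROOF. As in `Pool.Agent.MZ.exists_cub` (MZ/Rep.lean; its helper lemmas are private, copy them). 1. Tensor: `f` is a sum
of `C (a v) * ∏ i : Fin 4, Y (v i)` over `v : Fin 4 → Fin (n + 1)`, `Y = Fin.cons 1 X`: every monomial of degree at most
`4` is a product of exactly four of the `Y j` (`rp_mono` in MZ/Rep.lean, with `l = 4`), sums add the coefficients.
2. Symmetrise: `s v = (∑ σ : Equiv.Perm (Fin 4), a (v ∘ σ)) / 24`; `s (v ∘ τ) = s v`, and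
`∑ v, s v * ∏ i, z (v i) = ∑ v, a v * ∏ i, z (v i)` (reindex the sum over `v` by `v ↦ v ∘ σ`; the product is invariant).
3. `T x y z w = ∑ i j k l, s ![i, j, k, l] * (x i * y j * z k * w l)`, as a multilinear map built by
`LinearMap` constructors (`LinearMap.mk₂`, or as a sum of `LinearMap.smulRight (LinearMap.proj i) ..`); the symmetries
from `s (v ∘ τ) = s v` for the transpositions `(0 1)`, `(1 2)`, `(2 3)`, `Finset.sum_comm`; rationality: `IsQ.add`, `IsQ.mul`
over the finite sums (`s` is rational). 4. `F (hx 1 x) = ∑ .. = aeval x f`: `aeval x (Y j) = hx 1 x j`.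
-/

set_option autoImplicit false

open Set Topology Filter MvPolynomial
open Pool.Agent.MZ

namespace Pool.Agent.QS

/-- the variables, with `Y 0 = 1` -/
private noncomputable abbrev exY (n : ℕ) : Fin (n + 1) → MvPolynomial (Fin n) ℚ := Fin.cons 1 X

private theorem ex_mono {n : ℕ} : ∀ (l : ℕ) (d : Fin n →₀ ℕ), (d.sum fun _ e => e) ≤ l →
    ∃ f : Fin l → Fin (n + 1), monomial d (1 : ℚ) = ∏ i, exY n (f i) := by
  intro l
  induction l with
  | zero =>
    intro d hd
    have hd0 : d = 0 := by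
      ext i
      by_contra h
      have h1 : d i ≤ d.sum fun _ e => e :=
        Finset.single_le_sum (f := fun i => d i) (fun i _ => Nat.zero_le _)
          (Finsupp.mem_support_iff.mpr h)
      have h2 : d i ≠ 0 := h
      omega
    refine ⟨Fin.elim0, ?_⟩
    rw [hd0]
    simp
  | succ l ih =>
    intro d hd
    by_cases hd0 : d = 0
    · refine ⟨fun _ => 0, ?_⟩
      rw [hd0]
      simp
    · obtain ⟨i, hi⟩ : ∃ i, d i ≠ 0 := by
        by_contra hcon
        push Not at hcon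
        exact hd0 (Finsupp.ext hcon)
      have hle : Finsupp.single i 1 ≤ d := by
        rw [Finsupp.single_le_iff]
        omega
      have hdec : d = (d - Finsupp.single i 1) + Finsupp.single i 1 :=
        (tsub_add_cancel_of_le hle).symm
      have hsum : (d.sum fun _ e => e) = ((d - Finsupp.single i 1).sum fun _ e => e) + 1 := by
        conv_lhs => rw [hdec]
        rw [Finsupp.sum_add_index' (fun _ => rfl) (fun _ _ _ => rfl),
          Finsupp.sum_single_index rfl]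
      obtain ⟨f, hf⟩ := ih (d - Finsupp.single i 1) (by omega)
      refine ⟨Fin.cons i.succ f, ?_⟩
      rw [Fin.prod_univ_succ]
      simp only [Fin.cons_zero, Fin.cons_succ]
      rw [← hf, MvPolynomial.X, monomial_mul, mul_one, add_comm, ← hdec]

/-- combinations of the products of four of the `Y j` -/
private def ExE (n : ℕ) (P : MvPolynomial (Fin n) ℚ) : Prop :=
  ∃ a : (Fin 4 → Fin (n + 1)) → ℚ, P = ∑ v, MvPolynomial.C (a v) * ∏ i, exY n (v i)

private theorem ex_add {n : ℕ} {P Q : MvPolynomial (Fin n) ℚ} (hP : ExE n P) (hQ : ExE n Q) :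
    ExE n (P + Q) := by
  obtain ⟨a, ha⟩ := hP
  obtain ⟨b, hb⟩ := hQ
  refine ⟨fun v => a v + b v, ?_⟩
  rw [ha, hb, ← Finset.sum_add_distrib]
  refine Finset.sum_congr rfl fun v _ => ?_
  rw [map_add]
  ring

private theorem ex_sum {n : ℕ} {ι : Type*} (s : Finset ι) {f : ι → MvPolynomial (Fin n) ℚ}
    (h : ∀ i ∈ s, ExE n (f i)) : ExE n (∑ i ∈ s, f i) := by
  classical
  induction s using Finset.induction_on with
  | empty => exact ⟨fun _ => 0, by simp⟩
  | insert a s ha ih =>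
    rw [Finset.sum_insert ha]
    exact ex_add (h a (Finset.mem_insert_self _ _))
      (ih fun i hi => h i (Finset.mem_insert_of_mem hi))

private theorem ex_single {n : ℕ} (c : ℚ) (v : Fin 4 → Fin (n + 1)) :
    ExE n (MvPolynomial.C c * ∏ i, exY n (v i)) := by
  classical
  refine ⟨fun w => if w = v then c else 0, ?_⟩
  rw [Finset.sum_eq_single v]
  · beta_reduce
    rw [if_pos rfl]
  · intro w _ hw
    beta_reduce
    rw [if_neg hw, map_zero, zero_mul]
  · intro h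
    exact absurd (Finset.mem_univ _) h

private theorem ex_tensor {n : ℕ} {P : MvPolynomial (Fin n) ℚ} (hP : P.totalDegree ≤ 4) :
    ExE n P := by
  have h1 : ExE n (∑ d ∈ P.support, monomial d (P.coeff d)) := by
    refine ex_sum _ fun d hd => ?_
    have hdeg := le_totalDegree hd
    have hc : monomial d (P.coeff d) = MvPolynomial.C (P.coeff d) * monomial d (1 : ℚ) := by
      rw [C_mul_monomial, mul_one]
    obtain ⟨f, hf⟩ := ex_mono 4 d (hdeg.trans hP)
    rw [hc, hf]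
    exact ex_single _ _
  rwa [← P.as_sum] at h1

/-- symmetrisation -/
private def exS {N : ℕ} (a : (Fin 4 → Fin N) → ℚ) (v : Fin 4 → Fin N) : ℚ :=
  (∑ σ : Equiv.Perm (Fin 4), a (v ∘ σ)) / 24

private theorem exS_comp {N : ℕ} (a : (Fin 4 → Fin N) → ℚ) (v : Fin 4 → Fin N)
    (τ : Equiv.Perm (Fin 4)) : exS a (v ∘ τ) = exS a v := by
  unfold exS
  congr 1
  exact Equiv.sum_comp (Equiv.mulLeft τ) (fun σ => a (v ∘ σ))

/-- reindexing by a permutation of the places -/
private def exE {N : ℕ} (σ : Equiv.Perm (Fin 4)) : (Fin 4 → Fin N) ≃ (Fin 4 → Fin N) where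
  toFun v := v ∘ σ
  invFun v := v ∘ σ.symm
  left_inv v := by
    funext i
    simp
  right_inv v := by
    funext i
    simp

private theorem exS_sum {N : ℕ} (a : (Fin 4 → Fin N) → ℚ) (z : Fin N → ℝ) :
    ∑ v, (exS a v : ℝ) * ∏ i, z (v i) = ∑ v, (a v : ℝ) * ∏ i, z (v i) := by
  have h1 : ∀ σ : Equiv.Perm (Fin 4), ∑ v, (a (v ∘ σ) : ℝ) * ∏ i, z (v i) =
      ∑ v, (a v : ℝ) * ∏ i, z (v i) := by
    intro σ
    rw [← Equiv.sum_comp (exE σ) (fun v => (a v : ℝ) * ∏ i, z (v i))]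
    refine Finset.sum_congr rfl fun v _ => ?_
    have h2 : ∏ i, z ((exE σ v) i) = ∏ i, z (v i) := Equiv.prod_comp σ (fun i => z (v i))
    rw [h2]
    rfl
  have h3 : ∑ v, (exS a v : ℝ) * ∏ i, z (v i) =
      (∑ σ : Equiv.Perm (Fin 4), ∑ v, (a (v ∘ σ) : ℝ) * ∏ i, z (v i)) / 24 := by
    rw [Finset.sum_comm, Finset.sum_div]
    refine Finset.sum_congr rfl fun v _ => ?_
    rw [← Finset.sum_mul]
    unfold exS
    push_cast
    ring
  rw [h3, Finset.sum_congr rfl fun σ _ => h1 σ, Finset.sum_const, Finset.card_univ,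
    Fintype.card_perm, Fintype.card_fin, nsmul_eq_mul]
  have h4 : ((Nat.factorial 4 : ℕ) : ℝ) = 24 := by
    norm_num [Nat.factorial]
  rw [h4]
  ring

/-- the real 4-linear form -/
private def exT {N : ℕ} (c : (Fin 4 → Fin N) → ℚ) :
    (Fin N → ℝ) →ₗ[ℝ] (Fin N → ℝ) →ₗ[ℝ] (Fin N → ℝ) →ₗ[ℝ] (Fin N → ℝ) →ₗ[ℝ] ℝ :=
  ∑ v : Fin 4 → Fin N, (c v : ℝ) •
    ((LinearMap.proj (v 0) : (Fin N → ℝ) →ₗ[ℝ] ℝ).smulRight
      ((LinearMap.proj (v 1) : (Fin N → ℝ) →ₗ[ℝ] ℝ).smulRight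
        ((LinearMap.proj (v 2) : (Fin N → ℝ) →ₗ[ℝ] ℝ).smulRight
          (LinearMap.proj (v 3) : (Fin N → ℝ) →ₗ[ℝ] ℝ))))

private theorem exT_apply {N : ℕ} (c : (Fin 4 → Fin N) → ℚ) (x y z w : Fin N → ℝ) :
    exT c x y z w = ∑ v, (c v : ℝ) * (x (v 0) * y (v 1) * z (v 2) * w (v 3)) := by
  simp only [exT, LinearMap.sum_apply, LinearMap.smul_apply, LinearMap.smulRight_apply,
    LinearMap.proj_apply, smul_eq_mul]
  refine Finset.sum_congr rfl fun v _ => ?_
  ring

private theorem exT_swap {N : ℕ} (a : (Fin 4 → Fin N) → ℚ) (τ : Equiv.Perm (Fin 4))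
    (x y z w x' y' z' w' : Fin N → ℝ)
    (h : ∀ v : Fin 4 → Fin N, x (v (τ 0)) * y (v (τ 1)) * z (v (τ 2)) * w (v (τ 3)) =
      x' (v 0) * y' (v 1) * z' (v 2) * w' (v 3)) :
    exT (exS a) x y z w = exT (exS a) x' y' z' w' := by
  rw [exT_apply, exT_apply, ← Equiv.sum_comp (exE τ)
    (fun v => (exS a v : ℝ) * (x (v 0) * y (v 1) * z (v 2) * w (v 3)))]
  refine Finset.sum_congr rfl fun v _ => ?_
  rw [← h v]
  show (exS a (v ∘ τ) : ℝ) * _ = _
  rw [exS_comp]
  rfl

/-- the quartic form with symmetric coefficients -/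
private def exQ {N : ℕ} (a : (Fin 4 → Fin N) → ℚ) : Qrt N where
  T := exT (exS a)
  s₁ := by
    intro x y z w
    refine exT_swap a (Equiv.swap 0 1) _ _ _ _ _ _ _ _ fun v => ?_
    have h0 : (Equiv.swap (0 : Fin 4) 1) 0 = 1 := by decide
    have h1 : (Equiv.swap (0 : Fin 4) 1) 1 = 0 := by decide
    have h2 : (Equiv.swap (0 : Fin 4) 1) 2 = 2 := by decide
    have h3 : (Equiv.swap (0 : Fin 4) 1) 3 = 3 := by decide
    rw [h0, h1, h2, h3]
    ring
  s₂ := by
    intro x y z w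
    refine exT_swap a (Equiv.swap 1 2) _ _ _ _ _ _ _ _ fun v => ?_
    have h0 : (Equiv.swap (1 : Fin 4) 2) 0 = 0 := by decide
    have h1 : (Equiv.swap (1 : Fin 4) 2) 1 = 2 := by decide
    have h2 : (Equiv.swap (1 : Fin 4) 2) 2 = 1 := by decide
    have h3 : (Equiv.swap (1 : Fin 4) 2) 3 = 3 := by decide
    rw [h0, h1, h2, h3]
    ring
  s₃ := by
    intro x y z w
    refine exT_swap a (Equiv.swap 2 3) _ _ _ _ _ _ _ _ fun v => ?_
    have h0 : (Equiv.swap (2 : Fin 4) 3) 0 = 0 := by decide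
    have h1 : (Equiv.swap (2 : Fin 4) 3) 1 = 1 := by decide
    have h2 : (Equiv.swap (2 : Fin 4) 3) 2 = 3 := by decide
    have h3 : (Equiv.swap (2 : Fin 4) 3) 3 = 2 := by decide
    rw [h0, h1, h2, h3]
    ring
  rat := by
    rintro _ _ _ _ ⟨x, rfl⟩ ⟨y, rfl⟩ ⟨z, rfl⟩ ⟨w, rfl⟩
    rw [exT_apply]
    refine ⟨∑ v, exS a v * (x (v 0) * y (v 1) * z (v 2) * w (v 3)), ?_⟩
    push_cast
    rfl

theorem exists_qrt {n : ℕ} {f : MvPolynomial (Fin n) ℚ} (hf : f.totalDegree ≤ 4) :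
    ∃ C : Qrt (n + 1), ∀ x : Fin n → ℝ, (aeval x f : ℝ) = C.F (hx 1 x) := by
  obtain ⟨a, ha⟩ := ex_tensor hf
  refine ⟨exQ a, fun x => ?_⟩
  have hY : ∀ i, (aeval x (exY n i) : ℝ) = hx 1 x i := by
    intro i
    refine Fin.cases ?_ (fun j => ?_) i
    · simp [hx]
    · simp [hx]
  show _ = exT (exS a) (hx 1 x) (hx 1 x) (hx 1 x) (hx 1 x)
  have h1 := exS_sum a (hx 1 x)
  simp only [Fin.prod_univ_four] at h1
  rw [exT_apply, h1]
  conv_lhs => rw [ha]
  simp only [map_sum, map_mul, aeval_C, eq_ratCast, hY, Fin.prod_univ_four]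

end Pool.Agent.QS
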