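import Pool.Agent.QS.Aff
import Pool.Agent.QS.Dich
import Pool.Agent.QS.Exi

/-!
# QS module FIN: the theorems for a polynomial of degree at most 4
-/

set_option autoImplicit false

open Set Topology Filter MvPolynomial
open Pool.Agent.MZ

namespace Pool.Agent.QS

variable {n : ℕ} {f : MvPolynomial (Fin n) ℚ}

theorem ne_of_mem_XQ {z : V (n + 1)} (h : z ∈ XQ f) : z 0 ≠ 0 := by
  obtain ⟨r, q, h1, -, rfl⟩ := h
  simpa [hx] using h1

theorem fc_one (hf : f.totalDegree ≤ 4) (G : MvPolynomial (Fin (n + 1)) ℝ) :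
    FC {z | z ∈ closure (XQ f) ∧ eval z G ≠ 0} := by
  obtain ⟨C, hC⟩ := exists_qrt hf
  refine (Qrt.fc_affine hC C.dich G).sandwich (fun z hz => ⟨hz.1, hz.2.2⟩) fun z hz => ?_
  have hc : Continuous fun z : V (n + 1) => eval z G :=
    (show PolyR (n + 1) fun z => eval z G from ⟨G, fun _ => rfl⟩).continuous
  have ho : IsOpen {z : V (n + 1) | eval z G ≠ 0} := isOpen_ne_fun hc continuous_const
  rw [mem_closure_iff]
  intro U hU hzU
  obtain ⟨w, hw, hwX⟩ := mem_closure_iff.1 hz.1 (U ∩ {z | eval z G ≠ 0}) (hU.inter ho)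
    ⟨hzU, hz.2⟩
  exact ⟨w, hw.1, subset_closure hwX, ne_of_mem_XQ hwX, hw.2⟩

theorem fc_open (hf : f.totalDegree ≤ 4) {k : ℕ} (G : Fin k → MvPolynomial (Fin (n + 1)) ℝ) :
    FC {z | z ∈ closure (XQ f) ∧ ∃ i, eval z (G i) ≠ 0} := by
  have h1 : {z | z ∈ closure (XQ f) ∧ ∃ i, eval z (G i) ≠ 0} =
      ⋃ i, {z | z ∈ closure (XQ f) ∧ eval z (G i) ≠ 0} := by
    ext z
    constructor
    · rintro ⟨h, i, hi⟩
      exact mem_iUnion.2 ⟨i, h, hi⟩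
    · intro h
      obtain ⟨i, h, hi⟩ := mem_iUnion.1 h
      exact ⟨h, i, hi⟩
  rw [h1]
  exact FC.iUnion fun i => fc_one hf (G i)

theorem dich_affine (hf : f.totalDegree ≤ 4) :
    (∀ x ∈ closure (SQ f), 0 < (aeval x f : ℝ) → closure (SQ f) ∈ 𝓝 x) ∨
      ∃ (k : ℕ) (A : Fin k → AffineSubspace ℚ (Fin n → ℚ)), ∀ q : Fin n → ℚ,
        (∃ r : ℚ, r ≠ 0 ∧ r ^ 2 = eval q f) ↔ eval q f ≠ 0 ∧ ∃ i, q ∈ A i := by
  obtain ⟨C, hC⟩ := exists_qrt hf
  rcases C.dich with h | h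
  · exact Or.inr (Qrt.pieces_affine hC h)
  · exact Or.inl (Qrt.opn_affine hC h)

end Pool.Agent.QS
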