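import Pool.Agent.QS.Pc

/-!
# QS module HG: from the cone to the affine variety `y² = f(x)`, `y ≠ 0`

`C` is the form of `f`: `f(x) = C.F (hx 1 x)`. `XQ f` is the set of the rational points `(r, q)` of `r² = f(q)`, `r ≠ 0` (the
coordinate `y` is the coordinate `0`).

PROOFS. `exists_homog`: induction on `G` (`MvPolynomial.induction_on`). `C c`: `d = 0, a = c, b = 0`. Sum: with `d = d₁ + d₂`,
`a = z₀^d₂ a₁ + z₀^d₁ a₂`, `b` the same. Product with a variable (or of two): `d = d₁ + d₂`,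
`(a₁ + b₁ √F) (a₂ + b₂ √F) = (a₁ a₂ + b₁ b₂ F) + (a₁ b₂ + a₂ b₁) √F`. `X 0`: `d = 2, a = 0, b = σ`. `X (i.succ)`: `d = 1`,
`a = z (i.succ)`, `b = 0`.
`mem_closure_XQ`, `⇒`: the maps `z ↦ z 0 ^ 2 - F (hx 1 (tail z))` and `z ↦ hx 1 (tail z)` are continuous; the first is zero
on `XQ f` and the second maps `XQ f` into `S` (`isRat_hx`). `⇐`: `(hx 1 x, y)` is a sheet with `hx 1 x ∈ Z`, so
`(hx 1 x, y) ∈ closure Sr` (`sheet_closure`). The map `(w, s) ↦ hx (s / w 0 ^ 2) (fun i => w i.succ / w 0)` is continuous at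
this point (`w 0 = 1`), its value there is `hx y x`, and it maps the rational sheets `(w, s)` with `w 0 ≠ 0` into `XQ f`:
`F (hx 1 (tail w / w 0)) = F ((w 0)⁻¹ • w) = F w / w 0 ^ 4 = (s / w 0 ^ 2) ^ 2`.
`fc_affine`: for `σ = 1, -1` let `Φ w = hx (σ * √(F w) / w 0 ^ 2) (fun i => w i.succ / w 0)` and let `d, a, b` be from
`exists_homog`. `E σ = {w ∈ Z | 0 < F w, (w 0 * a w) + (w 0 * b w) * √(F w) ≠ 0}` is FC (`fc_sqrt`), `w 0 ≠ 0` on it, `Φ` is
continuous on it, and the set is the union of the two images: if `w ∈ E σ` then `(w 0)⁻¹ • w ∈ Z` (`Z_smul`) and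
`mem_closure_XQ`; conversely for `z` in the set let `σ` be the sign of `z 0` and `w = hx 1 (tail z)`: `√(F w) = |z 0|`,
`Φ w = z`. `FC.image`, `FC.union`.
-/

set_option autoImplicit false

open Set Topology Filter MvPolynomial
open Pool.Agent.MZ

namespace Pool.Agent.QS

variable {n : ℕ}

/-- the rational points `(r, q)` of `r² = f(q)`, `r ≠ 0` -/
def XQ (f : MvPolynomial (Fin n) ℚ) : Set (V (n + 1)) :=
  {z | ∃ (r : ℚ) (q : Fin n → ℚ), r ≠ 0 ∧ r ^ 2 = eval q f ∧ z = hx (r : ℝ) (rv q)}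

/-- powers of the coordinate `0` are polynomial functions -/
private theorem hg_pow (d : ℕ) : PolyR (n + 1) fun z => z 0 ^ d := by
  induction d with
  | zero => simpa using PolyR.const (m := n + 1) 1
  | succ d ih =>
    have h1 := ih.mul (PolyR.coord (0 : Fin (n + 1)))
    have e : (fun z : V (n + 1) => z 0 ^ (d + 1)) = fun z => z 0 ^ d * z 0 := by
      funext z
      rw [pow_succ]
    rw [e]
    exact h1

private theorem hg_inv (w : V (n + 1)) (h0 : w 0 ≠ 0) :
    hx 1 (fun i : Fin n => w i.succ / w 0) = (w 0)⁻¹ • w := by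
  funext i
  refine Fin.cases ?_ (fun j => ?_) i
  · show (1 : ℝ) = (w 0)⁻¹ * w 0
    rw [inv_mul_cancel₀ h0]
  · show w j.succ / w 0 = (w 0)⁻¹ * w j.succ
    rw [div_eq_inv_mul]

namespace Qrt

variable {C : Qrt (n + 1)} {f : MvPolynomial (Fin n) ℚ}

theorem exists_homog (C : Qrt (n + 1)) (G : MvPolynomial (Fin (n + 1)) ℝ) (σ : ℝ) :
    ∃ (d : ℕ) (a b : V (n + 1) → ℝ), PolyR (n + 1) a ∧ PolyR (n + 1) b ∧
      ∀ z : V (n + 1), z 0 ≠ 0 → 0 ≤ C.F z →
        z 0 ^ d * eval (hx (σ * Real.sqrt (C.F z) / z 0 ^ 2) (fun i : Fin n => z i.succ / z 0)) G =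
          a z + b z * Real.sqrt (C.F z) := by
  induction G using MvPolynomial.induction_on with
  | C c =>
    refine ⟨0, fun _ => c, fun _ => 0, PolyR.const _, PolyR.const _, ?_⟩
    intro z _ _
    rw [eval_C]
    ring
  | add p q hp hq =>
    obtain ⟨d₁, a₁, b₁, ha₁, hb₁, h₁⟩ := hp
    obtain ⟨d₂, a₂, b₂, ha₂, hb₂, h₂⟩ := hq
    refine ⟨d₁ + d₂, fun z => z 0 ^ d₂ * a₁ z + z 0 ^ d₁ * a₂ z,
      fun z => z 0 ^ d₂ * b₁ z + z 0 ^ d₁ * b₂ z,
      ((hg_pow d₂).mul ha₁).add ((hg_pow d₁).mul ha₂),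
      ((hg_pow d₂).mul hb₁).add ((hg_pow d₁).mul hb₂), ?_⟩
    intro z h0 hF
    have e₁ := h₁ z h0 hF
    have e₂ := h₂ z h0 hF
    rw [map_add, pow_add]
    linear_combination z 0 ^ d₂ * e₁ + z 0 ^ d₁ * e₂
  | mul_X p i hp =>
    obtain ⟨d₁, a₁, b₁, ha₁, hb₁, h₁⟩ := hp
    obtain ⟨d₂, a₂, b₂, ha₂, hb₂, h₂⟩ : ∃ (d : ℕ) (a b : V (n + 1) → ℝ),
        PolyR (n + 1) a ∧ PolyR (n + 1) b ∧
        ∀ z : V (n + 1), z 0 ≠ 0 → 0 ≤ C.F z →
          z 0 ^ d * (hx (σ * Real.sqrt (C.F z) / z 0 ^ 2) (fun i : Fin n => z i.succ / z 0)) i =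
            a z + b z * Real.sqrt (C.F z) := by
      refine Fin.cases ?_ (fun j => ?_) i
      · refine ⟨2, fun _ => 0, fun _ => σ, PolyR.const _, PolyR.const _, ?_⟩
        intro z h0 _
        show z 0 ^ 2 * (σ * Real.sqrt (C.F z) / z 0 ^ 2) = 0 + σ * Real.sqrt (C.F z)
        field_simp
        ring
      · refine ⟨1, fun z => z j.succ, fun _ => 0, PolyR.coord _, PolyR.const _, ?_⟩
        intro z h0 _
        show z 0 ^ 1 * (z j.succ / z 0) = z j.succ + 0 * Real.sqrt (C.F z)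
        field_simp
        ring
    refine ⟨d₁ + d₂, fun z => a₁ z * a₂ z + b₁ z * b₂ z * C.F z,
      fun z => a₁ z * b₂ z + b₁ z * a₂ z,
      (ha₁.mul ha₂).add ((hb₁.mul hb₂).mul C.polyR_F), (ha₁.mul hb₂).add (hb₁.mul ha₂), ?_⟩
    intro z h0 hF
    have e₁ := h₁ z h0 hF
    have e₂ := h₂ z h0 hF
    have hs : Real.sqrt (C.F z) ^ 2 = C.F z := Real.sq_sqrt hF
    rw [map_mul, eval_X, pow_add]
    have e₃ : z 0 ^ d₁ * z 0 ^ d₂ *
        ((eval (hx (σ * Real.sqrt (C.F z) / z 0 ^ 2) (fun i : Fin n => z i.succ / z 0))) p *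
          (hx (σ * Real.sqrt (C.F z) / z 0 ^ 2) (fun i : Fin n => z i.succ / z 0)) i) =
        (a₁ z + b₁ z * Real.sqrt (C.F z)) * (a₂ z + b₂ z * Real.sqrt (C.F z)) := by
      rw [← e₁, ← e₂]
      ring
    rw [e₃]
    linear_combination b₁ z * b₂ z * hs

theorem mem_closure_XQ (hC : ∀ x : Fin n → ℝ, (aeval x f : ℝ) = C.F (hx 1 x)) {y : ℝ}
    (hy : y ≠ 0) {x : Fin n → ℝ} :
    hx y x ∈ closure (XQ f) ↔ y ^ 2 = C.F (hx 1 x) ∧ hx 1 x ∈ C.Z := by
  constructor
  · intro h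
    have hc1 : Continuous fun z : V (n + 1) => hx 1 (fun i : Fin n => z i.succ) :=
      (continuous_hx 1).comp (continuous_pi fun i => continuous_apply i.succ)
    have hX : ∀ z ∈ XQ f, z 0 ^ 2 = C.F (hx 1 (fun i : Fin n => z i.succ)) ∧
        hx 1 (fun i : Fin n => z i.succ) ∈ C.S := by
      rintro z ⟨r, q, hr, hq, rfl⟩
      have e0 : (hx (r : ℝ) (rv q)) 0 = (r : ℝ) := rfl
      have e1 : (fun i : Fin n => (hx (r : ℝ) (rv q)) i.succ) = rv q := rfl
      rw [e1, e0]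
      have e2 : (r : ℝ) ^ 2 = C.F (hx 1 (rv q)) := by
        rw [← hC, aeval_rv, ← hq]
        push_cast
        rfl
      refine ⟨e2, isRat_hx.2 ⟨IsQ.one, IsRat.rv q⟩, r, IsQ.cast r, ?_, e2.symm⟩
      exact_mod_cast hr
    constructor
    · have hcl : IsClosed {z : V (n + 1) | z 0 ^ 2 = C.F (hx 1 (fun i : Fin n => z i.succ))} :=
        isClosed_eq ((continuous_apply 0).pow 2) (C.continuous_F.comp hc1)
      exact closure_minimal (fun z hz => (hX z hz).1) hcl h
    · have h1 := map_mem_closure hc1 h (t := C.S) fun z hz => (hX z hz).2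
      exact h1
  · rintro ⟨h1, h2⟩
    have h3 := sheet_closure h2 ⟨hy, h1.symm⟩
    let Φ : V (n + 1) × ℝ → V (n + 1) := fun w =>
      hx (w.2 / w.1 0 ^ 2) (fun i : Fin n => w.1 i.succ / w.1 0)
    have hop : IsOpen {w : V (n + 1) × ℝ | w.1 0 ≠ 0} :=
      isOpen_ne_fun ((continuous_apply 0).comp continuous_fst) continuous_const
    have h4 : (hx 1 x, y) ∈ closure ({w : V (n + 1) × ℝ | w.1 0 ≠ 0} ∩ C.Sr) := by
      refine hop.inter_closure ⟨?_, h3⟩
      show (hx 1 x) 0 ≠ 0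
      show (1 : ℝ) ≠ 0
      exact one_ne_zero
    have hΦ : ContinuousAt Φ (hx 1 x, y) := by
      have hne : (hx 1 x : V (n + 1)) 0 ≠ 0 := one_ne_zero
      have hc0 : Continuous fun w : V (n + 1) × ℝ => w.1 0 :=
        (continuous_apply 0).comp continuous_fst
      refine continuousAt_pi.2 fun i => ?_
      refine Fin.cases ?_ (fun j => ?_) i
      · show ContinuousAt (fun w : V (n + 1) × ℝ => w.2 / w.1 0 ^ 2) (hx 1 x, y)
        exact continuousAt_snd.div (hc0.continuousAt.pow 2) (pow_ne_zero 2 hne)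
      · show ContinuousAt (fun w : V (n + 1) × ℝ => w.1 j.succ / w.1 0) (hx 1 x, y)
        exact ((continuous_apply j.succ).comp continuous_fst).continuousAt.div hc0.continuousAt hne
    have hM : MapsTo Φ ({w : V (n + 1) × ℝ | w.1 0 ≠ 0} ∩ C.Sr) (XQ f) := by
      rintro ⟨w, s⟩ ⟨h0, hr, hs, hs0, hF⟩
      have h0' : w 0 ≠ 0 := h0
      have hr' : IsRat w := hr
      have hs' : IsQ s := hs
      have hs0' : s ≠ 0 := hs0
      have hF' : C.F w = s ^ 2 := hF
      obtain ⟨r, hr1⟩ : IsQ (s / w 0 ^ 2) := hs'.div ((isRat_iff.1 hr' 0).pow 2)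
      obtain ⟨q, hq1⟩ : IsRat (fun i : Fin n => w i.succ / w 0) :=
        isRat_iff.2 fun i => (isRat_iff.1 hr' i.succ).div (isRat_iff.1 hr' 0)
      have hFe : C.F (hx 1 (fun i : Fin n => w i.succ / w 0)) = (s / w 0 ^ 2) ^ 2 := by
        rw [hg_inv w h0', F_smul, hF']
        field_simp
      refine ⟨r, q, ?_, ?_, ?_⟩
      · intro hr0
        rw [hr0] at hr1
        have h5 : s / w 0 ^ 2 ≠ 0 := div_ne_zero hs0' (pow_ne_zero 2 h0')
        exact h5 (by rw [hr1]; push_cast; rfl)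
      · have h6 : ((r ^ 2 : ℚ) : ℝ) = ((eval q f : ℚ) : ℝ) := by
          rw [← aeval_rv, ← hq1, hC, hFe, hr1]
          push_cast
          rfl
        exact_mod_cast h6
      · show hx (s / w 0 ^ 2) (fun i : Fin n => w i.succ / w 0) = hx (r : ℝ) (rv q)
        rw [hr1, hq1]
    have h5 := (hΦ.continuousWithinAt (s := {w : V (n + 1) × ℝ | w.1 0 ≠ 0} ∩ C.Sr)).mem_closure
      h4 hM
    have h6 : Φ (hx 1 x, y) = hx y x := by
      show hx (y / (1 : ℝ) ^ 2) (fun i : Fin n => x i / (1 : ℝ)) = hx y x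
      congr 1
      · ring
      · funext i
        ring
    rwa [h6] at h5

theorem fc_affine (hC : ∀ x : Fin n → ℝ, (aeval x f : ℝ) = C.F (hx 1 x))
    (h : C.Pieces ∨ C.Opn) (G : MvPolynomial (Fin (n + 1)) ℝ) :
    FC {z | z ∈ closure (XQ f) ∧ z 0 ≠ 0 ∧ eval z G ≠ 0} := by
  obtain ⟨d₁, a₁, b₁, ha₁, hb₁, h₁⟩ := exists_homog C G 1
  obtain ⟨d₂, a₂, b₂, ha₂, hb₂, h₂⟩ := exists_homog C G (-1)
  have key : ∀ (σ : ℝ) (d : ℕ) (a b : V (n + 1) → ℝ), σ ^ 2 = 1 → PolyR (n + 1) a →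
      PolyR (n + 1) b → (∀ z : V (n + 1), z 0 ≠ 0 → 0 ≤ C.F z →
        z 0 ^ d * eval (hx (σ * Real.sqrt (C.F z) / z 0 ^ 2) (fun i : Fin n => z i.succ / z 0)) G =
          a z + b z * Real.sqrt (C.F z)) →
      FC {z | z ∈ closure (XQ f) ∧ 0 < σ * z 0 ∧ eval z G ≠ 0} := by
    intro σ d a b hσ ha hb hab
    have hσ0 : σ ≠ 0 := by
      rintro rfl
      norm_num at hσ
    have hE := fc_sqrt (C := C) h ((PolyR.coord (0 : Fin (n + 1))).mul ha)
      ((PolyR.coord (0 : Fin (n + 1))).mul hb)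
    set E : Set (V (n + 1)) := {x | x ∈ C.Z ∧ 0 < C.F x ∧
      x 0 * a x + x 0 * b x * Real.sqrt (C.F x) ≠ 0} with hEdef
    let Φ : V (n + 1) → V (n + 1) := fun z =>
      hx (σ * Real.sqrt (C.F z) / z 0 ^ 2) (fun i : Fin n => z i.succ / z 0)
    have hE0 : ∀ w ∈ E, w 0 ≠ 0 := by
      rintro w ⟨-, -, hw⟩ h0
      apply hw
      rw [h0]
      ring
    have hΦ : ContinuousOn Φ E := by
      intro w hw
      have hw0 := hE0 w hw
      refine ContinuousAt.continuousWithinAt ?_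
      have hc0 : ContinuousAt (fun z : V (n + 1) => z 0) w := (continuous_apply 0).continuousAt
      refine continuousAt_pi.2 fun i => ?_
      refine Fin.cases ?_ (fun j => ?_) i
      · show ContinuousAt (fun z : V (n + 1) => σ * Real.sqrt (C.F z) / z 0 ^ 2) w
        exact (continuousAt_const.mul
          (Real.continuous_sqrt.comp C.continuous_F).continuousAt).div (hc0.pow 2)
          (pow_ne_zero 2 hw0)
      · show ContinuousAt (fun z : V (n + 1) => z j.succ / z 0) w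
        exact (continuous_apply j.succ).continuousAt.div hc0 hw0
    have hI : {z | z ∈ closure (XQ f) ∧ 0 < σ * z 0 ∧ eval z G ≠ 0} = Φ '' E := by
      ext z
      constructor
      · rintro ⟨hz1, hz2, hz3⟩
        have hz0 : z 0 ≠ 0 := by
          intro h0
          rw [h0, mul_zero] at hz2
          exact lt_irrefl _ hz2
        have hze : z = hx (z 0) (fun i : Fin n => z i.succ) := by
          funext i
          refine Fin.cases ?_ (fun j => ?_) i
          · rfl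
          · rfl
        rw [hze] at hz1
        obtain ⟨h5, h6⟩ := (mem_closure_XQ hC hz0).1 hz1
        set w : V (n + 1) := hx 1 (fun i : Fin n => z i.succ) with hw
        have hwF : 0 < C.F w := by
          rw [← h5]
          positivity
        have hws : Real.sqrt (C.F w) = σ * z 0 := by
          rw [← h5]
          have h7 : z 0 ^ 2 = (σ * z 0) ^ 2 := by
            rw [mul_pow, hσ, one_mul]
          rw [h7, Real.sqrt_sq hz2.le]
        have hΦw : Φ w = z := by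
          rw [hze]
          show hx (σ * Real.sqrt (C.F w) / (1 : ℝ) ^ 2) (fun i : Fin n => z i.succ / (1 : ℝ)) = _
          congr 1
          · rw [hws]
            linear_combination z 0 * hσ
          · funext i
            ring
        refine ⟨w, ⟨h6, hwF, ?_⟩, hΦw⟩
        have h8 := hab w one_ne_zero hwF.le
        have h9 : w 0 = 1 := rfl
        have h10 : eval (Φ w) G = a w + b w * Real.sqrt (C.F w) := by
          rw [← h8]
          show eval (Φ w) G = (1 : ℝ) ^ d * eval (Φ w) G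
          rw [one_pow, one_mul]
        rw [hΦw] at h10
        rw [h9, one_mul, one_mul, ← h10]
        exact hz3
      · rintro ⟨w, hwE, rfl⟩
        have hw0 := hE0 w hwE
        obtain ⟨h5, h6, h7⟩ := hwE
        have hs0 : 0 < Real.sqrt (C.F w) := Real.sqrt_pos.2 h6
        have hy : σ * Real.sqrt (C.F w) / w 0 ^ 2 ≠ 0 :=
          div_ne_zero (mul_ne_zero hσ0 hs0.ne') (pow_ne_zero 2 hw0)
        refine ⟨?_, ?_, ?_⟩
        · refine (mem_closure_XQ hC hy).2 ?_
          rw [hg_inv w hw0]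
          refine ⟨?_, Z_smul h5 (inv_ne_zero hw0)⟩
          rw [F_smul, div_pow, mul_pow, hσ, Real.sq_sqrt h6.le]
          field_simp
        · show 0 < σ * (σ * Real.sqrt (C.F w) / w 0 ^ 2)
          have h8 : σ * (σ * Real.sqrt (C.F w) / w 0 ^ 2) =
              σ ^ 2 * (Real.sqrt (C.F w) / w 0 ^ 2) := by ring
          rw [h8, hσ, one_mul]
          positivity
        · intro h8
          apply h7
          have h9 := hab w hw0 h6.le
          have h10 : eval (Φ w) G = 0 := h8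
          have h11 : a w + b w * Real.sqrt (C.F w) = 0 := by
            rw [← h9]
            show w 0 ^ d * eval (Φ w) G = 0
            rw [h10, mul_zero]
          linear_combination w 0 * h11
    rw [hI]
    exact hE.image hΦ
  have k₁ := key 1 d₁ a₁ b₁ (by norm_num) ha₁ hb₁ h₁
  have k₂ := key (-1) d₂ a₂ b₂ (by norm_num) ha₂ hb₂ h₂
  have e : {z | z ∈ closure (XQ f) ∧ z 0 ≠ 0 ∧ eval z G ≠ 0} =
      {z | z ∈ closure (XQ f) ∧ 0 < (1 : ℝ) * z 0 ∧ eval z G ≠ 0} ∪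
      {z | z ∈ closure (XQ f) ∧ 0 < (-1 : ℝ) * z 0 ∧ eval z G ≠ 0} := by
    ext z
    constructor
    · rintro ⟨h5, h6, h7⟩
      rcases lt_or_gt_of_ne h6 with h8 | h8
      · exact Or.inr ⟨h5, by linarith, h7⟩
      · exact Or.inl ⟨h5, by linarith, h7⟩
    · rintro (⟨h5, h6, h7⟩ | ⟨h5, h6, h7⟩)
      · exact ⟨h5, fun h0 => by rw [h0] at h6; linarith, h7⟩
      · exact ⟨h5, fun h0 => by rw [h0] at h6; linarith, h7⟩
  rw [e]
  exact k₁.union k₂

end Qrt

end Pool.Agent.QS
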