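import Pool.Agent.QS.Clo
import Pool.Agent.QS.Dq

/-!
# QS module M0: if `Z` has no interior points then the osculating forms do not move at the new points

PROOF. Put `ψ(z, s) = c4 (p s) (y s) z = F z - (q (p s) (y s) z z)²`, jointly continuous near `(x, 0)` (`y 0 ≠ 0`).
`ψ(x, 0) = 0`, so `F x = q²`, `q ≠ 0`, `F x > 0`. By `hasDerivAt_q` the derivative of `ψ(x, ·)` at `0` is
`- 2 q (6 / y 0) cc`, `cc = cc (p 0) (y 0) v x`. Suppose `cc ≠ 0`. Then `ψ(x, ·)` changes sign at `0`: for all small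
`ε > 0`, `ψ(x, -ε) ψ(x, ε) < 0`. Choose `ε` and a neighbourhood `W` of `x` such that for `z ∈ W`, `|s| ≤ ε`:
`F z > 0`, `c3 (p s) (y s) z ≠ 0`, `(p s, y s)` is a sheet with `p s ∈ Z` (an open neighbourhood of `(x, 0)` contains a
product neighbourhood), and then shrink `W` so that `ψ(z, -ε) ψ(z, ε) < 0` for `z ∈ W`. `s ↦ ψ(z, s)` is continuous on
`[-ε, ε]`, so it has a zero `s`, and `mem_of_c4` gives `z ∈ Z`. So `W ⊆ Z`, contradiction to `Thin`.
-/

set_option autoImplicit false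

open Set Topology Filter MvPolynomial
open Pool.Agent.MZ

namespace Pool.Agent.QS

namespace Qrt

variable {m : ℕ} {C : Qrt m}

private theorem m0_q {X : Type*} [TopologicalSpace X] {p u v : X → V m} {y : X → ℝ} {x₀ : X}
    (hp : ContinuousAt p x₀) (hy : ContinuousAt y x₀) (hu : ContinuousAt u x₀)
    (hv : ContinuousAt v x₀) (h0 : y x₀ ≠ 0) :
    ContinuousAt (fun z => C.q (p z) (y z) (u z) (v z)) x₀ := by
  unfold q
  exact ((((continuousAt_const.mul (hy.pow 2)).mul (C.continuousAt_comp hp hp hu hv)).sub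
    ((continuousAt_const.mul (C.continuousAt_comp hp hp hp hu)).mul
      (C.continuousAt_comp hp hp hp hv))).div (hy.pow 3) (pow_ne_zero 3 h0))

private theorem m0_c3 {X : Type*} [TopologicalSpace X] {p u : X → V m} {y : X → ℝ} {x₀ : X}
    (hp : ContinuousAt p x₀) (hy : ContinuousAt y x₀) (hu : ContinuousAt u x₀) (h0 : y x₀ ≠ 0) :
    ContinuousAt (fun z => C.c3 (p z) (y z) (u z)) x₀ := by
  unfold c3
  exact (C.continuousAt_comp hp hu hu hu).sub (((C.continuousAt_comp hp hp hp hu).div hy h0).mul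
    (m0_q hp hy hu hu h0))

private theorem m0_c4 {X : Type*} [TopologicalSpace X] {p u : X → V m} {y : X → ℝ} {x₀ : X}
    (hp : ContinuousAt p x₀) (hy : ContinuousAt y x₀) (hu : ContinuousAt u x₀) (h0 : y x₀ ≠ 0) :
    ContinuousAt (fun z => C.c4 (p z) (y z) (u z)) x₀ := by
  unfold c4
  exact (C.continuousAt_comp hu hu hu hu).sub ((m0_q hp hy hu hu h0).pow 2)

theorem thin_deriv (hT : C.Thin) {p : ℝ → V m} {y : ℝ → ℝ} {v : V m} {y' : ℝ}
    (hpc : Continuous p) (hyc : Continuous y) (hp : HasDerivAt p v 0) (hy : HasDerivAt y y' 0)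
    (hS : ∀ᶠ s in 𝓝 (0 : ℝ), C.Sh (p s) (y s) ∧ p s ∈ C.Z) {x : V m}
    (h4 : C.c4 (p 0) (y 0) x = 0) (h3 : C.c3 (p 0) (y 0) x ≠ 0) (hF : C.F x ≠ 0) :
    C.cc (p 0) (y 0) v x = 0 := by
  by_contra hcc
  have hS0 := hS.self_of_nhds
  have hy0 : y 0 ≠ 0 := hS0.1.1
  have hFx : C.F x = (C.q (p 0) (y 0) x x) ^ 2 := by
    unfold c4 at h4
    linarith
  have hQ0 : C.q (p 0) (y 0) x x ≠ 0 := by
    intro h
    apply hF
    rw [hFx, h]
    norm_num
  have hFpos : 0 < C.F x := by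
    rw [hFx]
    positivity
  have hD : HasDerivAt (fun s => C.c4 (p s) (y s) x)
      (-(2 * C.q (p 0) (y 0) x x * (6 / y 0 * C.cc (p 0) (y 0) v x))) 0 := by
    have h1 := hasDerivAt_q hp hy (hS.mono fun s hs => hs.1) x
    have h2 := (h1.fun_pow 2).const_sub (C.F x)
    refine h2.congr_deriv ?_
    norm_num
  obtain ⟨D, hDdef⟩ : ∃ D, D = -(2 * C.q (p 0) (y 0) x x * (6 / y 0 * C.cc (p 0) (y 0) v x)) :=
    ⟨_, rfl⟩
  rw [← hDdef] at hD
  have hD0 : D ≠ 0 := by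
    rw [hDdef]
    refine neg_ne_zero.2 (mul_ne_zero (mul_ne_zero two_ne_zero hQ0) (mul_ne_zero ?_ hcc))
    exact div_ne_zero (by norm_num) hy0
  have hev : ∀ᶠ w : V m × ℝ in 𝓝 (x, (0 : ℝ)), 0 < C.F w.1 ∧ C.c3 (p w.2) (y w.2) w.1 ≠ 0 ∧
      C.Sh (p w.2) (y w.2) ∧ p w.2 ∈ C.Z := by
    have e1 : ∀ᶠ w : V m × ℝ in 𝓝 (x, (0 : ℝ)), 0 < C.F w.1 :=
      (C.continuous_F.comp continuous_fst).continuousAt.eventually (lt_mem_nhds hFpos)
    have e2 : ∀ᶠ w : V m × ℝ in 𝓝 (x, (0 : ℝ)), C.c3 (p w.2) (y w.2) w.1 ≠ 0 := by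
      have h5 : ContinuousAt (fun w : V m × ℝ => C.c3 (p w.2) (y w.2) w.1) (x, (0 : ℝ)) :=
        m0_c3 (hpc.comp continuous_snd).continuousAt (hyc.comp continuous_snd).continuousAt
          continuous_fst.continuousAt hy0
      exact h5.eventually_ne h3
    have e3 : ∀ᶠ w : V m × ℝ in 𝓝 (x, (0 : ℝ)), C.Sh (p w.2) (y w.2) ∧ p w.2 ∈ C.Z :=
      (continuous_snd.continuousAt (x := (x, (0 : ℝ)))).eventually hS
    filter_upwards [e1, e2, e3] with w h1 h2 h3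
    exact ⟨h1, h2, h3⟩
  rw [nhds_prod_eq] at hev
  obtain ⟨pa, hpa, pb, hpb, hab⟩ := Filter.eventually_prod_iff.1 hev
  obtain ⟨δ, hδ, hδb⟩ := Metric.eventually_nhds_iff.1 hpb
  have hsl := hD.tendsto_slope_zero.const_mul D
  have hDD : 0 < D * D := mul_self_pos.2 hD0
  have hev2 := hsl.eventually (lt_mem_nhds hDD)
  rw [eventually_nhdsWithin_iff] at hev2
  obtain ⟨δ', hδ', hδb'⟩ := Metric.eventually_nhds_iff.1 hev2
  obtain ⟨ε, hε, hε1, hε2⟩ : ∃ ε : ℝ, 0 < ε ∧ ε < δ ∧ ε < δ' := by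
    refine ⟨min δ δ' / 2, by positivity, ?_, ?_⟩
    · have := min_le_left δ δ'
      have h0 : 0 < min δ δ' := lt_min hδ hδ'
      linarith
    · have := min_le_right δ δ'
      have h0 : 0 < min δ δ' := lt_min hδ hδ'
      linarith
  have h5 : 0 < D * C.c4 (p ε) (y ε) x := by
    have h6 := hδb' (y := ε) (by rw [Real.dist_eq, sub_zero, abs_of_pos hε]; exact hε2) hε.ne'
    simp only [zero_add, h4, sub_zero, smul_eq_mul] at h6
    have h7 : D * C.c4 (p ε) (y ε) x = ε * (D * (ε⁻¹ * C.c4 (p ε) (y ε) x)) := by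
      field_simp
    rw [h7]
    exact mul_pos hε h6
  have h5' : D * C.c4 (p (-ε)) (y (-ε)) x < 0 := by
    have h6 := hδb' (y := -ε) (by rw [Real.dist_eq, sub_zero, abs_neg, abs_of_pos hε]; exact hε2)
      (neg_ne_zero.2 hε.ne')
    simp only [zero_add, h4, sub_zero, smul_eq_mul] at h6
    have h7 : D * C.c4 (p (-ε)) (y (-ε)) x = -(ε * (D * ((-ε)⁻¹ * C.c4 (p (-ε)) (y (-ε)) x))) := by
      field_simp
    rw [h7]
    exact neg_neg_of_pos (mul_pos hε h6)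
  have g1 : ∀ᶠ z in 𝓝 x, 0 < D * C.c4 (p ε) (y ε) z :=
    ((C.polyR_c4 (p ε) (y ε)).continuous.const_mul D).continuousAt.eventually (lt_mem_nhds h5)
  have g2 : ∀ᶠ z in 𝓝 x, D * C.c4 (p (-ε)) (y (-ε)) z < 0 :=
    ((C.polyR_c4 (p (-ε)) (y (-ε))).continuous.const_mul D).continuousAt.eventually
      (gt_mem_nhds h5')
  refine hT x hFpos ?_
  filter_upwards [hpa, g1, g2] with z hz hz1 hz2
  have hlt : ∀ s ∈ Icc (-ε) ε, pb s := fun s hs => hδb (by
    rw [Real.dist_eq, sub_zero, abs_lt]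
    constructor
    · linarith [hs.1]
    · linarith [hs.2])
  have hcont : ContinuousOn (fun s => D * C.c4 (p s) (y s) z) (Icc (-ε) ε) := by
    intro s hs
    have h6 := (hab hz (hlt s hs)).2.2.1.1
    exact (continuousAt_const.mul (m0_c4 hpc.continuousAt hyc.continuousAt continuousAt_const
      h6)).continuousWithinAt
  have hivt := intermediate_value_Icc (by linarith : -ε ≤ ε) hcont
  obtain ⟨s, hs, hs0⟩ := hivt ⟨hz2.le, hz1.le⟩
  have h6 := hab hz (hlt s hs)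
  have h7 : C.c4 (p s) (y s) z = 0 := by
    rcases mul_eq_zero.1 hs0 with h | h
    · exact absurd h hD0
    · exact h
  exact mem_of_c4 h6.2.2.1 h6.2.2.2 h7 h6.2.1 h6.1.ne'

end Qrt

end Pool.Agent.QS
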