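import Pool.Agent.QS.M0
import Pool.Agent.QS.TyII

/-!
# QS module M1: if `Z` has no interior points then the osculating form is constant along the new points

Notation: `P x = xp p y x`, `yy x = q p y (P x) (P x)`.

PROOF. `Θ = {x | c3 p y x ≠ 0, yy x ≠ 0}` is open (polynomial functions, `polyR_c3`, `polyR_q_xp`) and nonempty
(`Good`). For `x ∈ Θ`: `P x ∈ Z` (`xp_mem`) and `(P x, yy x)` is a sheet (`F_xp`).
CLAIM: there is a ball `B ⊆ Θ` such that for all `θ ∈ B`, all `ω` and all `x`: `cc (P θ) (yy θ) v x = 0`, where `v` is the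
derivative at `0` of `t ↦ P (θ + t • ω)` (it exists: the coordinates are polynomials in `t`, `polyR_xp`; a
polynomial function is differentiable). Given the claim: for `θ₀` the centre and `θ ∈ B` the function
`t ↦ q (P (θ₀ + t (θ - θ₀))) (yy ..) x x` has derivative `0` on `[0, 1]` (`hasDerivAt_q`), so it is constant.
PROOF OF THE CLAIM.
(a) Suppose `Good (P θ) (yy θ)` for some `θ ∈ Θ`: there is `z` with `c3 (P θ) (yy θ) z ≠ 0`, `q .. (xp .. z) (xp .. z) ≠ 0`.
For this `z` both conditions hold for all `θ'` in a ball `B ⊆ Θ` around `θ` (continuity). For `θ' ∈ B` and every `x` with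
`c3 (P θ') (yy θ') x ≠ 0` and `q .. (xp x) (xp x) ≠ 0` put `x₀ = xp (P θ') (yy θ') x`: `c4 x₀ = 0` (`c4_xp`), `c3 x₀ ≠ 0`
(`c3_xp`), `F x₀ = q²≠ 0` (`F_xp`), so `thin_deriv` with `p s = P (θ' + s • ω)`, `y s = yy (θ' + s • ω)` gives
`cc (P θ') (yy θ') v x₀ = 0`, and `cc_xp` gives `cc .. v x = 0`. These `x` are dense (`PolyR.dense_ne`, the product is a
polynomial function, not zero at `z`), `cc .. v x` is continuous in `x`, so it is `0` for all `x`.
(b) Otherwise `Good` fails for all `θ ∈ Θ`. By `not_good`, for each `θ ∈ Θ` either `c3 (P θ) (yy θ) = 0` identically or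
`q (xp x) (xp x) = 0` for all `x`.
(b1) If `c3 (P θ) (yy θ) z ≠ 0` for some `θ ∈ Θ` and some `z`: this holds on a ball `B₁ ⊆ Θ`. By `type2` for `θ ∈ B₁` there is
a linear form `b` with `q (P θ) (yy θ) x x = 0` and `F x = 0` for `b x = 0`; `F p = y² ≠ 0`, so `b p ≠ 0` and we may
normalize `b p = 1`. Then `b` is in the finite set of `finite_lin` (`e = p`). So `B₁` is the union of the finitely many
relatively closed sets `{θ | ∀ x, b x = 0 → q (P θ) (yy θ) x x = 0}`; one of them contains a ball `B` (Baire, or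
`interior` of a finite union of closed sets in `B₁`, e.g. induction: if it contains no ball, remove it). For `θ ∈ B`, `ω`
and `x` with `b x = 0`: `t ↦ q (P (θ + t ω)) .. x x` is `0` near `0`, so by `hasDerivAt_q` `cc (P θ) (yy θ) v x = 0`. For
general `x`: `b (P θ) ≠ 0` because `F (P θ) = (yy θ)² ≠ 0`; `x₀ = x - (b x / b (P θ)) • P θ` has `b x₀ = 0` and
`cc .. v x = cc .. v x₀ = 0` (`cc_add`).
(b2) If `c3 (P θ) (yy θ) = 0` identically for all `θ ∈ Θ`: `cc_of_c3`, any ball in `Θ`.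
-/

set_option autoImplicit false

open Set Topology Filter MvPolynomial
open Pool.Agent.MZ

namespace Pool.Agent.QS

namespace Qrt

variable {m : ℕ} {C : Qrt m} {p : V m} {y : ℝ}

private theorem m1_q {X : Type*} [TopologicalSpace X] {p u v : X → V m} {y : X → ℝ} {x₀ : X}
    (hp : ContinuousAt p x₀) (hy : ContinuousAt y x₀) (hu : ContinuousAt u x₀)
    (hv : ContinuousAt v x₀) (h0 : y x₀ ≠ 0) :
    ContinuousAt (fun z => C.q (p z) (y z) (u z) (v z)) x₀ := by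
  unfold q
  exact ((((continuousAt_const.mul (hy.pow 2)).mul (C.continuousAt_comp hp hp hu hv)).sub
    ((continuousAt_const.mul (C.continuousAt_comp hp hp hp hu)).mul
      (C.continuousAt_comp hp hp hp hv))).div (hy.pow 3) (pow_ne_zero 3 h0))

private theorem m1_c3 {X : Type*} [TopologicalSpace X] {p u : X → V m} {y : X → ℝ} {x₀ : X}
    (hp : ContinuousAt p x₀) (hy : ContinuousAt y x₀) (hu : ContinuousAt u x₀) (h0 : y x₀ ≠ 0) :
    ContinuousAt (fun z => C.c3 (p z) (y z) (u z)) x₀ := by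
  unfold c3
  exact (C.continuousAt_comp hp hu hu hu).sub (((C.continuousAt_comp hp hp hp hu).div hy h0).mul
    (m1_q hp hy hu hu h0))

private theorem m1_c4 {X : Type*} [TopologicalSpace X] {p u : X → V m} {y : X → ℝ} {x₀ : X}
    (hp : ContinuousAt p x₀) (hy : ContinuousAt y x₀) (hu : ContinuousAt u x₀) (h0 : y x₀ ≠ 0) :
    ContinuousAt (fun z => C.c4 (p z) (y z) (u z)) x₀ := by
  unfold c4
  exact (C.continuousAt_comp hu hu hu hu).sub ((m1_q hp hy hu hu h0).pow 2)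

private theorem m1_xp {X : Type*} [TopologicalSpace X] {p u : X → V m} {y : X → ℝ} {x₀ : X}
    (hp : ContinuousAt p x₀) (hy : ContinuousAt y x₀) (hu : ContinuousAt u x₀) (h0 : y x₀ ≠ 0) :
    ContinuousAt (fun z => C.xp (p z) (y z) (u z)) x₀ := by
  unfold xp
  exact ((continuousAt_const.mul (m1_c3 hp hy hu h0)).smul hu).sub
    ((m1_c4 hp hy hu h0).smul hp)

private theorem m1_P (C : Qrt m) (p : V m) (y : ℝ) : Continuous fun x => C.xp p y x :=
  continuous_pi fun i => (C.polyR_xp p y i).continuous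

private theorem m1_Y (C : Qrt m) (p : V m) (y : ℝ) :
    Continuous fun x => C.q p y (C.xp p y x) (C.xp p y x) := (C.polyR_q_xp p y).continuous

private theorem m1_line (θ ω : V m) : Continuous fun t : ℝ => θ + t • ω := by fun_prop

private theorem m1_polyR {f : V m → ℝ} (hf : PolyR m f) (θ ω : V m) :
    ∃ f' : ℝ, HasDerivAt (fun t : ℝ => f (θ + t • ω)) f' 0 := by
  obtain ⟨G, hG⟩ := hf
  have h : f = fun x => eval x G := funext fun x => (hG x).symm
  rw [h]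
  clear h hG
  show ∃ f' : ℝ, HasDerivAt (fun t : ℝ => eval (θ + t • ω) G) f' 0
  induction G using MvPolynomial.induction_on with
  | C a =>
    refine ⟨0, ?_⟩
    simp only [eval_C]
    exact hasDerivAt_const _ _
  | add P Q hP hQ =>
    obtain ⟨a, ha⟩ := hP
    obtain ⟨b, hb⟩ := hQ
    refine ⟨a + b, ?_⟩
    simp only [map_add]
    exact ha.add hb
  | mul_X P i hP =>
    obtain ⟨a, ha⟩ := hP
    have hc : HasDerivAt (fun t : ℝ => (θ + t • ω) i) (ω i) 0 := by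
      have h1 : (fun t : ℝ => (θ + t • ω) i) = fun t : ℝ => θ i + t * ω i := by
        funext t
        rw [Pi.add_apply, Pi.smul_apply, smul_eq_mul]
      rw [h1]
      simpa using ((hasDerivAt_id (0 : ℝ)).mul_const (ω i)).const_add (θ i)
    refine ⟨a * (θ + (0 : ℝ) • ω) i + eval (θ + (0 : ℝ) • ω) P * ω i, ?_⟩
    simp only [map_mul, eval_X]
    exact ha.mul hc

/-- `v` is the derivative of `x ↦ xp p y x` at `θ` in the direction `ω` -/
theorem exists_deriv_xp (p : V m) (y : ℝ) (θ ω : V m) :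
    ∃ (v : V m) (y' : ℝ), HasDerivAt (fun t : ℝ => C.xp p y (θ + t • ω)) v 0 ∧
      HasDerivAt (fun t : ℝ => C.q p y (C.xp p y (θ + t • ω)) (C.xp p y (θ + t • ω))) y' 0 := by
  choose v hv using fun i => m1_polyR (C.polyR_xp p y i) θ ω
  obtain ⟨y', hy'⟩ := m1_polyR (C.polyR_q_xp p y) θ ω
  exact ⟨v, y', hasDerivAt_pi.2 hv, hy'⟩

/-- the new points are sheets -/
private theorem m1_sh (h : C.Sh p y) {θ : V m} (hY : C.q p y (C.xp p y θ) (C.xp p y θ) ≠ 0) :
    C.Sh (C.xp p y θ) (C.q p y (C.xp p y θ) (C.xp p y θ)) := ⟨hY, F_xp h θ⟩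

private theorem m1_open (C : Qrt m) (p : V m) (y : ℝ) :
    IsOpen {θ | C.c3 p y θ ≠ 0 ∧ C.q p y (C.xp p y θ) (C.xp p y θ) ≠ 0} :=
  (isOpen_ne_fun (C.polyR_c3 p y).continuous continuous_const).inter
    (isOpen_ne_fun (m1_Y C p y) continuous_const)

private theorem m1_sheets (h : C.Sh p y) {θ ω : V m}
    (hY : C.q p y (C.xp p y θ) (C.xp p y θ) ≠ 0) :
    ∀ᶠ s in 𝓝 (0 : ℝ), C.Sh (C.xp p y (θ + s • ω))
      (C.q p y (C.xp p y (θ + s • ω)) (C.xp p y (θ + s • ω))) := by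
  have h1 : Continuous fun s : ℝ => C.q p y (C.xp p y (θ + s • ω)) (C.xp p y (θ + s • ω)) :=
    (m1_Y C p y).comp (m1_line θ ω)
  have h2 : (fun s : ℝ => C.q p y (C.xp p y (θ + s • ω)) (C.xp p y (θ + s • ω))) 0 ≠ 0 := by
    simpa using hY
  filter_upwards [h1.continuousAt.eventually_ne h2] with s hs
  exact m1_sh h hs

/-- case (a) for a fixed parameter -/
private theorem m1_a (hT : C.Thin) (h : C.Sh p y) (hp : p ∈ C.Z) {θ : V m}
    (hY : C.q p y (C.xp p y θ) (C.xp p y θ) ≠ 0)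
    (hG : C.Good (C.xp p y θ) (C.q p y (C.xp p y θ) (C.xp p y θ))) (ω v : V m)
    (hv : HasDerivAt (fun t : ℝ => C.xp p y (θ + t • ω)) v 0) (x : V m) :
    C.cc (C.xp p y θ) (C.q p y (C.xp p y θ) (C.xp p y θ)) v x = 0 := by
  obtain ⟨_, y', _, hy'⟩ := exists_deriv_xp (C := C) p y θ ω
  obtain ⟨P, hP⟩ : ∃ P, P = C.xp p y θ := ⟨_, rfl⟩
  obtain ⟨Y, hYY⟩ : ∃ Y, Y = C.q p y (C.xp p y θ) (C.xp p y θ) := ⟨_, rfl⟩
  have hsh : C.Sh P Y := by
    rw [hP, hYY]
    exact m1_sh h hY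
  rw [← hYY, ← hP] at hG ⊢
  have hY0 : Y ≠ 0 := hsh.1
  -- the good directions
  have hgood : ∀ x, C.c3 P Y x * C.q P Y (C.xp P Y x) (C.xp P Y x) ≠ 0 → C.cc P Y v x = 0 := by
    intro x hx
    have h3 : C.c3 P Y x ≠ 0 := left_ne_zero_of_mul hx
    have hq : C.q P Y (C.xp P Y x) (C.xp P Y x) ≠ 0 := right_ne_zero_of_mul hx
    have hYP : C.q p y P P = Y := by rw [hYY, hP]
    have key := thin_deriv hT (p := fun s : ℝ => C.xp p y (θ + s • ω))
      (y := fun s : ℝ => C.q p y (C.xp p y (θ + s • ω)) (C.xp p y (θ + s • ω)))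
      ((m1_P C p y).comp (m1_line θ ω)) ((m1_Y C p y).comp (m1_line θ ω)) hv hy'
      ((m1_sheets h hY).mono fun s hs => ⟨hs, xp_mem h hp hs.1⟩) (x := C.xp P Y x)
      (by
        simp only [zero_smul, add_zero, ← hP, hYP]
        exact c4_xp hsh x)
      (by
        simp only [zero_smul, add_zero, ← hP, hYP]
        rw [c3_xp hsh]
        exact mul_ne_zero (pow_ne_zero 3 (mul_ne_zero (by norm_num) h3)) h3)
      (by
        rw [F_xp hsh]
        exact pow_ne_zero 2 hq)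
    simp only [zero_smul, add_zero, ← hP, hYP] at key
    rw [cc_xp hsh] at key
    rcases mul_eq_zero.1 key with h5 | h5
    · exact absurd h5 (pow_ne_zero 2 (mul_ne_zero (by norm_num) h3))
    · exact h5
  obtain ⟨z, hz1, hz2⟩ := hG
  have hdense : Dense {x | C.c3 P Y x * C.q P Y (C.xp P Y x) (C.xp P Y x) ≠ 0} :=
    ((C.polyR_c3 P Y).mul (C.polyR_q_xp P Y)).dense_ne ⟨z, mul_ne_zero hz1 hz2⟩
  have hcont : Continuous fun x => C.cc P Y v x := by
    rw [continuous_iff_continuousAt]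
    intro x
    have c1 : ContinuousAt (fun _ : V m => P) x := continuousAt_const
    have c2 : ContinuousAt (fun _ : V m => Y) x := continuousAt_const
    have c3' : ContinuousAt (fun _ : V m => v) x := continuousAt_const
    have c4' : ContinuousAt (fun x : V m => x) x := continuousAt_id
    unfold cc
    exact (C.continuousAt_comp c1 c3' c4' c4').sub
      (((((m1_q c1 c2 c1 c3' hY0).mul (m1_q c1 c2 c4' c4' hY0))).add
        ((continuousAt_const.mul (m1_q c1 c2 c1 c4' hY0)).mul (m1_q c1 c2 c3' c4' hY0))).div_const 3)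
  have hcl : IsClosed {x | C.cc P Y v x = 0} := isClosed_eq hcont continuous_const
  have : x ∈ closure {x | C.c3 P Y x * C.q P Y (C.xp P Y x) (C.xp P Y x) ≠ 0} := hdense x
  exact closure_minimal (fun x hx => hgood x hx) hcl this

/-- the numerator of the osculating form at the new points -/
private theorem m1_num (C : Qrt m) (p : V m) (y : ℝ) (x : V m) : PolyR m fun θ =>
    3 * (C.q p y (C.xp p y θ) (C.xp p y θ)) ^ 2 * C.T (C.xp p y θ) (C.xp p y θ) x x -
      2 * C.T (C.xp p y θ) (C.xp p y θ) (C.xp p y θ) x *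
        C.T (C.xp p y θ) (C.xp p y θ) (C.xp p y θ) x := by
  have hY := C.polyR_q_xp p y
  have hP := fun i => C.polyR_xp p y i
  have hx : ∀ i, PolyR m fun _ : V m => x i := fun i => PolyR.const _
  have h1 := ((((PolyR.const (m := m) 3).mul (hY.mul hY)).mul (C.polyR_T hP hP hx hx))).sub
    (((PolyR.const (m := m) 2).mul (C.polyR_T hP hP hP hx)).mul (C.polyR_T hP hP hP hx))
  have e : (fun θ => 3 * (C.q p y (C.xp p y θ) (C.xp p y θ)) ^ 2 *
      C.T (C.xp p y θ) (C.xp p y θ) x x -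
      2 * C.T (C.xp p y θ) (C.xp p y θ) (C.xp p y θ) x *
        C.T (C.xp p y θ) (C.xp p y θ) (C.xp p y θ) x) = fun θ =>
      3 * (C.q p y (C.xp p y θ) (C.xp p y θ) * C.q p y (C.xp p y θ) (C.xp p y θ)) *
      C.T (C.xp p y θ) (C.xp p y θ) x x -
      2 * C.T (C.xp p y θ) (C.xp p y θ) (C.xp p y θ) x *
        C.T (C.xp p y θ) (C.xp p y θ) (C.xp p y θ) x := by
    funext θ
    rw [sq]
  rw [e]
  exact h1

/-- case (b1): one linear form for all parameters -/
private theorem m1_b1 (h : C.Sh p y) {W : Set (V m)} (hW : IsOpen W) (hne : W.Nonempty)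
    (hWY : ∀ θ ∈ W, C.q p y (C.xp p y θ) (C.xp p y θ) ≠ 0)
    (hb : ∀ θ ∈ W, ∃ b ∈ {b : V m →ₗ[ℝ] ℝ | b p = 1 ∧ ∀ x, b x = 0 → C.F x = 0},
      ∀ x, b x = 0 → C.q (C.xp p y θ) (C.q p y (C.xp p y θ) (C.xp p y θ)) x x = 0) :
    ∃ b ∈ {b : V m →ₗ[ℝ] ℝ | b p = 1 ∧ ∀ x, b x = 0 → C.F x = 0}, ∀ θ x, b x = 0 →
      C.q (C.xp p y θ) (C.q p y (C.xp p y θ) (C.xp p y θ)) x x = 0 := by
  set 𝓕 := {b : V m →ₗ[ℝ] ℝ | b p = 1 ∧ ∀ x, b x = 0 → C.F x = 0} with h𝓕
  have hfin : 𝓕.Finite := finite_lin h.pos.ne'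
  set N : V m → V m → ℝ := fun x θ =>
    3 * (C.q p y (C.xp p y θ) (C.xp p y θ)) ^ 2 * C.T (C.xp p y θ) (C.xp p y θ) x x -
      2 * C.T (C.xp p y θ) (C.xp p y θ) (C.xp p y θ) x *
        C.T (C.xp p y θ) (C.xp p y θ) (C.xp p y θ) x with hN
  have hNR : ∀ x, PolyR m (N x) := fun x => m1_num C p y x
  have hq : ∀ θ x, C.q (C.xp p y θ) (C.q p y (C.xp p y θ) (C.xp p y θ)) x x =
      N x θ / (C.q p y (C.xp p y θ) (C.xp p y θ)) ^ 3 := fun θ x => rfl
  by_contra hcon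
  push Not at hcon
  choose! θ₁ x₁ h1 h2 using hcon
  have hN1 : ∀ b ∈ 𝓕, ∃ θ, N (x₁ b) θ ≠ 0 := by
    intro b hb'
    refine ⟨θ₁ b, fun h0 => h2 b hb' ?_⟩
    rw [hq, h0, zero_div]
  have hd : Dense (⋂ b ∈ 𝓕, {θ | N (x₁ b) θ ≠ 0}) := by
    refine dense_biInter_of_isOpen (fun b _ => ?_) hfin.countable (fun b hb' => ?_)
    · exact isOpen_ne_fun (hNR _).continuous continuous_const
    · exact (hNR _).dense_ne (hN1 b hb')
  obtain ⟨θ, hθW, hθ⟩ := hd.inter_open_nonempty W hW hne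
  obtain ⟨b, hb1, hb2⟩ := hb θ hθW
  have h3 := hb2 (x₁ b) (h1 b hb1)
  rw [hq] at h3
  rcases div_eq_zero_iff.1 h3 with h4 | h4
  · exact (mem_iInter₂.1 hθ b hb1) h4
  · exact hWY θ hθW (pow_eq_zero_iff (three_ne_zero)|>.1 h4)

/-- the claim -/
theorem cc_ball (hT : C.Thin) (h : C.Sh p y) (hp : p ∈ C.Z) (hg : C.Good p y) :
    ∃ (θ₀ : V m) (ε : ℝ), 0 < ε ∧ ∀ θ ∈ Metric.ball θ₀ ε, C.c3 p y θ ≠ 0 ∧
      C.q p y (C.xp p y θ) (C.xp p y θ) ≠ 0 ∧ ∀ ω v, HasDerivAt (fun t : ℝ =>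
        C.xp p y (θ + t • ω)) v 0 → ∀ x,
          C.cc (C.xp p y θ) (C.q p y (C.xp p y θ) (C.xp p y θ)) v x = 0 := by
  set Θ : Set (V m) := {θ | C.c3 p y θ ≠ 0 ∧ C.q p y (C.xp p y θ) (C.xp p y θ) ≠ 0} with hΘ
  have hΘo : IsOpen Θ := m1_open C p y
  by_cases ha : ∃ θ ∈ Θ, C.Good (C.xp p y θ) (C.q p y (C.xp p y θ) (C.xp p y θ))
  · obtain ⟨θ, hθ, z, hz1, hz2⟩ := ha
    have cP : ContinuousAt (fun θ => C.xp p y θ) θ := (m1_P C p y).continuousAt
    have cY : ContinuousAt (fun θ => C.q p y (C.xp p y θ) (C.xp p y θ)) θ :=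
      (m1_Y C p y).continuousAt
    have cz : ContinuousAt (fun _ : V m => z) θ := continuousAt_const
    have e1 := (m1_c3 cP cY cz hθ.2).eventually_ne hz1
    have e2 := (m1_q cP cY (m1_xp cP cY cz hθ.2) (m1_xp cP cY cz hθ.2) hθ.2).eventually_ne hz2
    have e3 := hΘo.mem_nhds hθ
    obtain ⟨ε, hε, hball⟩ := Metric.mem_nhds_iff.1 (Filter.inter_mem e3 (Filter.inter_mem e1 e2))
    refine ⟨θ, ε, hε, fun θ' hθ' => ?_⟩
    obtain ⟨h1, h2, h3⟩ := hball hθ'
    exact ⟨h1.1, h1.2, fun ω v hv x => m1_a hT h hp h1.2 ⟨z, h2, h3⟩ ω v hv x⟩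
  · push Not at ha
    by_cases hb : ∃ θ ∈ Θ, ∃ z, C.c3 (C.xp p y θ) (C.q p y (C.xp p y θ) (C.xp p y θ)) z ≠ 0
    · obtain ⟨θ, hθ, z, hz⟩ := hb
      have cP : ContinuousAt (fun θ => C.xp p y θ) θ := (m1_P C p y).continuousAt
      have cY : ContinuousAt (fun θ => C.q p y (C.xp p y θ) (C.xp p y θ)) θ :=
        (m1_Y C p y).continuousAt
      have cz : ContinuousAt (fun _ : V m => z) θ := continuousAt_const
      have e1 := (m1_c3 cP cY cz hθ.2).eventually_ne hz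
      have e3 := hΘo.mem_nhds hθ
      obtain ⟨ε, hε, hball⟩ := Metric.mem_nhds_iff.1 (Filter.inter_mem e3 e1)
      obtain ⟨b, hb1, hb2⟩ := m1_b1 h (Metric.isOpen_ball (x := θ) (ε := ε))
        ⟨θ, Metric.mem_ball_self hε⟩ (fun θ' hθ' => (hball hθ').1.2) (by
          intro θ' hθ'
          obtain ⟨h1, h2⟩ := hball hθ'
          have hsh := m1_sh h h1.2
          rcases not_good (ha θ' h1) with h3 | h3
          · exact absurd (h3 z) h2
          · obtain ⟨b, hb1, hb2, hb3⟩ := type2 hsh ⟨z, h2⟩ h3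
            have hbp : b p ≠ 0 := fun h0 => h.pos.ne' (hb3 p h0).2
            have hker : ∀ x, ((b p)⁻¹ • b) x = 0 → b x = 0 := by
              intro x hx
              rw [LinearMap.smul_apply, smul_eq_mul] at hx
              exact (mul_eq_zero.1 hx).resolve_left (inv_ne_zero hbp)
            refine ⟨(b p)⁻¹ • b, ⟨?_, fun x hx => (hb3 x (hker x hx)).2⟩,
              fun x hx => (hb3 x (hker x hx)).1⟩
            rw [LinearMap.smul_apply, smul_eq_mul, inv_mul_cancel₀ hbp])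
      refine ⟨θ, ε, hε, fun θ' hθ' => ?_⟩
      obtain ⟨h1, h2⟩ := hball hθ'
      refine ⟨h1.1, h1.2, fun ω v hv x => ?_⟩
      obtain ⟨_, y', _, hy'⟩ := exists_deriv_xp (C := C) p y θ' ω
      have hsh := m1_sh h h1.2
      have hker : ∀ x, b x = 0 →
          C.cc (C.xp p y θ') (C.q p y (C.xp p y θ') (C.xp p y θ')) v x = 0 := by
        intro x hx
        have h4 := hasDerivAt_q hv hy' (m1_sheets h h1.2) x
        simp only [hb2 _ x hx, zero_smul, add_zero] at h4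
        have h5 := h4.unique (hasDerivAt_const (0 : ℝ) (0 : ℝ))
        rcases mul_eq_zero.1 h5 with h6 | h6
        · exact absurd h6 (div_ne_zero (by norm_num) h1.2)
        · exact h6
      have hbP : b (C.xp p y θ') ≠ 0 := fun h0 => hsh.pos.ne' (hb1.2 _ h0)
      have h7 := hker (x + (-(b x / b (C.xp p y θ'))) • C.xp p y θ') (by
        rw [map_add, map_smul, smul_eq_mul]
        field_simp
        ring)
      rwa [cc_add hsh] at h7
    · push Not at hb
      obtain ⟨θ, hθ⟩ := hg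
      have e3 := hΘo.mem_nhds (show θ ∈ Θ from hθ)
      obtain ⟨ε, hε, hball⟩ := Metric.mem_nhds_iff.1 e3
      refine ⟨θ, ε, hε, fun θ' hθ' => ?_⟩
      have h1 := hball hθ'
      exact ⟨h1.1, h1.2, fun ω v _ x => cc_of_c3 (m1_sh h h1.2) (hb θ' h1) v x⟩

theorem const_q (hT : C.Thin) (h : C.Sh p y) (hp : p ∈ C.Z) (hg : C.Good p y) :
    ∃ (θ₀ : V m) (ε : ℝ), 0 < ε ∧ ∀ θ ∈ Metric.ball θ₀ ε, C.c3 p y θ ≠ 0 ∧
      C.q p y (C.xp p y θ) (C.xp p y θ) ≠ 0 ∧ ∀ x,
        C.q (C.xp p y θ) (C.q p y (C.xp p y θ) (C.xp p y θ)) x x =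
          C.q (C.xp p y θ₀) (C.q p y (C.xp p y θ₀) (C.xp p y θ₀)) x x := by
  obtain ⟨θ₀, ε, hε, hball⟩ := cc_ball hT h hp hg
  refine ⟨θ₀, ε, hε, fun θ hθ => ⟨(hball θ hθ).1, (hball θ hθ).2.1, fun x => ?_⟩⟩
  obtain ⟨ω, hω⟩ : ∃ ω, ω = θ - θ₀ := ⟨_, rfl⟩
  have hmem : ∀ t ∈ Icc (0 : ℝ) 1, θ₀ + t • ω ∈ Metric.ball θ₀ ε := by
    intro t ht
    rw [Metric.mem_ball, dist_eq_norm, add_sub_cancel_left, norm_smul, Real.norm_eq_abs,
      abs_of_nonneg ht.1]
    rw [Metric.mem_ball, dist_eq_norm, ← hω] at hθ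
    have := norm_nonneg ω
    nlinarith [ht.2]
  have hder : ∀ t ∈ Icc (0 : ℝ) 1, HasDerivAt (fun t : ℝ =>
      C.q (C.xp p y (θ₀ + t • ω)) (C.q p y (C.xp p y (θ₀ + t • ω)) (C.xp p y (θ₀ + t • ω))) x x)
      0 t := by
    intro t ht
    obtain ⟨h1, h2, h3⟩ := hball _ (hmem t ht)
    obtain ⟨v, y', hv, hy'⟩ := exists_deriv_xp (C := C) p y (θ₀ + t • ω) ω
    have h4 := hasDerivAt_q hv hy' (m1_sheets h h2) x
    simp only [zero_smul, add_zero] at h4
    rw [h3 ω v hv x, mul_zero] at h4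
    have h5 : HasDerivAt (fun s : ℝ => C.q (C.xp p y (θ₀ + t • ω + s • ω))
        (C.q p y (C.xp p y (θ₀ + t • ω + s • ω)) (C.xp p y (θ₀ + t • ω + s • ω))) x x) 0 (t - t) := by
      rw [sub_self]
      exact h4
    have h6 := h5.comp_sub_const t t
    have e : ∀ s : ℝ, θ₀ + t • ω + (s - t) • ω = θ₀ + s • ω := by
      intro s
      rw [sub_smul]
      abel
    simp only [e] at h6
    exact h6
  have hconst := constant_of_has_deriv_right_zero (a := (0 : ℝ)) (b := 1)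
    (fun t ht => (hder t ht).continuousAt.continuousWithinAt)
    (fun t ht => (hder t ⟨ht.1, ht.2.le⟩).hasDerivWithinAt) 1 ⟨zero_le_one, le_rfl⟩
  simp only [one_smul, zero_smul, add_zero] at hconst
  have e : θ₀ + ω = θ := by
    rw [hω]
    abel
  rw [e] at hconst
  exact hconst

end Qrt

end Pool.Agent.QS
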