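import Pool.Agent.QS.Bas
import Pool.Agent.QS.Alg
import Pool.Agent.QS.D1

/-!
# QS module PROPB: a good point in an open set

PROOF. `c4 x yx` is a nonzero polynomial function, so there is `o₁ ∈ W` with `c4 x yx o₁ ≠ 0` (`PolyR.dense_ne` of
MZ/Compl). `W` is open: `o₁ + s • x ∈ W` for `|s| < ε`. Put
`g s = F (s • x + o₁) = yx² s⁴ + 4 T x x x o₁ s³ + 6 T x x o₁ o₁ s² + 4 T x o₁ o₁ o₁ s + F o₁`, `α = - yx`.
`g` is not `(α s² + c1 s + c0)²`: `F_expand` (with `a = s`, `b = 1`) gives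
`g s = (yx s² + 2 s q x o₁ + q o₁ o₁)² + 4 s c3 + c4`; if `g = P²`, `P = α s² + c1 s + c0` and `R = yx s² + ..` then
`(P - R) (P + R) = 4 c3 s + c4` for all `s`, `P - R` has leading coefficient `- 2 yx ≠ 0` and `P + R` has degree `≤ 1`;
comparing the coefficients of `s³` and `s²` gives `P + R = 0`, so `c4 = 0`: contradiction.
Apply `exists_good` to `(-ε, ε)`: `o = s • x + o₁`, `√(F o) = y`, `g1 = 4 T x o o o`, `g2 = 6 T x x o o`,
`g3 = 4 T x x x o`, so `nA x yx o y = A`, `nB x yx o y = B`, `ny x yx o y = - Q`.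
-/

set_option autoImplicit false

open Set Topology Filter MvPolynomial
open Pool.Agent.MZ

namespace Pool.Agent.QS

namespace Qrt

variable {m : ℕ} {C : Qrt m}

private theorem pb_t3 (C : Qrt m) (x o : V m) (s : ℝ) : C.T x x x (s • x + o) =
    C.T x x x x * s + C.T x x x o := by
  rw [map_add, map_smul, smul_eq_mul, mul_comm]

private theorem pb_t2 (C : Qrt m) (x o : V m) (s : ℝ) : C.T x x (s • x + o) (s • x + o) =
    C.T x x x x * s ^ 2 + 2 * C.T x x x o * s + C.T x x o o := by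
  have h1 : C.T x x o x = C.T x x x o := C.s₃ x x o x
  simp only [map_add, map_smul, LinearMap.add_apply, LinearMap.smul_apply, smul_eq_mul]
  rw [h1]
  ring

private theorem pb_t1 (C : Qrt m) (x o : V m) (s : ℝ) :
    C.T x (s • x + o) (s • x + o) (s • x + o) =
    C.T x x x x * s ^ 3 + 3 * C.T x x x o * s ^ 2 + 3 * C.T x x o o * s + C.T x o o o := by
  have h1 : C.T x x o x = C.T x x x o := C.s₃ x x o x
  have h2 : C.T x o x x = C.T x x x o := by rw [C.s₂, h1]
  have h3 : C.T x o x o = C.T x x o o := C.s₂ x o x o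
  have h4 : C.T x o o x = C.T x x o o := by rw [C.s₃, h3]
  simp only [map_add, map_smul, LinearMap.add_apply, LinearMap.smul_apply, smul_eq_mul]
  rw [h1, h2, h3, h4]
  ring

private theorem pb_t0 (C : Qrt m) (x o : V m) (s : ℝ) :
    C.F (s • x + o) = C.T x x x x * s ^ 4 + 4 * C.T x x x o * s ^ 3 + 6 * C.T x x o o * s ^ 2 +
      4 * C.T x o o o * s + C.F o := by
  have h5 : C.T o (s • x + o) (s • x + o) (s • x + o) =
      C.T x x x o * s ^ 3 + 3 * C.T x x o o * s ^ 2 + 3 * C.T x o o o * s + C.T o o o o := by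
    have h1 : C.T o x x x = C.T x x x o := by rw [C.s₁, C.s₂, C.s₃]
    have h2 : C.T o x x o = C.T x x o o := by rw [C.s₁, C.s₂]
    have h3 : C.T o x o x = C.T x x o o := by rw [C.s₃, h2]
    have h4 : C.T o o x x = C.T x x o o := by rw [C.s₂, h3]
    have h6 : C.T o x o o = C.T x o o o := C.s₁ o x o o
    have h7 : C.T o o x o = C.T x o o o := by rw [C.s₂, h6]
    have h8 : C.T o o o x = C.T x o o o := by rw [C.s₃, h7]
    simp only [map_add, map_smul, LinearMap.add_apply, LinearMap.smul_apply, smul_eq_mul]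
    rw [h1, h2, h3, h4, h6, h7, h8]
    ring
  have h9 : C.F (s • x + o) = s * C.T x (s • x + o) (s • x + o) (s • x + o) +
      C.T o (s • x + o) (s • x + o) (s • x + o) := by
    show C.T (s • x + o) (s • x + o) (s • x + o) (s • x + o) = _
    rw [← smul_eq_mul s, ← LinearMap.smul_apply, ← LinearMap.smul_apply, ← LinearMap.smul_apply,
      ← LinearMap.add_apply, ← LinearMap.add_apply, ← LinearMap.add_apply, ← map_smul, ← map_add]
  rw [h9, h5, pb_t1, show C.F o = C.T o o o o from rfl]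
  ring

private theorem pb_coef {yx c1 c0 β γ u3 u4 : ℝ} (hy : yx ≠ 0)
    (h : ∀ s : ℝ, ((-yx) * s ^ 2 + c1 * s + c0) ^ 2 =
      (s ^ 2 * yx + 2 * s * β + γ) ^ 2 + (4 * s * u3 + u4)) : u4 = 0 := by
  have e0 := h 0
  have e1 := h 1
  have e2 := h (-1)
  have e3 := h 2
  have d3 : yx * (c1 + 2 * β) = 0 := by
    linear_combination (-1 / 4 : ℝ) * e0 + (1 / 4 : ℝ) * e1 + (1 / 12 : ℝ) * e2 -
      (1 / 12 : ℝ) * e3
  have hc1 : c1 = -2 * β := by
    have := (mul_eq_zero.1 d3).resolve_left hy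
    linarith
  subst hc1
  have d2 : yx * (c0 + γ) = 0 := by
    linear_combination (1 / 2 : ℝ) * e0 - (1 / 4 : ℝ) * e1 - (1 / 4 : ℝ) * e2
  have hc0 : c0 = -γ := by
    have := (mul_eq_zero.1 d2).resolve_left hy
    linarith
  subst hc0
  linear_combination -e0

theorem exists_o {x : V m} {yx : ℝ} (hx : C.Sh x yx) {W : Set (V m)} (hW : IsOpen W)
    (hne : W.Nonempty) (hF : ∀ o ∈ W, 0 < C.F o) (h4 : ∃ z, C.c4 x yx z ≠ 0) :
    ∃ o ∈ W, C.nA x yx o (Real.sqrt (C.F o)) ≠ 0 ∧ C.nB x yx o (Real.sqrt (C.F o)) ≠ 0 ∧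
      C.ny x yx o (Real.sqrt (C.F o)) ≠ 0 := by
  obtain ⟨o1, ho1, ho1W⟩ := ((C.polyR_c4 x yx).dense_ne h4).exists_mem_open hW hne
  have hcont : Continuous fun s : ℝ => s • x + o1 := by fun_prop
  have hop : IsOpen ((fun s : ℝ => s • x + o1) ⁻¹' W) := hW.preimage hcont
  have h0 : (0 : ℝ) ∈ (fun s : ℝ => s • x + o1) ⁻¹' W := by
    show (0 : ℝ) • x + o1 ∈ W
    rw [zero_smul, zero_add]
    exact ho1W
  obtain ⟨ε, hε, hball⟩ := Metric.isOpen_iff.1 hop 0 h0
  rw [Real.ball_eq_Ioo, zero_sub, zero_add] at hball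
  have hFx : C.T x x x x = yx ^ 2 := hx.2
  have hval : ∀ s : ℝ, (-yx) ^ 2 * s ^ 4 + (4 * C.T x x x o1) * s ^ 3 +
      (6 * C.T x x o1 o1) * s ^ 2 + (4 * C.T x o1 o1 o1) * s + C.F o1 = C.F (s • x + o1) := by
    intro s
    rw [pb_t0, hFx]
    ring
  obtain ⟨s, hs, y, g1, g2, g3, A, B, hy, hg1, hg2, hg3, hA, hB, hA0, hB0, hQ⟩ :=
    exists_good (α := -yx) (a3 := 4 * C.T x x x o1) (a2 := 6 * C.T x x o1 o1)
      (a1 := 4 * C.T x o1 o1 o1) (a0 := C.F o1) (l := -ε) (r := ε) (neg_ne_zero.2 hx.1)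
      (by linarith) (fun s hs => by
        rw [hval]
        exact hF _ (hball hs)) (by
        rintro ⟨c1, c0, hc⟩
        refine ho1 (pb_coef (c1 := c1) (c0 := c0) (β := C.q x yx x o1) (γ := C.q x yx o1 o1)
          (u3 := C.c3 x yx o1) hx.1 fun s => ?_)
        rw [← hc s, hval]
        have h1 := F_expand hx s 1 o1
        rw [q_expand hx, one_smul] at h1
        rw [h1]
        ring)
  have hyF : y = Real.sqrt (C.F (s • x + o1)) := by rw [hy, hval]
  have e1 : C.T x (s • x + o1) (s • x + o1) (s • x + o1) = g1 / 4 := by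
    rw [pb_t1, hFx, hg1]
    ring
  have e2 : C.T x x (s • x + o1) (s • x + o1) = g2 / 6 := by
    rw [pb_t2, hFx, hg2]
    ring
  have e3 : C.T x x x (s • x + o1) = g3 / 4 := by
    rw [pb_t3, hFx, hg3]
    ring
  have hy0 : y ≠ 0 := by
    rw [hyF]
    exact (Real.sqrt_pos.2 (hF _ (hball hs))).ne'
  have hnA : C.nA x yx (s • x + o1) (Real.sqrt (C.F (s • x + o1))) = A := by
    unfold nA
    rw [← hyF, e1, e3, hA]
    field_simp
    ring
  have hnB : C.nB x yx (s • x + o1) (Real.sqrt (C.F (s • x + o1))) = B := by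
    unfold nB
    rw [← hyF, e1, e2, hB]
    field_simp
    ring
  have hny : C.ny x yx (s • x + o1) (Real.sqrt (C.F (s • x + o1))) =
      -((-yx) * B ^ 2 - g1 / (2 * y) * A * B + y * A ^ 2) := by
    unfold ny
    rw [hnA, hnB, ← hyF, e1]
    field_simp
    ring
  refine ⟨s • x + o1, hball hs, ?_, ?_, ?_⟩
  · rw [hnA]
    exact hA0
  · rw [hnB]
    exact hB0
  · rw [hny]
    exact neg_ne_zero.2 hQ

end Qrt

end Pool.Agent.QS
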