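import Pool.Agent.QS.PropA
import Pool.Agent.QS.PropB

/-!
# QS module PROP: if `Z` has an interior point then it is open at all its points with `F > 0`
-/

set_option autoImplicit false

open Set Topology Filter MvPolynomial
open Pool.Agent.MZ

namespace Pool.Agent.QS

namespace Qrt

variable {m : ℕ} {C : Qrt m}

theorem opn_of_interior (hns : ¬ C.Sq) {o₁ : V m} (h1 : 0 < C.F o₁) (h2 : C.Z ∈ 𝓝 o₁) : C.Opn := by
  intro x hx hF
  have hSh := exists_Sh hF
  have h4 : ∃ z, C.c4 x (Real.sqrt (C.F x)) z ≠ 0 := by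
    by_contra hne
    push Not at hne
    exact hns (sq_of_c4 hne)
  have hW : IsOpen (interior C.Z ∩ {o | 0 < C.F o}) :=
    isOpen_interior.inter (isOpen_lt continuous_const C.continuous_F)
  obtain ⟨o, ⟨ho1, ho2⟩, hA, hB, hy⟩ := exists_o hSh hW
    ⟨o₁, mem_interior_iff_mem_nhds.2 h2, h1⟩ (fun o ho => ho.2) h4
  exact nhds_of_nn hSh hx ho2 (mem_interior_iff_mem_nhds.1 ho1) hA hB hy

end Qrt

end Pool.Agent.QS
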