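import Pool.Agent.QS.Clo

/-!
# QS module PROPA: `Z` is a neighbourhood of `x` if it is a neighbourhood of a good point `o`

PROOF. Put `yo = √(F o)`, `A = nA x yx o yo`, `B = nB x yx o yo`, `w = nn x yx o yo = B x - A o`,
`yw = ny x yx o yo`. `(w, yw)` is a sheet (`F_nn`) and `w ∈ Z` (`nn_mem`).
For `(z, s)` near `(x, 0)` put `o(z, s) = (B / A) • z + (s - 1 / A) • w`, so `o(x, s) = o + s • w`, and
`Y(z, s) = √(F (o(z, s)))`, continuous, `Y(x, 0) = yo > 0`. Put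
`φ(z, s) = nB w yw o(z,s) Y + nA w yw o(z,s) Y * (1 / A - s)`. Then
`nn w yw o(z,s) Y = φ • w - (nA w yw o(z,s) Y * B / A) • z` (`module`).
`φ(x, 0) = B³ + (- A B³) / A = 0` (`nB_nn`, `nA_nn`).
Derivative of `s ↦ φ(x, s)` at `0`: with `t1 = T w o o o`, `t2 = T w w o o`, `t3 = T w w w o`, `y = yo`, `a = yw`,
`A' = nA w yw o yo = 4 t3 + 4 a t1 / y = - A B³`, `B' = nB w yw o yo = 6 t2 - 4 t1² / y² + 2 a y = B³`; the derivative of
`Y(x, s)` is `2 t1 / y`; the derivatives of `nA`, `nB` are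
`A's = 4 a² + 12 a t2 / y - 8 a t1² / y³`, `B's = 12 t3 - 24 t1 t2 / y² + 16 t1³ / y⁴ + 4 a t1 / y`, and the identity
`y (A'² - B's A' + B' A's) + 2 Q' = 0`, `Q' = - a B'² - (2 t1 / y) A' B' + y A'² = - ny w yw o yo = - B⁸ yx` (`ny_nn`).
So the derivative of `φ(x, ·)` is `B's + A's / A - A'`, and as `1 / A = - B' / A'` it is
`- (A'² - B's A' + B' A's) / A' = 2 Q' / (y A') = 2 B⁵ yx / (yo A) ≠ 0`.
Hence there is an arbitrarily small `ε > 0` with `φ(x, -ε) φ(x, ε) < 0`; take `ε` so small that for `z` in a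
neighbourhood of `x` and `|s| ≤ ε` the point `o(z, s)` is in the interior of `Z`, `F (o(z,s)) > 0` and
`nA w yw o(z,s) Y ≠ 0` (these are open conditions at `(x, 0)`). By continuity `φ(z, -ε) φ(z, ε) < 0` for `z` near `x`,
and also `F z > 0`. By the intermediate value theorem there is `s ∈ [-ε, ε]` with `φ(z, s) = 0`; then
`nn w yw o(z,s) Y = c • z` with `c = - nA .. B / A ≠ 0`, `F (c • z) = c⁴ F z ≠ 0`, so `ny ≠ 0` (`F_nn`), the point is in
`Z` (`nn_mem`) and `z ∈ Z` (`mem_Z_of_smul`).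
-/

set_option autoImplicit false

open Set Topology Filter MvPolynomial
open Pool.Agent.MZ

namespace Pool.Agent.QS

namespace Qrt

variable {m : ℕ} {C : Qrt m}

private theorem pa_dT {w o : V m} (C : Qrt m) :
    HasDerivAt (fun s : ℝ => C.T w (o + s • w) (o + s • w) (o + s • w)) (3 * C.T w w o o) 0 ∧
    HasDerivAt (fun s : ℝ => C.T w w (o + s • w) (o + s • w)) (2 * C.T w w w o) 0 ∧
    HasDerivAt (fun s : ℝ => C.T w w w (o + s • w)) (C.F w) 0 ∧
    HasDerivAt (fun s : ℝ => C.F (o + s • w)) (4 * C.T w o o o) 0 := by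
  have hb : HasDerivAt (fun s : ℝ => o + s • w) w 0 := by
    have h := ((hasDerivAt_id (0 : ℝ)).smul_const w).const_add o
    simpa using h
  have hw' : HasDerivAt (fun _ : ℝ => w) 0 0 := hasDerivAt_const 0 w
  refine ⟨?_, ?_, ?_, ?_⟩
  · have h := C.hasDerivAt_comp hw' hb hb hb
    simp only [zero_smul, add_zero, map_zero, LinearMap.zero_apply, zero_add] at h
    have e1 : C.T w o w o = C.T w w o o := C.s₂ w o w o
    have e2 : C.T w o o w = C.T w w o o := by rw [C.s₃ w o o w, e1]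
    rw [e1, e2] at h
    convert h using 1
    ring
  · have h := C.hasDerivAt_comp hw' hw' hb hb
    simp only [zero_smul, add_zero, map_zero, LinearMap.zero_apply, zero_add] at h
    have e2 : C.T w w o w = C.T w w w o := C.s₃ w w o w
    rw [e2] at h
    convert h using 1
    ring
  · have h := C.hasDerivAt_comp hw' hw' hw' hb
    simp only [zero_smul, add_zero, map_zero, LinearMap.zero_apply, zero_add] at h
    exact h
  · have h := C.hasDerivAt_comp hb hb hb hb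
    simp only [zero_smul, add_zero] at h
    have e1 : C.T o w o o = C.T w o o o := C.s₁ o w o o
    have e2 : C.T o o w o = C.T w o o o := by rw [C.s₂ o o w o, e1]
    have e3 : C.T o o o w = C.T w o o o := by rw [C.s₃ o o o w, e2]
    rw [e1, e2, e3] at h
    refine HasDerivAt.congr_deriv (f := fun s : ℝ => C.F (o + s • w)) h ?_
    ring

/-- the derivative of `φ` -/
theorem phi_deriv {w o : V m} {yw : ℝ} (hw : C.F w = yw ^ 2) (ho : 0 < C.F o) (A : ℝ) :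
    HasDerivAt (fun s : ℝ => C.nB w yw (o + s • w) (Real.sqrt (C.F (o + s • w))) +
      C.nA w yw (o + s • w) (Real.sqrt (C.F (o + s • w))) * (1 / A - s))
      (12 * C.T w w w o - 24 * C.T w o o o * C.T w w o o / C.F o +
        16 * (C.T w o o o) ^ 3 / (C.F o) ^ 2 + 4 * yw * C.T w o o o / Real.sqrt (C.F o) +
        (4 * yw ^ 2 + 12 * yw * C.T w w o o / Real.sqrt (C.F o) -
          8 * yw * (C.T w o o o) ^ 2 / (Real.sqrt (C.F o)) ^ 3) / A -
        C.nA w yw o (Real.sqrt (C.F o))) 0 := by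
  obtain ⟨d1, d2, d3, dF⟩ := pa_dT (w := w) (o := o) C
  rw [hw] at d3
  have e0 : o + (0 : ℝ) • w = o := by rw [zero_smul, add_zero]
  have dy := dF.sqrt (by rw [e0]; exact ho.ne')
  have hy0 : Real.sqrt (C.F (o + (0 : ℝ) • w)) ≠ 0 := by
    rw [e0]
    exact (Real.sqrt_pos.2 ho).ne'
  have hA := (d3.const_mul 4).add ((d1.const_mul (4 * yw)).div dy hy0)
  have hB := ((d2.const_mul 6).sub (((d1.pow 2).const_mul 4).div (dy.pow 2) (pow_ne_zero 2 hy0))).add
    (dy.const_mul (2 * yw))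
  have hs : HasDerivAt (fun s : ℝ => 1 / A - s) (-1) 0 := by
    have h := (hasDerivAt_id (0 : ℝ)).const_sub (1 / A)
    exact h
  have h := hB.add (hA.mul hs)
  obtain ⟨y, hy⟩ : ∃ y, y = Real.sqrt (C.F o) := ⟨_, rfl⟩
  have hyy : C.F o = y ^ 2 := by rw [hy, Real.sq_sqrt ho.le]
  have hyne : y ≠ 0 := by
    rw [hy]
    exact (Real.sqrt_pos.2 ho).ne'
  rw [← hy]
  refine HasDerivAt.congr_deriv (f := fun s : ℝ =>
    C.nB w yw (o + s • w) (Real.sqrt (C.F (o + s • w))) +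
      C.nA w yw (o + s • w) (Real.sqrt (C.F (o + s • w))) * (1 / A - s)) h ?_
  simp only [Pi.add_apply, Pi.div_apply, Pi.pow_apply, e0, ← hy]
  rw [hyy]
  unfold nA
  by_cases hA0 : A = 0
  · subst hA0
    simp only [div_zero, mul_zero, add_zero, sub_zero]
    field_simp
    ring
  · field_simp
    ring

/-- the identity for the derivative -/
private theorem pa_key (t1 t2 t3 a y : ℝ) (hy : y ≠ 0) :
    y * ((4 * t3 + 4 * a * t1 / y) ^ 2 -
      (12 * t3 - 24 * t1 * t2 / y ^ 2 + 16 * t1 ^ 3 / (y ^ 2) ^ 2 + 4 * a * t1 / y) *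
        (4 * t3 + 4 * a * t1 / y) +
      (6 * t2 - 4 * t1 ^ 2 / y ^ 2 + 2 * a * y) *
        (4 * a ^ 2 + 12 * a * t2 / y - 8 * a * t1 ^ 2 / y ^ 3)) =
    2 * (a * (6 * t2 - 4 * t1 ^ 2 / y ^ 2 + 2 * a * y) ^ 2 +
      2 * t1 / y * (4 * t3 + 4 * a * t1 / y) * (6 * t2 - 4 * t1 ^ 2 / y ^ 2 + 2 * a * y) -
      y * (4 * t3 + 4 * a * t1 / y) ^ 2) := by
  field_simp
  ring

/-- a function with nonzero derivative changes its sign -/
private theorem pa_sign {f : ℝ → ℝ} {d : ℝ} (hf : HasDerivAt f d 0) (h0 : f 0 = 0) (hd : d ≠ 0)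
    {δ : ℝ} (hδ : 0 < δ) : ∃ ε, 0 < ε ∧ ε < δ ∧ f (-ε) * f ε < 0 := by
  rw [hasDerivAt_iff_tendsto_slope] at hf
  have h1 : Tendsto (fun s => d * slope f 0 s) (𝓝[≠] 0) (𝓝 (d * d)) := hf.const_mul d
  have h2 : ∀ᶠ s in 𝓝[≠] (0 : ℝ), 0 < d * slope f 0 s :=
    h1.eventually (lt_mem_nhds (mul_self_pos.2 hd))
  rw [eventually_nhdsWithin_iff, Metric.eventually_nhds_iff] at h2
  obtain ⟨η, hη, h3⟩ := h2
  have hε : 0 < min δ η / 2 := half_pos (lt_min hδ hη)
  have hε1 : min δ η / 2 < δ := lt_of_lt_of_le (half_lt_self (lt_min hδ hη)) (min_le_left _ _)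
  have hε2 : min δ η / 2 < η := lt_of_lt_of_le (half_lt_self (lt_min hδ hη)) (min_le_right _ _)
  refine ⟨min δ η / 2, hε, hε1, ?_⟩
  obtain ⟨ε, he⟩ : ∃ ε, ε = min δ η / 2 := ⟨_, rfl⟩
  rw [← he] at hε hε2 ⊢
  have h4 := h3 (y := ε) (by rw [Real.dist_eq, sub_zero, abs_of_pos hε]; exact hε2) hε.ne'
  have h5 := h3 (y := -ε) (by rw [Real.dist_eq, sub_zero, abs_neg, abs_of_pos hε]; exact hε2)
    (neg_ne_zero.2 hε.ne')
  rw [slope_def_field, h0, sub_zero, sub_zero] at h4 h5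
  have h6 : 0 < (d * (f ε / ε)) * (d * (f (-ε) / -ε)) := mul_pos h4 h5
  have h7 : (d * (f ε / ε)) * (d * (f (-ε) / -ε)) = (d ^ 2 / ε ^ 2) * (-(f (-ε) * f ε)) := by
    field_simp
  rw [h7] at h6
  have h8 : 0 < d ^ 2 / ε ^ 2 := by positivity
  have h9 := (mul_pos_iff_of_pos_left h8).1 h6
  linarith

/-- a zero between two values of different sign -/
private theorem pa_ivt {f : ℝ → ℝ} {ε : ℝ} (hε : 0 < ε) (hf : ContinuousOn f (Icc (-ε) ε))
    (h : f (-ε) * f ε < 0) : ∃ s ∈ Icc (-ε) ε, f s = 0 := by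
  have h1 : -ε ≤ ε := by linarith
  rcases mul_neg_iff.1 h with ⟨h2, h3⟩ | ⟨h2, h3⟩
  · obtain ⟨s, hs, hs'⟩ := intermediate_value_Icc' h1 hf ⟨h3.le, h2.le⟩
    exact ⟨s, hs, hs'⟩
  · obtain ⟨s, hs, hs'⟩ := intermediate_value_Icc h1 hf ⟨h2.le, h3.le⟩
    exact ⟨s, hs, hs'⟩

theorem nhds_of_nn {x o : V m} {yx : ℝ} (hx : C.Sh x yx) (hxZ : x ∈ C.Z) (ho : 0 < C.F o)
    (hoZ : C.Z ∈ 𝓝 o) (hA : C.nA x yx o (Real.sqrt (C.F o)) ≠ 0)
    (hB : C.nB x yx o (Real.sqrt (C.F o)) ≠ 0) (hy : C.ny x yx o (Real.sqrt (C.F o)) ≠ 0) :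
    C.Z ∈ 𝓝 x := by
  have hoS := exists_Sh ho
  obtain ⟨yo, hyo⟩ : ∃ yo, yo = Real.sqrt (C.F o) := ⟨_, rfl⟩
  rw [← hyo] at hA hB hy hoS
  have hyo0 : 0 < yo := by
    rw [hyo]
    exact Real.sqrt_pos.2 ho
  obtain ⟨A, hAdef⟩ : ∃ A, A = C.nA x yx o yo := ⟨_, rfl⟩
  obtain ⟨B, hBdef⟩ : ∃ B, B = C.nB x yx o yo := ⟨_, rfl⟩
  obtain ⟨yw, hyw⟩ : ∃ yw, yw = C.ny x yx o yo := ⟨_, rfl⟩
  obtain ⟨w, hwdef⟩ : ∃ w, w = C.nn x yx o yo := ⟨_, rfl⟩
  have hw1 : w = B • x - A • o := by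
    rw [hwdef, hAdef, hBdef]
    rfl
  have hFw : C.F w = yw ^ 2 := by rw [hwdef, hyw, F_nn hx hoS]
  have hwZ : w ∈ C.Z := by
    rw [hwdef]
    exact nn_mem hx hoS hxZ (mem_of_mem_nhds hoZ) hy
  have hnA := nA_nn hx hoS
  have hnB := nB_nn hx hoS
  have hny := ny_nn hx hoS
  rw [← hwdef, ← hyw, ← hAdef, ← hBdef] at hnA
  rw [← hwdef, ← hyw, ← hBdef] at hnB
  rw [← hwdef, ← hyw, ← hBdef] at hny
  rw [← hAdef] at hA
  rw [← hBdef] at hB
  rw [← hyw] at hy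
  have hwS : C.Sh w yw := ⟨hy, hFw⟩
  -- the moving point
  obtain ⟨oo, hoo⟩ : ∃ oo : V m × ℝ → V m, ∀ u, oo u = (B / A) • u.1 + (u.2 - 1 / A) • w :=
    ⟨fun u => (B / A) • u.1 + (u.2 - 1 / A) • w, fun _ => rfl⟩
  have hoocont : Continuous oo := by
    have h1 : oo = fun u => (B / A) • u.1 + (u.2 - 1 / A) • w := funext hoo
    rw [h1]
    fun_prop
  have hoox : ∀ s : ℝ, oo (x, s) = o + s • w := by
    intro s
    have h1 : (B / A) • x = o + (1 / A) • w := by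
      rw [hw1, smul_sub, smul_smul, smul_smul, one_div_mul_cancel hA, one_smul, one_div_mul_eq_div]
      abel
    rw [hoo]
    simp only
    rw [h1, sub_smul]
    abel
  obtain ⟨Φ, hΦ⟩ : ∃ Φ : V m × ℝ → ℝ, ∀ u, Φ u = C.nB w yw (oo u) (Real.sqrt (C.F (oo u))) +
      C.nA w yw (oo u) (Real.sqrt (C.F (oo u))) * (1 / A - u.2) := ⟨_, fun _ => rfl⟩
  have hFc : Continuous fun u => C.F (oo u) := C.continuous_F.comp hoocont
  have hyc : Continuous fun u => Real.sqrt (C.F (oo u)) := Real.continuous_sqrt.comp hFc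
  have hnAc : ∀ u, 0 < C.F (oo u) →
      ContinuousAt (fun u => C.nA w yw (oo u) (Real.sqrt (C.F (oo u)))) u := by
    intro u hu
    have h0 : Real.sqrt (C.F (oo u)) ≠ 0 := (Real.sqrt_pos.2 hu).ne'
    unfold nA
    have c1 : Continuous fun u => C.T w w w (oo u) :=
      C.continuous_comp continuous_const continuous_const continuous_const hoocont
    have c2 : Continuous fun u => C.T w (oo u) (oo u) (oo u) :=
      C.continuous_comp continuous_const hoocont hoocont hoocont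
    exact ((continuous_const.mul c1).continuousAt).add
      (((continuous_const.mul c2).continuousAt).div hyc.continuousAt h0)
  have hΦc : ∀ u, 0 < C.F (oo u) → ContinuousAt Φ u := by
    intro u hu
    have h1 : Φ = fun u => C.nB w yw (oo u) (Real.sqrt (C.F (oo u))) +
      C.nA w yw (oo u) (Real.sqrt (C.F (oo u))) * (1 / A - u.2) := funext hΦ
    rw [h1]
    have h0 : Real.sqrt (C.F (oo u)) ≠ 0 := (Real.sqrt_pos.2 hu).ne'
    refine ContinuousAt.add ?_ ((hnAc u hu).mul (by fun_prop))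
    unfold nB
    have c1 : Continuous fun u => C.T w w (oo u) (oo u) :=
      C.continuous_comp continuous_const continuous_const hoocont hoocont
    have c2 : Continuous fun u => C.T w (oo u) (oo u) (oo u) :=
      C.continuous_comp continuous_const hoocont hoocont hoocont
    exact (((continuous_const.mul c1).continuousAt).sub
      (((continuous_const.mul (c2.pow 2)).continuousAt).div (hyc.pow 2).continuousAt
        (pow_ne_zero 2 h0))).add (continuous_const.mul hyc).continuousAt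
  -- the derivative
  have hΦx : ∀ s : ℝ, Φ (x, s) = C.nB w yw (o + s • w) (Real.sqrt (C.F (o + s • w))) +
      C.nA w yw (o + s • w) (Real.sqrt (C.F (o + s • w))) * (1 / A - s) := by
    intro s
    rw [hΦ, hoox]
  have hder := phi_deriv hFw ho A
  have hfun : (fun s : ℝ => Φ (x, s)) = fun s : ℝ =>
      C.nB w yw (o + s • w) (Real.sqrt (C.F (o + s • w))) +
      C.nA w yw (o + s • w) (Real.sqrt (C.F (o + s • w))) * (1 / A - s) := funext hΦx
  rw [← hfun, ← hyo] at hder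
  have hΦ0 : Φ (x, 0) = 0 := by
    rw [hΦx, zero_smul, add_zero, ← hyo, hnA, hnB]
    field_simp
    ring
  have hFo : C.F o = yo ^ 2 := by rw [hyo, Real.sq_sqrt ho.le]
  rw [hFo] at hder
  have hD : (12 * C.T w w w o - 24 * C.T w o o o * C.T w w o o / yo ^ 2 +
        16 * (C.T w o o o) ^ 3 / (yo ^ 2) ^ 2 + 4 * yw * C.T w o o o / yo +
        (4 * yw ^ 2 + 12 * yw * C.T w w o o / yo -
          8 * yw * (C.T w o o o) ^ 2 / yo ^ 3) / A - C.nA w yw o yo) ≠ 0 := by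
    intro h0
    have hk := pa_key (C.T w o o o) (C.T w w o o) (C.T w w w o) yw yo hyo0.ne'
    have e1 : C.nA w yw o yo = 4 * C.T w w w o + 4 * yw * C.T w o o o / yo := rfl
    have e2 : C.nB w yw o yo = 6 * C.T w w o o - 4 * (C.T w o o o) ^ 2 / yo ^ 2 + 2 * yw * yo := rfl
    have e3 : C.ny w yw o yo = yw * (C.nB w yw o yo) ^ 2 +
      2 * C.T w o o o / yo * C.nA w yw o yo * C.nB w yw o yo - yo * (C.nA w yw o yo) ^ 2 := rfl
    rw [← e1, ← e2, ← e3, hny, hnA, hnB] at hk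
    rw [hnA] at h0
    obtain ⟨Bs, hBs⟩ : ∃ Bs, Bs = 12 * C.T w w w o - 24 * C.T w o o o * C.T w w o o / yo ^ 2 +
        16 * (C.T w o o o) ^ 3 / (yo ^ 2) ^ 2 + 4 * yw * C.T w o o o / yo := ⟨_, rfl⟩
    obtain ⟨As, hAs⟩ : ∃ As, As = 4 * yw ^ 2 + 12 * yw * C.T w w o o / yo -
          8 * yw * (C.T w o o o) ^ 2 / yo ^ 3 := ⟨_, rfl⟩
    rw [← hBs, ← hAs] at hk h0
    have h1 : As = A * (-A * B ^ 3 - Bs) := by
      field_simp at h0
      linarith
    rw [h1] at hk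
    have h2 : yo * ((-A * B ^ 3) ^ 2 - Bs * (-A * B ^ 3) + B ^ 3 * (A * (-A * B ^ 3 - Bs))) = 0 := by
      ring
    rw [h2] at hk
    have h3 : B ^ 8 * yx ≠ 0 := mul_ne_zero (pow_ne_zero 8 hB) hx.1
    exact h3 (by linarith)
  -- the open conditions
  have hG : ∀ᶠ u in 𝓝 ((x, 0) : V m × ℝ), oo u ∈ interior C.Z ∧ 0 < C.F (oo u) ∧
      C.nA w yw (oo u) (Real.sqrt (C.F (oo u))) ≠ 0 := by
    have hx0 : oo (x, 0) = o := by rw [hoox, zero_smul, add_zero]
    refine Filter.Eventually.and ?_ (Filter.Eventually.and ?_ ?_)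
    · have h1 : o ∈ interior C.Z := mem_interior_iff_mem_nhds.2 hoZ
      refine hoocont.continuousAt.eventually (isOpen_interior.mem_nhds ?_)
      rw [hx0]
      exact h1
    · refine hFc.continuousAt.eventually (lt_mem_nhds ?_)
      show 0 < C.F (oo (x, 0))
      rw [hx0]
      exact ho
    · refine (hnAc (x, 0) (by rw [hx0]; exact ho)).eventually_ne ?_
      show C.nA w yw (oo (x, 0)) (Real.sqrt (C.F (oo (x, 0)))) ≠ 0
      rw [hx0, ← hyo, hnA]
      exact mul_ne_zero (neg_ne_zero.2 hA) (pow_ne_zero 3 hB)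
  rw [Metric.eventually_nhds_iff] at hG
  obtain ⟨δ, hδ, hG⟩ := hG
  have hdist : ∀ (z : V m) (s : ℝ), dist z x < δ → |s| < δ → dist ((z, s) : V m × ℝ) (x, 0) < δ := by
    intro z s h1 h2
    rw [Prod.dist_eq, max_lt_iff, Real.dist_eq, sub_zero]
    exact ⟨h1, h2⟩
  obtain ⟨ε, hε, hεδ, hsign⟩ := pa_sign (f := fun s => Φ (x, s)) hder hΦ0 hD hδ
  have hGx : ∀ s : ℝ, |s| < δ → 0 < C.F (oo (x, s)) := fun s hs =>
    (hG (hdist x s (by rw [dist_self]; exact hδ) hs)).2.1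
  have hcont1 : ∀ s : ℝ, |s| < δ → ContinuousAt (fun z : V m => Φ (z, s)) x := by
    intro s hs
    have h1 := hΦc (x, s) (hGx s hs)
    exact ContinuousAt.comp (f := fun z : V m => (z, s)) (g := Φ) h1 (by fun_prop)
  have hεabs : |ε| < δ := by rw [abs_of_pos hε]; exact hεδ
  have hεabs' : |(-ε)| < δ := by rw [abs_neg]; exact hεabs
  have hev1 : ∀ᶠ z in 𝓝 x, Φ (z, -ε) * Φ (z, ε) < 0 := by
    refine ((hcont1 _ hεabs').mul (hcont1 _ hεabs)).eventually (gt_mem_nhds ?_)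
    exact hsign
  have hev2 : ∀ᶠ z in 𝓝 x, dist z x < δ := Metric.ball_mem_nhds x hδ
  have hev3 : ∀ᶠ z in 𝓝 x, 0 < C.F z :=
    C.continuous_F.continuousAt.eventually (lt_mem_nhds hx.pos)
  have hfin : ∀ᶠ z in 𝓝 x, z ∈ C.Z := by
    filter_upwards [hev1, hev2, hev3] with z h1 h2 h3
    have hGz : ∀ s : ℝ, s ∈ Icc (-ε) ε → oo (z, s) ∈ interior C.Z ∧ 0 < C.F (oo (z, s)) ∧
        C.nA w yw (oo (z, s)) (Real.sqrt (C.F (oo (z, s)))) ≠ 0 := by
      intro s hs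
      refine hG (hdist z s h2 (lt_of_le_of_lt ?_ hεδ))
      exact abs_le.2 hs
    have hc : ContinuousOn (fun s : ℝ => Φ (z, s)) (Icc (-ε) ε) := by
      intro s hs
      have h4 := hΦc (z, s) (hGz s hs).2.1
      have h5 : ContinuousAt (fun s : ℝ => Φ (z, s)) s :=
        ContinuousAt.comp (f := fun s : ℝ => (z, s)) (g := Φ) h4 (by fun_prop)
      exact h5.continuousWithinAt
    obtain ⟨s, hs, hs0⟩ := pa_ivt hε hc h1
    obtain ⟨g1, g2, g3⟩ := hGz s hs
    obtain ⟨b, hb⟩ : ∃ b, b = oo (z, s) := ⟨_, rfl⟩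
    have hs1 : Φ (z, s) = 0 := hs0
    rw [hΦ, ← hb] at hs1
    rw [← hb] at g1 g2 g3
    have hbS := exists_Sh g2
    obtain ⟨yb, hyb⟩ : ∃ yb, yb = Real.sqrt (C.F b) := ⟨_, rfl⟩
    rw [← hyb] at g3 hs1 hbS
    obtain ⟨c, hcdef⟩ : ∃ c, c = -(C.nA w yw b yb * B / A) := ⟨_, rfl⟩
    have hc0 : c ≠ 0 := by
      rw [hcdef]
      exact neg_ne_zero.2 (div_ne_zero (mul_ne_zero g3 hB) hA)
    have hnn : C.nn w yw b yb = c • z := by
      have h4 : C.nB w yw b yb = - (C.nA w yw b yb * (1 / A - s)) := by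
        simp only at hs1
        linarith
      unfold nn
      rw [h4, hcdef]
      have h5 : b = (B / A) • z + (s - 1 / A) • w := by rw [hb, hoo]
      obtain ⟨n', hn'⟩ : ∃ n', n' = C.nA w yw b yb := ⟨_, rfl⟩
      rw [← hn', h5]
      module
    have hFn := F_nn hwS hbS
    have hne : C.ny w yw b yb ≠ 0 := by
      intro h6
      rw [hnn, F_smul, h6] at hFn
      have h7 : c ^ 4 * C.F z ≠ 0 := mul_ne_zero (pow_ne_zero 4 hc0) h3.ne'
      exact h7 (by rw [hFn]; ring)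
    have hmem := nn_mem hwS hbS hwZ (interior_subset g1) hne
    rw [hnn] at hmem
    exact mem_Z_of_smul hc0 hmem
  exact hfin

end Qrt

end Pool.Agent.QS
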