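import Pool.Agent.QS.Fin

/-!
# Mazur's conjecture for double covers of affine space branched along a quartic

Let `f` be a polynomial in `n` variables with rational coefficients of degree at most `4` and `X` the
variety `y² = f(x)`. The closure in `ℝ^(n+1)` of the set of the rational points of `X` with `y ≠ 0` has
only finitely many connected components, and so does its intersection with the complement of every
real algebraic set. (The coordinate `y` is the first coordinate.)
-/

set_option autoImplicit false

open MvPolynomial

namespace Pool.Agent.QS.QuarticSquaresKept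

theorem result {n : ℕ} (f : MvPolynomial (Fin n) ℚ) (hf : f.totalDegree ≤ 4) (k : ℕ)
    (G : Fin k → MvPolynomial (Fin (n + 1)) ℝ) :
    Finite (ConnectedComponents ↥{z : Fin (n + 1) → ℝ |
      z ∈ closure {z : Fin (n + 1) → ℝ | ∃ (y : ℚ) (x : Fin n → ℚ), y ≠ 0 ∧
        y ^ 2 = eval x f ∧ z = Fin.cons (y : ℝ) (fun i => (x i : ℝ))} ∧
      ∃ i, eval z (G i) ≠ 0}) :=
  (Pool.Agent.QS.fc_open hf G).finite_components

end Pool.Agent.QS.QuarticSquaresKept
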