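import Pool.Agent.QS.Bas
import Pool.Agent.MZ.RatD

/-!
# QS module RRA: rational coordinates for a form which depends on two linear forms
-/

set_option autoImplicit false

open Set Topology Filter MvPolynomial
open Pool.Agent.MZ

namespace Pool.Agent.QS

namespace Qrt

variable {m : ℕ} {C : Qrt m}

theorem rra_expand (x v : V m) (t : ℝ) : C.F (x + t • v) = C.F x + 4 * t * C.T x x x v +
    6 * t ^ 2 * C.T x x v v + 4 * t ^ 3 * C.T x v v v + t ^ 4 * C.F v := by
  have h1 : C.T x x v x = C.T x x x v := C.s₃ x x v x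
  have h2 : C.T x v x x = C.T x x x v := (C.s₂ x v x x).trans h1
  have h3 : C.T v x x x = C.T x x x v := (C.s₁ v x x x).trans h2
  have h4 : C.T x v x v = C.T x x v v := C.s₂ x v x v
  have h5 : C.T x v v x = C.T x x v v := (C.s₃ x v v x).trans h4
  have h6 : C.T v x x v = C.T x x v v := (C.s₁ v x x v).trans h4
  have h7 : C.T v x v x = C.T x x v v := (C.s₁ v x v x).trans h5
  have h8 : C.T v v x x = C.T x x v v := (C.s₂ v v x x).trans h7
  have h9 : C.T v x v v = C.T x v v v := C.s₁ v x v v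
  have h10 : C.T v v x v = C.T x v v v := (C.s₂ v v x v).trans h9
  have h11 : C.T v v v x = C.T x v v v := (C.s₃ v v v x).trans h10
  unfold F
  simp only [map_add, map_smul, LinearMap.add_apply, LinearMap.smul_apply, smul_eq_mul]
  rw [h1, h2, h3, h4, h5, h6, h7, h8, h9, h10, h11]
  ring

theorem rra_T {x v : V m} (h : ∀ t : ℝ, C.F (x + t • v) = C.F x) : C.T x x x v = 0 := by
  have e1 := h 1
  have e2 := h (-1)
  have e3 := h 2
  have e4 := h (-2)
  rw [rra_expand] at e1 e2 e3 e4
  linarith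

/-- if `F` does not change in the directions of the kernel of `l` -/
theorem rra_sq {l : V m →ₗ[ℝ] ℝ} {p : V m} (hp : l p = 1) {r : ℝ} (hr : C.F p = r ^ 2)
    (h : ∀ x v, l v = 0 → C.T x x x v = 0) : C.Sq := by
  have h1 : ∀ x, C.F x = (l x) ^ 4 * C.F p := by
    intro x
    have hv : l (x - l x • p) = 0 := by
      rw [map_sub, map_smul, hp, smul_eq_mul, mul_one, sub_self]
    have hd : ∀ t : ℝ, HasDerivAt (fun s : ℝ => C.F (l x • p + s • (x - l x • p))) 0 t := by
      intro t
      have hc : HasDerivAt (fun s : ℝ => l x • p + s • (x - l x • p)) (x - l x • p) t := by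
        have h2 := ((hasDerivAt_id t).smul_const (x - l x • p)).const_add (l x • p)
        simpa using h2
      have h3 := C.hasDerivAt_comp hc hc hc hc
      have h4 := h (l x • p + t • (x - l x • p)) _ hv
      have e1 : C.T (x - l x • p) (l x • p + t • (x - l x • p)) (l x • p + t • (x - l x • p))
          (l x • p + t • (x - l x • p)) = 0 := by
        rw [C.s₁, C.s₂, C.s₃]
        exact h4
      have e2 : C.T (l x • p + t • (x - l x • p)) (x - l x • p) (l x • p + t • (x - l x • p))
          (l x • p + t • (x - l x • p)) = 0 := by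
        rw [C.s₂, C.s₃]
        exact h4
      have e3 : C.T (l x • p + t • (x - l x • p)) (l x • p + t • (x - l x • p)) (x - l x • p)
          (l x • p + t • (x - l x • p)) = 0 := by
        rw [C.s₃]
        exact h4
      rw [e1, e2, e3, h4, add_zero, add_zero, add_zero] at h3
      exact h3
    have h5 := is_const_of_deriv_eq_zero (fun t => (hd t).differentiableAt)
      (fun t => (hd t).deriv) 1 0
    have e4 : l x • p + (1 : ℝ) • (x - l x • p) = x := by
      rw [one_smul]
      abel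
    have e5 : l x • p + (0 : ℝ) • (x - l x • p) = l x • p := by
      rw [zero_smul, add_zero]
    simp only [e4, e5] at h5
    rw [h5, F_smul]
  refine ⟨LinearMap.mk₂ ℝ (fun u v => l u * l v * r) ?_ ?_ ?_ ?_, ?_, ?_⟩
  · intro u u' v
    rw [map_add]
    ring
  · intro t u v
    rw [map_smul, smul_eq_mul, smul_eq_mul]
    ring
  · intro u v v'
    rw [map_add]
    ring
  · intro t u v
    rw [map_smul, smul_eq_mul, smul_eq_mul]
    ring
  · intro u v
    simp only [LinearMap.mk₂_apply]
    ring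
  · intro x
    rw [h1, hr]
    simp only [LinearMap.mk₂_apply]
    ring

theorem bin_coord (hb : C.Bin) (hns : ¬ C.Sq) {p : V m} (hp : p ∈ C.S) :
    ∃ (l n : V m →ₗ[ℝ] ℝ) (e : V m), (∀ x, IsRat x → IsQ (l x)) ∧ (∀ x, IsRat x → IsQ (n x)) ∧
      IsRat e ∧ l p = 1 ∧ n p = 0 ∧ l e = 0 ∧ n e = 1 ∧
      ∀ x, C.F x = C.F (l x • p + n x • e) := by
  obtain ⟨hpr, r, hr, hr0, hFp⟩ := hp
  obtain ⟨a, b, hab⟩ := hb
  have key : ∀ v, a v = 0 → b v = 0 → ∀ x, C.T x x x v = 0 := by
    intro v ha hb x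
    refine rra_T fun t => ?_
    exact hab (t • v) (by rw [map_smul, ha, smul_zero]) (by rw [map_smul, hb, smul_zero]) x
  have hF0 : C.F p ≠ 0 := by
    rw [hFp]
    exact pow_ne_zero 2 hr0
  let l : V m →ₗ[ℝ] ℝ := (C.F p)⁻¹ • C.T p p p
  have hl : ∀ x, l x = (C.F p)⁻¹ * C.T p p p x := fun x => rfl
  have hlp : l p = 1 := by
    rw [hl]
    exact inv_mul_cancel₀ hF0
  have hlQ : ∀ x, IsRat x → IsQ (l x) := by
    intro x hx
    rw [hl]
    exact (isQ_F hpr).inv.mul (C.rat _ _ _ _ hpr hpr hpr hx)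
  -- a second rational linear form
  obtain ⟨x₀, hx₀, v₀, hv₀⟩ : ∃ x₀, IsRat x₀ ∧ ∃ v, C.T x₀ x₀ x₀ v ≠ l v * C.T x₀ x₀ x₀ p := by
    by_contra hcon
    push Not at hcon
    apply hns
    refine rra_sq hlp hFp fun x v hv => ?_
    have h1 : IsClosed {x : V m | C.T x x x v = 0} :=
      isClosed_eq (C.continuous_comp continuous_id continuous_id continuous_id continuous_const)
        continuous_const
    have h2 : {x : V m | IsRat x} ⊆ {x : V m | C.T x x x v = 0} := by
      intro y hy
      show C.T y y y v = 0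
      rw [hcon y hy v, hv, zero_mul]
    have h3 := h1.closure_subset_iff.2 h2
    rw [dense_isRat.closure_eq] at h3
    exact h3 (mem_univ x)
  let n₀ : V m →ₗ[ℝ] ℝ := C.T x₀ x₀ x₀ - C.T x₀ x₀ x₀ p • l
  have hn₀ : ∀ x, n₀ x = C.T x₀ x₀ x₀ x - C.T x₀ x₀ x₀ p * l x := fun x => rfl
  have hn₀Q : ∀ x, IsRat x → IsQ (n₀ x) := by
    intro x hx
    rw [hn₀]
    exact (C.rat _ _ _ _ hx₀ hx₀ hx₀ hx).sub ((C.rat _ _ _ _ hx₀ hx₀ hx₀ hpr).mul (hlQ x hx))
  have hn₀p : n₀ p = 0 := by
    rw [hn₀, hlp, mul_one, sub_self]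
  obtain ⟨e₀, he₀, hne₀⟩ := exists_isRat_ne (lam := n₀) ⟨v₀, by
    rw [hn₀]
    intro h
    apply hv₀
    rw [mul_comm]
    linarith⟩
  have hlP : l (e₀ - l e₀ • p) = 0 := by
    rw [map_sub, map_smul, hlp, smul_eq_mul, mul_one, sub_self]
  have hnP : n₀ (e₀ - l e₀ • p) = n₀ e₀ := by
    rw [map_sub, map_smul, hn₀p, smul_zero, sub_zero]
  set e : V m := e₀ - l e₀ • p with he
  have her : IsRat e := he₀.sub (IsRat.smul (hlQ _ he₀) hpr)
  have hne : n₀ e ≠ 0 := by
    rw [hnP]
    exact hne₀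
  let n : V m →ₗ[ℝ] ℝ := (n₀ e)⁻¹ • n₀
  have hn : ∀ x, n x = (n₀ e)⁻¹ * n₀ x := fun x => rfl
  have hne1 : n e = 1 := by
    rw [hn]
    exact inv_mul_cancel₀ hne
  have hnp : n p = 0 := by
    rw [hn, hn₀p, mul_zero]
  have hnQ : ∀ x, IsRat x → IsQ (n x) := fun x hx => (hn₀Q e her).inv.mul (hn₀Q x hx)
  refine ⟨l, n, e, hlQ, hnQ, her, hlp, hnp, hlP, hne1, ?_⟩
  -- vectors in both kernels
  have hker : ∀ w, a w = 0 → b w = 0 → l w = 0 ∧ n w = 0 := by
    intro w h1 h2
    have h3 : l w = 0 := by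
      rw [hl, key w h1 h2 p, mul_zero]
    refine ⟨h3, ?_⟩
    rw [hn, hn₀ w, h3, key w h1 h2 x₀, mul_zero, sub_zero, mul_zero]
  have hD : a p * b e - a e * b p ≠ 0 := by
    intro hD
    have h1 : ∀ α β : ℝ, a (α • p + β • e) = 0 → b (α • p + β • e) = 0 → α = 0 ∧ β = 0 := by
      intro α β h1 h2
      obtain ⟨h3, h4⟩ := hker _ h1 h2
      rw [map_add, map_smul, map_smul, hlp, hlP, smul_eq_mul, smul_eq_mul, mul_one, mul_zero,
        add_zero] at h3
      rw [map_add, map_smul, map_smul, hnp, hne1, smul_eq_mul, smul_eq_mul, mul_zero, mul_one,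
        zero_add] at h4
      exact ⟨h3, h4⟩
    have h2 := h1 (b e) (-b p) (by
      rw [map_add, map_smul, map_smul, smul_eq_mul, smul_eq_mul]
      linarith) (by
      rw [map_add, map_smul, map_smul, smul_eq_mul, smul_eq_mul]
      ring)
    have h3 := h1 (a e) (-a p) (by
      rw [map_add, map_smul, map_smul, smul_eq_mul, smul_eq_mul]
      ring) (by
      rw [map_add, map_smul, map_smul, smul_eq_mul, smul_eq_mul]
      linarith)
    have h4 := h1 1 0 (by
      rw [map_add, map_smul, map_smul, smul_eq_mul, smul_eq_mul, one_mul, zero_mul, add_zero]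
      linarith [h3.2]) (by
      rw [map_add, map_smul, map_smul, smul_eq_mul, smul_eq_mul, one_mul, zero_mul, add_zero]
      linarith [h2.2])
    exact one_ne_zero h4.1
  intro x
  set v : V m := x - l x • p - n x • e with hv
  have hlv : l v = 0 := by
    rw [hv, map_sub, map_sub, map_smul, map_smul, hlp, hlP, smul_eq_mul, smul_eq_mul, mul_one,
      mul_zero, sub_self, sub_zero]
  have hnv : n v = 0 := by
    rw [hv, map_sub, map_sub, map_smul, map_smul, hnp, hne1, smul_eq_mul, smul_eq_mul, mul_one,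
      mul_zero, sub_zero, sub_self]
  set D := a p * b e - a e * b p with hDdef
  set α := (a v * b e - a e * b v) / D with hα
  set β := (a p * b v - a v * b p) / D with hβ
  have hα' : α * D = a v * b e - a e * b v := div_mul_cancel₀ _ hD
  have hβ' : β * D = a p * b v - a v * b p := div_mul_cancel₀ _ hD
  have haw : a (v - α • p - β • e) = 0 := by
    have h1 : D * a (v - α • p - β • e) = 0 := by
      rw [map_sub, map_sub, map_smul, map_smul, smul_eq_mul, smul_eq_mul]
      have h2 : D * (a v - α * a p - β * a e) = D * a v - (α * D) * a p - (β * D) * a e := by ring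
      rw [h2, hα', hβ', hDdef]
      ring
    exact (mul_eq_zero.1 h1).resolve_left hD
  have hbw : b (v - α • p - β • e) = 0 := by
    have h1 : D * b (v - α • p - β • e) = 0 := by
      rw [map_sub, map_sub, map_smul, map_smul, smul_eq_mul, smul_eq_mul]
      have h2 : D * (b v - α * b p - β * b e) = D * b v - (α * D) * b p - (β * D) * b e := by ring
      rw [h2, hα', hβ', hDdef]
      ring
    exact (mul_eq_zero.1 h1).resolve_left hD
  obtain ⟨h1, h2⟩ := hker _ haw hbw
  have hα0 : α = 0 := by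
    rw [map_sub, map_sub, map_smul, map_smul, hlp, hlP, hlv, smul_eq_mul, smul_eq_mul] at h1
    linarith
  have hβ0 : β = 0 := by
    rw [map_sub, map_sub, map_smul, map_smul, hnp, hne1, hnv, smul_eq_mul, smul_eq_mul] at h2
    linarith
  rw [hα0, hβ0, zero_smul, zero_smul, sub_zero, sub_zero] at haw hbw
  have h3 := hab v haw hbw (l x • p + n x • e)
  have h4 : l x • p + n x • e + v = x := by
    rw [hv]
    abel
  rw [h4] at h3
  exact h3

end Qrt

end Pool.Agent.QS
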