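import Pool.Agent.QS.Bas
import Pool.Agent.QS.Alg

/-!
# QS module TT: two sheets of bad type

PROOF of `pair1`. Write `A = y², B = T p p p p', Cc = T p p p' p', D = T p p' p' p', E = y'²`, `q = q p y`, `q' = q p' y'`,
`l = q p p' = B / y` (`q_left`), `s = q p' p'`, `l' = q' p' p = D / y'`, `s' = q' p p`, `c4 = c4 p y p'`, `c4' = c4 p' y' p`.
`F_expand` for both sheets on the line of `p, p'` (`c3 p y p' = 0`, `c3 p' y' p = 0`):
`(y a² + 2 l a b + s b²)² + b⁴ c4 = F (a p + b p') = (s' a² + 2 l' a b + y' b²)² + a⁴ c4'` for all `a, b`. Coefficients of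
`a³ b, a b³, a² b²`: `y l = s' l'`, `l s = y' l'`, `2 l² + y s = 2 l'² + y' s'`. If `B = 0` done. Otherwise `l ≠ 0`, and
`l' = l s / y'`, so `y y' = s s'`, `s ≠ 0`, `s' = y y' / s`, and the third equation is
`2 l² + y s = 2 l² s² / y'² + y y'² / s`, i.e. `(y'² - s²) (2 l² s - y y'²) = 0`. `c4 = y'² - s²` (`F p' = y'²`). And
`2 B D = 2 (y l) (y' l') = 2 y l² s`, `F p * F p' = y² y'²`, so `2 l² s = y y'²` is the third alternative.

PROOF of `pair2`. Let `α = a p`, `α' = a p'`, `c3 = c3 p y p'`, `c3' = c3 p' y' p`; `c4 p y p' = 4 c3 α' / α`,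
`c4 p' y' p = 4 c3' α / α'`. `F_expand`:
`q (u p + v p') ² + 4 c3 v³ (α u + α' v) / α = q' (u p + v p')² + 4 c3' u³ (α u + α' v) / α'` for all `u, v`. The binary
quadratic forms `q, q'` on this line vanish at `(u, v) = (α', -α)` (`a (α' p - α p') = 0`), so `q = (α u + α' v) L`,
`q' = (α u + α' v) L'` with linear forms `L, L'` in `u, v` (`q_expand`: `q = y u² + 2 l u v + s v²` with
`y α'² - 2 l α α' + s α² = 0`: `L = (y / α) u + (s / α') v`). For `α u + α' v ≠ 0` divide by it: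
`(α u + α' v) (L² - L'²) = 4 (c3' u³ / α' - c3 v³ / α)`; both sides are polynomials in `u, v`, so this holds for all
`u, v` (coefficients; or by continuity). At `(α', -α)`: `c3' α'² + c3 α² = 0`. So the right side is
`-4 c3 / (α α'³) * (α u + α' v) * ((α u)² - (α u) (α' v) + (α' v)²)`, hence
`L² - L'² = -4 c3 / (α α'³) * ((α u)² - (α u) (α' v) + (α' v)²)` for all `u, v`. `L - L'` is a linear form in two variables, so
it vanishes at some `(u, v) ≠ 0`; there the bracket is `> 0`, so `c3 = 0`.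
-/

set_option autoImplicit false

open Set Topology Filter MvPolynomial
open Pool.Agent.MZ

namespace Pool.Agent.QS

namespace Qrt

variable {m : ℕ} {C : Qrt m} {p p' : V m} {y y' : ℝ}

/-- coefficients of a binary quartic form which vanishes identically -/
private theorem tt_coef_h75 {A4 A3 A2 A1 A0 : ℝ}
    (h : ∀ a b : ℝ, A4 * a ^ 4 + A3 * (a ^ 3 * b) + A2 * (a ^ 2 * b ^ 2) + A1 * (a * b ^ 3) + A0 * b ^ 4 = 0) :
    A4 = 0 ∧ A3 = 0 ∧ A2 = 0 ∧ A1 = 0 ∧ A0 = 0 := by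
  have h1 := h 1 0
  have h2 := h 0 1
  have h3 := h 1 1
  have h4 := h 1 (-1)
  have h5 := h 1 2
  norm_num at h1 h2 h3 h4 h5
  refine ⟨h1, ?_, ?_, ?_, h2⟩ <;> linarith

/-- the two expansions of `F` on the line of `p, p'` -/
private theorem tt_two_h75 (h : C.Sh p y) (h' : C.Sh p' y') :
    (y ^ 2 - C.q p' y' p p ^ 2 - C.c4 p' y' p = 0) ∧
    (y * C.q p y p p' - C.q p' y' p p * C.q p' y' p' p - C.c3 p' y' p = 0) ∧
    (2 * C.q p y p p' ^ 2 + y * C.q p y p' p' - 2 * C.q p' y' p' p ^ 2 - y' * C.q p' y' p p = 0) ∧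
    (C.q p y p p' * C.q p y p' p' + C.c3 p y p' - C.q p' y' p' p * y' = 0) ∧
    (C.q p y p' p' ^ 2 + C.c4 p y p' - y' ^ 2 = 0) := by
  have key : ∀ a b : ℝ, (y ^ 2 - C.q p' y' p p ^ 2 - C.c4 p' y' p) * a ^ 4 +
      (4 * (y * C.q p y p p' - C.q p' y' p p * C.q p' y' p' p - C.c3 p' y' p)) * (a ^ 3 * b) +
      (2 * (2 * C.q p y p p' ^ 2 + y * C.q p y p' p' - 2 * C.q p' y' p' p ^ 2 - y' * C.q p' y' p p)) *
        (a ^ 2 * b ^ 2) +
      (4 * (C.q p y p p' * C.q p y p' p' + C.c3 p y p' - C.q p' y' p' p * y')) * (a * b ^ 3) +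
      (C.q p y p' p' ^ 2 + C.c4 p y p' - y' ^ 2) * b ^ 4 = 0 := by
    intro a b
    have h1 := C.F_expand h a b p'
    have h2 := C.F_expand h' b a p
    rw [C.q_expand h] at h1
    rw [C.q_expand h', add_comm (b • p') (a • p)] at h2
    rw [h1] at h2
    linear_combination h2
  obtain ⟨k4, k3, k2, k1, k0⟩ := tt_coef_h75 key
  refine ⟨k4, by linarith, by linarith, by linarith, k0⟩

theorem pair1 (h : C.Sh p y) (h' : C.Sh p' y') (h3 : ∀ x, C.c3 p y x = 0)
    (h3' : ∀ x, C.c3 p' y' x = 0) :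
    C.c4 p y p' = 0 ∨ C.T p p p p' = 0 ∨
      2 * C.T p p p p' * C.T p p' p' p' = C.F p * C.F p' := by
  obtain ⟨-, k3, k2, k1, k0⟩ := tt_two_h75 h h'
  rw [h3'] at k3
  rw [h3] at k1
  have hl := C.q_left h p'
  have hl' := C.q_left h' p
  have hy := h.1
  have hy' := h'.1
  have hsym : C.T p' p' p' p = C.T p p' p' p' := by
    rw [C.s₃, C.s₂, C.s₁]
  rw [hsym] at hl'
  rw [eq_div_iff hy] at hl
  rw [eq_div_iff hy'] at hl'
  rw [h.2, h'.2, ← hl, ← hl']
  set l := C.q p y p p' with hldef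
  set l' := C.q p' y' p' p with hldef'
  set s := C.q p y p' p' with hs
  set s' := C.q p' y' p p with hs'
  by_cases hl0 : l = 0
  · right
    left
    rw [hl0, zero_mul]
  have e1 : s' * s = y * y' := by
    have : l * (s' * s - y * y') = 0 := by
      linear_combination s' * k1 - y' * k3
    exact sub_eq_zero.1 ((mul_eq_zero.1 this).resolve_left hl0)
  have e2 : (y' ^ 2 - s ^ 2) * (2 * l ^ 2 * s - y * y' ^ 2) = 0 := by
    linear_combination (y' ^ 2 * s) * k2 - 2 * s * (l * s + l' * y') * k1 + y' ^ 3 * e1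
  rcases mul_eq_zero.1 e2 with e3 | e3
  · left
    linear_combination k0 + e3
  · right
    right
    linear_combination (2 * y * l) * (-k1) + y * e3

private theorem tt_alg_h75 {α α' y s l y' s' l' c3 c4 c3' c4' : ℝ} (hα : α ≠ 0) (hα' : α' ≠ 0)
    (e4 : y ^ 2 - s' ^ 2 - c4' = 0) (e3 : y * l - s' * l' - c3' = 0) (e1 : l * s + c3 - l' * y' = 0)
    (e0 : s ^ 2 + c4 - y' ^ 2 = 0) (h1 : α * c4 = 4 * c3 * α') (h2 : α' * c4' = 4 * c3' * α)
    (h3 : α' ^ 2 * y - 2 * α * α' * l + α ^ 2 * s = 0) (h4 : α ^ 2 * y' - 2 * α * α' * l' + α' ^ 2 * s' = 0) :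
    c3 = 0 := by
  obtain ⟨Y, rfl⟩ : ∃ Y, y = Y * α ^ 2 := ⟨y / α ^ 2, by field_simp⟩
  obtain ⟨S, rfl⟩ : ∃ S, s = S * α' ^ 2 := ⟨s / α' ^ 2, by field_simp⟩
  obtain ⟨Y', rfl⟩ : ∃ Y', y' = Y' * α' ^ 2 := ⟨y' / α' ^ 2, by field_simp⟩
  obtain ⟨S', rfl⟩ : ∃ S', s' = S' * α ^ 2 := ⟨s' / α ^ 2, by field_simp⟩
  obtain ⟨k, rfl⟩ : ∃ k, c4 = k * α' ^ 4 := ⟨c4 / α' ^ 4, by field_simp⟩
  obtain ⟨k', rfl⟩ : ∃ k', c4' = k' * α ^ 4 := ⟨c4' / α ^ 4, by field_simp⟩
  have hl : l = α * α' * (Y + S) / 2 := by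
    have : α * α' * (l - α * α' * (Y + S) / 2) = 0 := by linear_combination (-1 / 2 : ℝ) * h3
    exact sub_eq_zero.1 ((mul_eq_zero.1 this).resolve_left (mul_ne_zero hα hα'))
  have hl' : l' = α * α' * (Y' + S') / 2 := by
    have : α * α' * (l' - α * α' * (Y' + S') / 2) = 0 := by linear_combination (-1 / 2 : ℝ) * h4
    exact sub_eq_zero.1 ((mul_eq_zero.1 this).resolve_left (mul_ne_zero hα hα'))
  have hc : c3 = k * α * α' ^ 3 / 4 := by
    have : α' * (c3 - k * α * α' ^ 3 / 4) = 0 := by linear_combination (-1 / 4 : ℝ) * h1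
    exact sub_eq_zero.1 ((mul_eq_zero.1 this).resolve_left hα')
  have hc' : c3' = k' * α' * α ^ 3 / 4 := by
    have : α * (c3' - k' * α' * α ^ 3 / 4) = 0 := by linear_combination (-1 / 4 : ℝ) * h2
    exact sub_eq_zero.1 ((mul_eq_zero.1 this).resolve_left hα)
  rw [hl, hl', hc'] at e3
  rw [hl, hl', hc] at e1
  have E4 : Y ^ 2 - S' ^ 2 - k' = 0 := by
    have : α ^ 4 * (Y ^ 2 - S' ^ 2 - k') = 0 := by linear_combination e4
    exact (mul_eq_zero.1 this).resolve_left (pow_ne_zero 4 hα)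
  have E3 : 2 * Y * (Y + S) - 2 * S' * (Y' + S') - k' = 0 := by
    have : α ^ 3 * α' * (2 * Y * (Y + S) - 2 * S' * (Y' + S') - k') = 0 := by linear_combination 4 * e3
    exact (mul_eq_zero.1 this).resolve_left (mul_ne_zero (pow_ne_zero 3 hα) hα')
  have E1 : 2 * S * (Y + S) + k - 2 * Y' * (Y' + S') = 0 := by
    have : α * α' ^ 3 * (2 * S * (Y + S) + k - 2 * Y' * (Y' + S')) = 0 := by linear_combination 4 * e1
    exact (mul_eq_zero.1 this).resolve_left (mul_ne_zero hα (pow_ne_zero 3 hα'))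
  have E0 : S ^ 2 + k - Y' ^ 2 = 0 := by
    have : α' ^ 4 * (S ^ 2 + k - Y' ^ 2) = 0 := by linear_combination e0
    exact (mul_eq_zero.1 this).resolve_left (pow_ne_zero 4 hα')
  have hk : k' = -k := by linear_combination E3 - E1 - 2 * E4 + 2 * E0
  have key : k * ((S - Y') ^ 2 + (S - Y') * (Y - S') + (Y - S') ^ 2) = 0 := by
    rw [hk] at E4 E3
    linear_combination (S - Y') ^ 2 * E4 - (S - Y') * (Y - S') * (E3 - 2 * E4) + (Y - S') ^ 2 * E0
  have hk0 : k = 0 := by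
    rcases mul_eq_zero.1 key with h5 | h5
    · exact h5
    · have h6 : Y - S' = 0 := by nlinarith [sq_nonneg (Y - S'), sq_nonneg (S - Y'), sq_nonneg ((Y - S') + (S - Y'))]
      have h7 : Y = S' := sub_eq_zero.1 h6
      rw [h7, hk] at E4
      linear_combination E4
  rw [hc, hk0]
  ring

theorem pair2 (h : C.Sh p y) (h' : C.Sh p' y') {a : V m →ₗ[ℝ] ℝ} (hp : a p ≠ 0)
    (hp' : a p' ≠ 0) (h4 : ∀ x, a p * C.c4 p y x = 4 * C.c3 p y x * a x)
    (h4' : ∀ x, a p' * C.c4 p' y' x = 4 * C.c3 p' y' x * a x)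
    (hq : ∀ x, a x = 0 → C.q p y x x = 0) (hq' : ∀ x, a x = 0 → C.q p' y' x x = 0) :
    C.c3 p y p' = 0 := by
  obtain ⟨k4, k3, k2, k1, k0⟩ := tt_two_h75 h h'
  have q1 := hq (a p' • p + (-a p) • p') (by
    rw [map_add, map_smul, map_smul, smul_eq_mul, smul_eq_mul]
    ring)
  have q2 := hq' ((-a p) • p' + a p' • p) (by
    rw [map_add, map_smul, map_smul, smul_eq_mul, smul_eq_mul]
    ring)
  rw [C.q_expand h] at q1
  rw [C.q_expand h'] at q2
  exact tt_alg_h75 hp hp' k4 k3 k1 k0 (h4 p') (h4' p) (by linear_combination q1) (by linear_combination q2)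

end Qrt

end Pool.Agent.QS
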