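import Pool.Agent.QS.Defs

/-!
# Project QS: Zariski closure and irreducible sets (definitions)
-/

set_option autoImplicit false

open Set Topology Filter MvPolynomial
open Pool.Agent.MZ

namespace Pool.Agent.QS

/-- Zariski closure -/
def zc {m : ℕ} (A : Set (V m)) : Set (V m) :=
  {x | ∀ f : V m → ℝ, PolyR m f → (∀ a ∈ A, f a = 0) → f x = 0}

/-- Zariski irreducible sets -/
def Irr {m : ℕ} (A : Set (V m)) : Prop :=
  A.Nonempty ∧ ∀ f g : V m → ℝ, PolyR m f → PolyR m g → (∀ a ∈ A, f a * g a = 0) →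
    (∀ a ∈ A, f a = 0) ∨ ∀ a ∈ A, g a = 0

end Pool.Agent.QS
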